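import Pool.Agent.Lib.MP_8c80e8_al.Expo

/-!
# Products of exponentials (a form of the Baker-Campbell-Hausdorff theorem)
-/

open scoped TensorProduct NumberField
open IsDedekindDomain

namespace MP8c80e8

noncomputable section

open Polynomial

section bch

variable {R : Type} [CommRing R] {m : ℕ}

/-! ### The derivation formula -/

/-- the entrywise derivative -/
def dM (A : Matrix (Fin m) (Fin m) R[X]) : Matrix (Fin m) (Fin m) R[X] :=
  A.map fun p => Polynomial.derivative p

theorem dM_apply (A : Matrix (Fin m) (Fin m) R[X]) (i j : Fin m) :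
    dM A i j = Polynomial.derivative (A i j) := rfl

theorem dM_mul (A B : Matrix (Fin m) (Fin m) R[X]) : dM (A * B) = dM A * B + A * dM B := by
  ext1 i j
  rw [Matrix.add_apply, dM_apply, Matrix.mul_apply, Matrix.mul_apply, Matrix.mul_apply,
    Polynomial.derivative_sum, ← Finset.sum_add_distrib]
  refine Finset.sum_congr rfl fun k _ => ?_
  rw [Polynomial.derivative_mul, dM_apply, dM_apply]

theorem dM_smul (c : R) (A : Matrix (Fin m) (Fin m) R[X]) : dM (C c • A) = C c • dM A := by
  ext1 i j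
  rw [Matrix.smul_apply, dM_apply, Matrix.smul_apply, dM_apply, smul_eq_mul, smul_eq_mul,
    Polynomial.derivative_C_mul]

theorem dM_sub (A B : Matrix (Fin m) (Fin m) R[X]) : dM (A - B) = dM A - dM B := by
  ext1 i j
  rw [Matrix.sub_apply, dM_apply, Matrix.sub_apply, dM_apply, dM_apply,
    Polynomial.derivative_sub]

theorem dM_sum {I : Type*} (s : Finset I) (A : I → Matrix (Fin m) (Fin m) R[X]) :
    dM (∑ i ∈ s, A i) = ∑ i ∈ s, dM (A i) := by
  ext1 i j
  rw [dM_apply, Matrix.sum_apply, Matrix.sum_apply, Polynomial.derivative_sum]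
  rfl

theorem dM_one : dM (1 : Matrix (Fin m) (Fin m) R[X]) = 0 := by
  ext1 i j
  rw [dM_apply, Matrix.one_apply]
  split_ifs
  · exact Polynomial.derivative_one
  · exact Polynomial.derivative_zero

theorem StrictUpper.dM' {A : Matrix (Fin m) (Fin m) R[X]} (hA : StrictUpper A) :
    StrictUpper (dM A) := fun i j h => by
  rw [dM_apply, hA i j h, Polynomial.derivative_zero]

theorem dM_pow (Z : Matrix (Fin m) (Fin m) R[X]) (j : ℕ) :
    dM (Z ^ j) = ∑ k ∈ Finset.range j,
      (j.choose (k + 1)) • ((adM Z)^[k] (dM Z) * Z ^ (j - 1 - k)) := by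
  induction j with
  | zero => rw [pow_zero, dM_one, Finset.range_zero, Finset.sum_empty]
  | succ j ih =>
    have h1 : ∀ k ∈ Finset.range j, Z * ((adM Z)^[k] (dM Z) * Z ^ (j - 1 - k)) =
        (adM Z)^[k + 1] (dM Z) * Z ^ (j - (k + 1)) + (adM Z)^[k] (dM Z) * Z ^ (j - k) := by
      intro k hk
      have hk' := Finset.mem_range.mp hk
      rw [Function.iterate_succ_apply']
      have e1 : j - 1 - k = j - (k + 1) := by omega
      have e2 : j - k = (j - (k + 1)) + 1 := by omega
      rw [e1, e2, pow_succ', adM]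
      noncomm_ring
    rw [pow_succ', dM_mul, ih, Finset.mul_sum]
    have h2 : ∀ k ∈ Finset.range j,
        Z * (j.choose (k + 1) • ((adM Z)^[k] (dM Z) * Z ^ (j - 1 - k))) =
        j.choose (k + 1) • ((adM Z)^[k + 1] (dM Z) * Z ^ (j - (k + 1))) +
        j.choose (k + 1) • ((adM Z)^[k] (dM Z) * Z ^ (j - k)) := by
      intro k hk
      rw [mul_smul_comm, h1 k hk, smul_add]
    rw [Finset.sum_congr rfl h2, Finset.sum_add_distrib, ← add_assoc]
    have h3 : dM Z * Z ^ j + ∑ k ∈ Finset.range j,
        j.choose (k + 1) • ((adM Z)^[k + 1] (dM Z) * Z ^ (j - (k + 1))) =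
        ∑ k ∈ Finset.range (j + 1), j.choose k • ((adM Z)^[k] (dM Z) * Z ^ (j - k)) := by
      rw [Finset.sum_range_succ']
      simp only [Nat.choose_zero_right, one_smul, Nat.sub_zero, Function.iterate_zero, id_eq]
      rw [add_comm]
    have h4 : ∑ k ∈ Finset.range j, j.choose (k + 1) • ((adM Z)^[k] (dM Z) * Z ^ (j - k)) =
        ∑ k ∈ Finset.range (j + 1), j.choose (k + 1) • ((adM Z)^[k] (dM Z) * Z ^ (j - k)) := by
      rw [Finset.sum_range_succ, Nat.choose_succ_self, zero_smul, add_zero]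
    rw [h3, h4, ← Finset.sum_add_distrib]
    refine Finset.sum_congr rfl fun k _ => ?_
    rw [← add_smul, Nat.choose_succ_succ, Nat.add_sub_cancel]

theorem isUnit_factorial_poly {j : ℕ} (h : IsUnit (j.factorial : R)) :
    IsUnit ((j.factorial : ℕ) : R[X]) := by
  rw [← Polynomial.C_eq_natCast]
  exact h.map C

theorem inverse_factorial_poly {j : ℕ} (h : IsUnit (j.factorial : R)) :
    Ring.inverse ((j.factorial : ℕ) : R[X]) = C (Ring.inverse (j.factorial : R)) :=
  (map_inverse_factorial (C : R →+* R[X]) h).symm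

theorem expR_poly (hR : ∀ j < m, IsUnit (j.factorial : R)) (A : Matrix (Fin m) (Fin m) R[X]) :
    expR A = ∑ j ∈ Finset.range m, C (Ring.inverse (j.factorial : R)) • A ^ j := by
  rw [expR]
  refine Finset.sum_congr rfl fun j hj => ?_
  rw [inverse_factorial_poly (hR j (Finset.mem_range.mp hj))]

theorem dM_expR (hR : ∀ j < m, IsUnit (j.factorial : R)) {Z : Matrix (Fin m) (Fin m) R[X]}
    (hZ : StrictUpper Z) :
    dM (expR Z) = (∑ k ∈ Finset.range m,
      C (Ring.inverse (((k + 1).factorial : ℕ) : R)) • (adM Z)^[k] (dM Z)) * expR Z := by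
  rcases m with _ | m
  · exact Subsingleton.elim _ _
  have hR' : (∑ k ∈ Finset.range (m + 1),
      C (Ring.inverse (((k + 1).factorial : ℕ) : R)) • (adM Z)^[k] (dM Z)) * expR Z =
      ∑ a ∈ Finset.range (m + 1), ∑ b ∈ Finset.range (m + 1),
        (C (Ring.inverse (((a + 1).factorial : ℕ) : R)) *
          C (Ring.inverse ((b.factorial : ℕ) : R))) •
          ((adM Z)^[a] (dM Z) * Z ^ b) := by
    rw [expR_poly hR, Finset.sum_mul]
    refine Finset.sum_congr rfl fun a _ => ?_
    rw [Finset.mul_sum]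
    refine Finset.sum_congr rfl fun b _ => ?_
    rw [Matrix.smul_mul, Matrix.mul_smul, smul_smul]
  have hdep : ∀ a b, m ≤ a + b → ((adM Z)^[a] (dM Z) * Z ^ b) = 0 := by
    intro a b hab
    exact ((depth_adM_iterate hZ hZ.dM'.depth a).mul (hZ.depth.pow b)).eq_zero (by omega)
  rw [hR', sum_range_range_eq (m + 1) (fun a b =>
    (C (Ring.inverse (((a + 1).factorial : ℕ) : R)) * C (Ring.inverse ((b.factorial : ℕ) : R))) •
          ((adM Z)^[a] (dM Z) * Z ^ b)) (fun a b hab => by rw [hdep a b (by omega), smul_zero])]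
  rw [Finset.sum_range_succ]
  have hlast : ∑ p ∈ Finset.HasAntidiagonal.antidiagonal m,
      (C (Ring.inverse (((p.1 + 1).factorial : ℕ) : R)) *
        C (Ring.inverse ((p.2.factorial : ℕ) : R))) •
          ((adM Z)^[p.1] (dM Z) * Z ^ p.2) = 0 :=
    Finset.sum_eq_zero fun p hp => by
      have := Finset.HasAntidiagonal.mem_antidiagonal.mp hp
      rw [hdep p.1 p.2 (by omega), smul_zero]
  rw [hlast, add_zero]
  rw [expR_poly hR, dM_sum, Finset.sum_range_succ']
  simp only [dM_smul, pow_zero, dM_one, smul_zero, add_zero]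
  refine Finset.sum_congr rfl fun n hn => ?_
  have hn' := Finset.mem_range.mp hn
  rw [dM_pow, Finset.smul_sum, Finset.Nat.sum_antidiagonal_eq_sum_range_succ
    (fun a b => (C (Ring.inverse (((a + 1).factorial : ℕ) : R)) *
      C (Ring.inverse ((b.factorial : ℕ) : R))) • ((adM Z)^[a] (dM Z) * Z ^ b))]
  refine Finset.sum_congr rfl fun k hk => ?_
  have hk' := Finset.mem_range.mp hk
  have h1 := inverse_factorial_mul_choose (R := R) (m := n + 2) (a := k + 1) (b := n - k)
    (fun j hj => hR j (by omega)) (by omega)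
  have h2 : k + 1 + (n - k) = n + 1 := by omega
  rw [h2] at h1
  rw [← C_mul, ← h1, C_mul, ← smul_smul]
  congr 1
  rw [← Nat.cast_smul_eq_nsmul R[X], Polynomial.C_eq_natCast]
  rfl

/-! ### Coefficients -/

/-- the matrix of the coefficients of `T ^ n` -/
def cf (n : ℕ) (A : Matrix (Fin m) (Fin m) R[X]) : Matrix (Fin m) (Fin m) R :=
  A.map fun p => p.coeff n

theorem cf_apply (n : ℕ) (A : Matrix (Fin m) (Fin m) R[X]) (i j : Fin m) :
    cf n A i j = (A i j).coeff n := rfl

theorem cf_add (n : ℕ) (A B : Matrix (Fin m) (Fin m) R[X]) : cf n (A + B) = cf n A + cf n B := by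
  ext i j
  simp [cf_apply]

theorem cf_sub (n : ℕ) (A B : Matrix (Fin m) (Fin m) R[X]) : cf n (A - B) = cf n A - cf n B := by
  ext i j
  simp [cf_apply]

theorem cf_zero (n : ℕ) : cf n (0 : Matrix (Fin m) (Fin m) R[X]) = 0 := by
  ext i j
  simp [cf_apply]

theorem cf_smul (n : ℕ) (c : R) (A : Matrix (Fin m) (Fin m) R[X]) :
    cf n (C c • A) = c • cf n A := by
  ext i j
  simp [cf_apply]

theorem cf_X_smul_zero (A : Matrix (Fin m) (Fin m) R[X]) : cf 0 ((X : R[X]) • A) = 0 := by
  ext i j
  simp [cf_apply]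

theorem cf_X_smul_succ (n : ℕ) (A : Matrix (Fin m) (Fin m) R[X]) :
    cf (n + 1) ((X : R[X]) • A) = cf n A := by
  ext i j
  simp [cf_apply]

theorem cf_map_C_zero (x : Matrix (Fin m) (Fin m) R) : cf 0 (x.map C) = x := by
  ext i j
  simp [cf_apply]

theorem cf_map_C_ne (x : Matrix (Fin m) (Fin m) R) {n : ℕ} (hn : n ≠ 0) :
    cf n (x.map C) = 0 := by
  ext i j
  rw [cf_apply, Matrix.map_apply, Polynomial.coeff_C_of_ne_zero hn, Matrix.zero_apply]

theorem cf_mul (n : ℕ) (A B : Matrix (Fin m) (Fin m) R[X]) :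
    cf n (A * B) = ∑ p ∈ Finset.HasAntidiagonal.antidiagonal n, cf p.1 A * cf p.2 B := by
  ext i j
  rw [cf_apply, Matrix.mul_apply, Polynomial.finsetSum_coeff, Matrix.sum_apply]
  simp only [Matrix.mul_apply, cf_apply, Polynomial.coeff_mul]
  rw [Finset.sum_comm]

theorem cf_adM (n : ℕ) (A B : Matrix (Fin m) (Fin m) R[X]) :
    cf n (adM A B) = ∑ p ∈ Finset.HasAntidiagonal.antidiagonal n,
      adM (cf p.1 A) (cf p.2 B) := by
  simp only [adM]
  rw [cf_sub, cf_mul, cf_mul, Finset.sum_sub_distrib]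
  congr 1
  rw [← Finset.Nat.sum_antidiagonal_swap]
  rfl

theorem cf_adM_C (n : ℕ) (z : Matrix (Fin m) (Fin m) R) (A : Matrix (Fin m) (Fin m) R[X]) :
    cf n (adM (z.map C) A) = adM z (cf n A) := by
  ext i j
  rw [cf_apply, adM, adM, Matrix.sub_apply, Matrix.sub_apply, Matrix.mul_apply, Matrix.mul_apply,
    Matrix.mul_apply, Matrix.mul_apply, Polynomial.coeff_sub, Polynomial.finsetSum_coeff,
    Polynomial.finsetSum_coeff]
  simp only [Matrix.map_apply, Polynomial.coeff_C_mul, Polynomial.coeff_mul_C, cf_apply]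

theorem cf_dM (n : ℕ) (A : Matrix (Fin m) (Fin m) R[X]) :
    cf n (dM A) = ((n : R) + 1) • cf (n + 1) A := by
  ext i j
  rw [cf_apply, dM_apply, Polynomial.coeff_derivative, Matrix.smul_apply, cf_apply, smul_eq_mul,
    mul_comm]

theorem map_eval_one (Z : Matrix (Fin m) (Fin m) R[X]) (N : ℕ) (hN : ∀ i j, (Z i j).natDegree < N) :
    Z.map (Polynomial.evalRingHom (1 : R)) = ∑ n ∈ Finset.range N, cf n Z := by
  ext i j
  rw [Matrix.map_apply, Matrix.sum_apply, Polynomial.coe_evalRingHom,
    Polynomial.eval_eq_sum_range' (hN i j)]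
  refine Finset.sum_congr rfl fun n _ => ?_
  rw [one_pow, mul_one, cf_apply]

/-! ### The operator `∑ ad(Z)^(k+1) / (k+2)!` -/

theorem adM_add_left (A A' B : Matrix (Fin m) (Fin m) R) :
    adM (A + A') B = adM A B + adM A' B := by
  simp only [adM]; noncomm_ring

theorem adM_sub_right (A B B' : Matrix (Fin m) (Fin m) R) :
    adM A (B - B') = adM A B - adM A B' := by
  simp only [adM]; noncomm_ring

theorem adM_zero_right (A : Matrix (Fin m) (Fin m) R) : adM A 0 = 0 := by
  simp [adM]

theorem adM_neg_comm (A B : Matrix (Fin m) (Fin m) R) : adM A B = - adM B A := by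
  simp only [adM]; noncomm_ring

theorem adM_iterate_zero_right (A : Matrix (Fin m) (Fin m) R) (k : ℕ) : (adM A)^[k] 0 = 0 := by
  induction k with
  | zero => rfl
  | succ k ih => rw [Function.iterate_succ_apply', ih, adM_zero_right]

theorem adM_iterate_sub (A B B' : Matrix (Fin m) (Fin m) R) (k : ℕ) :
    (adM A)^[k] (B - B') = (adM A)^[k] B - (adM A)^[k] B' := by
  induction k with
  | zero => rfl
  | succ k ih =>
    rw [Function.iterate_succ_apply', Function.iterate_succ_apply', Function.iterate_succ_apply',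
      ih, adM_sub_right]

/-- the operator `∑ ad(Z)^(k+1) / (k+2)!` -/
def nOp (Z u : Matrix (Fin m) (Fin m) R[X]) : Matrix (Fin m) (Fin m) R[X] :=
  ∑ k ∈ Finset.range (m - 1), C (Ring.inverse ((k + 2).factorial : R)) • (adM Z)^[k + 1] u

theorem nOp_sub (Z u v : Matrix (Fin m) (Fin m) R[X]) : nOp Z (u - v) = nOp Z u - nOp Z v := by
  rw [nOp, nOp, nOp, ← Finset.sum_sub_distrib]
  refine Finset.sum_congr rfl fun k _ => ?_
  rw [adM_iterate_sub, smul_sub]

theorem depth_nOp {Z u : Matrix (Fin m) (Fin m) R[X]} (hZ : StrictUpper Z) {d : ℕ}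
    (hu : Depth d u) : Depth (d + 1) (nOp Z u) :=
  Depth.sum _ fun k _ => ((depth_adM_iterate hZ hu (k + 1)).mono (by omega)).smul _

/-! ### The polynomial matrices with coefficients in a subgroup -/

/-- the polynomial matrices whose coefficients below `T ^ n` lie in `M` -/
def Wn (M : AddSubgroup (Matrix (Fin m) (Fin m) R)) (n : ℕ) :
    Set (Matrix (Fin m) (Fin m) R[X]) := {A | ∀ i < n, cf i A ∈ M}

variable {M : AddSubgroup (Matrix (Fin m) (Fin m) R)} {n : ℕ}

theorem Wn_sub {A B : Matrix (Fin m) (Fin m) R[X]} (hA : A ∈ Wn M n) (hB : B ∈ Wn M n) :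
    A - B ∈ Wn M n := fun i hi => by
  rw [cf_sub]
  exact M.sub_mem (hA i hi) (hB i hi)

theorem Wn_add {A B : Matrix (Fin m) (Fin m) R[X]} (hA : A ∈ Wn M n) (hB : B ∈ Wn M n) :
    A + B ∈ Wn M n := fun i hi => by
  rw [cf_add]
  exact M.add_mem (hA i hi) (hB i hi)

theorem Wn_zero : (0 : Matrix (Fin m) (Fin m) R[X]) ∈ Wn M n := fun i _ => by
  rw [cf_zero]
  exact M.zero_mem

theorem Wn_smul {c : R} (hc : ∀ u ∈ M, c • u ∈ M) {A : Matrix (Fin m) (Fin m) R[X]}
    (hA : A ∈ Wn M n) : C c • A ∈ Wn M n := fun i hi => by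
  rw [cf_smul]
  exact hc _ (hA i hi)

theorem Wn_sum {I : Type*} (s : Finset I) {A : I → Matrix (Fin m) (Fin m) R[X]}
    (hA : ∀ i ∈ s, A i ∈ Wn M n) : ∑ i ∈ s, A i ∈ Wn M n := by
  classical
  induction s using Finset.induction_on with
  | empty => exact Wn_zero
  | insert a s ha ih =>
    rw [Finset.sum_insert ha]
    exact Wn_add (hA a (Finset.mem_insert_self a s))
      (ih (fun j hj => hA j (Finset.mem_insert_of_mem hj)))

theorem Wn_iterate {Z B : Matrix (Fin m) (Fin m) R[X]} (hst : ∀ A ∈ Wn M n, adM Z A ∈ Wn M n)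
    (hB : B ∈ Wn M n) (k : ℕ) : (adM Z)^[k] B ∈ Wn M n := by
  induction k with
  | zero => exact hB
  | succ k ih =>
    rw [Function.iterate_succ_apply']
    exact hst _ ih

theorem Wn_nOp (hinv : ∀ j ≤ m, ∀ u ∈ M, Ring.inverse (j.factorial : R) • u ∈ M)
    {Z u : Matrix (Fin m) (Fin m) R[X]} (hst : ∀ A ∈ Wn M n, adM Z A ∈ Wn M n)
    (hu : adM Z u ∈ Wn M n) : nOp Z u ∈ Wn M n :=
  Wn_sum _ fun k hk => by
    have hk' := Finset.mem_range.mp hk
    refine Wn_smul (hinv (k + 2) (by omega)) ?_
    rw [Function.iterate_succ_apply]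
    exact Wn_iterate hst hu k

theorem Wn_of_eq (hinv : ∀ j ≤ m, ∀ u ∈ M, Ring.inverse (j.factorial : R) • u ∈ M)
    {Z A u : Matrix (Fin m) (Fin m) R[X]} (hZs : StrictUpper Z) (hus : StrictUpper u)
    (hst : ∀ A ∈ Wn M n, adM Z A ∈ Wn M n) (hA : A ∈ Wn M n) (h : u = A - nOp Z u) :
    u ∈ Wn M n := by
  have key : ∀ d : ℕ, ∃ w ∈ Wn M n, Depth (d + 1) (u - w) := by
    intro d
    induction d with
    | zero =>
      refine ⟨0, Wn_zero, ?_⟩
      rw [sub_zero]
      exact hus.depth
    | succ d ih =>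
      obtain ⟨w, hw, hd⟩ := ih
      refine ⟨A - nOp Z w, Wn_sub hA (Wn_nOp hinv hst (hst w hw)), ?_⟩
      have h1 : u - (A - nOp Z w) = -(nOp Z (u - w)) := by
        rw [nOp_sub]
        nth_rewrite 1 [h]
        abel
      rw [h1]
      exact (depth_nOp hZs hd).neg
  obtain ⟨w, hw, hd⟩ := key m
  have : u = w := sub_eq_zero.mp (hd.eq_zero (Nat.le_succ m))
  rw [this]
  exact hw

/-! ### Logarithms with invariants -/

theorem expR_surjOn_inv (P : Matrix (Fin m) (Fin m) R → Prop) {g : Matrix (Fin m) (Fin m) R}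
    (hg : UniUpper g) (h0 : P 0) (hg' : P (g - 1)) (hsub : ∀ a b, P a → P b → P (a - b))
    (hmul : ∀ a b, P a → P b → P (a * b))
    (hsm : ∀ j < m, ∀ a, P a → P (Ring.inverse (j.factorial : R) • a)) :
    ∃ x, StrictUpper x ∧ P x ∧ expR x = g := by
  have hadd : ∀ a b, P a → P b → P (a + b) := fun a b ha hb => by
    have := hsub a (0 - b) ha (hsub 0 b h0 hb)
    rwa [zero_sub, sub_neg_eq_add] at this
  have hpow : ∀ (k : ℕ) (a), P a → P (a ^ (k + 1)) := by
    intro k a ha
    induction k with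
    | zero => rwa [zero_add, pow_one]
    | succ k ih => rw [pow_succ]; exact hmul _ _ ih ha
  have hsum : ∀ (s : Finset ℕ) (f : ℕ → Matrix (Fin m) (Fin m) R), (∀ i ∈ s, P (f i)) →
      P (∑ i ∈ s, f i) := by
    intro s f hf
    classical
    induction s using Finset.induction_on with
    | empty => exact h0
    | insert a s ha ih =>
      rw [Finset.sum_insert ha]
      exact hadd _ _ (hf a (Finset.mem_insert_self a s))
        (ih (fun j hj => hf j (Finset.mem_insert_of_mem hj)))
  have htail : ∀ a, P a → P (expTail a) := fun a ha => hsum _ _ fun j hj => by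
    have h1 := Finset.mem_filter.mp hj
    obtain ⟨k, rfl⟩ : ∃ k, j = k + 1 := ⟨j - 1, by omega⟩
    exact hsm _ (Finset.mem_range.mp h1.1) _ (hpow k a ha)
  let F : Matrix (Fin m) (Fin m) R → Matrix (Fin m) (Fin m) R := fun x => (g - 1) - expTail x
  have hF : ∀ x, StrictUpper x → StrictUpper (F x) := fun x hx =>
    (StrictUpper.sub' hg (((depth_expTail hx)).strictUpper (by norm_num)))
  let Y : ℕ → Matrix (Fin m) (Fin m) R := fun n => F^[n] 0
  have hY : ∀ n, StrictUpper (Y n) ∧ P (Y n) := by
    intro n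
    induction n with
    | zero => exact ⟨fun _ _ _ => rfl, h0⟩
    | succ n ih =>
      have : Y (n + 1) = F (Y n) := Function.iterate_succ_apply' F n 0
      rw [this]
      exact ⟨hF _ ih.1, hsub _ _ hg' (htail _ ih.2)⟩
  have hd : ∀ n, Depth (n + 1) (Y (n + 1) - Y n) := by
    intro n
    induction n with
    | zero => exact StrictUpper.depth ((hY 1).1.sub' (hY 0).1)
    | succ n ih =>
      have h1 : Y (n + 1 + 1) = F (Y (n + 1)) := Function.iterate_succ_apply' F (n + 1) 0
      have h2 : Y (n + 1) = F (Y n) := Function.iterate_succ_apply' F n 0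
      have h3 : Y (n + 1 + 1) - Y (n + 1) = -(expTail (Y (n + 1)) - expTail (Y n)) := by
        have h4 : F (Y (n + 1)) - F (Y n) = -(expTail (Y (n + 1)) - expTail (Y n)) := by
          simp only [F]
          abel
        rw [← h4, ← h1, ← h2]
      rw [h3]
      exact (depth_expTail_sub (hY _).1 (hY _).1 ih).neg
  refine ⟨Y m, (hY m).1, (hY m).2, ?_⟩
  have h1 : Y (m + 1) = Y m := sub_eq_zero.mp ((hd m).eq_zero (Nat.le_succ m))
  have h2 : Y (m + 1) = F (Y m) := Function.iterate_succ_apply' F m 0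
  rw [h1] at h2
  rw [expR_eq_tail (hY m).1]
  nth_rewrite 1 [h2]
  simp only [F]
  abel

/-- the coefficient of `T ^ n` has depth at least `n` -/
def TDepth (A : Matrix (Fin m) (Fin m) R[X]) : Prop := ∀ n, Depth n (cf n A)

theorem TDepth.sub' {A B : Matrix (Fin m) (Fin m) R[X]} (hA : TDepth A) (hB : TDepth B) :
    TDepth (A - B) := fun n => by
  rw [cf_sub]
  exact (hA n).sub (hB n)

theorem TDepth.mul' {A B : Matrix (Fin m) (Fin m) R[X]} (hA : TDepth A) (hB : TDepth B) :
    TDepth (A * B) := fun n => by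
  rw [cf_mul]
  refine Depth.sum _ fun p hp => ?_
  have := Finset.HasAntidiagonal.mem_antidiagonal.mp hp
  rw [← this]
  exact (hA p.1).mul (hB p.2)

theorem TDepth.smul' {A : Matrix (Fin m) (Fin m) R[X]} (hA : TDepth A) (c : R) :
    TDepth (C c • A) := fun n => by
  rw [cf_smul]
  exact (hA n).smul c

theorem TDepth.zero' : TDepth (0 : Matrix (Fin m) (Fin m) R[X]) := fun n => by
  rw [cf_zero]
  exact Depth.zero_mat n

theorem TDepth.one' : TDepth (1 : Matrix (Fin m) (Fin m) R[X]) := fun n => by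
  have h1 : (1 : Matrix (Fin m) (Fin m) R[X]) = (1 : Matrix (Fin m) (Fin m) R).map C := by
    rw [Matrix.map_one C C_0 C_1]
  rw [h1]
  rcases Nat.eq_zero_or_pos n with rfl | hn
  · rw [cf_map_C_zero]
    exact Depth.one_mat
  · rw [cf_map_C_ne _ hn.ne']
    exact Depth.zero_mat n

theorem TDepth.pow' {A : Matrix (Fin m) (Fin m) R[X]} (hA : TDepth A) (k : ℕ) :
    TDepth (A ^ k) := by
  induction k with
  | zero => rw [pow_zero]; exact TDepth.one'
  | succ k ih => rw [pow_succ]; exact ih.mul' hA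

theorem TDepth.expR' (hR : ∀ j < m, IsUnit (j.factorial : R))
    {A : Matrix (Fin m) (Fin m) R[X]} (hA : TDepth A) :
    TDepth (expR A) := by
  rw [expR_poly hR]
  intro n
  have : cf n (∑ j ∈ Finset.range m, C (Ring.inverse (j.factorial : R)) • A ^ j) =
      ∑ j ∈ Finset.range m, cf n (C (Ring.inverse (j.factorial : R)) • A ^ j) := by
    ext a b
    rw [cf_apply, Matrix.sum_apply, Polynomial.finsetSum_coeff, Matrix.sum_apply]
    rfl
  rw [this]
  exact Depth.sum _ fun j _ => ((hA.pow' j).smul' _) n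

/-! ### The main statement -/

theorem bch_mem {R : Type} [CommRing R] {m : ℕ} (hR : ∀ j ≤ m, IsUnit (j.factorial : R))
    (M : AddSubgroup (Matrix (Fin m) (Fin m) R))
    (hdiv : ∀ j, 1 ≤ j → j ≤ m → ∀ u ∈ M, Ring.inverse (j : R) • u ∈ M)
    {x z : Matrix (Fin m) (Fin m) R} (hx : StrictUpper x) (hz : StrictUpper z)
    (h0 : adM x z ∈ M) (h1 : ∀ u ∈ M, adM x u ∈ M) (h2 : ∀ u ∈ M, adM z u ∈ M)
    (h3 : ∀ u ∈ M, ∀ v ∈ M, adM u v ∈ M) :
    ∃ w ∈ M, expR x * expR z = expR (x + z + w) := by
  classical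
  rcases Nat.eq_zero_or_pos m with hm | hm
  · subst hm
    exact ⟨0, M.zero_mem, Subsingleton.elim _ _⟩
  have hinv : ∀ j ≤ m, ∀ u ∈ M, Ring.inverse (j.factorial : R) • u ∈ M := by
    intro j
    induction j with
    | zero =>
      intro _ u hu
      rwa [Nat.factorial_zero, Nat.cast_one, Ring.inverse_one, one_smul]
    | succ j ih =>
      intro hj u hu
      rw [Nat.factorial_succ, Nat.cast_mul, Ring.mul_inverse_rev, mul_comm, mul_smul]
      exact hdiv (j + 1) (by omega) hj _ (ih (by omega) u hu)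
  have hRm : ∀ j < m, IsUnit ((j.factorial : ℕ) : R) := fun j hj => hR j hj.le
  have hRp : ∀ j < m, IsUnit ((j.factorial : ℕ) : R[X]) := fun j hj =>
    isUnit_factorial_poly (hRm j hj)
  set A : Matrix (Fin m) (Fin m) R[X] := x.map C with hA
  set B : Matrix (Fin m) (Fin m) R[X] := z.map C with hB
  set A' : Matrix (Fin m) (Fin m) R[X] := (X : R[X]) • A with hA'
  have hAs : StrictUpper A := fun i j h => by rw [hA, Matrix.map_apply, hx i j h, C_0]
  have hBs : StrictUpper B := fun i j h => by rw [hB, Matrix.map_apply, hz i j h, C_0]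
  have hA's : StrictUpper A' := fun i j h => by
    rw [hA', Matrix.smul_apply, hAs i j h, smul_zero]
  have hA'T : TDepth A' := by
    intro n
    rcases n with _ | n
    · rw [hA', cf_X_smul_zero]
      exact Depth.zero_mat 0
    · rw [hA', cf_X_smul_succ]
      rcases n with _ | n
      · rw [hA, cf_map_C_zero]
        exact hx.depth
      · rw [hA, cf_map_C_ne _ (Nat.succ_ne_zero n)]
        exact Depth.zero_mat _
  have hBT : TDepth B := by
    intro n
    rcases n with _ | n
    · rw [hB, cf_map_C_zero]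
      exact hz.depth.mono (by norm_num)
    · rw [hB, cf_map_C_ne _ (Nat.succ_ne_zero n)]
      exact Depth.zero_mat _
  -- the product
  have hg : UniUpper (expR A' * expR B) := by
    have h1 := strictUpper_expR_sub_one hA's
    have h2 := strictUpper_expR_sub_one hBs
    have h3 : expR A' * expR B - 1 =
        (expR A' - 1) * (expR B - 1) + (expR A' - 1) + (expR B - 1) := by noncomm_ring
    rw [UniUpper, h3]
    exact ((((StrictUpper.depth h1).mul (StrictUpper.depth h2)).mono (by norm_num)).add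
      (StrictUpper.depth h1)).add (StrictUpper.depth h2) |>.strictUpper le_rfl
  obtain ⟨Z, hZs, hZT, hZ⟩ := expR_surjOn_inv TDepth hg TDepth.zero'
    (((TDepth.expR' hRm hA'T).mul' (TDepth.expR' hRm hBT)).sub' TDepth.one')
    (fun a b ha hb => ha.sub' hb) (fun a b ha hb => ha.mul' hb)
    (fun j hj a ha => by
      rw [inverse_factorial_poly (hRm j hj)]
      exact ha.smul' _)
  -- the derivatives
  have hdA : dM A = 0 := by
    ext1 i j
    rw [dM_apply, hA, Matrix.map_apply, Polynomial.derivative_C, Matrix.zero_apply]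
  have hdB : dM B = 0 := by
    ext1 i j
    rw [dM_apply, hB, Matrix.map_apply, Polynomial.derivative_C, Matrix.zero_apply]
  have hdA' : dM A' = A := by
    ext1 i j
    rw [dM_apply, hA', Matrix.smul_apply, hA, Matrix.map_apply, smul_eq_mul,
      Polynomial.derivative_mul, Polynomial.derivative_X, Polynomial.derivative_C, one_mul,
      mul_zero, add_zero]
  have hd1 : dM (expR A') = A * expR A' := by
    rw [dM_expR hRm hA's]
    congr 1
    rw [hdA', Finset.sum_eq_single 0]
    · simp
    · intro k _ hk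
      obtain ⟨l, rfl⟩ : ∃ l, k = l + 1 := ⟨k - 1, by omega⟩
      rw [Function.iterate_succ_apply]
      have h0 : adM A' A = 0 := by
        rw [adM, hA', Matrix.smul_mul, Matrix.mul_smul, sub_self]
      rw [h0, adM_iterate_zero_right, smul_zero]
    · intro h
      exact absurd (Finset.mem_range.mpr hm) h
  have hd2 : dM (expR B) = 0 := by
    rw [hB, expR_map C hRm]
    ext1 i j
    rw [dM_apply, Matrix.map_apply, Polynomial.derivative_C, Matrix.zero_apply]
  have hd3 : dM (expR Z) = A * expR Z := by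
    rw [hZ, dM_mul, hd1, hd2, mul_zero, add_zero, mul_assoc]
  have hd4 : (∑ k ∈ Finset.range m,
      C (Ring.inverse (((k + 1).factorial : ℕ) : R)) • (adM Z)^[k] (dM Z)) = A := by
    have h1 := dM_expR hRm hZs
    rw [hd3] at h1
    have h2 := expR_mul_neg hRp hZs
    have h3 := congrArg (· * expR (-Z)) h1
    simp only [mul_assoc] at h3
    rw [h2, mul_one, mul_one] at h3
    exact h3.symm
  have hd5 : dM Z = A - nOp Z (dM Z) := by
    obtain ⟨l, rfl⟩ : ∃ l, m = l + 1 := ⟨m - 1, by omega⟩
    rw [Finset.sum_range_succ'] at hd4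
    simp only [zero_add, Nat.factorial_one, Nat.cast_one, Ring.inverse_one, C_1, one_smul,
      Function.iterate_zero, id_eq] at hd4
    rw [nOp, ← hd4]
    simp only [add_assoc, one_add_one_eq_two, Nat.add_sub_cancel]
    abel
  -- the difference `E`
  set E : Matrix (Fin m) (Fin m) R[X] := Z - (A' + B) with hE
  have hZE : Z = A' + B + E := by rw [hE]; abel
  have hEs : StrictUpper E := hZs.sub' (hA's.add' hBs)
  have hdE0 : dM E = dM Z - A := by
    rw [hE, dM_sub]
    congr 1
    have : dM (A' + B) = dM A' + dM B := by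
      ext1 i j
      rw [dM_apply, Matrix.add_apply, Polynomial.derivative_add]
      rfl
    rw [this, hdA', hdB, add_zero]
  have hdE : dM E = (0 - nOp Z A) - nOp Z (dM E) := by
    have h1 : dM E = 0 - nOp Z (dM Z) := by
      rw [hdE0]
      nth_rewrite 1 [hd5]
      abel
    have h2 : nOp Z (dM E) = nOp Z (dM Z) - nOp Z A := by
      rw [hdE0, nOp_sub]
    rw [h2]
    nth_rewrite 1 [h1]
    abel
  have hZ0 : cf 0 Z = z := by
    have h1 : cf 0 Z = Z.map (Polynomial.constantCoeff : R[X] →+* R) := rfl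
    have hZ0 : StrictUpper (Z.map (Polynomial.constantCoeff : R[X] →+* R)) := fun i j h => by
      rw [Matrix.map_apply, hZs i j h, map_zero]
    have hA0 : A'.map (Polynomial.constantCoeff : R[X] →+* R) = 0 := by
      ext a b
      rw [Matrix.map_apply, hA', Matrix.smul_apply, smul_eq_mul, map_mul,
        Polynomial.constantCoeff_apply, Polynomial.coeff_X_zero, zero_mul, Matrix.zero_apply]
    have hB0 : B.map (Polynomial.constantCoeff : R[X] →+* R) = z := by
      ext a b
      rw [Matrix.map_apply, hB, Matrix.map_apply, Polynomial.constantCoeff_apply,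
        Polynomial.coeff_C_zero]
    rw [h1]
    refine expR_injOn hRm hZ0 hz ?_
    rw [expR_map _ hRp, hZ]
    have h2 : (expR A' * expR B).map (Polynomial.constantCoeff : R[X] →+* R) =
        (expR A').map (Polynomial.constantCoeff : R[X] →+* R) *
          (expR B).map (Polynomial.constantCoeff : R[X] →+* R) := Matrix.map_mul
    rw [h2, ← expR_map _ hRp, ← expR_map _ hRp, hA0, hB0, expR_zero, one_mul]
  have hE0 : cf 0 E = 0 := by
    rw [hE, cf_sub, cf_add, hZ0, hA', cf_X_smul_zero, hB, cf_map_C_zero, zero_add, sub_self]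
  -- stability of `Wn`
  have hEW : ∀ n ≤ m, E ∈ Wn M (n + 1) := by
    intro n
    induction n with
    | zero =>
      intro _ i hi
      obtain rfl : i = 0 := by omega
      rw [hE0]
      exact M.zero_mem
    | succ n ih =>
      intro hn
      have ihE := ih (by omega)
      have hst : ∀ D ∈ Wn M (n + 1), adM Z D ∈ Wn M (n + 1) := by
        intro D hD i hi
        have e1 : adM Z D = (X : R[X]) • adM A D + adM B D + adM E D := by
          nth_rewrite 1 [hZE]
          rw [adM_add_left, adM_add_left]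
          congr 2
          rw [hA', adM, adM, Matrix.smul_mul, Matrix.mul_smul, smul_sub]
        rw [e1, cf_add, cf_add]
        refine M.add_mem (M.add_mem ?_ ?_) ?_
        · rcases i with _ | i
          · rw [cf_X_smul_zero]
            exact M.zero_mem
          · rw [cf_X_smul_succ, hA, cf_adM_C]
            exact h1 _ (hD i (by omega))
        · rw [hB, cf_adM_C]
          exact h2 _ (hD i hi)
        · rw [cf_adM]
          refine M.sum_mem fun p hp => ?_
          have := Finset.HasAntidiagonal.mem_antidiagonal.mp hp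
          exact h3 _ (ihE p.1 (by omega)) _ (hD p.2 (by omega))
      have hxW : adM Z A ∈ Wn M (n + 1) := by
        intro i hi
        have e1 : adM Z A = adM B A - adM A E := by
          nth_rewrite 1 [hZE]
          rw [adM_add_left, adM_add_left]
          have e2 : adM A' A = 0 := by
            rw [adM, hA', Matrix.smul_mul, Matrix.mul_smul, sub_self]
          rw [e2, zero_add, adM_neg_comm E A, ← sub_eq_add_neg]
        rw [e1, cf_sub]
        refine M.sub_mem ?_ ?_
        · rw [hB, cf_adM_C]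
          rcases i with _ | i
          · rw [hA, cf_map_C_zero, adM_neg_comm]
            exact M.neg_mem h0
          · rw [hA, cf_map_C_ne _ (Nat.succ_ne_zero i), adM_zero_right]
            exact M.zero_mem
        · rw [hA, cf_adM_C]
          exact h1 _ (ihE i hi)
      have hdEW : dM E ∈ Wn M (n + 1) :=
        Wn_of_eq hinv hZs hEs.dM' hst (Wn_sub Wn_zero (Wn_nOp hinv hst hxW)) hdE
      intro i hi
      rcases Nat.lt_or_ge i (n + 1) with hi' | hi'
      · exact ihE i hi'
      · obtain rfl : i = n + 1 := by omega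
        have e1 := hdEW n (by omega)
        rw [cf_dM] at e1
        have e2 := hdiv (n + 1) (by omega) hn _ e1
        have e3 : IsUnit ((n + 1 : ℕ) : R) := by
          refine isUnit_of_dvd_unit ?_ (hR (n + 1) hn)
          rw [Nat.factorial_succ, Nat.cast_mul]
          exact Dvd.intro _ rfl
        have e4 : ((n : R) + 1) = ((n + 1 : ℕ) : R) := by push_cast; ring
        rw [e4, smul_smul, Ring.inverse_mul_cancel _ e3, one_smul] at e2
        exact e2
  have hEall : ∀ n, cf n E ∈ M := by
    intro n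
    rcases Nat.lt_or_ge n (m + 1) with hn | hn
    · exact hEW m le_rfl n hn
    · have e1 : cf n Z = 0 := (hZT n).eq_zero (by omega)
      have e2 : cf n B = 0 := by
        rw [hB, cf_map_C_ne _ (by omega)]
      have e3 : cf n A' = 0 := by
        obtain ⟨k, rfl⟩ : ∃ k, n = k + 1 := ⟨n - 1, by omega⟩
        rw [hA', cf_X_smul_succ, hA, cf_map_C_ne _ (by omega)]
      rw [hE, cf_sub, cf_add, e1, e2, e3, add_zero, sub_zero]
      exact M.zero_mem
  -- evaluate at one
  obtain ⟨N, hN⟩ : ∃ N, ∀ i j, (E i j).natDegree < N := by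
    refine ⟨(Finset.univ.sup fun i => Finset.univ.sup fun j => (E i j).natDegree) + 1, ?_⟩
    intro i j
    have h1 : (E i j).natDegree ≤ Finset.univ.sup fun j => (E i j).natDegree :=
      Finset.le_sup (f := fun j => (E i j).natDegree) (Finset.mem_univ j)
    have h2 : (Finset.univ.sup fun j => (E i j).natDegree) ≤
        Finset.univ.sup fun i => Finset.univ.sup fun j => (E i j).natDegree :=
      Finset.le_sup (f := fun i => Finset.univ.sup fun j => (E i j).natDegree) (Finset.mem_univ i)
    omega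
  have hw := map_eval_one E N hN
  refine ⟨E.map (Polynomial.evalRingHom (1 : R)), ?_, ?_⟩
  · rw [hw]
    exact M.sum_mem fun n _ => hEall n
  · have hA1 : A'.map (Polynomial.evalRingHom (1 : R)) = x := by
      ext a b
      rw [Matrix.map_apply, hA', Matrix.smul_apply, smul_eq_mul, map_mul, hA, Matrix.map_apply]
      simp
    have hB1 : B.map (Polynomial.evalRingHom (1 : R)) = z := by
      ext a b
      rw [Matrix.map_apply, hB, Matrix.map_apply]
      simp
    have hZ1 : Z.map (Polynomial.evalRingHom (1 : R)) =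
        x + z + E.map (Polynomial.evalRingHom (1 : R)) := by
      rw [← hA1, ← hB1]
      nth_rewrite 1 [hZE]
      ext a b
      simp [Matrix.map_apply]
    have h2 : (expR A' * expR B).map (Polynomial.evalRingHom (1 : R)) =
        (expR A').map (Polynomial.evalRingHom (1 : R)) *
          (expR B).map (Polynomial.evalRingHom (1 : R)) := Matrix.map_mul
    rw [← hZ1, expR_map _ hRp, hZ, h2, ← expR_map _ hRp, ← expR_map _ hRp, hA1, hB1]

end bch

theorem bch_closed {K : Type} [Field K] [CharZero K] {m : ℕ}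
    (V : Submodule K (Matrix (Fin m) (Fin m) K)) (hV : ∀ x ∈ V, StrictUpper x)
    (hbr : ∀ x ∈ V, ∀ y ∈ V, x * y - y * x ∈ V) {x y : Matrix (Fin m) (Fin m) K}
    (hx : x ∈ V) (hy : y ∈ V) : ∃ z ∈ V, expMat x * expMat y = expMat z := by
  have hR : ∀ j ≤ m, IsUnit ((j.factorial : ℕ) : K) := fun j _ =>
    isUnit_iff_ne_zero.mpr (Nat.cast_ne_zero.mpr (Nat.factorial_ne_zero j))
  obtain ⟨w, hw, h⟩ := bch_mem hR V.toAddSubgroup (fun j _ _ u hu => V.smul_mem _ hu)
    (hV x hx) (hV y hy) (hbr x hx y hy) (fun u hu => hbr x hx u hu) (fun u hu => hbr y hy u hu)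
    (fun u hu v hv => hbr u hu v hv)
  exact ⟨x + y + w, V.add_mem (V.add_mem hx hy) hw, by
    rw [expMat_eq_expR, expMat_eq_expR, expMat_eq_expR, h]⟩

end

end MP8c80e8
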