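import Pool.Agent.Lib.MP_8c80e8_al.Iface

/-! # J11: compatible integral bases -/

open scoped TensorProduct NumberField
open IsDedekindDomain

namespace MP8c80e8

noncomputable section

attribute [local instance 100] LieRing.ofAssociativeRing

section

variable {k : Type} [Field k] [NumberField k]

/-- clearing denominators -/
theorem basis_clear {I : Type} [Finite I] (x : I → k) :
    ∃ d : 𝓞 k, d ≠ 0 ∧ ∀ i, ∃ y : 𝓞 k, algebraMap (𝓞 k) k y = algebraMap (𝓞 k) k d * x i := by
  obtain ⟨b, hb⟩ := IsLocalization.exist_integer_multiples_of_finite (nonZeroDivisors (𝓞 k)) x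
  refine ⟨b, nonZeroDivisors.ne_zero b.2, fun i => ?_⟩
  obtain ⟨y, hy⟩ := hb i
  refine ⟨y, ?_⟩
  rw [hy, ← Algebra.smul_def]

theorem basis_inj : Function.Injective (algebraMap (𝓞 k) k) :=
  FaithfulSMul.algebraMap_injective (𝓞 k) k

/-- integral left inverse of a linearly independent family of matrices -/
theorem basis_leftInv {m : ℕ} {ι : Type} [Fintype ι] [DecidableEq ι]
    (e : ι → Matrix (Fin m) (Fin m) (𝓞 k))
    (hli : LinearIndependent k (fun i => (e i).map (algebraMap (𝓞 k) k))) :
    ∃ (δ : 𝓞 k) (b : ι → Fin m → Fin m → 𝓞 k), δ ≠ 0 ∧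
      ∀ i j, ∑ p, ∑ q, b i p q * e j p q = if i = j then δ else 0 := by
  obtain ⟨g, hg⟩ := LinearMap.exists_leftInverse_of_injective
    (Fintype.linearCombination k (fun i => (e i).map (algebraMap (𝓞 k) k)))
    (LinearMap.ker_eq_bot.mpr (hli.fintypeLinearCombination_injective))
  have hgi : ∀ i j, g ((e j).map (algebraMap (𝓞 k) k)) i = if i = j then 1 else 0 := by
    intro i j
    have h1 := LinearMap.congr_fun hg (Pi.single j 1)
    simp only [LinearMap.comp_apply, Fintype.linearCombination_apply_single, one_smul,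
      LinearMap.id_apply] at h1
    rw [h1, Pi.single_apply]
  have hexp : ∀ (M : Matrix (Fin m) (Fin m) k) (i : ι),
      g M i = ∑ p, ∑ q, M p q * g (Matrix.single p q 1) i := by
    intro M i
    conv_lhs => rw [Matrix.matrix_eq_sum_single M]
    simp only [map_sum, Finset.sum_apply]
    refine Finset.sum_congr rfl fun p _ => Finset.sum_congr rfl fun q _ => ?_
    have : Matrix.single p q (M p q) = M p q • Matrix.single p q (1 : k) := by
      rw [Matrix.smul_single, smul_eq_mul, mul_one]
    rw [this, map_smul, Pi.smul_apply, smul_eq_mul]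
  obtain ⟨δ, hδ, hb⟩ := basis_clear (k := k)
    (fun t : ι × Fin m × Fin m => g (Matrix.single t.2.1 t.2.2 1) t.1)
  choose b hb using hb
  refine ⟨δ, fun i p q => b (i, p, q), hδ, fun i j => basis_inj (k := k) ?_⟩
  simp only [map_sum, map_mul, hb]
  have h1 := hexp ((e j).map (algebraMap (𝓞 k) k)) i
  rw [hgi] at h1
  have h2 : (∑ p, ∑ q, algebraMap (𝓞 k) k δ * g (Matrix.single p q 1) i *
      algebraMap (𝓞 k) k (e j p q)) = algebraMap (𝓞 k) k δ *
      ∑ p, ∑ q, ((e j).map (algebraMap (𝓞 k) k)) p q * g (Matrix.single p q 1) i := by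
    rw [Finset.mul_sum]
    refine Finset.sum_congr rfl fun p _ => ?_
    rw [Finset.mul_sum]
    refine Finset.sum_congr rfl fun q _ => ?_
    rw [Matrix.map_apply]; ring
  rw [h2, ← h1]
  split_ifs <;> simp

/-- the general construction of integral data from a basis of the Lie algebra -/
theorem basis_mk (G : UnipotentGroup k) {ι κ : Type} [Fintype ι] [Fintype κ] [DecidableEq ι]
    [DecidableEq κ] (f : Module.Basis ι k G.lie) (s : κ → ι) (hs : Function.Injective s)
    (c0 : ι → ι → κ → k) (hc0 : ∀ i j, ⁅f i, f j⁆ = ∑ l, c0 i j l • f (s l))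
    (lam : 𝓞 k) (hlam : lam ≠ 0) (e : ι → Matrix (Fin G.m) (Fin G.m) (𝓞 k))
    (he : ∀ i p q, algebraMap (𝓞 k) k (e i p q) =
      algebraMap (𝓞 k) k lam * (f i : Matrix (Fin G.m) (Fin G.m) k) p q)
    (c : ι → ι → κ → 𝓞 k)
    (hc : ∀ i j l, algebraMap (𝓞 k) k (c i j l) = algebraMap (𝓞 k) k lam * c0 i j l)
    (δ' : 𝓞 k) (hδ' : δ' ≠ 0) (a : κ → ι → ι → 𝓞 k)
    (ha : ∀ l l', ∑ i, ∑ j, a l i j * c i j l' = if l = l' then δ' else 0) :
    ∃ D : IntData G ι κ, D.s = s ∧ D.c = c := by
  have hlam' : algebraMap (𝓞 k) k lam ≠ 0 := by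
    intro h
    exact hlam (basis_inj (k := k) (by rw [h, map_zero]))
  have hemap : ∀ i, (e i).map (algebraMap (𝓞 k) k) =
      algebraMap (𝓞 k) k lam • (f i : Matrix (Fin G.m) (Fin G.m) k) := by
    intro i
    ext p q
    rw [Matrix.map_apply, he, Matrix.smul_apply, smul_eq_mul]
  -- linear independence
  have hfli : LinearIndependent k (fun i => (f i : Matrix (Fin G.m) (Fin G.m) k)) := by
    have := f.linearIndependent.map' G.lie.toSubmodule.subtype
      (Submodule.ker_subtype _)
    exact this
  have hli : LinearIndependent k (fun i => (e i).map (algebraMap (𝓞 k) k)) := by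
    have h1 : (fun i => (e i).map (algebraMap (𝓞 k) k)) =
        (fun _ : ι => Units.mk0 _ hlam') • (fun i => (f i : Matrix (Fin G.m) (Fin G.m) k)) := by
      funext i
      rw [hemap i]
      rfl
    rw [h1]
    exact hfli.units_smul _
  have hspan : Submodule.span k (Set.range fun i => (e i).map (algebraMap (𝓞 k) k)) =
      G.lie.toSubmodule := by
    apply le_antisymm
    · rw [Submodule.span_le]
      rintro _ ⟨i, rfl⟩
      simp only [hemap i]
      exact G.lie.toSubmodule.smul_mem _ (f i).2
    · intro x hx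
      have h1 := f.sum_repr ⟨x, hx⟩
      have h2 : x = ∑ i, f.repr ⟨x, hx⟩ i • (f i : Matrix (Fin G.m) (Fin G.m) k) := by
        have h4 := congrArg (fun y : G.lie => (y : Matrix (Fin G.m) (Fin G.m) k)) h1
        have h3 := map_sum G.lie.toSubmodule.subtype (fun i => f.repr ⟨x, hx⟩ i • f i) Finset.univ
        exact h4.symm.trans h3
      rw [h2]
      refine Submodule.sum_mem _ fun i _ => Submodule.smul_mem _ _ ?_
      have h3 : (f i : Matrix (Fin G.m) (Fin G.m) k) =
          (algebraMap (𝓞 k) k lam)⁻¹ • (e i).map (algebraMap (𝓞 k) k) := by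
        rw [hemap i, smul_smul, inv_mul_cancel₀ hlam', one_smul]
      rw [h3]
      exact Submodule.smul_mem _ _ (Submodule.subset_span ⟨i, rfl⟩)
  -- brackets of the `f i` as matrices
  have hf : ∀ i j, (f i : Matrix (Fin G.m) (Fin G.m) k) * f j - f j * f i =
      ∑ l, c0 i j l • (f (s l) : Matrix (Fin G.m) (Fin G.m) k) := by
    intro i j
    have h1 := congrArg (fun y : G.lie => (y : Matrix (Fin G.m) (Fin G.m) k)) (hc0 i j)
    have h2 := map_sum G.lie.toSubmodule.subtype (fun l => c0 i j l • f (s l)) Finset.univ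
    exact h1.trans h2
  have hbr : ∀ i j, e i * e j - e j * e i = ∑ l, c i j l • e (s l) := by
    intro i j
    have hinj : Function.Injective
        (fun M : Matrix (Fin G.m) (Fin G.m) (𝓞 k) => M.map (algebraMap (𝓞 k) k)) :=
      Matrix.map_injective (basis_inj (k := k))
    apply hinj
    simp only
    have h1 : (e i * e j - e j * e i).map (algebraMap (𝓞 k) k) =
        (e i).map (algebraMap (𝓞 k) k) * (e j).map (algebraMap (𝓞 k) k) -
        (e j).map (algebraMap (𝓞 k) k) * (e i).map (algebraMap (𝓞 k) k) := by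
      rw [Matrix.map_sub _ (map_sub _), Matrix.map_mul, Matrix.map_mul]
    rw [h1, hemap i, hemap j]
    have h2 : (∑ l, c i j l • e (s l)).map (algebraMap (𝓞 k) k) =
        ∑ l, algebraMap (𝓞 k) k (c i j l) • (e (s l)).map (algebraMap (𝓞 k) k) := by
      ext p q
      simp only [Matrix.map_apply, Matrix.sum_apply, Matrix.smul_apply, smul_eq_mul, map_sum,
        map_mul]
    rw [h2]
    have h3 : ∀ l, algebraMap (𝓞 k) k (c i j l) • (e (s l)).map (algebraMap (𝓞 k) k) =
        (algebraMap (𝓞 k) k lam * algebraMap (𝓞 k) k lam) •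
          (c0 i j l • (f (s l) : Matrix (Fin G.m) (Fin G.m) k)) := by
      intro l
      rw [hemap (s l), hc, smul_smul, smul_smul]
      congr 1
      ring
    simp_rw [h3]
    rw [← Finset.smul_sum, ← hf i j, smul_mul_smul_comm, smul_mul_smul_comm, ← smul_sub]
  -- antisymmetry of the structure constants
  have hsli : LinearIndependent k (fun l => (f (s l) : Matrix (Fin G.m) (Fin G.m) k)) :=
    hfli.comp s hs
  have hc0anti : ∀ i j l, c0 j i l = - c0 i j l := by
    intro i j
    have h1 : ∑ l, (c0 j i l + c0 i j l) • (f (s l) : Matrix (Fin G.m) (Fin G.m) k) = 0 := by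
      simp_rw [add_smul]
      rw [Finset.sum_add_distrib, ← hf i j, ← hf j i]
      abel
    intro l
    have h2 := Fintype.linearIndependent_iff.mp hsli _ h1 l
    linear_combination h2
  have hc0self : ∀ i l, c0 i i l = 0 := by
    intro i
    have h1 : ∑ l, c0 i i l • (f (s l) : Matrix (Fin G.m) (Fin G.m) k) = 0 := by
      rw [← hf i i, sub_self]
    intro l
    exact Fintype.linearIndependent_iff.mp hsli _ h1 l
  obtain ⟨δ, b, hδ, hb⟩ := basis_leftInv e hli
  refine ⟨⟨s, hs, e, ?_, hspan, c, hbr, ?_, ?_, δ, hδ, b, hb, δ', hδ', a, ha⟩, rfl, rfl⟩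
  · intro i p q hqp
    apply basis_inj (k := k)
    rw [he, G.upper _ (f i).2 p q hqp, mul_zero, map_zero]
  · intro i l
    apply basis_inj (k := k)
    rw [hc, hc0self, mul_zero, map_zero]
  · intro i j l
    apply basis_inj (k := k)
    rw [hc, hc0anti, map_neg, hc, mul_neg]

/-- the dual numbers have the basis `1, ε` -/
def basis_dualEquiv (k : Type) [Field k] : DualNumber k ≃ₗ[k] (Bool → k) where
  toFun x := fun t => if t then x.snd else x.fst
  invFun v := TrivSqZeroExt.inl (v false) + TrivSqZeroExt.inr (v true)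
  map_add' x y := by
    funext t
    cases t <;> simp
  map_smul' r x := by
    funext t
    cases t <;> simp
  left_inv x := by
    ext <;> simp
  right_inv v := by
    funext t
    cases t <;> simp

/-- the basis `1, ε` -/
def basis_dual (k : Type) [Field k] : Module.Basis Bool k (DualNumber k) :=
  Module.Basis.ofEquivFun (basis_dualEquiv k)

theorem basis_dual_false (k : Type) [Field k] : basis_dual k false = 1 := by
  simp only [basis_dual, Module.Basis.coe_ofEquivFun]
  change (TrivSqZeroExt.inl ((Pi.single false 1 : Bool → k) false) +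
    TrivSqZeroExt.inr ((Pi.single false 1 : Bool → k) true) : DualNumber k) = 1
  rw [Pi.single_eq_same, Pi.single_eq_of_ne (by decide), TrivSqZeroExt.inr_zero, add_zero]
  rfl

theorem basis_dual_true (k : Type) [Field k] : basis_dual k true = DualNumber.eps := by
  simp only [basis_dual, Module.Basis.coe_ofEquivFun]
  change (TrivSqZeroExt.inl ((Pi.single true 1 : Bool → k) false) +
    TrivSqZeroExt.inr ((Pi.single true 1 : Bool → k) true) : DualNumber k) = _
  rw [Pi.single_eq_same, Pi.single_eq_of_ne (by decide), TrivSqZeroExt.inl_zero, zero_add]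
  rfl

/-- a basis of a Lie algebra adapted to the span of the brackets -/
theorem basis_adapted {g : Type} [LieRing g] [LieAlgebra k g] [FiniteDimensional k g] :
    ∃ (d d' : ℕ) (f : Module.Basis (Fin d) k g) (s : Fin d' → Fin d),
      Function.Injective s ∧
      Submodule.span k (Set.range fun l => f (s l)) =
        Submodule.span k {u | ∃ x y : g, u = ⁅x, y⁆} := by
  set V : Submodule k g := Submodule.span k {u | ∃ x y : g, u = ⁅x, y⁆} with hV
  obtain ⟨W, hW⟩ := Submodule.exists_isCompl V
  let bV := Module.finBasis k V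
  let bW := Module.finBasis k W
  let b0 := (bV.prod bW).map (Submodule.prodEquivOfIsCompl V W hW)
  let b1 := b0.reindex finSumFinEquiv
  refine ⟨_, _, b1, fun l => Fin.castAdd _ l, Fin.castAdd_injective _ _, ?_⟩
  have h1 : ∀ l, b1 (Fin.castAdd _ l) = (bV l : g) := by
    intro l
    simp only [b1, Module.Basis.reindex_apply, finSumFinEquiv_symm_apply_castAdd, b0,
      Module.Basis.map_apply]
    rw [Submodule.coe_prodEquivOfIsCompl']
    simp
  simp_rw [h1]
  have h2 : (Set.range fun l => (bV l : g)) = V.subtype '' Set.range bV := by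
    rw [← Set.range_comp]
    rfl
  rw [h2, ← Submodule.map_span, bV.span_eq, Submodule.map_top, Submodule.range_subtype]

theorem exists_intData (G G' : UnipotentGroup k)
    (φ : (DualNumber k ⊗[k] G.lie) ≃ₗ⁅k⁆ G'.lie) :
    ∃ (d d' : ℕ) (D : IntData G (Fin d) (Fin d'))
      (D' : IntData G' (Fin d ⊕ Fin d) (Fin d' ⊕ Fin d')),
      D'.s = dualS D.s ∧ D'.c = dualC D.c := by
  obtain ⟨d, d', f, s, hs, hspan⟩ := basis_adapted (k := k) (g := G.lie)
  -- structure constants
  have hex : ∀ i j, ∃ c : Fin d' → k, ⁅f i, f j⁆ = ∑ l, c l • f (s l) := by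
    intro i j
    have h1 : ⁅f i, f j⁆ ∈ Submodule.span k (Set.range fun l => f (s l)) := by
      rw [hspan]
      exact Submodule.subset_span ⟨_, _, rfl⟩
    obtain ⟨c, hc⟩ := (Submodule.mem_span_range_iff_exists_fun k).mp h1
    exact ⟨c, hc.symm⟩
  choose c0 hc0 using hex
  have hsli : LinearIndependent k (fun l => f (s l)) := f.linearIndependent.comp s hs
  -- the brackets of basis elements span
  have hbrspan : Submodule.span k {u | ∃ x y : G.lie, u = ⁅x, y⁆} ≤
      Submodule.span k (Set.range fun t : Fin d × Fin d => ⁅f t.1, f t.2⁆) := by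
    rw [Submodule.span_le]
    rintro _ ⟨x, y, rfl⟩
    rw [← f.sum_repr x, ← f.sum_repr y]
    simp only [sum_lie, lie_sum, smul_lie, lie_smul]
    refine Submodule.sum_mem _ fun i _ => Submodule.smul_mem _ _ (Submodule.sum_mem _ fun j _ =>
      Submodule.smul_mem _ _ (Submodule.subset_span ?_))
    exact Set.mem_range_self (f := fun t : Fin d × Fin d => ⁅f t.1, f t.2⁆) (j, i)
  have hex2 : ∀ l : Fin d', ∃ a : Fin d × Fin d → k, ∑ t, a t • ⁅f t.1, f t.2⁆ = f (s l) := by
    intro l
    have h1 : f (s l) ∈ Submodule.span k (Set.range fun t : Fin d × Fin d => ⁅f t.1, f t.2⁆) := by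
      apply hbrspan
      rw [← hspan]
      exact Submodule.subset_span ⟨l, rfl⟩
    exact (Submodule.mem_span_range_iff_exists_fun k).mp h1
  choose a0 ha0 using hex2
  have ha0' : ∀ l l', ∑ t : Fin d × Fin d, a0 l t * c0 t.1 t.2 l' = if l = l' then 1 else 0 := by
    intro l
    have h1 : ∑ l', (∑ t : Fin d × Fin d, a0 l t * c0 t.1 t.2 l' - if l = l' then 1 else 0) •
        f (s l') = 0 := by
      simp_rw [sub_smul]
      rw [Finset.sum_sub_distrib]
      have h2 : ∑ l', (∑ t : Fin d × Fin d, a0 l t * c0 t.1 t.2 l') • f (s l') = f (s l) := by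
        simp_rw [Finset.sum_smul]
        rw [Finset.sum_comm]
        conv_rhs => rw [← ha0 l]
        refine Finset.sum_congr rfl fun t _ => ?_
        rw [hc0, Finset.smul_sum]
        refine Finset.sum_congr rfl fun l' _ => ?_
        rw [smul_smul]
      rw [h2]
      simp
    intro l'
    exact sub_eq_zero.mp (Fintype.linearIndependent_iff.mp hsli _ h1 l')
  -- the basis of the second Lie algebra
  let T := ((basis_dual k).tensorProduct f).reindex (Equiv.boolProdEquivSum (Fin d))
  let f' : Module.Basis (Fin d ⊕ Fin d) k G'.lie := T.map φ.toLinearEquiv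
  have hf'l : ∀ i, f' (Sum.inl i) = φ ((1 : DualNumber k) ⊗ₜ[k] f i) := by
    intro i
    simp only [f', T, Module.Basis.map_apply, Module.Basis.reindex_apply]
    rw [show (Equiv.boolProdEquivSum (Fin d)).symm (Sum.inl i) = (false, i) from rfl,
      Module.Basis.tensorProduct_apply, basis_dual_false]
    rfl
  have hf'r : ∀ i, f' (Sum.inr i) = φ ((DualNumber.eps : DualNumber k) ⊗ₜ[k] f i) := by
    intro i
    simp only [f', T, Module.Basis.map_apply, Module.Basis.reindex_apply]
    rw [show (Equiv.boolProdEquivSum (Fin d)).symm (Sum.inr i) = (true, i) from rfl,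
      Module.Basis.tensorProduct_apply, basis_dual_true]
    rfl
  have hφbr : ∀ (u v : DualNumber k) (i j : Fin d),
      ⁅φ (u ⊗ₜ[k] f i), φ (v ⊗ₜ[k] f j)⁆ = ∑ l, c0 i j l • φ ((u * v) ⊗ₜ[k] f (s l)) := by
    intro u v i j
    rw [← LieEquiv.map_lie, LieAlgebra.ExtendScalars.bracket_tmul, hc0, TensorProduct.tmul_sum]
    rw [map_sum]
    refine Finset.sum_congr rfl fun l _ => ?_
    rw [TensorProduct.tmul_smul, map_smul]
  have hc0' : ∀ I J, ⁅f' I, f' J⁆ = ∑ L, dualC c0 I J L • f' (dualS s L) := by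
    intro I J
    rw [Fintype.sum_sum_type]
    rcases I with i | i <;> rcases J with j | j
    · rw [hf'l, hf'l, hφbr, one_mul]
      simp only [dualC, dualS, Sum.map_inl, Sum.map_inr, zero_smul, Finset.sum_const_zero,
        add_zero, hf'l]
    · rw [hf'l, hf'r, hφbr, one_mul]
      simp only [dualC, dualS, Sum.map_inl, Sum.map_inr, zero_smul, Finset.sum_const_zero,
        zero_add, hf'r]
    · rw [hf'l, hf'r, hφbr, mul_one]
      simp only [dualC, dualS, Sum.map_inl, Sum.map_inr, zero_smul, Finset.sum_const_zero,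
        zero_add, hf'r]
    · rw [hf'r, hf'r, hφbr, DualNumber.eps_mul_eps]
      simp only [dualC, zero_smul, Finset.sum_const_zero, add_zero, TensorProduct.zero_tmul,
        map_zero, smul_zero]
  -- common denominator
  obtain ⟨lam, hlam, hclear⟩ := basis_clear (k := k)
    (Sum.elim (fun t : Fin d × Fin G.m × Fin G.m =>
        (f t.1 : Matrix (Fin G.m) (Fin G.m) k) t.2.1 t.2.2)
      (Sum.elim (fun t : Fin d × Fin d × Fin d' => c0 t.1 t.2.1 t.2.2)
        (fun t : (Fin d ⊕ Fin d) × Fin G'.m × Fin G'.m =>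
          (f' t.1 : Matrix (Fin G'.m) (Fin G'.m) k) t.2.1 t.2.2)))
  choose y hy using hclear
  set e : Fin d → Matrix (Fin G.m) (Fin G.m) (𝓞 k) :=
    fun i => Matrix.of fun p q => y (Sum.inl (i, p, q)) with he
  set c : Fin d → Fin d → Fin d' → 𝓞 k := fun i j l => y (Sum.inr (Sum.inl (i, j, l))) with hcdef
  set e' : Fin d ⊕ Fin d → Matrix (Fin G'.m) (Fin G'.m) (𝓞 k) :=
    fun i => Matrix.of fun p q => y (Sum.inr (Sum.inr (i, p, q))) with he'
  have hc : ∀ i j l, algebraMap (𝓞 k) k (c i j l) = algebraMap (𝓞 k) k lam * c0 i j l := by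
    intro i j l
    exact hy (Sum.inr (Sum.inl (i, j, l)))
  -- the left inverse for the structure constants
  obtain ⟨μ, hμ, hclear2⟩ := basis_clear (k := k)
    (fun t : Fin d' × Fin d × Fin d => a0 t.1 t.2)
  choose z hz using hclear2
  set a : Fin d' → Fin d → Fin d → 𝓞 k := fun l i j => z (l, i, j) with hadef
  have ha : ∀ l l', ∑ i, ∑ j, a l i j * c i j l' = if l = l' then μ * lam else 0 := by
    intro l l'
    apply basis_inj (k := k)
    simp only [map_sum, map_mul, hc]
    have h1 : ∀ i j, algebraMap (𝓞 k) k (a l i j) = algebraMap (𝓞 k) k μ * a0 l (i, j) :=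
      fun i j => hz (l, i, j)
    simp only [h1]
    have h2 := ha0' l l'
    rw [Fintype.sum_prod_type] at h2
    have h3 : (∑ i, ∑ j, algebraMap (𝓞 k) k μ * a0 l (i, j) *
        (algebraMap (𝓞 k) k lam * c0 i j l')) =
        (algebraMap (𝓞 k) k μ * algebraMap (𝓞 k) k lam) * ∑ i, ∑ j, a0 l (i, j) * c0 i j l' := by
      rw [Finset.mul_sum]
      refine Finset.sum_congr rfl fun i _ => ?_
      rw [Finset.mul_sum]
      refine Finset.sum_congr rfl fun j _ => ?_
      ring
    rw [h3, h2]
    split_ifs <;> simp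
  have hμlam : μ * lam ≠ 0 := mul_ne_zero hμ hlam
  obtain ⟨D, hDs, hDc⟩ := basis_mk G f s hs c0 hc0 lam hlam e
    (fun i p q => hy (Sum.inl (i, p, q))) c hc (μ * lam) hμlam a ha
  -- the second set of data
  have hs' : Function.Injective (dualS s) := Sum.map_injective.mpr ⟨hs, hs⟩
  have hc' : ∀ I J L, algebraMap (𝓞 k) k (dualC c I J L) =
      algebraMap (𝓞 k) k lam * dualC c0 I J L := by
    intro I J L
    rcases I with i | i <;> rcases J with j | j <;> rcases L with l | l <;>
      simp only [dualC, hc, map_zero, mul_zero]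
  let a' : Fin d' ⊕ Fin d' → Fin d ⊕ Fin d → Fin d ⊕ Fin d → 𝓞 k := fun L I J =>
    match L, I, J with
    | Sum.inl l, Sum.inl i, Sum.inl j => a l i j
    | Sum.inr l, Sum.inl i, Sum.inr j => a l i j
    | _, _, _ => 0
  have ha' : ∀ L L', ∑ I, ∑ J, a' L I J * dualC c I J L' = if L = L' then μ * lam else 0 := by
    intro L L'
    rcases L with l | l <;> rcases L' with l' | l' <;>
      simp only [Fintype.sum_sum_type, a', dualC, zero_mul, mul_zero, Finset.sum_const_zero,
        add_zero, zero_add, Sum.inl.injEq, Sum.inr.injEq, reduceCtorEq, if_false, ha]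
  obtain ⟨D', hDs', hDc'⟩ := basis_mk G' f' (dualS s) hs' (dualC c0) hc0' lam hlam e'
    (fun i p q => hy (Sum.inr (Sum.inr (i, p, q)))) (dualC c) hc' (μ * lam) hμlam a' ha'
  exact ⟨d, d', D, D', by rw [hDs', hDs], by rw [hDc', hDc]⟩

end

end

end MP8c80e8
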