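import Mathlib

/-!
# MP_8c80e8_al: the definitions used in the statement

The omega-invariant of a unipotent group over a number field.
-/

open scoped TensorProduct NumberField
open IsDedekindDomain

namespace MP8c80e8

noncomputable section

/-! ## Unipotent groups and their points -/

/-- The unipotent group `G` with Lie algebra `𝔤`, realised as a closed subgroup of the group of
unitriangular `m × m` matrices: an embedding of `𝔤` into the strictly upper triangular matrices.
The points of `G` over a field `K ⊇ k` are the matrices `exp x`, `x ∈ 𝔤 ⊗ K`. -/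
structure UniGroup (k 𝔤 : Type) [Field k] [LieRing 𝔤] [LieAlgebra k 𝔤] (m : ℕ) where
  /-- the embedding of the Lie algebra -/
  ρ : 𝔤 →ₗ[k] Matrix (Fin m) (Fin m) k
  /-- it is injective -/
  inj : Function.Injective ρ
  /-- it respects the bracket -/
  bracket : ∀ x y, ρ ⁅x, y⁆ = ρ x * ρ y - ρ y * ρ x
  /-- the values are strictly upper triangular -/
  upper : ∀ (x : 𝔤) (i j : Fin m), j ≤ i → ρ x i j = 0

/-- The exponential of a strictly upper triangular `m × m` matrix (its `m`-th power is zero). -/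
def expMat {K : Type} [Field K] {m : ℕ} (x : Matrix (Fin m) (Fin m) K) :
    Matrix (Fin m) (Fin m) K :=
  ∑ j ∈ Finset.range m, ((j.factorial : K)⁻¹) • x ^ j

/-- The `K`-span of a set of matrices over `k`, for a field extension `ι : k → K`. -/
def spanOver {k K : Type} [Field k] [Field K] {m : ℕ} (S : Set (Matrix (Fin m) (Fin m) k))
    (ι : k →+* K) : Submodule K (Matrix (Fin m) (Fin m) K) :=
  Submodule.span K ((fun x => x.map ι) '' S)

/-- For a subring `O` of `K` (inclusion `j`) and a Lie algebra `V` of strictly upper triangular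
matrices over `K`: the group of all elements of `GL_m(O)` which, over `K`, are exponentials of
elements of `V`.  (By the Baker-Campbell-Hausdorff formula these elements form a subgroup already;
`Subgroup.closure` only packages them as one.) -/
def expGroup {O K : Type} [CommRing O] [Field K] {m : ℕ}
    (V : Submodule K (Matrix (Fin m) (Fin m) K)) (j : O →+* K) : Subgroup (GL (Fin m) O) :=
  Subgroup.closure {g | ∃ x ∈ V, (g : Matrix (Fin m) (Fin m) O).map j = expMat x}

/-! ## Representations up to twist -/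

/-- Irreducibility of an `n`-dimensional complex representation (in particular `n ≠ 0`). -/
def Irred {H : Type} [Group H] {n : ℕ} (ρ : H →* GL (Fin n) ℂ) : Prop :=
  0 < n ∧ ∀ W : Submodule ℂ (Fin n → ℂ),
    (∀ g : H, ∀ w ∈ W, ((ρ g : GL (Fin n) ℂ) : Matrix (Fin n) (Fin n) ℂ).mulVec w ∈ W) →
      W = ⊥ ∨ W = ⊤

section cont

variable {O : Type} [CommRing O] {m : ℕ}

/-- `g ≡ 1` modulo the ideal `I`. -/
def CongOne (I : Ideal O) (g : GL (Fin m) O) : Prop :=
  ∀ i j, (g : Matrix (Fin m) (Fin m) O) i j - (1 : Matrix (Fin m) (Fin m) O) i j ∈ I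

/-- Continuity of a representation of a group `H ≤ GL_m(O)` carrying the `P`-adic topology. -/
def ContRep (P : Ideal O) (H : Subgroup (GL (Fin m) O)) {n : ℕ} (ρ : H →* GL (Fin n) ℂ) : Prop :=
  ∀ ε : ℝ, 0 < ε → ∃ N : ℕ, ∀ g : H, CongOne (P ^ N) (g : GL (Fin m) O) →
    ∀ a b, ‖((ρ g : GL (Fin n) ℂ) : Matrix (Fin n) (Fin n) ℂ) a b
      - (1 : Matrix (Fin n) (Fin n) ℂ) a b‖ < ε

/-- Continuity of a one-dimensional representation. -/
def ContChar (P : Ideal O) (H : Subgroup (GL (Fin m) O)) (χ : H →* ℂˣ) : Prop :=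
  ∀ ε : ℝ, 0 < ε → ∃ N : ℕ, ∀ g : H, CongOne (P ^ N) (g : GL (Fin m) O) →
    ‖((χ g : ℂˣ) : ℂ) - 1‖ < ε

/-- The number of continuous irreducible `n`-dimensional complex representations of `H`, counted up
to `ρ ∼ σ ⊗ χ` with `χ` a continuous one-dimensional representation. -/
def numTwistClasses (P : Ideal O) (H : Subgroup (GL (Fin m) O)) (n : ℕ) : ℕ :=
  Nat.card (Quot (fun ρ σ : {ρ : H →* GL (Fin n) ℂ // Irred ρ ∧ ContRep P H ρ} =>
    ∃ χ : H →* ℂˣ, ContChar P H χ ∧ ∃ T : GL (Fin n) ℂ, ∀ g : H,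
      ((ρ.1 g : GL (Fin n) ℂ) : Matrix (Fin n) (Fin n) ℂ) =
        ((χ g : ℂˣ) : ℂ) • ((T * σ.1 g * T⁻¹ : GL (Fin n) ℂ) : Matrix (Fin n) (Fin n) ℂ)))

end cont

/-- The number `r̃_n(G(O))`, for the `P`-adic topology on `G(O)`; here `O` is a subring of the field
`K ⊇ k` (with inclusions `j : O → K` and `ι : k → K`). -/
def repCount {k 𝔤 O K : Type} [Field k] [LieRing 𝔤] [LieAlgebra k 𝔤] [CommRing O] [Field K]
    {m : ℕ} (G : UniGroup k 𝔤 m) (ι : k →+* K) (j : O →+* K) (P : Ideal O) (n : ℕ) : ℕ :=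
  numTwistClasses P (expGroup (spanOver (Set.range G.ρ) ι) j) n

/-! ## Local fields over a place of a number field -/

/-- `K` is a finite extension of the completion `k_v` and `O` is its ring of integers, the integral
closure of the ring of integers of `k_v` in `K`; `ι : k → K`, `j : O → K` and `a : 𝒪_k → O` are the
canonical maps. -/
structure IsLocalExt {k : Type} [Field k] [NumberField k] (v : HeightOneSpectrum (𝓞 k))
    {O K : Type} [CommRing O] [Field K] (a : 𝓞 k →+* O) (ι : k →+* K) (j : O →+* K) : Prop where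
  exists_hom : ∃ β : v.adicCompletion k →+* K, β.Finite ∧ (∀ x, ι x = β (x : v.adicCompletion k)) ∧
    ∀ y, y ∈ Set.range j ↔ (β.comp (v.adicCompletionIntegers k).subtype).IsIntegralElem y
  inj : Function.Injective j
  compat : ∀ x : 𝓞 k, j (a x) = ι x

/-! ## Schemes: numbers of points and the Euler characteristic -/

section schemes

open AlgebraicGeometry CategoryTheory

/-- The number of points `#V(R)` of an `𝔬`-scheme `V` over an `𝔬`-algebra `b : 𝔬 → R`. -/
def pointCount {𝔬 R : Type} [CommRing 𝔬] [CommRing R] (V : Over (Spec (CommRingCat.of 𝔬)))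
    (b : 𝔬 →+* R) : ℕ :=
  Nat.card (Over.mk (Spec.map (CommRingCat.ofHom b)) ⟶ V)

/-- `χ` is the (topological) Euler characteristic of `V(ℂ)`, expressed through the numbers of points
of `V` over finite fields: for almost all places `v` there are nonzero `α_i ∈ ℂ` and `m_i ∈ ℤ` with
`∑ m_i = χ` such that `#V(F) = ∑ m_i α_i^f` for all `f` and all fields `F` of degree `f` over
`𝔬/v` (Grothendieck's trace formula). -/
def IsEulerCharacteristic {𝔬 : Type} [CommRing 𝔬] (V : Over (Spec (CommRingCat.of 𝔬)))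
    (χ : ℤ) : Prop :=
  ∃ S : Set (HeightOneSpectrum 𝔬), S.Finite ∧ ∀ v ∉ S,
    ∃ (r : ℕ) (α : Fin r → ℂ) (m : Fin r → ℤ), (∀ i, α i ≠ 0) ∧ ∑ i, m i = χ ∧
      ∀ (F : Type) [Field F] (b : 𝔬 →+* F) (f : ℕ), RingHom.ker b = v.asIdeal →
        Nat.card F = Nat.card (𝔬 ⧸ v.asIdeal) ^ f → 0 < f →
        (pointCount V b : ℂ) = ∑ i, (m i : ℂ) * α i ^ f

end schemes

/-! ## Rational functions `W(X, Y)` and the substitution `X = 1 + t`, `Y = (1 + t)^{-s}` -/

/-- The allowed denominators: products of `X`, `Y` and binomials `X^a Y^b - X^c Y^d` with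
`(a, b) ≠ (c, d)`. -/
def cycDen : Submonoid (MvPolynomial (Fin 2) ℚ) :=
  Submonoid.closure ({MvPolynomial.X 0, MvPolynomial.X 1} ∪
    {p | ∃ a b c d : ℕ, (a, b) ≠ (c, d) ∧
      p = MvPolynomial.X 0 ^ a * MvPolynomial.X 1 ^ b
        - MvPolynomial.X 0 ^ c * MvPolynomial.X 1 ^ d})

/-- The binomial series `(1 + t)^{-s}` as a power series in `t` over `ℚ(s)`. -/
def binomS : PowerSeries (RatFunc ℚ) :=
  PowerSeries.mk fun n =>
    (∏ i ∈ Finset.range n, (-RatFunc.X - (i : RatFunc ℚ))) / (n.factorial : RatFunc ℚ)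

/-- The substitution `p(1 + t, (1 + t)^{-s})`. -/
def substT (p : MvPolynomial (Fin 2) ℚ) : PowerSeries (RatFunc ℚ) :=
  MvPolynomial.aeval ![1 + PowerSeries.X, binomS] p

/-- A rational function `W = num / den ∈ ℚ(X, Y)` such that `W(1 + t, (1 + t)^{-s})` is a power
series `ser` in `t` over `ℚ(s)`. -/
structure WData where
  /-- numerator -/
  num : MvPolynomial (Fin 2) ℚ
  /-- denominator -/
  den : MvPolynomial (Fin 2) ℚ
  /-- the denominator is a product of monomials and binomials -/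
  hden : den ∈ cycDen
  /-- the power series `W(1 + t, (1 + t)^{-s})` -/
  ser : PowerSeries (RatFunc ℚ)
  /-- the defining equation of `ser` -/
  hser : substT den * ser = substT num

/-- The value `W(x, y)` at real numbers. -/
def WData.eval (W : WData) (x y : ℝ) : ℝ :=
  MvPolynomial.aeval ![x, y] W.num / MvPolynomial.aeval ![x, y] W.den

/-! ## The data computing the representation zeta function, and omega -/

section data

open AlgebraicGeometry CategoryTheory

/-- The real number `∑ #V_i(O/P) W_i(q, q^{-s})`, `q = |O/P|`. -/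
def zetaSum {𝔬 O : Type} [CommRing 𝔬] [CommRing O] {r : ℕ}
    (V : Fin r → Over (Spec (CommRingCat.of 𝔬))) (W : Fin r → WData) (a : 𝔬 →+* O) (P : Ideal O)
    (s : ℝ) : ℝ :=
  ∑ i, (pointCount (V i) ((Ideal.Quotient.mk P).comp a) : ℝ) *
    (W i).eval (Nat.card (O ⧸ P) : ℝ) ((Nat.card (O ⧸ P) : ℝ) ^ (-s))

/-- `ζ_{G(O)}(s) = ∑ #V_i(O/P) W_i(q, q^{-s})` for all large real `s`. -/
def HasZeta {𝔬 k 𝔤 O K : Type} [CommRing 𝔬] [Field k] [LieRing 𝔤] [LieAlgebra k 𝔤] [CommRing O]
    [Field K] {m : ℕ} (G : UniGroup k 𝔤 m) {r : ℕ} (V : Fin r → Over (Spec (CommRingCat.of 𝔬)))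
    (W : Fin r → WData) (a : 𝔬 →+* O) (ι : k →+* K) (j : O →+* K) (P : Ideal O) : Prop :=
  ∃ s₀ : ℝ, ∀ s : ℝ, s₀ < s →
    HasSum (fun n : ℕ => (repCount G ι j P n : ℝ) * (n : ℝ) ^ (-s)) (zetaSum V W a P s)

variable {k 𝔤 : Type} [Field k] [NumberField k] [LieRing 𝔤] [LieAlgebra k 𝔤] {m : ℕ}

/-- Schemes `V_i` (with their Euler characteristics `χ_i`) and rational functions `W_i` with
`ζ_{G(𝒪_K)}(s) = ∑ #V_i(𝒪_K/P_K) W_i(q_K, q_K^{-s})` for almost all places `v` of `k` and all finite
extensions `K` of `k_v`. -/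
structure RepZetaData (G : UniGroup k 𝔤 m) where
  /-- number of summands -/
  r : ℕ
  /-- the schemes -/
  V : Fin r → Over (Spec (CommRingCat.of (𝓞 k)))
  /-- they are separated -/
  sep : ∀ i, IsSeparated (V i).hom
  /-- they are of finite type -/
  ft : ∀ i, LocallyOfFiniteType (V i).hom ∧ QuasiCompact (V i).hom
  /-- the rational functions -/
  W : Fin r → WData
  /-- the formula for the representation zeta functions -/
  formula : ∃ S : Set (HeightOneSpectrum (𝓞 k)), S.Finite ∧ ∀ v ∉ S,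
    ∀ (O K : Type) [CommRing O] [Field K] (a : 𝓞 k →+* O) (ι : k →+* K) (j : O →+* K),
      IsLocalExt v a ι j → ∀ P : Ideal O, P.IsMaximal → HasZeta G V W a ι j P
  /-- the Euler characteristics -/
  χ : Fin r → ℤ
  /-- they are the Euler characteristics of the `V_i` -/
  hχ : ∀ i, IsEulerCharacteristic (V i) (χ i)

/-- `ω` is the limit of `s (ζ_top(s) - 1)` for `s → ∞`, where `ζ_top` is the topological
representation zeta function `∑ χ_i W_i(1 + t, (1 + t)^{-s})|_{t = 0} ∈ ℚ(s)`. -/
def IsOmega {r : ℕ} (W : Fin r → WData) (χ : Fin r → ℤ) (ω : ℝ) : Prop :=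
  Filter.Tendsto (fun s : ℝ => s * (RatFunc.eval (algebraMap ℚ ℝ) s
    (∑ i, (χ i : RatFunc ℚ) * PowerSeries.constantCoeff (W i).ser) - 1)) Filter.atTop (nhds ω)

end data

end

end MP8c80e8
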