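import Pool.Agent.Lib.MP_8c80e8_al.Definitions

/-!
# Definitions for MP_8c80e8_al (the omega-invariant of a unipotent group)
-/

open scoped TensorProduct NumberField
open IsDedekindDomain

namespace MP8c80e8

noncomputable section

attribute [local instance 100] LieRing.ofAssociativeRing

/-! ## Unipotent groups and their points -/

/-- A unipotent group over a field `k` of characteristic zero, realised as a closed subgroup of the
group of unitriangular `m × m` matrices.  It is given by its Lie algebra, a Lie algebra of strictly
upper triangular matrices over `k`; its points over a field `K ⊇ k` are the matrices `exp x` with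
`x ∈ 𝔤 ⊗ K`. -/
structure UnipotentGroup (k : Type) [Field k] where
  /-- size of the matrices -/
  m : ℕ
  /-- the Lie algebra -/
  lie : LieSubalgebra k (Matrix (Fin m) (Fin m) k)
  /-- its elements are strictly upper triangular -/
  upper : ∀ x ∈ lie, ∀ i j : Fin m, j ≤ i → x i j = 0

section points

variable {k : Type} [Field k] (G : UnipotentGroup k)
variable {O K : Type} [CommRing O] [Field K]

/-- The `K`-span `𝔤 ⊗ K` of the Lie algebra, for a field extension `a : k → K`. -/
def UnipotentGroup.lieOver (a : k →+* K) : Submodule K (Matrix (Fin G.m) (Fin G.m) K) :=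
  Submodule.span K ((fun x : Matrix (Fin G.m) (Fin G.m) k => x.map a) '' (G.lie : Set _))

/-- The group `G(O)` for a subring `O` of `K` (inclusion `j : O → K`): the elements of `GL_m(O)`
which, over `K`, are exponentials of elements of `𝔤 ⊗ K`.  By the Baker-Campbell-Hausdorff formula
these elements form a subgroup already; `Subgroup.closure` only packages them as one. -/
def UnipotentGroup.points (a : k →+* K) (j : O →+* K) : Subgroup (GL (Fin G.m) O) :=
  Subgroup.closure {g | ∃ x ∈ G.lieOver a, (g : Matrix (Fin G.m) (Fin G.m) O).map j = expMat x}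

end points

/-! ## Local fields over a place of a number field -/

section localfields

variable {k : Type} [Field k] [NumberField k] (v : HeightOneSpectrum (𝓞 k))
variable (K : Type) [Field K] [Algebra (v.adicCompletion k) K]

/-- The ring of integers `𝒪_K` of a finite extension `K` of the completion `k_v`. -/
abbrev intRing := integralClosure (v.adicCompletionIntegers k) K

/-- The map `𝒪_k → 𝒪_K`. -/
def toIntRing : 𝓞 k →+* intRing v K :=
  (algebraMap (v.adicCompletionIntegers k) (intRing v K)).comp
    (algebraMap (𝓞 k) (v.adicCompletionIntegers k))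

/-- The map `k → K`. -/
def toField : k →+* K :=
  (algebraMap (v.adicCompletion k) K).comp (algebraMap k (v.adicCompletion k))

/-- The number `r̃_n(G(𝒪_K))`, where `P` is the maximal ideal of `𝒪_K`. -/
def UnipotentGroup.rtilde (G : UnipotentGroup k) (P : Ideal (intRing v K)) (n : ℕ) : ℕ :=
  numTwistClasses P (G.points (toField v K) (algebraMap (intRing v K) K)) n

end localfields

/-! ## Schemes: numbers of points and the Euler characteristic -/

section schemes

open AlgebraicGeometry CategoryTheory

variable {k : Type} [Field k] [NumberField k]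

/-- The number of points `#V(R)` of an `𝒪_k`-scheme `V` over an `𝒪_k`-algebra `b : 𝒪_k → R`. -/
def numPoints (V : Over (Spec (CommRingCat.of (𝓞 k)))) {R : Type} [CommRing R] (b : 𝓞 k →+* R) :
    ℕ :=
  Nat.card (Over.mk (Spec.map (CommRingCat.ofHom b)) ⟶ V)

/-- `χ` is the (topological) Euler characteristic of `V(ℂ)`, expressed through the numbers of points
of `V` over finite fields: for almost all places `v` there are nonzero `α_i ∈ ℂ` and `m_i ∈ ℤ` with
`∑ m_i = χ` such that `#V(F) = ∑ m_i α_i^f` for all `f` and all fields `F` of degree `f` over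
`𝒪_k/v` (Grothendieck's trace formula). -/
def IsEulerChar (V : Over (Spec (CommRingCat.of (𝓞 k)))) (χ : ℤ) : Prop :=
  ∃ S : Set (HeightOneSpectrum (𝓞 k)), S.Finite ∧ ∀ v ∉ S,
    ∃ (r : ℕ) (α : Fin r → ℂ) (m : Fin r → ℤ), (∀ i, α i ≠ 0) ∧ ∑ i, m i = χ ∧
      ∀ (F : Type) [Field F] (b : 𝓞 k →+* F) (f : ℕ), RingHom.ker b = v.asIdeal →
        Nat.card F = Nat.card (𝓞 k ⧸ v.asIdeal) ^ f → 0 < f →
        (numPoints V b : ℂ) = ∑ i, (m i : ℂ) * α i ^ f

end schemes

/-! ## The data computing the representation zeta function, and omega -/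

section data

open AlgebraicGeometry CategoryTheory

variable {k : Type} [Field k] [NumberField k]

/-- Schemes `V_i` (with their Euler characteristics `χ_i`) and rational functions `W_i` with
`ζ_{G(𝒪_K)}(s) = ∑ #V_i(𝒪_K/P_K) W_i(q_K, q_K^{-s})` for almost all places `v` of `k` and all finite
extensions `K` of `k_v`. -/
structure ZetaData (G : UnipotentGroup k) where
  /-- number of summands -/
  r : ℕ
  /-- the schemes -/
  V : Fin r → Over (Spec (CommRingCat.of (𝓞 k)))
  /-- they are separated -/
  sep : ∀ i, IsSeparated (V i).hom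
  /-- they are of finite type -/
  ft : ∀ i, LocallyOfFiniteType (V i).hom ∧ QuasiCompact (V i).hom
  /-- the rational functions -/
  W : Fin r → WData
  /-- the formula for the representation zeta functions -/
  formula : ∃ S : Set (HeightOneSpectrum (𝓞 k)), S.Finite ∧ ∀ v ∉ S,
    ∀ (K : Type) [Field K] [Algebra (v.adicCompletion k) K] [FiniteDimensional (v.adicCompletion k) K]
      (P : Ideal (intRing v K)), P.IsMaximal →
      ∃ s₀ : ℝ, ∀ s : ℝ, s₀ < s →
        HasSum (fun n : ℕ => (G.rtilde v K P n : ℝ) * (n : ℝ) ^ (-s))
          (∑ i, (numPoints (V i) ((Ideal.Quotient.mk P).comp (toIntRing v K)) : ℝ) *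
            (W i).eval (Nat.card (intRing v K ⧸ P) : ℝ) ((Nat.card (intRing v K ⧸ P) : ℝ) ^ (-s)))
  /-- the Euler characteristics -/
  χ : Fin r → ℤ
  /-- they are the Euler characteristics of the `V_i` -/
  hχ : ∀ i, IsEulerChar (V i) (χ i)

/-- The topological representation zeta function `∑ χ_i W_i(1 + t, (1 + t)^{-s})|_{t = 0}`. -/
def ZetaData.top {G : UnipotentGroup k} (D : ZetaData G) : RatFunc ℚ :=
  ∑ i, (D.χ i : RatFunc ℚ) * PowerSeries.constantCoeff (D.W i).ser

/-- `ω = lim_{s → ∞} s (ζ_top(s) - 1)`. -/
def ZetaData.HasOmega {G : UnipotentGroup k} (D : ZetaData G) (ω : ℝ) : Prop :=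
  Filter.Tendsto (fun s : ℝ => s * (RatFunc.eval (algebraMap ℚ ℝ) s D.top - 1)) Filter.atTop
    (nhds ω)

end data

end

end MP8c80e8
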