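import Pool.Agent.Lib.MP_8c80e8_al.Iface

/-! # J9: from a Dirichlet series identity to a power series identity -/

namespace MP8c80e8

noncomputable section

/-- The Dirichlet series coefficients of `p(q^{-s})`. -/
def Dirichlet_ind (q : ℕ) (p : Polynomial ℚ) (n : ℕ) : ℂ :=
  ∑ k ∈ p.support, if n = q ^ k then ((p.coeff k : ℚ) : ℂ) else 0

theorem Dirichlet_ind_pow (q : ℕ) (hq : 2 ≤ q) (p : Polynomial ℚ) (K : ℕ) :
    Dirichlet_ind q p (q ^ K) = ((p.coeff K : ℚ) : ℂ) := by
  rw [Dirichlet_ind]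
  have h : ∀ k, (q ^ K = q ^ k) ↔ K = k := fun k =>
    ⟨fun h => Nat.pow_right_injective hq h, fun h => by rw [h]⟩
  simp only [h]
  rw [Finset.sum_ite_eq]
  split_ifs with hk
  · rfl
  · rw [Polynomial.notMem_support_iff.mp hk]
    simp

theorem Dirichlet_ind_eq_zero (q : ℕ) (p : Polynomial ℚ) (n : ℕ) (hn : ∀ k, n ≠ q ^ k) :
    Dirichlet_ind q p n = 0 := by
  rw [Dirichlet_ind]
  refine Finset.sum_eq_zero fun k _ => ?_
  rw [if_neg (hn k)]

theorem Dirichlet_ind_hasSum (q : ℕ) (hq : 2 ≤ q) (p : Polynomial ℚ) (s : ℝ) :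
    LSeriesHasSum (Dirichlet_ind q p) s
      ((Polynomial.aeval ((q : ℝ) ^ (-s)) p : ℝ) : ℂ) := by
  have hq0 : q ≠ 0 := by omega
  rw [LSeriesHasSum]
  have h1 : LSeries.term (Dirichlet_ind q p) s = fun n => ∑ k ∈ p.support,
      if n = q ^ k then ((p.coeff k : ℚ) : ℂ) * (((q : ℝ) ^ (-s) : ℝ) : ℂ) ^ k else 0 := by
    funext n
    rcases eq_or_ne n 0 with rfl | hn
    · rw [LSeries.term_zero]
      symm
      refine Finset.sum_eq_zero fun k _ => ?_
      rw [if_neg]
      exact (pow_ne_zero k hq0).symm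
    · rw [LSeries.term_of_ne_zero hn, Dirichlet_ind, Finset.sum_div]
      refine Finset.sum_congr rfl fun k _ => ?_
      split_ifs with h
      · subst h
        have hq' : (0 : ℝ) ≤ (q : ℝ) := by positivity
        have e1 : (((q ^ k : ℕ) : ℂ)) ^ (s : ℂ) = ((((q : ℝ) ^ k) ^ s : ℝ) : ℂ) := by
          rw [Complex.ofReal_cpow (by positivity)]
          push_cast
          rfl
        rw [e1]
        have e2 : ((q : ℝ) ^ (-s)) ^ k = (((q : ℝ) ^ k) ^ s)⁻¹ := by
          rw [← Real.rpow_natCast, ← Real.rpow_natCast, ← Real.rpow_mul hq', ← Real.rpow_mul hq',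
            ← Real.rpow_neg hq']
          congr 1
          ring
        have e3 : (((q : ℝ) ^ (-s) : ℝ) : ℂ) ^ k = ((((q : ℝ) ^ k) ^ s : ℝ) : ℂ)⁻¹ := by
          rw [← Complex.ofReal_inv, ← e2]
          push_cast
          rfl
        rw [e3]
        rw [div_eq_mul_inv]
      · simp
  rw [h1]
  have h2 : ((Polynomial.aeval ((q : ℝ) ^ (-s)) p : ℝ) : ℂ) =
      ∑ k ∈ p.support, ((p.coeff k : ℚ) : ℂ) * (((q : ℝ) ^ (-s) : ℝ) : ℂ) ^ k := by
    rw [Polynomial.aeval_eq_sum_range' (n := p.natDegree + 1) (Nat.lt_succ_self _)]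
    rw [Complex.ofReal_sum]
    symm
    refine Finset.sum_subset_zero_on_sdiff ?_ ?_ ?_
    · intro k hk
      rw [Finset.mem_range]
      exact Nat.lt_succ_of_le (Polynomial.le_natDegree_of_mem_supp k hk)
    · intro k hk
      rw [Finset.mem_sdiff] at hk
      rw [Polynomial.notMem_support_iff.mp hk.2]
      simp
    · intro k _
      rw [Algebra.smul_def]
      push_cast
      simp
  rw [h2]
  refine hasSum_sum fun k _ => ?_
  exact hasSum_ite_eq (q ^ k) _

theorem Dirichlet_aeval_specY (x : ℚ) (y : ℝ) (p : MvPolynomial (Fin 2) ℚ) :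
    Polynomial.aeval y (specY x p) = MvPolynomial.aeval ![(x : ℝ), y] p := by
  have h : (Polynomial.aeval y).comp (MvPolynomial.aeval ![Polynomial.C x, Polynomial.X]) =
      (MvPolynomial.aeval ![(x : ℝ), y] : MvPolynomial (Fin 2) ℚ →ₐ[ℚ] ℝ) := by
    apply MvPolynomial.algHom_ext
    intro i
    fin_cases i
    · simp
    · simp
  exact DFunLike.congr_fun h p

theorem Dirichlet_specY_ne_zero (q : ℕ) (hq : 2 ≤ q) {p : MvPolynomial (Fin 2) ℚ}
    (hp : p ∈ cycDen) : specY (q : ℚ) p ≠ 0 := by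
  have hq0 : (q : ℚ) ≠ 0 := by
    have : q ≠ 0 := by omega
    exact_mod_cast this
  rw [cycDen] at hp
  refine Submonoid.closure_induction (motive := fun p _ => specY (q : ℚ) p ≠ 0) ?_ ?_ ?_ hp
  · rintro x (hx | hx)
    · rcases hx with rfl | hx
      · rw [specY, MvPolynomial.aeval_X]
        simpa using hq0
      · rw [Set.mem_singleton_iff] at hx
        subst hx
        rw [specY, MvPolynomial.aeval_X]
        simp
    · obtain ⟨a, b, c, d, hne, rfl⟩ := hx
      rw [specY]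
      simp only [map_sub, map_mul, map_pow, MvPolynomial.aeval_X, Matrix.cons_val_zero,
        Matrix.cons_val_one]
      intro h
      rw [sub_eq_zero, ← map_pow, ← map_pow] at h
      have h1 := congrArg (fun r => Polynomial.coeff r b) h
      simp only [Polynomial.coeff_C_mul, Polynomial.coeff_X_pow, if_true, mul_one] at h1
      split_ifs at h1 with hbd
      · rw [mul_one] at h1
        have h2 : q ^ a = q ^ c := by exact_mod_cast h1
        exact hne (Prod.ext (Nat.pow_right_injective hq h2) hbd)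
      · rw [mul_zero] at h1
        exact pow_ne_zero a hq0 h1
  · rw [specY, map_one]
    exact one_ne_zero
  · intro x y _ _ hx hy
    have : specY (q : ℚ) (x * y) = specY (q : ℚ) x * specY (q : ℚ) y := by
      rw [specY, map_mul]; rfl
    rw [this]
    exact mul_ne_zero hx hy

theorem Dirichlet_tendsto (q : ℕ) (hq : 2 ≤ q) :
    Filter.Tendsto (fun s : ℝ => (q : ℝ) ^ (-s)) Filter.atTop (nhds 0) := by
  have hq1 : (1 : ℝ) < q := by exact_mod_cast (by omega : 1 < q)
  have h := tendsto_rpow_atTop_of_base_gt_one (q : ℝ) hq1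
  have h2 := h.inv_tendsto_atTop
  refine h2.congr fun s => ?_
  rw [Pi.inv_apply, Real.rpow_neg (by positivity)]

theorem Dirichlet_eventually_ne (q : ℕ) (hq : 2 ≤ q) (p : Polynomial ℚ) (hp : p ≠ 0) :
    ∀ᶠ s : ℝ in Filter.atTop, Polynomial.aeval ((q : ℝ) ^ (-s)) p ≠ 0 := by
  have hfin : (p.rootSet ℝ).Finite := Polynomial.rootSet_finite p ℝ
  have hfin' : ((p.rootSet ℝ) \ {0}).Finite := hfin.subset Set.sdiff_subset
  have hmem : ((p.rootSet ℝ) \ {0})ᶜ ∈ nhds (0 : ℝ) :=
    hfin'.isClosed.isOpen_compl.mem_nhds (by simp)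
  filter_upwards [(Dirichlet_tendsto q hq).eventually hmem] with s hs h0
  apply hs
  refine ⟨?_, ?_⟩
  · rw [Polynomial.mem_rootSet]
    exact ⟨hp, h0⟩
  · have hqp : (0 : ℝ) < q := by exact_mod_cast (by omega : 0 < q)
    exact (Real.rpow_pos_of_pos hqp _).ne'

theorem dirichlet (q : ℕ) (hq : 2 ≤ q) (a : ℕ → ℕ) {r : ℕ} (W : Fin r → WData) (N : Fin r → ℕ)
    (s₀ : ℝ) (h : ∀ s : ℝ, s₀ < s → HasSum (fun n : ℕ => (a n : ℝ) * (n : ℝ) ^ (-s))
      (∑ i, (N i : ℝ) * (W i).eval (q : ℝ) ((q : ℝ) ^ (-s)))) :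
    SeriesRel W (fun i => (N i : ℤ)) (q : ℚ) (fun k => (a (q ^ k) : ℚ)) := by
  classical
  have hq0 : q ≠ 0 := by omega
  set D : Polynomial ℚ := ∏ i, specY (q : ℚ) (W i).den with hD
  set P : Polynomial ℚ := ∑ i, Polynomial.C (((N i : ℤ) : ℚ)) * specY (q : ℚ) (W i).num *
      ∏ i' ∈ Finset.univ.erase i, specY (q : ℚ) (W i').den with hP
  -- the Dirichlet series of `a`
  have hasum : ∀ s : ℝ, max s₀ 0 < s → LSeriesHasSum (fun n => (a n : ℂ)) s
      ((∑ i, (N i : ℝ) * (W i).eval (q : ℝ) ((q : ℝ) ^ (-s)) : ℝ) : ℂ) := by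
    intro s hs
    have h1 := h s ((le_max_left _ _).trans_lt hs)
    have hs0 : 0 < s := (le_max_right _ _).trans_lt hs
    rw [LSeriesHasSum]
    have h2 : LSeries.term (fun n => (a n : ℂ)) s =
        fun n : ℕ => (((a n : ℝ) * (n : ℝ) ^ (-s) : ℝ) : ℂ) := by
      funext n
      rcases eq_or_ne n 0 with rfl | hn
      · rw [LSeries.term_zero, Nat.cast_zero (R := ℝ), Real.zero_rpow (by linarith)]
        simp
      · rw [LSeries.term_of_ne_zero hn, Real.rpow_neg (by positivity)]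
        push_cast
        rw [Complex.ofReal_cpow (by positivity), div_eq_mul_inv]
        push_cast
        rfl
    rw [h2]
    exact Complex.hasSum_ofReal.mpr h1
  -- the identity for large `s`
  have hden : ∀ᶠ s : ℝ in Filter.atTop, ∀ i,
      Polynomial.aeval ((q : ℝ) ^ (-s)) (specY (q : ℚ) (W i).den) ≠ 0 := by
    rw [Filter.eventually_all]
    intro i
    exact Dirichlet_eventually_ne q hq _ (Dirichlet_specY_ne_zero q hq (W i).hden)
  have hident : ∀ᶠ s : ℝ in Filter.atTop,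
      (∑ i, (N i : ℝ) * (W i).eval (q : ℝ) ((q : ℝ) ^ (-s))) *
        Polynomial.aeval ((q : ℝ) ^ (-s)) D = Polynomial.aeval ((q : ℝ) ^ (-s)) P := by
    filter_upwards [hden] with s hs
    rw [hD, hP, map_prod, map_sum, Finset.sum_mul]
    refine Finset.sum_congr rfl fun i _ => ?_
    rw [← Finset.mul_prod_erase Finset.univ _ (Finset.mem_univ i)]
    rw [map_mul, map_mul, map_prod, Polynomial.aeval_C, WData.eval,
      ← Rat.cast_natCast (α := ℝ) q, ← Dirichlet_aeval_specY, ← Dirichlet_aeval_specY,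
      Rat.cast_natCast]
    have := hs i
    simp only [eq_ratCast, Int.cast_natCast, Rat.cast_natCast]
    field_simp
  have hLS : (fun x : ℝ ↦ LSeries (LSeries.convolution (fun n => (a n : ℂ)) (Dirichlet_ind q D)) x) =ᶠ[Filter.atTop]
      fun x : ℝ ↦ LSeries (Dirichlet_ind q P) x := by
    filter_upwards [hident, Filter.eventually_gt_atTop (max s₀ 0)] with s hs hs0
    have h1 := (hasum s hs0).convolution (Dirichlet_ind_hasSum q hq D s)
    rw [h1.LSeries_eq, (Dirichlet_ind_hasSum q hq P s).LSeries_eq, ← hs]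
    push_cast
    rfl
  have hPabs : LSeries.abscissaOfAbsConv (Dirichlet_ind q P) < ⊤ :=
    (LSeries.abscissaOfAbsConv_le_of_forall_lt_LSeriesSummable (x := 0)
      fun y _ => (Dirichlet_ind_hasSum q hq P y).LSeriesSummable).trans_lt (EReal.coe_lt_top _)
  have haabs : LSeries.abscissaOfAbsConv (LSeries.convolution (fun n => (a n : ℂ)) (Dirichlet_ind q D)) < ⊤ :=
    (LSeries.abscissaOfAbsConv_le_of_forall_lt_LSeriesSummable (x := max s₀ 0)
      fun y hy => ((hasum y hy).convolution (Dirichlet_ind_hasSum q hq D y)).LSeriesSummable).trans_lt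
        (EReal.coe_lt_top _)
  have hcoef : ∀ K : ℕ, (LSeries.convolution (fun n => (a n : ℂ)) (Dirichlet_ind q D)) (q ^ K) =
      Dirichlet_ind q P (q ^ K) := fun K =>
    LSeries.eq_of_LSeries_eventually_eq haabs hPabs hLS (pow_ne_zero K hq0)
  -- conclusion
  change PowerSeries.mk (fun k => (a (q ^ k) : ℚ)) * (D : PowerSeries ℚ) = (P : PowerSeries ℚ)
  ext K
  rw [PowerSeries.coeff_mul, Polynomial.coeff_coe]
  have h1 := hcoef K
  rw [Dirichlet_ind_pow q hq, LSeries.convolution_def] at h1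
  have h2 : ∑ p ∈ Finset.HasAntidiagonal.antidiagonal K, (a (q ^ p.1) : ℂ) * ((D.coeff p.2 : ℚ) : ℂ) =
      ∑ p ∈ (q ^ K).divisorsAntidiagonal, (a p.1 : ℂ) * Dirichlet_ind q D p.2 := by
    refine Finset.sum_of_injOn (fun p : ℕ × ℕ => (q ^ p.1, q ^ p.2)) ?_ ?_ ?_ ?_
    · rintro ⟨x, y⟩ _ ⟨x', y'⟩ _ hxy
      simp only [Prod.mk.injEq] at hxy
      exact Prod.ext (Nat.pow_right_injective hq hxy.1) (Nat.pow_right_injective hq hxy.2)
    · rintro ⟨x, y⟩ hxy
      simp only [Finset.mem_coe, Finset.HasAntidiagonal.mem_antidiagonal, Nat.mem_divisorsAntidiagonal] at hxy ⊢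
      exact ⟨by rw [← pow_add, hxy], pow_ne_zero K hq0⟩
    · rintro ⟨x, y⟩ hxy hnot
      rw [Nat.mem_divisorsAntidiagonal] at hxy
      by_cases hy : ∃ k, y = q ^ k
      · obtain ⟨k, rfl⟩ := hy
        exfalso
        have hkK : k ≤ K := by
          have : q ^ k ∣ q ^ K := ⟨x, by rw [← hxy.1]; ring⟩
          exact (Nat.pow_dvd_pow_iff_le_right hq).mp this
        apply hnot
        refine ⟨(K - k, k), ?_, ?_⟩
        · simp only [Finset.mem_coe, Finset.HasAntidiagonal.mem_antidiagonal]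
          omega
        · simp only [Prod.mk.injEq, and_true]
          have h3 : x * q ^ k = q ^ (K - k) * q ^ k := by
            rw [← pow_add, Nat.sub_add_cancel hkK]
            exact hxy.1
          exact (Nat.eq_of_mul_eq_mul_right (pow_pos (by omega) k) h3).symm
      · push Not at hy
        rw [Dirichlet_ind_eq_zero q D y hy, mul_zero]
    · rintro ⟨x, y⟩ _
      rw [Dirichlet_ind_pow q hq]
  change ∑ p ∈ (q ^ K).divisorsAntidiagonal, (a p.1 : ℂ) * Dirichlet_ind q D p.2 = _ at h1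
  rw [← h2] at h1
  have h3 : ((∑ p ∈ Finset.HasAntidiagonal.antidiagonal K, (PowerSeries.coeff p.1)
      (PowerSeries.mk fun k => (a (q ^ k) : ℚ)) * (PowerSeries.coeff p.2) (D : PowerSeries ℚ) : ℚ) : ℂ)
      = ((P.coeff K : ℚ) : ℂ) := by
    rw [← h1]
    push_cast
    refine Finset.sum_congr rfl fun p _ => ?_
    rw [PowerSeries.coeff_mk]
    push_cast
    rfl
  exact_mod_cast h3

end

end MP8c80e8
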