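import Pool.Agent.Lib.MP_8c80e8_al.Iface

/-! # J8: the `ℓ`-adic limit of exponential sums -/

namespace MP8c80e8

noncomputable section

theorem Ell_isJacobsonRing_int : IsJacobsonRing ℤ := by
  rw [isJacobsonRing_iff_prime_eq]
  intro P hP
  by_cases h0 : P = ⊥
  · subst h0
    refine le_antisymm ?_ Ideal.le_jacobson
    intro x hx
    rw [Ideal.mem_bot]
    by_contra hx0
    obtain ⟨p, hp, hpp⟩ := Nat.exists_infinite_primes (x.natAbs + 1)
    have hpZ : Prime (p : ℤ) := Nat.prime_iff_prime_int.mp hpp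
    have hmax : (Ideal.span {(p : ℤ)}).IsMaximal :=
      PrincipalIdealRing.isMaximal_of_irreducible hpZ.irreducible
    have hx' : x ∈ Ideal.span {(p : ℤ)} := by
      have := Ideal.mem_sInf.mp hx (I := Ideal.span {(p : ℤ)}) ⟨bot_le, hmax⟩
      exact this
    rw [Ideal.mem_span_singleton] at hx'
    have h1 := Int.natAbs_dvd_natAbs.mpr hx'
    have h2 := Nat.le_of_dvd (Int.natAbs_pos.mpr hx0) h1
    simp at h2
    omega
  · have hmax : P.IsMaximal := hP.isMaximal h0
    exact Ideal.jacobson_eq_self_of_isMaximal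

/-- A finitely generated ring which is a field is finite. -/
theorem Ell_finite_field (E : Type) [Field E] [Algebra.FiniteType ℤ E] : Finite E := by
  have := Ell_isJacobsonRing_int
  have : Module.Finite ℤ E := finite_of_finite_type_of_isJacobsonRing ℤ E
  obtain ⟨p, hp⟩ := CharP.exists E
  have hp0 : p ≠ 0 := by
    rintro rfl
    have : CharZero E := CharP.charP_to_charZero E
    have hinj : Function.Injective (algebraMap ℤ E) := by
      intro a b h
      simpa using h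
    have := isField_of_isIntegral_of_isField hinj (Field.toIsField E)
    exact Int.not_isField this
  have : NeZero p := ⟨hp0⟩
  let : Algebra (ZMod p) E := ZMod.algebra E p
  have : Module.Finite (ZMod p) E := by
    obtain ⟨s, hs⟩ := (Module.finite_def.mp (inferInstance : Module.Finite ℤ E))
    refine ⟨⟨s, ?_⟩⟩
    rw [eq_top_iff]
    intro x _
    have hx : x ∈ Submodule.span ℤ (s : Set E) := by rw [hs]; trivial
    refine Submodule.span_induction (p := fun x _ => x ∈ Submodule.span (ZMod p) (s : Set E))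
      ?_ ?_ ?_ ?_ hx
    · intro y hy
      exact Submodule.subset_span hy
    · exact Submodule.zero_mem _
    · intro y z _ _ hy hz
      exact Submodule.add_mem _ hy hz
    · intro a y _ hy
      exact zsmul_mem hy a
  exact Module.finite_of_finite (ZMod p)

theorem exists_ell {I : Type} [Fintype I] (α : I → ℂ) (hα : ∀ i, α i ≠ 0) (q : ℕ) (hq : 2 ≤ q) :
    ∃ (ℓ : ℕ) (_ : Fact ℓ.Prime) (f : ℕ → ℕ), (∀ j, 0 < f j) ∧
      Filter.Tendsto (fun j => (q : ℚ_[ℓ]) ^ (f j)) Filter.atTop (nhds 1) ∧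
      ∀ (m : I → ℤ) (N : ℕ → ℤ), (∀ j, (N j : ℂ) = ∑ i, (m i : ℂ) * α i ^ (f j)) →
        Filter.Tendsto (fun j => (N j : ℚ_[ℓ])) Filter.atTop (nhds ((∑ i, m i : ℤ) : ℚ_[ℓ])) := by
  classical
  have hq0 : (q : ℂ) ≠ 0 := by
    have : q ≠ 0 := by omega
    exact_mod_cast this
  -- the ring S
  let gens : Finset ℂ := (Finset.univ.image α ∪ Finset.univ.image fun i => (α i)⁻¹) ∪ {(q : ℂ)⁻¹}
  let S : Subalgebra ℤ ℂ := Algebra.adjoin ℤ (gens : Set ℂ)
  have hSft : Algebra.FiniteType ℤ S := (Subalgebra.fg_iff_finiteType S).mp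
    (Subalgebra.fg_adjoin_finset gens)
  have hN : IsNoetherianRing S := Algebra.FiniteType.isNoetherianRing ℤ S
  have hmemα : ∀ i, α i ∈ S := fun i => Algebra.subset_adjoin (by simp [gens])
  have hmemα' : ∀ i, (α i)⁻¹ ∈ S := fun i => Algebra.subset_adjoin (by simp [gens])
  have hmemq : (q : ℂ)⁻¹ ∈ S := Algebra.subset_adjoin (by simp [gens])
  -- units
  let ua : I → Sˣ := fun i =>
    { val := ⟨α i, hmemα i⟩
      inv := ⟨(α i)⁻¹, hmemα' i⟩
      val_inv := by ext; simp [hα i]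
      inv_val := by ext; simp [hα i] }
  let uq : Sˣ :=
    { val := (q : S)
      inv := ⟨(q : ℂ)⁻¹, hmemq⟩
      val_inv := by ext; simp [hq0]
      inv_val := by ext; simp [hq0] }
  obtain ⟨M, hM⟩ := Ideal.exists_maximal S
  let : Field (S ⧸ M) := Ideal.Quotient.field M
  have hft : @Algebra.FiniteType ℤ (S ⧸ M) _ _ (Ring.toIntAlgebra _) := by
    exact @Algebra.FiniteType.of_surjective ℤ S (S ⧸ M) _ _ _ _ (Ring.toIntAlgebra _) hSft
      (Ideal.Quotient.mk M).toIntAlgHom Ideal.Quotient.mk_surjective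
  have hfin : Finite (S ⧸ M) := @Ell_finite_field (S ⧸ M) (Ideal.Quotient.field M) hft
  have hfinpow : ∀ k, Finite (S ⧸ M ^ k) := fun k =>
    Ideal.finite_quotient_pow (IsNoetherian.noetherian M) k
  -- the residue characteristic
  obtain ⟨ℓ, hℓ⟩ := CharP.exists (S ⧸ M)
  have hℓp : ℓ.Prime := by
    rcases CharP.char_is_prime_or_zero (S ⧸ M) ℓ with h | h
    · exact h
    · exfalso
      subst h
      have : CharZero (S ⧸ M) := CharP.charP_to_charZero _
      exact not_finite (S ⧸ M)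
  have : Fact ℓ.Prime := ⟨hℓp⟩
  have hℓM : (ℓ : S) ∈ M := by
    rw [← Ideal.Quotient.eq_zero_iff_mem]
    simp
  have hkrull := Ideal.iInf_pow_eq_bot_of_isDomain M hM.ne_top
  have hex : ∀ k : ℕ, ∃ t : ℕ, ((ℓ : S)) ^ k ∉ M ^ t := by
    intro k
    by_contra hcon
    push Not at hcon
    have h1 : (ℓ : S) ^ k ∈ ⨅ i, M ^ i := by
      rw [Ideal.mem_iInf]
      exact hcon
    rw [hkrull, Ideal.mem_bot] at h1
    have h2 := congrArg (fun x : S => (x : ℂ)) h1
    simp only [SubmonoidClass.coe_pow, ZeroMemClass.coe_zero] at h2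
    have h3 : ((ℓ : S) : ℂ) = (ℓ : ℂ) := by simp
    rw [h3] at h2
    have h4 : (ℓ : ℂ) ≠ 0 := by exact_mod_cast hℓp.ne_zero
    exact pow_ne_zero k h4 h2
  choose t ht using hex
  -- divisibility
  have hdvd : ∀ (k : ℕ) (n : ℤ), (n : S) ∈ M ^ t k → ((ℓ : ℤ) ^ k) ∣ n := by
    intro k n hn
    by_contra hnd
    by_cases hn0 : n = 0
    · subst hn0
      exact hnd (dvd_zero _)
    have hℓZ : Prime (ℓ : ℤ) := Nat.prime_iff_prime_int.mp hℓp
    obtain ⟨v, n', hn', hnv⟩ : ∃ (v : ℕ) (n' : ℤ), ¬ (ℓ : ℤ) ∣ n' ∧ n = (ℓ : ℤ) ^ v * n' := by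
      have hfm : FiniteMultiplicity (ℓ : ℤ) n := FiniteMultiplicity.of_prime_left hℓZ hn0
      obtain ⟨c, hc, hcd⟩ := hfm.exists_eq_pow_mul_and_not_dvd
      exact ⟨_, c, hcd, hc⟩
    have hvk : v < k := by
      by_contra hkv
      push Not at hkv
      apply hnd
      rw [hnv]
      exact (pow_dvd_pow _ hkv).mul_right _
    have hcop : IsCoprime n' ((ℓ : ℤ) ^ (t k)) := by
      apply IsCoprime.pow_right
      exact (hℓZ.coprime_iff_not_dvd.mpr hn').symm
    obtain ⟨a, b, hab⟩ := hcop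
    have hv : (ℓ : ℤ) ^ v = a * n + b * (ℓ : ℤ) ^ (t k) * (ℓ : ℤ) ^ v := by
      rw [hnv]
      calc (ℓ : ℤ) ^ v = (a * n' + b * (ℓ : ℤ) ^ (t k)) * (ℓ : ℤ) ^ v := by rw [hab, one_mul]
        _ = _ := by ring
    have hvS : (ℓ : S) ^ v ∈ M ^ t k := by
      have h1 : (ℓ : S) ^ v = (a : S) * (n : S) + (b : S) * (ℓ : S) ^ (t k) * (ℓ : S) ^ v := by
        have := congrArg (fun z : ℤ => (z : S)) hv
        simpa using this
      rw [h1]
      refine Ideal.add_mem _ (Ideal.mul_mem_left _ _ hn) ?_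
      refine Ideal.mul_mem_right _ _ (Ideal.mul_mem_left _ _ ?_)
      exact Ideal.pow_mem_pow hℓM _
    apply ht k
    obtain ⟨c, hc⟩ := pow_dvd_pow (ℓ : S) hvk.le
    rw [hc]
    exact Ideal.mul_mem_right _ _ hvS
  -- the exponents
  let f : ℕ → ℕ := fun k => Nat.card (S ⧸ M ^ t k)ˣ
  have hf : ∀ k, 0 < f k := fun k => Nat.card_pos
  have hunit : ∀ (k : ℕ) (u : Sˣ), (u : S) ^ f k - 1 ∈ M ^ t k := by
    intro k u
    rw [← Ideal.Quotient.eq_zero_iff_mem, map_sub, map_pow, map_one, sub_eq_zero]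
    have h1 := pow_card_eq_one' (x := Units.map (Ideal.Quotient.mk (M ^ t k)).toMonoidHom u)
    have h2 := congrArg Units.val h1
    rw [Units.val_pow_eq_pow_val] at h2
    exact h2
  -- convergence from membership
  have hconv : ∀ (a : ℕ → ℤ) (c : ℤ), (∀ k, ((a k - c : ℤ) : S) ∈ M ^ t k) →
      Filter.Tendsto (fun k => (a k : ℚ_[ℓ])) Filter.atTop (nhds (c : ℚ_[ℓ])) := by
    intro a c hac
    rw [tendsto_iff_norm_sub_tendsto_zero]
    have hb : ∀ k : ℕ, ‖(a k : ℚ_[ℓ]) - (c : ℚ_[ℓ])‖ ≤ ((ℓ : ℝ)⁻¹) ^ k := by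
      intro k
      have h1 := (Padic.norm_int_le_pow_iff_dvd (p := ℓ) (a k - c) k).mpr
        (by exact_mod_cast hdvd k _ (hac k))
      rw [zpow_neg, zpow_natCast, ← inv_pow] at h1
      push_cast at h1
      exact h1
    refine squeeze_zero (fun _ => norm_nonneg _) hb ?_
    apply tendsto_pow_atTop_nhds_zero_of_lt_one
    · positivity
    · apply inv_lt_one_of_one_lt₀
      exact_mod_cast hℓp.one_lt
  refine ⟨ℓ, ⟨hℓp⟩, f, hf, ?_, ?_⟩
  · have := hconv (fun k => (q : ℤ) ^ f k) 1 (by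
      intro k
      have := hunit k uq
      simpa [uq] using this)
    simpa using this
  · intro m N hNm
    apply hconv N
    intro k
    have h1 : ((N k - ∑ i, m i : ℤ) : S) = ∑ i, (m i : S) * ((ua i : S) ^ f k - 1) := by
      apply Subtype.ext
      have h2 := hNm k
      simp only [AddSubgroupClass.coe_sub, Int.cast_sub, Int.cast_sum] at *
      simp only [mul_sub, mul_one, Finset.sum_sub_distrib]
      push_cast
      rw [h2]
    rw [h1]
    refine Ideal.sum_mem _ fun i _ => Ideal.mul_mem_left _ _ (hunit k (ua i))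

end

end MP8c80e8
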