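import Pool.Agent.Lib.MP_8c80e8_al.Iface

/-!
# The exponential of strictly upper triangular matrices over a commutative ring
-/

open scoped TensorProduct NumberField
open IsDedekindDomain

namespace MP8c80e8

noncomputable section

section expo
variable {R S : Type} [CommRing R] [CommRing S] {m : ℕ}

/-- The entries `(i, j)` with `j < i + d` vanish. -/
def Depth (d : ℕ) (x : Matrix (Fin m) (Fin m) R) : Prop :=
  ∀ i j : Fin m, (j : ℕ) < i + d → x i j = 0

theorem Depth.zero_mat (d : ℕ) : Depth d (0 : Matrix (Fin m) (Fin m) R) := fun _ _ _ => rfl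

theorem depth_zero (x : Matrix (Fin m) (Fin m) R) (hx : ∀ i j : Fin m, j < i → x i j = 0) :
    Depth 0 x := fun i j h => hx i j (by rw [Fin.lt_def]; omega)

theorem Depth.mono {d e : ℕ} {x : Matrix (Fin m) (Fin m) R} (hx : Depth e x) (h : d ≤ e) :
    Depth d x := fun i j hij => hx i j (by omega)

theorem Depth.add {d : ℕ} {x y : Matrix (Fin m) (Fin m) R} (hx : Depth d x) (hy : Depth d y) :
    Depth d (x + y) := fun i j h => by rw [Matrix.add_apply, hx i j h, hy i j h, add_zero]

theorem Depth.neg {d : ℕ} {x : Matrix (Fin m) (Fin m) R} (hx : Depth d x) :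
    Depth d (-x) := fun i j h => by rw [Matrix.neg_apply, hx i j h, neg_zero]

theorem Depth.sub {d : ℕ} {x y : Matrix (Fin m) (Fin m) R} (hx : Depth d x) (hy : Depth d y) :
    Depth d (x - y) := fun i j h => by rw [Matrix.sub_apply, hx i j h, hy i j h, sub_zero]

theorem Depth.smul {d : ℕ} {x : Matrix (Fin m) (Fin m) R} (hx : Depth d x) (c : R) :
    Depth d (c • x) := fun i j h => by rw [Matrix.smul_apply, hx i j h, smul_zero]

theorem Depth.sum {I : Type*} {d : ℕ} (s : Finset I) {x : I → Matrix (Fin m) (Fin m) R}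
    (hx : ∀ i ∈ s, Depth d (x i)) : Depth d (∑ i ∈ s, x i) := fun i j h => by
  rw [Matrix.sum_apply]
  exact Finset.sum_eq_zero fun a ha => hx a ha i j h

theorem Depth.mul {d e : ℕ} {x y : Matrix (Fin m) (Fin m) R} (hx : Depth d x) (hy : Depth e y) :
    Depth (d + e) (x * y) := fun i j h => by
  rw [Matrix.mul_apply]
  refine Finset.sum_eq_zero fun a _ => ?_
  by_cases ha : (a : ℕ) < i + d
  · rw [hx i a ha, zero_mul]
  · rw [hy a j (by omega), mul_zero]

theorem Depth.one_mat : Depth 0 (1 : Matrix (Fin m) (Fin m) R) := fun i j h => by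
  rw [Matrix.one_apply_ne]
  intro hij
  rw [hij] at h
  omega

theorem Depth.pow {x : Matrix (Fin m) (Fin m) R} (hx : Depth 1 x) (n : ℕ) : Depth n (x ^ n) := by
  induction n with
  | zero => rw [pow_zero]; exact Depth.one_mat
  | succ n ih => rw [pow_succ]; exact ih.mul hx

theorem Depth.eq_zero {d : ℕ} {x : Matrix (Fin m) (Fin m) R} (hx : Depth d x) (h : m ≤ d) :
    x = 0 := by
  ext i j
  exact hx i j (by omega)

theorem StrictUpper.depth {x : Matrix (Fin m) (Fin m) R} (hx : StrictUpper x) : Depth 1 x :=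
  fun i j h => hx i j (by rw [Fin.le_def]; omega)

theorem Depth.strictUpper {d : ℕ} {x : Matrix (Fin m) (Fin m) R} (hx : Depth d x) (hd : 1 ≤ d) :
    StrictUpper x :=
  fun i j h => hx i j (by rw [Fin.le_def] at h; omega)

theorem StrictUpper.neg' {x : Matrix (Fin m) (Fin m) R} (hx : StrictUpper x) : StrictUpper (-x) :=
  hx.depth.neg.strictUpper le_rfl

theorem StrictUpper.add' {x y : Matrix (Fin m) (Fin m) R} (hx : StrictUpper x)
    (hy : StrictUpper y) : StrictUpper (x + y) :=
  (hx.depth.add hy.depth).strictUpper le_rfl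

theorem StrictUpper.sub' {x y : Matrix (Fin m) (Fin m) R} (hx : StrictUpper x)
    (hy : StrictUpper y) : StrictUpper (x - y) :=
  (hx.depth.sub hy.depth).strictUpper le_rfl

theorem depth_adM {d e : ℕ} {x y : Matrix (Fin m) (Fin m) R} (hx : Depth d x) (hy : Depth e y) :
    Depth (d + e) (adM x y) :=
  (hx.mul hy).sub (by rw [add_comm]; exact hy.mul hx)

theorem depth_adM_iterate {y u : Matrix (Fin m) (Fin m) R} (hy : StrictUpper y) {d : ℕ}
    (hu : Depth d u) (n : ℕ) : Depth (d + n) ((adM y)^[n] u) := by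
  induction n with
  | zero => exact hu
  | succ n ih =>
    rw [Function.iterate_succ_apply']
    have := depth_adM hy.depth ih
    exact this.mono (by omega)

/-- the terms of degree at least two of the exponential -/
def expTail (x : Matrix (Fin m) (Fin m) R) : Matrix (Fin m) (Fin m) R :=
  ∑ j ∈ (Finset.range m).filter (2 ≤ ·), (Ring.inverse (j.factorial : R)) • x ^ j

theorem expR_eq_tail {x : Matrix (Fin m) (Fin m) R} (hx : StrictUpper x) :
    expR x = 1 + x + expTail x := by
  rcases Nat.lt_or_ge m 2 with hm | hm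
  · have hx0 : Depth m x := hx.depth.mono (by omega)
    have hx0 : x = 0 := hx0.eq_zero le_rfl
    subst hx0
    interval_cases m
    · exact Subsingleton.elim _ _
    · simp [expR, expTail, Finset.sum_filter]
  · have h1 : (Finset.range m).filter (fun j => ¬ 2 ≤ j) = {0, 1} := by
      ext j
      simp only [Finset.mem_filter, Finset.mem_range, Finset.mem_insert, Finset.mem_singleton]
      omega
    rw [expR, ← Finset.sum_filter_add_sum_filter_not (Finset.range m) (2 ≤ ·), h1,
      Finset.sum_pair (by norm_num)]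
    simp only [Nat.factorial_zero, Nat.cast_one, Ring.inverse_one, pow_zero, one_smul,
      Nat.factorial_one, pow_one, expTail]
    abel

theorem depth_expTail {x : Matrix (Fin m) (Fin m) R} (hx : StrictUpper x) :
    Depth 2 (expTail x) :=
  Depth.sum _ fun j hj => ((hx.depth.pow j).mono (Finset.mem_filter.mp hj).2).smul _

theorem depth_pow_sub_pow {x y : Matrix (Fin m) (Fin m) R} (hx : StrictUpper x)
    (hy : StrictUpper y) {d : ℕ} (h : Depth d (x - y)) (n : ℕ) :
    Depth (d + n) (x ^ (n + 1) - y ^ (n + 1)) := by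
  induction n with
  | zero => simpa using h
  | succ n ih =>
    have h1 : x ^ (n + 1 + 1) - y ^ (n + 1 + 1) =
        x ^ (n + 1) * (x - y) + (x ^ (n + 1) - y ^ (n + 1)) * y := by
      rw [pow_succ x (n + 1), pow_succ y (n + 1)]
      noncomm_ring
    rw [h1]
    exact ((hx.depth.pow (n + 1)).mul h |>.mono (by omega)).add
      ((ih.mul hy.depth).mono (by omega))

theorem depth_expTail_sub {x y : Matrix (Fin m) (Fin m) R} (hx : StrictUpper x)
    (hy : StrictUpper y) {d : ℕ} (h : Depth d (x - y)) :
    Depth (d + 1) (expTail x - expTail y) := by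
  rw [expTail, expTail, ← Finset.sum_sub_distrib]
  refine Depth.sum _ fun j hj => ?_
  have hj2 := (Finset.mem_filter.mp hj).2
  obtain ⟨n, rfl⟩ : ∃ n, j = n + 1 := ⟨j - 1, by omega⟩
  rw [← smul_sub]
  exact ((depth_pow_sub_pow hx hy h n).mono (by omega)).smul _

theorem strictUpper_expR_sub_one {x : Matrix (Fin m) (Fin m) R} (hx : StrictUpper x) :
    UniUpper (expR x) := by
  have h : expR x - 1 = x + expTail x := by
    rw [expR_eq_tail hx]; abel
  rw [UniUpper, h]
  exact (hx.depth.add ((depth_expTail hx).mono (by norm_num))).strictUpper le_rfl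

theorem map_inverse_factorial (f : R →+* S) {j : ℕ} (hj : IsUnit (j.factorial : R)) :
    f (Ring.inverse (j.factorial : R)) = Ring.inverse (j.factorial : S) := by
  obtain ⟨u, hu⟩ := hj
  have h1 : ((j.factorial : ℕ) : S) = (Units.map (f : R →* S) u : Sˣ) := by
    rw [Units.coe_map, hu]
    simp
  rw [h1, Ring.inverse_unit, ← hu, Ring.inverse_unit]
  rfl

theorem expR_map (f : R →+* S) (hR : ∀ j < m, IsUnit (j.factorial : R))
    (x : Matrix (Fin m) (Fin m) R) : expR (x.map f) = (expR x).map f := by
  have h : ∀ y : Matrix (Fin m) (Fin m) R, y.map f = f.mapMatrix y := fun _ => rfl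
  rw [h, h, expR, expR, map_sum]
  refine Finset.sum_congr rfl fun j hj => ?_
  rw [← map_inverse_factorial f (hR j (Finset.mem_range.mp hj)), ← map_pow]
  ext a b
  simp [RingHom.mapMatrix_apply, Matrix.map_apply, Matrix.smul_apply]

theorem sum_range_range_eq {M : Type*} [AddCommMonoid M] (m : ℕ) (F : ℕ → ℕ → M)
    (hF : ∀ a b, m ≤ a + b → F a b = 0) :
    ∑ a ∈ Finset.range m, ∑ b ∈ Finset.range m, F a b =
      ∑ n ∈ Finset.range m, ∑ p ∈ Finset.HasAntidiagonal.antidiagonal n, F p.1 p.2 := by
  rw [← Finset.sum_product', ← Finset.sum_filter_add_sum_filter_not _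
    (fun p : ℕ × ℕ => p.1 + p.2 < m)]
  have h0 : ∑ p ∈ (Finset.range m ×ˢ Finset.range m).filter (fun p : ℕ × ℕ => ¬ p.1 + p.2 < m),
      F p.1 p.2 = 0 :=
    Finset.sum_eq_zero fun p hp => hF _ _ (not_lt.mp (Finset.mem_filter.mp hp).2)
  rw [h0, add_zero]
  rw [← Finset.sum_fiberwise_of_maps_to (s := (Finset.range m ×ˢ Finset.range m).filter
    (fun p : ℕ × ℕ => p.1 + p.2 < m)) (t := Finset.range m) (g := fun p : ℕ × ℕ => p.1 + p.2)
    (fun p hp => Finset.mem_range.mpr (Finset.mem_filter.mp hp).2)]
  refine Finset.sum_congr rfl fun n hn => ?_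
  refine Finset.sum_congr ?_ fun _ _ => rfl
  ext p
  simp only [Finset.mem_filter, Finset.mem_product, Finset.mem_range, Finset.HasAntidiagonal.mem_antidiagonal]
  have := Finset.mem_range.mp hn
  omega

theorem inverse_factorial_mul_choose (hR : ∀ j < m, IsUnit (j.factorial : R)) {a b : ℕ}
    (h : a + b < m) :
    Ring.inverse ((a + b).factorial : R) * ((a + b).choose a : R) =
      Ring.inverse (a.factorial : R) * Ring.inverse (b.factorial : R) := by
  obtain ⟨u, hu⟩ := hR a (by omega)
  obtain ⟨v, hv⟩ := hR b (by omega)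
  obtain ⟨w, hw⟩ := hR (a + b) h
  have h1 : ((a + b).choose a : R) * (a.factorial : R) * (b.factorial : R) =
      ((a + b).factorial : R) := by
    rw [← Nat.cast_mul, ← Nat.cast_mul, Nat.choose_symm_add,
      Nat.add_choose_mul_factorial_mul_factorial]
  rw [← hu, ← hv, ← hw] at h1
  rw [← hu, ← hv, ← hw, Ring.inverse_unit, Ring.inverse_unit, Ring.inverse_unit]
  rw [Units.inv_mul_eq_iff_eq_mul, ← h1]
  have : (((a + b).choose a : R) * ↑u * ↑v) * (↑u⁻¹ * ↑v⁻¹) =
      ((a + b).choose a : R) * (↑u * ↑u⁻¹) * (↑v * ↑v⁻¹) := by ring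
  rw [this, Units.mul_inv, Units.mul_inv, mul_one, mul_one]

theorem expR_mul_expR (x z : Matrix (Fin m) (Fin m) R) (u : Matrix (Fin m) (Fin m) R) :
    expR x * u * expR z = ∑ a ∈ Finset.range m, ∑ b ∈ Finset.range m,
      (Ring.inverse (a.factorial : R) * Ring.inverse (b.factorial : R)) • (x ^ a * u * z ^ b) := by
  rw [expR, expR, Finset.sum_mul, Finset.sum_mul]
  refine Finset.sum_congr rfl fun a _ => ?_
  rw [Finset.mul_sum]
  refine Finset.sum_congr rfl fun b _ => ?_
  rw [Matrix.smul_mul, Matrix.smul_mul, Matrix.mul_smul, smul_smul]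

theorem expR_add (hR : ∀ j < m, IsUnit (j.factorial : R)) {x z : Matrix (Fin m) (Fin m) R}
    (hx : StrictUpper x) (hz : StrictUpper z) (hc : x * z = z * x) :
    expR (x + z) = expR x * expR z := by
  have h := expR_mul_expR x z 1
  rw [mul_one] at h
  rw [h, sum_range_range_eq m (fun a b => (Ring.inverse (a.factorial : R) *
    Ring.inverse (b.factorial : R)) • (x ^ a * 1 * z ^ b))]
  · rw [expR]
    refine Finset.sum_congr rfl fun n hn => ?_
    have hn' := Finset.mem_range.mp hn
    have hcom : Commute x z := hc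
    rw [hcom.add_pow', Finset.smul_sum]
    refine Finset.sum_congr rfl fun p hp => ?_
    have hp' := Finset.HasAntidiagonal.mem_antidiagonal.mp hp
    rw [mul_one, ← inverse_factorial_mul_choose hR (by omega), hp', ← smul_smul]
    congr 1
    rw [← Nat.cast_smul_eq_nsmul R]
  · intro a b hab
    rw [mul_one]
    rw [((hx.depth.pow a).mul (hz.depth.pow b)).eq_zero hab, smul_zero]

theorem expR_zero : expR (0 : Matrix (Fin m) (Fin m) R) = 1 := by
  have h0 : StrictUpper (0 : Matrix (Fin m) (Fin m) R) := fun _ _ _ => rfl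
  rw [expR_eq_tail h0, expTail, Finset.sum_eq_zero, add_zero, add_zero]
  intro j hj
  have := (Finset.mem_filter.mp hj).2
  rw [zero_pow (by omega), smul_zero]

theorem expR_neg_mul (hR : ∀ j < m, IsUnit (j.factorial : R)) {x : Matrix (Fin m) (Fin m) R}
    (hx : StrictUpper x) : expR (-x) * expR x = 1 := by
  rw [← expR_add hR hx.neg' hx (by rw [neg_mul, mul_neg]), neg_add_cancel, expR_zero]

theorem expR_mul_neg (hR : ∀ j < m, IsUnit (j.factorial : R)) {x : Matrix (Fin m) (Fin m) R}
    (hx : StrictUpper x) : expR x * expR (-x) = 1 := by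
  rw [← expR_add hR hx hx.neg' (by rw [neg_mul, mul_neg]), add_neg_cancel, expR_zero]

theorem expR_conj (g h x : Matrix (Fin m) (Fin m) R) (hgh : g * h = 1) (hhg : h * g = 1) :
    expR (g * x * h) = g * expR x * h := by
  have hp : ∀ j : ℕ, (g * x * h) ^ j = g * x ^ j * h := by
    intro j
    induction j with
    | zero => rw [pow_zero, pow_zero, mul_one, hgh]
    | succ j ih =>
      rw [pow_succ, ih, pow_succ]
      calc g * x ^ j * h * (g * x * h) = g * x ^ j * (h * g) * x * h := by noncomm_ring
        _ = g * (x ^ j * x) * h := by rw [hhg]; noncomm_ring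
  rw [expR, expR, Finset.mul_sum, Finset.sum_mul]
  refine Finset.sum_congr rfl fun j _ => ?_
  rw [hp, Matrix.mul_smul, Matrix.smul_mul]

theorem adM_iterate (y u : Matrix (Fin m) (Fin m) R) (n : ℕ) :
    (adM y)^[n] u = ∑ p ∈ Finset.HasAntidiagonal.antidiagonal n, n.choose p.1 • (y ^ p.1 * u * (-y) ^ p.2) := by
  have h1 : adM y = ⇑(LinearMap.mulLeft R y + LinearMap.mulRight R (-y)) := by
    funext w
    simp [adM, sub_eq_add_neg]
  have hc : Commute (LinearMap.mulLeft R y) (LinearMap.mulRight R (-y)) :=
    LinearMap.commute_mulLeft_right y (-y)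
  rw [h1, ← Module.End.pow_apply, hc.add_pow', LinearMap.sum_apply]
  refine Finset.sum_congr rfl fun p _ => ?_
  rw [LinearMap.smul_apply, Module.End.mul_apply, LinearMap.pow_mulLeft, LinearMap.pow_mulRight,
    LinearMap.mulLeft_apply, LinearMap.mulRight_apply, mul_assoc]

theorem expR_Ad (hR : ∀ j < m, IsUnit (j.factorial : R)) {y u : Matrix (Fin m) (Fin m) R}
    (hy : StrictUpper y) (hu : StrictUpper u) :
    expR y * u * expR (-y) =
      ∑ j ∈ Finset.range m, (Ring.inverse (j.factorial : R)) • (adM y)^[j] u := by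
  rw [expR_mul_expR, sum_range_range_eq m (fun a b => (Ring.inverse (a.factorial : R) *
    Ring.inverse (b.factorial : R)) • (y ^ a * u * (-y) ^ b))]
  · refine Finset.sum_congr rfl fun n hn => ?_
    have hn' := Finset.mem_range.mp hn
    rw [adM_iterate, Finset.smul_sum]
    refine Finset.sum_congr rfl fun p hp => ?_
    have hp' := Finset.HasAntidiagonal.mem_antidiagonal.mp hp
    rw [← inverse_factorial_mul_choose hR (by omega), hp', ← smul_smul]
    congr 1
    rw [← Nat.cast_smul_eq_nsmul R]
  · intro a b hab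
    have h := ((hy.depth.pow a).mul hu.depth).mul (hy.neg'.depth.pow b)
    rw [h.eq_zero (by omega), smul_zero]

/-- nilpotency -/
theorem adM_foldr {xs : List (Matrix (Fin m) (Fin m) R)} (hxs : ∀ x ∈ xs, StrictUpper x)
    {u : Matrix (Fin m) (Fin m) R} (hu : StrictUpper u) (hlen : m ≤ xs.length + 1) :
    xs.foldr (fun a b => adM a b) u = 0 := by
  have h : Depth (xs.length + 1) (xs.foldr (fun a b => adM a b) u) := by
    clear hlen
    induction xs with
    | nil => exact hu.depth
    | cons x xs ih =>
      rw [List.foldr_cons]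
      have h1 := depth_adM (hxs x (by simp)).depth (ih fun x hx => hxs x (by simp [hx]))
      exact h1.mono (by simp only [List.length_cons]; omega)
  exact h.eq_zero hlen

set_option linter.unusedVariables false in
theorem expR_injOn (hR : ∀ j < m, IsUnit (j.factorial : R)) :
    Set.InjOn (expR (R := R) (m := m)) {x | StrictUpper x} := by
  intro x hx y hy hxy
  have key : ∀ d, Depth (d + 1) (x - y) := by
    intro d
    induction d with
    | zero => exact StrictUpper.depth (StrictUpper.sub' hx hy)
    | succ d ih =>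
      rw [expR_eq_tail hx, expR_eq_tail hy] at hxy
      have h1 : x - y = -(expTail x - expTail y) := by
        have h2 : (1 + x + expTail x) - (1 + y + expTail y) = 0 := sub_eq_zero.mpr hxy
        have h3 : (x - y) + (expTail x - expTail y) = 0 := by rw [← h2]; abel
        exact eq_neg_of_add_eq_zero_left h3
      rw [h1]
      exact (depth_expTail_sub hx hy ih).neg
  exact sub_eq_zero.mp ((key m).eq_zero (Nat.le_succ m))

set_option linter.unusedVariables false in
theorem expR_surjOn (hR : ∀ j < m, IsUnit (j.factorial : R)) {g : Matrix (Fin m) (Fin m) R}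
    (hg : UniUpper g) : ∃ x, StrictUpper x ∧ expR x = g := by
  let F : Matrix (Fin m) (Fin m) R → Matrix (Fin m) (Fin m) R := fun x => (g - 1) - expTail x
  have hF : ∀ x, StrictUpper x → StrictUpper (F x) := fun x hx =>
    (StrictUpper.sub' hg (((depth_expTail hx)).strictUpper (by norm_num)))
  let X : ℕ → Matrix (Fin m) (Fin m) R := fun n => F^[n] 0
  have hX : ∀ n, StrictUpper (X n) := by
    intro n
    induction n with
    | zero => exact fun _ _ _ => rfl
    | succ n ih =>
      have : X (n + 1) = F (X n) := Function.iterate_succ_apply' F n 0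
      rw [this]
      exact hF _ ih
  have hd : ∀ n, Depth (n + 1) (X (n + 1) - X n) := by
    intro n
    induction n with
    | zero => exact StrictUpper.depth ((hX 1).sub' (hX 0))
    | succ n ih =>
      have h1 : X (n + 1 + 1) = F (X (n + 1)) := Function.iterate_succ_apply' F (n + 1) 0
      have h2 : X (n + 1) = F (X n) := Function.iterate_succ_apply' F n 0
      have h3 : X (n + 1 + 1) - X (n + 1) = -(expTail (X (n + 1)) - expTail (X n)) := by
        have h4 : F (X (n + 1)) - F (X n) = -(expTail (X (n + 1)) - expTail (X n)) := by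
          simp only [F]
          abel
        rw [← h4, ← h1, ← h2]
      rw [h3]
      exact (depth_expTail_sub (hX _) (hX _) ih).neg
  refine ⟨X m, hX m, ?_⟩
  have h1 : X (m + 1) = X m := sub_eq_zero.mp ((hd m).eq_zero (Nat.le_succ m))
  have h2 : X (m + 1) = F (X m) := Function.iterate_succ_apply' F m 0
  rw [h1] at h2
  rw [expR_eq_tail (hX m)]
  nth_rewrite 1 [h2]
  simp only [F]
  abel

theorem expMat_eq_expR {K : Type} [Field K] [CharZero K] (x : Matrix (Fin m) (Fin m) K) :
    expMat x = expR x := by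
  rw [expMat, expR]
  simp only [Ring.inverse_eq_inv']

end expo

end

end MP8c80e8
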