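import Pool.Agent.Lib.MP_8c80e8_al.Trunc

open scoped TensorProduct NumberField
open IsDedekindDomain

namespace MP8c80e8

noncomputable section

/-! ## J7  Ext.lean : finite extensions of completions with prescribed residue degree -/

section general

open Polynomial IsLocalRing

/-- criterion for a finite extension of a local ring to be a discrete valuation ring -/
theorem ext_dvr {A B : Type} [CommRing A] [CommRing B] [IsLocalRing A] [IsDomain B]
    [IsNoetherianRing B] [Algebra A B] [Algebra.IsIntegral A B] (π : A)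
    (hπ : maximalIdeal A = Ideal.span {π}) (ϖ : B) (e : ℕ) (he : algebraMap A B π = ϖ ^ e)
    (hϖ : ϖ ≠ 0) (hmax : (Ideal.span {ϖ}).IsMaximal) :
    ∃ _ : IsLocalRing B, IsDiscreteValuationRing B ∧ maximalIdeal B = Ideal.span {ϖ} := by
  have hloc : IsLocalRing B := by
    apply IsLocalRing.of_unique_max_ideal
    refine ⟨Ideal.span {ϖ}, hmax, ?_⟩
    intro J hJ
    have hJ' : J.IsMaximal := hJ
    have h1 : (J.comap (algebraMap A B)).IsMaximal :=
      Ideal.isMaximal_comap_of_isIntegral_of_isMaximal J
    have h2 := IsLocalRing.eq_maximalIdeal h1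
    have h3 : π ∈ J.comap (algebraMap A B) := by
      rw [h2, hπ]; exact Ideal.mem_span_singleton_self π
    rw [Ideal.mem_comap, he] at h3
    have h4 : ϖ ∈ J := hJ'.isPrime.mem_of_pow_mem _ h3
    symm
    apply hmax.eq_of_le hJ'.ne_top
    rw [Ideal.span_singleton_le_iff_mem]
    exact h4
  have hM : maximalIdeal B = Ideal.span {ϖ} := (IsLocalRing.eq_maximalIdeal hmax).symm
  have hnf : ¬ IsField B := by
    rw [IsLocalRing.isField_iff_maximalIdeal_eq, hM, Ideal.span_singleton_eq_bot]
    exact hϖ
  refine ⟨hloc, ?_, hM⟩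
  have h := (IsDiscreteValuationRing.TFAE B hnf).out 4 0
  rw [← h, hM]
  exact ⟨⟨ϖ, rfl⟩⟩

/-- the unramified step -/
theorem ext_unram {A : Type} [CommRing A] [IsDomain A] [IsDiscreteValuationRing A] (π : A)
    (hπ : maximalIdeal A = Ideal.span {π}) (g : A[X]) (hg : g.Monic)
    (hirr : Irreducible (g.map (Ideal.Quotient.mk (maximalIdeal A)))) :
    ∃ (_ : IsDomain (AdjoinRoot g)) (_ : IsDiscreteValuationRing (AdjoinRoot g)),
      maximalIdeal (AdjoinRoot g) = Ideal.span {AdjoinRoot.of g π} := by
  have hprime : Prime g := by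
    rw [← UniqueFactorizationMonoid.irreducible_iff_prime]
    exact hg.irreducible_of_irreducible_map _ _ hirr
  have hdom : IsDomain (AdjoinRoot g) := AdjoinRoot.isDomain_of_prime hprime
  have hfin : Module.Finite A (AdjoinRoot g) := hg.finite_adjoinRoot
  have hfree : Module.Free A (AdjoinRoot g) := hg.free_adjoinRoot
  have hpi : π ≠ 0 := by
    rintro rfl
    rw [Ideal.span_singleton_eq_bot.mpr rfl] at hπ
    exact IsDiscreteValuationRing.not_a_field A hπ
  have hinj : Function.Injective (AdjoinRoot.of g) := by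
    have : Function.Injective (algebraMap A (AdjoinRoot g)) :=
      FaithfulSMul.algebraMap_injective _ _
    exact this
  have hmap : (maximalIdeal A).map (AdjoinRoot.of g) = Ideal.span {AdjoinRoot.of g π} := by
    rw [hπ, Ideal.map_span, Set.image_singleton]
  have hmax : (Ideal.span {AdjoinRoot.of g π}).IsMaximal := by
    rw [← hmap]
    apply Ideal.Quotient.maximal_of_isField
    have hpr : (Ideal.span {g.map (Ideal.Quotient.mk (maximalIdeal A))}).IsMaximal := by
      have : IsField (A ⧸ maximalIdeal A) := (Ideal.Quotient.maximal_ideal_iff_isField_quotient _).mp inferInstance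
      letI := this.toField
      exact PrincipalIdealRing.isMaximal_of_irreducible hirr
    have hf := (Ideal.Quotient.maximal_ideal_iff_isField_quotient _).mp hpr
    exact MulEquiv.isField hf
      (AdjoinRoot.quotAdjoinRootEquivQuotPolynomialQuot (maximalIdeal A) g).toMulEquiv
  obtain ⟨hloc, hdvr, hM⟩ := ext_dvr (A := A) (B := AdjoinRoot g) π hπ (AdjoinRoot.of g π) 1
    (by rw [pow_one]; rfl) (by rw [Ne, map_eq_zero_iff _ hinj]; exact hpi) hmax
  exact ⟨hdom, hdvr, hM⟩

theorem ext_card_adjoinRoot {κ : Type} [CommRing κ] [Nontrivial κ] (g : κ[X])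
    (hg : g.Monic) : Nat.card (AdjoinRoot g) = Nat.card κ ^ g.natDegree := by
  have h := Nat.card_congr (AdjoinRoot.powerBasis' hg).basis.equivFun.toEquiv
  rw [h, Nat.card_fun, Nat.card_eq_fintype_card (α := Fin _), Fintype.card_fin,
    AdjoinRoot.powerBasis'_dim]

theorem ext_unram_card {A : Type} [CommRing A] [IsDomain A] [IsDiscreteValuationRing A] (π : A)
    (hπ : maximalIdeal A = Ideal.span {π}) (g : A[X]) (hg : g.Monic)
    (I : Ideal (AdjoinRoot g)) (hI : I = Ideal.span {AdjoinRoot.of g π}) :
    Nat.card (AdjoinRoot g ⧸ I) = Nat.card (A ⧸ maximalIdeal A) ^ g.natDegree := by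
  have hmap : (maximalIdeal A).map (AdjoinRoot.of g) = Ideal.span {AdjoinRoot.of g π} := by
    rw [hπ, Ideal.map_span, Set.image_singleton]
  have e1 : (AdjoinRoot g ⧸ I) ≃+* (A ⧸ maximalIdeal A)[X] ⧸
      Ideal.span {g.map (Ideal.Quotient.mk (maximalIdeal A))} :=
    (Ideal.quotEquivOfEq (hI.trans hmap.symm)).trans
      (AdjoinRoot.quotAdjoinRootEquivQuotPolynomialQuot (maximalIdeal A) g)
  rw [Nat.card_congr e1.toEquiv]
  have := ext_card_adjoinRoot (g.map (Ideal.Quotient.mk (maximalIdeal A))) (hg.map _)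
  rw [hg.natDegree_map] at this
  exact this

/-- irreducible polynomials of every degree over a finite field -/
theorem ext_exists_irreducible (κ : Type) [Field κ] [Finite κ] (f : ℕ) (hf : 0 < f) :
    ∃ g : κ[X], g.Monic ∧ Irreducible g ∧ g.natDegree = f := by
  obtain ⟨p, hp⟩ := CharP.exists κ
  have hpr : Fact p.Prime := ⟨(CharP.char_is_prime_or_zero κ p).resolve_right (by
    rintro rfl
    have : CharZero κ := CharP.charP_to_charZero κ
    exact not_finite κ)⟩
  have hn : NeZero f := ⟨hf.ne'⟩
  let pb := Field.powerBasisOfFiniteOfSeparable κ (FiniteField.Extension κ p f)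
  refine ⟨minpoly κ pb.gen, minpoly.monic pb.isIntegral_gen, minpoly.irreducible pb.isIntegral_gen,
    ?_⟩
  rw [pb.natDegree_minpoly, ← pb.finrank, FiniteField.finrank_extension]

/-- the Eisenstein polynomial `X^e - π` -/
theorem ext_eis_monic {B : Type} [CommRing B] [Nontrivial B] (π : B) (e : ℕ) (he : 0 < e) :
    (X ^ e - C π : B[X]).Monic := monic_X_pow_sub_C π he.ne'

theorem ext_eis_irreducible {B : Type} [CommRing B] [IsDomain B] [IsDiscreteValuationRing B]
    (π : B) (hπ : maximalIdeal B = Ideal.span {π}) (e : ℕ) (he : 0 < e) :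
    Irreducible (X ^ e - C π : B[X]) := by
  have hm := ext_eis_monic π e he
  have hd : (X ^ e - C π : B[X]).degree = e := degree_X_pow_sub_C he π
  have hirr : Irreducible π := (IsDiscreteValuationRing.irreducible_iff_uniformizer π).mpr hπ
  apply irreducible_of_eisenstein_criterion (P := maximalIdeal B) inferInstance
  · rw [hm.leadingCoeff]
    intro h
    exact (Ideal.ne_top_iff_one _).mp (Ideal.IsPrime.ne_top inferInstance) h
  · intro n hn
    rw [hd] at hn
    have hn' : n < e := by exact_mod_cast hn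
    rw [coeff_sub, coeff_X_pow, if_neg hn'.ne, coeff_C, zero_sub]
    split_ifs with h0
    · rw [hπ]; exact (Ideal.mem_span_singleton_self π |> neg_mem)
    · rw [neg_zero]; exact Ideal.zero_mem _
  · rw [hd]; exact_mod_cast he
  · rw [coeff_sub, coeff_X_pow, if_neg he.ne, coeff_C_zero, zero_sub, neg_mem_iff, hπ,
      Ideal.span_singleton_pow, Ideal.mem_span_singleton]
    rintro ⟨c, hc⟩
    have h1 : 1 = π * c := by
      have h2 : π * 1 = π * (π * c) := by rw [mul_one, ← mul_assoc, ← sq]; exact hc
      exact mul_left_cancel₀ hirr.ne_zero h2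
    exact hirr.not_isUnit (IsUnit.of_mul_eq_one c h1.symm)
  · exact hm.isPrimitive

/-- the totally ramified step -/
theorem ext_ram {B : Type} [CommRing B] [IsDomain B] [IsDiscreteValuationRing B]
    (π : B) (hπ : maximalIdeal B = Ideal.span {π}) (e : ℕ) (he : 0 < e) :
    ∃ (_ : IsDomain (AdjoinRoot (X ^ e - C π : B[X])))
      (_ : IsDiscreteValuationRing (AdjoinRoot (X ^ e - C π : B[X]))),
      maximalIdeal (AdjoinRoot (X ^ e - C π : B[X])) =
        Ideal.span {AdjoinRoot.root (X ^ e - C π : B[X])} := by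
  set h : B[X] := X ^ e - C π with hh
  have hm : h.Monic := ext_eis_monic π e he
  have hprime : Prime h := by
    rw [← UniqueFactorizationMonoid.irreducible_iff_prime]
    exact ext_eis_irreducible π hπ e he
  have hdom : IsDomain (AdjoinRoot h) := AdjoinRoot.isDomain_of_prime hprime
  have hfin : Module.Finite B (AdjoinRoot h) := hm.finite_adjoinRoot
  have hfree : Module.Free B (AdjoinRoot h) := hm.free_adjoinRoot
  have hpi : π ≠ 0 := by
    rintro rfl
    rw [Ideal.span_singleton_eq_bot.mpr rfl] at hπ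
    exact IsDiscreteValuationRing.not_a_field B hπ
  have hinj : Function.Injective (AdjoinRoot.of h) := by
    have : Function.Injective (algebraMap B (AdjoinRoot h)) :=
      FaithfulSMul.algebraMap_injective _ _
    exact this
  have hroot : AdjoinRoot.of h π = AdjoinRoot.root h ^ e := by
    have h1 := AdjoinRoot.eval₂_root h
    rw [hh, eval₂_sub, eval₂_pow, eval₂_X, eval₂_C, sub_eq_zero] at h1
    exact h1.symm
  have hroot0 : AdjoinRoot.root h ≠ 0 := by
    intro h0
    rw [h0, zero_pow he.ne', map_eq_zero_iff _ hinj] at hroot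
    exact hpi hroot
  -- the residue map
  let ρ : AdjoinRoot h →+* B ⧸ maximalIdeal B :=
    AdjoinRoot.lift (Ideal.Quotient.mk (maximalIdeal B)) 0 (by
      rw [hh, eval₂_sub, eval₂_pow, eval₂_X, eval₂_C, zero_pow he.ne', zero_sub, neg_eq_zero,
        Ideal.Quotient.eq_zero_iff_mem, hπ]
      exact Ideal.mem_span_singleton_self π)
  have hρof : ∀ b, ρ (AdjoinRoot.of h b) = Ideal.Quotient.mk (maximalIdeal B) b := fun b =>
    AdjoinRoot.lift_of _
  have hρroot : ρ (AdjoinRoot.root h) = 0 := AdjoinRoot.lift_root _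
  have hρsurj : Function.Surjective ρ := by
    intro x
    obtain ⟨b, rfl⟩ := Ideal.Quotient.mk_surjective x
    exact ⟨AdjoinRoot.of h b, hρof b⟩
  have hfield : IsField (B ⧸ maximalIdeal B) :=
    (Ideal.Quotient.maximal_ideal_iff_isField_quotient _).mp inferInstance
  have hker : RingHom.ker ρ = Ideal.span {AdjoinRoot.root h} := by
    apply le_antisymm
    · intro x hx
      obtain ⟨p, rfl⟩ := AdjoinRoot.mk_surjective x
      have e1 : AdjoinRoot.mk h p = AdjoinRoot.mk h p.divX * AdjoinRoot.root h +
          AdjoinRoot.of h (p.coeff 0) := by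
        conv_lhs => rw [← divX_mul_X_add p]
        rw [map_add, map_mul, AdjoinRoot.mk_X, AdjoinRoot.mk_C]
      rw [RingHom.mem_ker, e1, map_add, map_mul, hρroot, mul_zero, zero_add, hρof,
        Ideal.Quotient.eq_zero_iff_mem, hπ, Ideal.mem_span_singleton] at hx
      obtain ⟨c, hc⟩ := hx
      rw [e1, hc, map_mul, hroot]
      apply Ideal.add_mem
      · exact Ideal.mul_mem_left _ _ (Ideal.mem_span_singleton_self _)
      · apply Ideal.mul_mem_right
        exact Ideal.pow_mem_of_mem _ (Ideal.mem_span_singleton_self _) _ he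
    · rw [Ideal.span_singleton_le_iff_mem, RingHom.mem_ker]
      exact hρroot
  have hmax : (Ideal.span {AdjoinRoot.root h}).IsMaximal := by
    rw [← hker]
    letI := hfield.toField
    exact RingHom.ker_isMaximal_of_surjective ρ hρsurj
  obtain ⟨hloc, hdvr, hM⟩ := ext_dvr (A := B) (B := AdjoinRoot h) π hπ (AdjoinRoot.root h) e
    hroot hroot0 hmax
  exact ⟨hdom, hdvr, hM⟩

theorem ext_psi {B : Type} [CommRing B] [IsDomain B] [IsDiscreteValuationRing B]
    (π : B) (hπ : maximalIdeal B = Ideal.span {π}) (e N : ℕ) (hN : N ≤ e) (F : Type) [Field F]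
    (r : B →+* F) (hr : Function.Surjective r) (hrπ : r π = 0) :
    ∃ ψ : AdjoinRoot (X ^ e - C π : B[X]) →+* TruncPoly F N, Function.Surjective ψ ∧
      ψ (AdjoinRoot.root _) = Ideal.Quotient.mk _ X ∧
      ∀ b, ψ (AdjoinRoot.of _ b) = constTP F N (r b) := by
  set h : B[X] := X ^ e - C π with hh
  have hX : (Ideal.Quotient.mk (Ideal.span {(X : F[X]) ^ N}) X) ^ e = 0 := by
    rw [← map_pow, Ideal.Quotient.eq_zero_iff_mem, Ideal.mem_span_singleton]
    exact pow_dvd_pow _ hN
  let ψ : AdjoinRoot h →+* TruncPoly F N :=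
    AdjoinRoot.lift ((constTP F N).comp r) (Ideal.Quotient.mk _ X) (by
      rw [hh, eval₂_sub, eval₂_pow, eval₂_X, eval₂_C, RingHom.comp_apply, hrπ, map_zero, sub_zero]
      exact hX)
  refine ⟨ψ, ?_, AdjoinRoot.lift_root _, fun b => AdjoinRoot.lift_of _⟩
  intro x
  obtain ⟨q, rfl⟩ := Ideal.Quotient.mk_surjective x
  obtain ⟨p, rfl⟩ := Polynomial.map_surjective r hr q
  refine ⟨AdjoinRoot.mk h p, ?_⟩
  have e1 : ψ (AdjoinRoot.mk h p) =
      p.eval₂ ((constTP F N).comp r) (Ideal.Quotient.mk _ X) := AdjoinRoot.lift_mk _ _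
  rw [e1]
  have e2 : (constTP F N).comp r = (Ideal.Quotient.mk (Ideal.span {(X : F[X]) ^ N})).comp
    (C.comp r) := rfl
  rw [e2, ← Polynomial.hom_eval₂]
  rfl

theorem ext_ker {D : Type} [CommRing D] [IsDomain D] [IsDiscreteValuationRing D] (ϖ : D)
    (hϖ : maximalIdeal D = Ideal.span {ϖ}) (F : Type) [Field F] (N : ℕ)
    (ψ : D →+* TruncPoly F N) (hψ : ψ ϖ = Ideal.Quotient.mk _ X) :
    RingHom.ker ψ = maximalIdeal D ^ N := by
  have hirr : Irreducible ϖ := (IsDiscreteValuationRing.irreducible_iff_uniformizer ϖ).mpr hϖ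
  apply le_antisymm
  · intro x hx
    by_cases hx0 : x = 0
    · rw [hx0]; exact Ideal.zero_mem _
    obtain ⟨n, hn⟩ := IsDiscreteValuationRing.associated_pow_irreducible hx0 hirr
    obtain ⟨u, hu⟩ := hn.symm
    rw [RingHom.mem_ker, ← hu, map_mul, map_pow, hψ] at hx
    have h1 : IsUnit (ψ (u : D)) := u.isUnit.map ψ
    rw [IsUnit.mul_left_eq_zero h1, ← map_pow, Ideal.Quotient.eq_zero_iff_mem,
      Ideal.mem_span_singleton] at hx
    have h2 : N ≤ n := (pow_dvd_pow_iff X_ne_zero not_isUnit_X).mp hx
    rw [hϖ, Ideal.span_singleton_pow, Ideal.mem_span_singleton, ← hu]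
    exact (pow_dvd_pow _ h2).mul_right _
  · rw [hϖ, Ideal.span_singleton_pow, Ideal.span_singleton_le_iff_mem, RingHom.mem_ker, map_pow,
      hψ, ← map_pow, Ideal.Quotient.eq_zero_iff_mem]
    exact Ideal.mem_span_singleton_self _

end general

section fields

open Polynomial IsLocalRing

theorem ext_finite (A L B K : Type) [CommRing A] [IsDomain A] [Field L] [Algebra A L]
    [IsFractionRing A L] [CommRing B] [IsDomain B] [Algebra A B] [Module.Finite A B]
    [Field K] [Algebra B K] [IsFractionRing B K] [Algebra L K] [Algebra A K] [IsScalarTower A L K]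
    [IsScalarTower A B K] : FiniteDimensional L K := by
  classical
  have hint : Algebra.IsIntegral A B := inferInstance
  obtain ⟨S, hS⟩ := Module.Finite.fg_top (R := A) (M := B)
  refine ⟨⟨(S.image (algebraMap B K)), ?_⟩⟩
  rw [eq_top_iff]
  intro x _
  -- the image of `B` is in the span
  have hB : ∀ b : B, algebraMap B K b ∈ Submodule.span L ((S.image (algebraMap B K) : Finset K) : Set K) := by
    intro b
    have hb : b ∈ Submodule.span A (S : Set B) := by rw [hS]; trivial
    induction hb using Submodule.span_induction with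
    | mem y hy =>
      apply Submodule.subset_span
      rw [Finset.coe_image]
      exact ⟨y, hy, rfl⟩
    | zero => rw [map_zero]; exact Submodule.zero_mem _
    | add y z _ _ hy hz => rw [map_add]; exact Submodule.add_mem _ hy hz
    | smul a y _ hy =>
      rw [Algebra.smul_def, map_mul, ← IsScalarTower.algebraMap_apply,
        IsScalarTower.algebraMap_apply A L K, ← Algebra.smul_def]
      exact Submodule.smul_mem _ _ hy
  obtain ⟨b, c, hc, rfl⟩ := IsFractionRing.div_surjective (A := B) x
  have hc0 : c ≠ 0 := nonZeroDivisors.ne_zero hc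
  have h1 := Ideal.comap_ne_bot_of_integral_mem (R := A) (I := Ideal.span {c}) hc0
    (Ideal.mem_span_singleton_self c) (Algebra.IsIntegral.isIntegral c)
  obtain ⟨a, ha, ha0⟩ := Submodule.exists_mem_ne_zero_of_ne_bot h1
  rw [Ideal.mem_comap, Ideal.mem_span_singleton] at ha
  obtain ⟨c', hc'⟩ := ha
  have hcK : algebraMap B K c ≠ 0 := by
    rw [Ne, map_eq_zero_iff _ (IsFractionRing.injective B K)]; exact hc0
  have haK : algebraMap L K (algebraMap A L a) ≠ 0 := by
    rw [Ne, map_eq_zero_iff _ (algebraMap L K).injective,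
      map_eq_zero_iff _ (IsFractionRing.injective A L)]
    exact ha0
  have e1 : algebraMap L K (algebraMap A L a) = algebraMap B K c * algebraMap B K c' := by
    rw [← map_mul, ← hc', ← IsScalarTower.algebraMap_apply, ← IsScalarTower.algebraMap_apply]
  have e2 : algebraMap B K b / algebraMap B K c =
      (algebraMap A L a)⁻¹ • algebraMap B K (b * c') := by
    rw [Algebra.smul_def, map_inv₀, map_mul]
    rw [e1] at haK ⊢
    have hc'K : algebraMap B K c' ≠ 0 := right_ne_zero_of_mul haK
    field_simp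
  rw [e2]
  exact Submodule.smul_mem _ _ (hB _)

theorem ext_isIntegralClosure (A B K : Type) [CommRing A] [CommRing B] [IsDomain B]
    [Algebra A B] [Module.Finite A B] [Field K] [Algebra B K] [IsFractionRing B K] [Algebra A K]
    [IsScalarTower A B K] [IsIntegrallyClosed B] : IsIntegralClosure B A K where
  algebraMap_injective := IsFractionRing.injective B K
  isIntegral_iff := by
    intro x
    constructor
    · intro hx
      have h1 : IsIntegral B x := hx.tower_top
      exact IsIntegrallyClosed.isIntegral_iff.mp h1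
    · rintro ⟨y, rfl⟩
      exact (Algebra.IsIntegral.isIntegral (R := A) y).algebraMap

end fields

section completion

variable {k : Type} [Field k] [NumberField k] (v : HeightOneSpectrum (𝓞 k))

theorem ext_mem_maximalIdeal (x : v.adicCompletionIntegers k) :
    x ∈ IsLocalRing.maximalIdeal (v.adicCompletionIntegers k) ↔
      Valued.v (x : v.adicCompletion k) < 1 := by
  rw [IsLocalRing.mem_maximalIdeal, mem_nonunits_iff,
    HeightOneSpectrum.adicCompletionIntegers.isUnit_iff_valued_eq_one]
  have h : Valued.v (x : v.adicCompletion k) ≤ 1 := x.2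
  exact ⟨fun h1 => lt_of_le_of_ne h h1, fun h1 => h1.ne⟩

theorem ext_algebraMap_mem (x : 𝓞 k) :
    algebraMap (𝓞 k) (v.adicCompletionIntegers k) x ∈
      IsLocalRing.maximalIdeal (v.adicCompletionIntegers k) ↔ x ∈ v.asIdeal := by
  rw [ext_mem_maximalIdeal, ← v.valuation_lt_one_iff_mem (K := k)]
  have h : ((algebraMap (𝓞 k) (v.adicCompletionIntegers k) x : v.adicCompletionIntegers k) :
      v.adicCompletion k) = ((algebraMap (𝓞 k) k x : k) : v.adicCompletion k) := rfl
  rw [h, HeightOneSpectrum.valuedAdicCompletion_eq_valuation']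

theorem ext_residue_surj : Function.Surjective
    ((Ideal.Quotient.mk (IsLocalRing.maximalIdeal (v.adicCompletionIntegers k))).comp
      (algebraMap (𝓞 k) (v.adicCompletionIntegers k))) := by
  intro z
  obtain ⟨x, rfl⟩ := Ideal.Quotient.mk_surjective z
  have hnhds : {y : v.adicCompletion k | Valued.v (y - x) < 1} ∈ nhds (x : v.adicCompletion k) := by
    rw [Valued.mem_nhds]
    refine ⟨1, fun y hy => ?_⟩
    rw [Set.mem_ofPred_eq, Units.val_one, Valuation.restrict_lt_iff_lt_embedding, map_one] at hy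
    exact hy
  obtain ⟨_, ⟨y, rfl⟩, hy⟩ := (HeightOneSpectrum.denseRange_algebraMap (R := 𝓞 k) (K := k) v).inter_nhds_nonempty hnhds
  have hy' : Valued.v ((y : v.adicCompletion k) - x) < 1 := hy
  have hvy : v.valuation k y ≤ 1 := by
    rw [← HeightOneSpectrum.valuedAdicCompletion_eq_valuation']
    have e : (y : v.adicCompletion k) = ((y : v.adicCompletion k) - x) + x := by ring
    rw [e]
    refine (Valuation.map_add _ _ _).trans (max_le hy'.le x.2)
  obtain ⟨a, ha⟩ := v.exists_valuation_sub_lt_of_integer hvy 1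
  refine ⟨a, ?_⟩
  rw [RingHom.comp_apply, Ideal.Quotient.eq, ext_mem_maximalIdeal]
  have e : ((algebraMap (𝓞 k) (v.adicCompletionIntegers k) a - x : v.adicCompletionIntegers k) :
      v.adicCompletion k) = (((algebraMap (𝓞 k) k a - y : k)) : v.adicCompletion k) +
        ((y : v.adicCompletion k) - x) := by
    have h1 : ((algebraMap (𝓞 k) (v.adicCompletionIntegers k) a : v.adicCompletionIntegers k) :
      v.adicCompletion k) = ((algebraMap (𝓞 k) k a : k) : v.adicCompletion k) := rfl
    have h2 : (((algebraMap (𝓞 k) k a - y : k)) : v.adicCompletion k) =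
      ((algebraMap (𝓞 k) k a : k) : v.adicCompletion k) - (y : v.adicCompletion k) := by
      exact map_sub (algebraMap k (v.adicCompletion k)) _ _
    push_cast
    rw [h1, h2]
    ring
  rw [e]
  refine (Valuation.map_add _ _ _).trans_lt (max_lt ?_ hy')
  rw [HeightOneSpectrum.valuedAdicCompletion_eq_valuation']
  simpa using ha

theorem ext_residue_card :
    Nat.card (v.adicCompletionIntegers k ⧸ IsLocalRing.maximalIdeal (v.adicCompletionIntegers k)) =
      Nat.card (𝓞 k ⧸ v.asIdeal) := by
  have h := RingHom.quotientKerEquivOfSurjective (ext_residue_surj v)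
  rw [← Nat.card_congr h.toEquiv]
  have hk : RingHom.ker ((Ideal.Quotient.mk (IsLocalRing.maximalIdeal
      (v.adicCompletionIntegers k))).comp (algebraMap (𝓞 k) (v.adicCompletionIntegers k))) =
      v.asIdeal := by
    ext x
    rw [RingHom.mem_ker, RingHom.comp_apply, Ideal.Quotient.eq_zero_iff_mem, ext_algebraMap_mem]
  rw [hk]

end completion

/-- the field of fractions, without the algebra structures over subrings -/
def ExtK (B : Type) [CommRing B] [IsDomain B] : Type := FractionRing B

instance (B : Type) [CommRing B] [IsDomain B] : Field (ExtK B) :=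
  inferInstanceAs (Field (FractionRing B))

instance (B : Type) [CommRing B] [IsDomain B] : Algebra B (ExtK B) :=
  inferInstanceAs (Algebra B (FractionRing B))

instance (B : Type) [CommRing B] [IsDomain B] : IsFractionRing B (ExtK B) :=
  inferInstanceAs (IsFractionRing B (FractionRing B))

open Polynomial IsLocalRing in
theorem exists_ext {k : Type} [Field k] [NumberField k] (v : HeightOneSpectrum (𝓞 k))
    (f : ℕ) (hf : 0 < f) :
    ∃ (F : Type) (_ : Field F) (_ : Finite F) (b : 𝓞 k →+* F),
      RingHom.ker b = v.asIdeal ∧ Nat.card F = Nat.card (𝓞 k ⧸ v.asIdeal) ^ f ∧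
      ∀ e : ℕ, 0 < e → ∃ (K : Type) (_ : Field K) (_ : Algebra (v.adicCompletion k) K)
        (_ : FiniteDimensional (v.adicCompletion k) K) (_ : IsDiscreteValuationRing (intRing v K)),
        (Nat.card (intRing v K ⧸ IsLocalRing.maximalIdeal (intRing v K)) = Nat.card F) ∧
        RingHom.ker ((Ideal.Quotient.mk (IsLocalRing.maximalIdeal (intRing v K))).comp
          (toIntRing v K)) = v.asIdeal ∧
        ∀ N : ℕ, N ≤ e →
          ∃ φ : (intRing v K ⧸ IsLocalRing.maximalIdeal (intRing v K) ^ N) ≃+* TruncPoly F N,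
            ∀ x : 𝓞 k, φ (Ideal.Quotient.mk _ (toIntRing v K x)) = constTP F N (b x) := by
  obtain ⟨π, hπirr⟩ := IsDiscreteValuationRing.exists_irreducible (v.adicCompletionIntegers k)
  have hπ : maximalIdeal (v.adicCompletionIntegers k) = Ideal.span {π} :=
    (IsDiscreteValuationRing.irreducible_iff_uniformizer π).mp hπirr
  have hfinv : Finite (𝓞 k ⧸ v.asIdeal) := v.asIdeal.finiteQuotientOfFreeOfNeBot v.ne_bot
  have hcard := ext_residue_card v
  have hfinκ : Finite (v.adicCompletionIntegers k ⧸ maximalIdeal (v.adicCompletionIntegers k)) := by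
    apply Nat.finite_of_card_ne_zero
    rw [hcard]
    exact Nat.card_pos.ne'
  -- an irreducible polynomial of degree `f`
  obtain ⟨g, hg, hgirr, hgdeg⟩ : ∃ g : (v.adicCompletionIntegers k)[X], g.Monic ∧
      Irreducible (g.map (Ideal.Quotient.mk (maximalIdeal (v.adicCompletionIntegers k)))) ∧
      g.natDegree = f := by
    letI := Ideal.Quotient.field (maximalIdeal (v.adicCompletionIntegers k))
    obtain ⟨g0, hg0, hirr0, hdeg0⟩ := ext_exists_irreducible
      (v.adicCompletionIntegers k ⧸ maximalIdeal (v.adicCompletionIntegers k)) f hf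
    obtain ⟨g, hgm, hgd, hgmon⟩ := Polynomial.lifts_and_natDegree_eq_and_monic
      (f := Ideal.Quotient.mk (maximalIdeal (v.adicCompletionIntegers k))) (p := g0)
      ((Polynomial.mem_lifts _).mpr (Polynomial.map_surjective _ Ideal.Quotient.mk_surjective g0))
      hg0
    exact ⟨g, hgmon, by rw [hgm]; exact hirr0, by rw [hgd, hdeg0]⟩
  obtain ⟨hdom0, hdvr0, hM0⟩ := ext_unram π hπ g hg hgirr
  have hfin0 : Module.Finite (v.adicCompletionIntegers k) (AdjoinRoot g) := hg.finite_adjoinRoot
  have hcardF : Nat.card (ResidueField (AdjoinRoot g)) = Nat.card (𝓞 k ⧸ v.asIdeal) ^ f := by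
    rw [← hcard, ← hgdeg]
    exact ext_unram_card π hπ g hg (maximalIdeal (AdjoinRoot g)) hM0
  have hfinF : Finite (ResidueField (AdjoinRoot g)) := by
    apply Nat.finite_of_card_ne_zero
    rw [hcardF]
    exact pow_ne_zero _ Nat.card_pos.ne'
  let b : 𝓞 k →+* ResidueField (AdjoinRoot g) :=
    (residue (AdjoinRoot g)).comp ((algebraMap (v.adicCompletionIntegers k) (AdjoinRoot g)).comp
      (algebraMap (𝓞 k) (v.adicCompletionIntegers k)))
  have hcomap : (maximalIdeal (AdjoinRoot g)).comap
      (algebraMap (v.adicCompletionIntegers k) (AdjoinRoot g)) =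
      maximalIdeal (v.adicCompletionIntegers k) :=
    IsLocalRing.eq_maximalIdeal (Ideal.isMaximal_comap_of_isIntegral_of_isMaximal _)
  have hkerb : RingHom.ker b = v.asIdeal := by
    ext x
    rw [← ext_algebraMap_mem, ← hcomap, Ideal.mem_comap, RingHom.mem_ker, RingHom.comp_apply,
      residue_eq_zero_iff]
    rfl
  refine ⟨ResidueField (AdjoinRoot g), inferInstance, hfinF, b, hkerb, hcardF, ?_⟩
  intro e he
  obtain ⟨hdom1, hdvr1, hM1⟩ := ext_ram (AdjoinRoot.of g π) hM0 e he
  set h : (AdjoinRoot g)[X] := X ^ e - C (AdjoinRoot.of g π) with hh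
  have hfin1 : Module.Finite (AdjoinRoot g) (AdjoinRoot h) :=
    (ext_eis_monic (AdjoinRoot.of g π) e he).finite_adjoinRoot
  have hfinA : Module.Finite (v.adicCompletionIntegers k) (AdjoinRoot h) :=
    Module.Finite.trans (AdjoinRoot g) (AdjoinRoot h)
  have hfree0 : Module.Free (v.adicCompletionIntegers k) (AdjoinRoot g) := hg.free_adjoinRoot
  have hfree1 : Module.Free (AdjoinRoot g) (AdjoinRoot h) :=
    (ext_eis_monic (AdjoinRoot.of g π) e he).free_adjoinRoot
  have hinjA : Function.Injective (algebraMap (v.adicCompletionIntegers k) (AdjoinRoot h)) := by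
    rw [IsScalarTower.algebraMap_eq (v.adicCompletionIntegers k) (AdjoinRoot g) (AdjoinRoot h)]
    exact (FaithfulSMul.algebraMap_injective (AdjoinRoot g) (AdjoinRoot h)).comp
      (FaithfulSMul.algebraMap_injective (v.adicCompletionIntegers k) (AdjoinRoot g))
  let ι : v.adicCompletion k →+* ExtK (AdjoinRoot h) :=
    IsFractionRing.lift (A := v.adicCompletionIntegers k) (K := v.adicCompletion k)
      (g := (algebraMap (AdjoinRoot h) (ExtK (AdjoinRoot h))).comp
        (algebraMap (v.adicCompletionIntegers k) (AdjoinRoot h)))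
      ((IsFractionRing.injective (AdjoinRoot h) (ExtK (AdjoinRoot h))).comp hinjA)
  letI algLK : Algebra (v.adicCompletion k) (ExtK (AdjoinRoot h)) := ι.toAlgebra
  have htower : IsScalarTower (v.adicCompletionIntegers k) (AdjoinRoot h)
      (ExtK (AdjoinRoot h)) := by
    apply IsScalarTower.of_algebraMap_eq
    intro a
    have h1 : ι (algebraMap (v.adicCompletionIntegers k) (v.adicCompletion k) a) =
        algebraMap (AdjoinRoot h) (ExtK (AdjoinRoot h))
          (algebraMap (v.adicCompletionIntegers k) (AdjoinRoot h) a) :=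
      IsFractionRing.lift_algebraMap _ a
    exact h1
  have hfd : FiniteDimensional (v.adicCompletion k) (ExtK (AdjoinRoot h)) :=
    ext_finite (v.adicCompletionIntegers k) (v.adicCompletion k) (AdjoinRoot h)
      (ExtK (AdjoinRoot h))
  have hic : IsIntegralClosure (AdjoinRoot h) (v.adicCompletionIntegers k)
      (ExtK (AdjoinRoot h)) :=
    ext_isIntegralClosure (v.adicCompletionIntegers k) (AdjoinRoot h) (ExtK (AdjoinRoot h))
  let ε : intRing v (ExtK (AdjoinRoot h)) ≃ₐ[v.adicCompletionIntegers k] AdjoinRoot h :=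
    IsIntegralClosure.equiv (v.adicCompletionIntegers k) _ (ExtK (AdjoinRoot h)) (AdjoinRoot h)
  have hdvrD : IsDiscreteValuationRing (intRing v (ExtK (AdjoinRoot h))) :=
    IsDiscreteValuationRing.RingEquivClass.isDiscreteValuationRing ε.symm
  have hirr1 : Irreducible (AdjoinRoot.root h) :=
    (IsDiscreteValuationRing.irreducible_iff_uniformizer _).mpr hM1
  have hMD : maximalIdeal (intRing v (ExtK (AdjoinRoot h))) =
      Ideal.span {ε.symm (AdjoinRoot.root h)} :=
    (IsDiscreteValuationRing.irreducible_iff_uniformizer _).mp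
      ((MulEquiv.irreducible_iff ε.symm.toMulEquiv).mpr hirr1)
  have hto : ∀ x : 𝓞 k, ε (toIntRing v (ExtK (AdjoinRoot h)) x) =
      AdjoinRoot.of h (algebraMap (v.adicCompletionIntegers k) (AdjoinRoot g)
        (algebraMap (𝓞 k) (v.adicCompletionIntegers k) x)) := by
    intro x
    have h1 : ε (toIntRing v (ExtK (AdjoinRoot h)) x) =
        algebraMap (v.adicCompletionIntegers k) (AdjoinRoot h)
          (algebraMap (𝓞 k) (v.adicCompletionIntegers k) x) := ε.commutes _
    rw [h1, IsScalarTower.algebraMap_apply (v.adicCompletionIntegers k) (AdjoinRoot g)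
      (AdjoinRoot h)]
    rfl
  have hrπ : residue (AdjoinRoot g) (AdjoinRoot.of g π) = 0 := by
    rw [residue_eq_zero_iff, hM0]
    exact Ideal.mem_span_singleton_self _
  -- the maps to truncated polynomial rings
  have key : ∀ N : ℕ, N ≤ e →
      ∃ φ : (intRing v (ExtK (AdjoinRoot h)) ⧸
          maximalIdeal (intRing v (ExtK (AdjoinRoot h))) ^ N) ≃+*
            TruncPoly (ResidueField (AdjoinRoot g)) N,
          ∀ x : 𝓞 k, φ (Ideal.Quotient.mk _ (toIntRing v (ExtK (AdjoinRoot h)) x)) =
            constTP (ResidueField (AdjoinRoot g)) N (b x) := by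
    intro N hN
    obtain ⟨ψ, hψs, hψr, hψc⟩ := ext_psi (AdjoinRoot.of g π) hM0 e N hN
      (ResidueField (AdjoinRoot g)) (residue (AdjoinRoot g)) residue_surjective hrπ
    let ψ' : intRing v (ExtK (AdjoinRoot h)) →+* TruncPoly (ResidueField (AdjoinRoot g)) N :=
      ψ.comp (ε : intRing v (ExtK (AdjoinRoot h)) →+* AdjoinRoot h)
    have hψ's : Function.Surjective ψ' := hψs.comp ε.surjective
    have hker : RingHom.ker ψ' = maximalIdeal (intRing v (ExtK (AdjoinRoot h))) ^ N := by
      apply ext_ker (ε.symm (AdjoinRoot.root h)) hMD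
      change ψ (ε (ε.symm (AdjoinRoot.root h))) = _
      rw [AlgEquiv.apply_symm_apply, hψr]
    refine ⟨(Ideal.quotEquivOfEq hker.symm).trans
      (RingHom.quotientKerEquivOfSurjective hψ's), fun x => ?_⟩
    have h1 : ((Ideal.quotEquivOfEq hker.symm).trans
      (RingHom.quotientKerEquivOfSurjective hψ's))
        (Ideal.Quotient.mk _ (toIntRing v (ExtK (AdjoinRoot h)) x)) =
        ψ (ε (toIntRing v (ExtK (AdjoinRoot h)) x)) := rfl
    rw [h1, hto, hψc]
    rfl
  -- the residue map
  let ρ : AdjoinRoot h →+* ResidueField (AdjoinRoot g) :=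
    AdjoinRoot.lift (residue (AdjoinRoot g)) 0 (by
      rw [hh, eval₂_sub, eval₂_pow, eval₂_X, eval₂_C, zero_pow he.ne', zero_sub, neg_eq_zero]
      exact hrπ)
  have hρof : ∀ c, ρ (AdjoinRoot.of h c) = residue (AdjoinRoot g) c := fun c =>
    AdjoinRoot.lift_of _
  let ρ' : intRing v (ExtK (AdjoinRoot h)) →+* ResidueField (AdjoinRoot g) :=
    ρ.comp (ε : intRing v (ExtK (AdjoinRoot h)) →+* AdjoinRoot h)
  have hρ's : Function.Surjective ρ' := by
    intro z
    obtain ⟨c, rfl⟩ := residue_surjective z
    refine ⟨ε.symm (AdjoinRoot.of h c), ?_⟩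
    change ρ (ε (ε.symm (AdjoinRoot.of h c))) = _
    rw [AlgEquiv.apply_symm_apply, hρof]
  have hρker : RingHom.ker ρ' = maximalIdeal (intRing v (ExtK (AdjoinRoot h))) :=
    IsLocalRing.eq_maximalIdeal (RingHom.ker_isMaximal_of_surjective ρ' hρ's)
  refine ⟨ExtK (AdjoinRoot h), inferInstance, algLK, hfd, hdvrD, ?_, ?_, key⟩
  · exact Nat.card_congr ((Ideal.quotEquivOfEq hρker.symm).trans
      (RingHom.quotientKerEquivOfSurjective hρ's)).toEquiv
  · ext x
    rw [RingHom.mem_ker, RingHom.comp_apply, Ideal.Quotient.eq_zero_iff_mem, ← hρker,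
      RingHom.mem_ker]
    have h1 : ρ' (toIntRing v (ExtK (AdjoinRoot h)) x) = b x := by
      change ρ (ε (toIntRing v (ExtK (AdjoinRoot h)) x)) = _
      rw [hto, hρof]
      rfl
    rw [h1, ← RingHom.mem_ker, hkerb]

end

end MP8c80e8
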