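import Pool.Agent.Lib.MP_8c80e8_al.Final3

/-!
# J12: the main theorem
-/

open scoped TensorProduct NumberField
open IsDedekindDomain Filter Topology

namespace MP8c80e8

noncomputable section

attribute [local instance 100] LieRing.ofAssociativeRing

variable {k : Type} [Field k] [NumberField k]

theorem IntData.bad_ne_zero {G : UnipotentGroup k} {ι κ : Type} [Fintype ι] [Fintype κ]
    [DecidableEq ι] [DecidableEq κ] (B : IntData G ι κ) : B.bad ≠ 0 := by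
  unfold IntData.bad
  refine mul_ne_zero (mul_ne_zero ?_ B.δ_ne) B.δ'_ne
  have : (2 * (2 * G.m + 2).factorial : ℕ) ≠ 0 :=
    mul_ne_zero (by norm_num) (Nat.factorial_ne_zero _)
  exact_mod_cast this

/-- the finitely many bad places of the data `D` -/
theorem exists_bad_set {G : UnipotentGroup k} (D : ZetaData G) :
    ∃ S : Set (HeightOneSpectrum (𝓞 k)), S.Finite ∧ ∀ v ∉ S, FormulaAt D v ∧
      Nonempty (EigAt D v) := by
  obtain ⟨S, hS, hform⟩ := D.formula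
  choose T hT hT' using D.hχ
  refine ⟨S ∪ ⋃ i, T i, hS.union (Set.finite_iUnion hT), fun v hv => ?_⟩
  rw [Set.mem_union, not_or] at hv
  refine ⟨hform v hv.1, ?_⟩
  have h1 : ∀ i, v ∉ T i := fun i hi => hv.2 (Set.mem_iUnion.mpr ⟨i, hi⟩)
  choose r α m hα hsum hcount using fun i => hT' i v (h1 i)
  exact ⟨⟨r, α, m, hα, hsum, hcount⟩⟩

section seq

variable {ℓ : ℕ} [Fact ℓ.Prime]

theorem tendsto_N {G : UnipotentGroup k} {D : ZetaData G} {v : HeightOneSpectrum (𝓞 k)}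
    (E : EigAt D v) {I : Type} [Fintype I] (α : (Σ i, Fin (E.r i)) ⊕ I → ℂ)
    (hα : ∀ x, α (Sum.inl x) = E.α x.1 x.2) (f : ℕ → ℕ)
    (hell : ∀ (m : (Σ i, Fin (E.r i)) ⊕ I → ℤ) (N : ℕ → ℤ),
      (∀ j, (N j : ℂ) = ∑ i, (m i : ℂ) * α i ^ (f j)) →
        Tendsto (fun j => (N j : ℚ_[ℓ])) atTop (𝓝 ((∑ i, m i : ℤ) : ℚ_[ℓ])))
    (N : ℕ → Fin D.r → ℤ) (hN : ∀ j i, (N j i : ℂ) = ∑ s, (E.m i s : ℂ) * E.α i s ^ (f j))
    (i : Fin D.r) :
    Tendsto (fun j => (N j i : ℚ_[ℓ])) atTop (𝓝 (D.χ i : ℚ_[ℓ])) := by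
  set m : (Σ i, Fin (E.r i)) ⊕ I → ℤ :=
    Sum.elim (fun x => if x.1 = i then E.m x.1 x.2 else 0) (fun _ => 0) with hm
  have h1 : (∑ x, m x) = D.χ i := by
    rw [Fintype.sum_sum_type]
    simp only [hm, Sum.elim_inl, Sum.elim_inr, Finset.sum_const_zero, add_zero]
    rw [Fintype.sum_sigma, Finset.sum_eq_single i]
    · simp [E.hsum i]
    · intro b _ hb
      simp [hb]
    · simp
  have h2 := hell m (fun j => N j i) (by
    intro j
    rw [Fintype.sum_sum_type]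
    simp only [hm, Sum.elim_inl, Sum.elim_inr, Int.cast_zero, zero_mul, Finset.sum_const_zero,
      add_zero, hα]
    rw [Fintype.sum_sigma, Finset.sum_eq_single i]
    · simp [hN j i]
    · intro b _ hb
      simp [hb]
    · simp)
  rw [h1] at h2
  exact h2

end seq

theorem main (k : Type) [Field k] [NumberField k] (G G' : UnipotentGroup k)
    (φ : (DualNumber k ⊗[k] G.lie) ≃ₗ⁅k⁆ G'.lie) (D : ZetaData G) (D' : ZetaData G') :
    ∃ ω : ℚ, D.HasOmega ω ∧ D'.HasOmega (3 / 2 * ω) := by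
  classical
  obtain ⟨d, d', B, B', -, hBc⟩ := exists_intData G G' φ
  obtain ⟨S, hS, hSgood⟩ := exists_bad_set D
  obtain ⟨S', hS', hSgood'⟩ := exists_bad_set D'
  obtain ⟨v, hv, hvbad⟩ := exists_good_place (S ∪ S') (hS.union hS') (B.bad * B'.bad)
    (mul_ne_zero B.bad_ne_zero B'.bad_ne_zero)
  rw [Set.mem_union, not_or] at hv
  obtain ⟨hform, ⟨E⟩⟩ := hSgood v hv.1
  obtain ⟨hform', ⟨E'⟩⟩ := hSgood' v hv.2
  have hbad : B.bad ∉ v.asIdeal := fun h => hvbad (Ideal.mul_mem_right _ _ h)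
  have hbad' : B'.bad ∉ v.asIdeal := fun h => hvbad (Ideal.mul_mem_left _ _ h)
  set q := Nat.card (𝓞 k ⧸ v.asIdeal) with hq
  have hq2 : 2 ≤ q := by
    obtain ⟨Q, _, _, _, _, _, _, h1, h2, _⟩ := level_pair one_pos B B' hBc D D' hbad hbad' hform
      hform' E E'
    rw [pow_one] at h1
    omega
  -- the prime ℓ and the exponents
  obtain ⟨ℓ, hℓ, f, hf, hfq, hell⟩ := exists_ell
    (Sum.elim (fun x => E.α x.1 x.2) (fun x => E'.α x.1 x.2) :
      (Σ i, Fin (E.r i)) ⊕ (Σ i, Fin (E'.r i)) → ℂ)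
    (by
      rintro (x | x)
      · exact E.hα _ _
      · exact E'.hα _ _) q hq2
  choose Q N N' c c' ρ ρ' hQ hQ2 hN hN' hrel hrel' hc0 hc0' hk hk' hρ hρ' hdual using
    fun j => level_pair (hf j) B B' hBc D D' hbad hbad' hform hform' E E'
  have hQt : Tendsto (fun j => ((Q j : ℕ) : ℚ_[ℓ])) atTop (𝓝 1) := by
    simp only [hQ, ← hq, Nat.cast_pow]
    exact hfq
  have hut : Tendsto (fun j => (((Q j : ℤ) - 1 : ℤ) : ℚ_[ℓ])) atTop (𝓝 0) := by
    have := hQt.sub_const 1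
    simpa using this
  have hu0 : ∀ j, ((Q j : ℤ) - 1) ≠ 0 := by
    intro j
    have := hQ2 j
    omega
  have hNt : ∀ i, Tendsto (fun j => (N j i : ℚ_[ℓ])) atTop (𝓝 (D.χ i : ℚ_[ℓ])) :=
    tendsto_N E _ (fun x => rfl) f hell N hN
  have hNt' : ∀ i, Tendsto (fun j => (N' j i : ℚ_[ℓ])) atTop (𝓝 (D'.χ i : ℚ_[ℓ])) := by
    refine tendsto_N E' (I := Σ i, Fin (E.r i))
      (Sum.elim (fun x => E'.α x.1 x.2) (fun x => E.α x.1 x.2)) (fun x => rfl) f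
      (fun m M hM => ?_) N' hN'
    have h1 := hell (m ∘ Sum.swap) M (by
      intro j
      rw [hM j, Fintype.sum_sum_type, Fintype.sum_sum_type, add_comm]
      rfl)
    have h2 : ∑ i, (m ∘ Sum.swap) i = ∑ i, m i := by
      rw [Fintype.sum_sum_type, Fintype.sum_sum_type, add_comm]
      rfl
    rw [h2] at h1
    exact h1
  have hx : ∀ j, (1 : ℚ) + (((Q j : ℤ) - 1 : ℤ) : ℚ) = (Q j : ℚ) := by
    intro j; push_cast; ring
  obtain ⟨ω, hω1, hω2⟩ := topAlg ℓ D.W D.χ N (fun j => (Q j : ℤ) - 1) hu0 hut hNt c hc0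
    (fun j => by rw [hx j]; exact hrel j) (d + d) ρ
    (fun i hi => coeff_limit Q hQ2 hQt c ρ _ (d + d) i hi (fun j r hr => hρ j r (by omega))
      (fun j => hk j i hi))
  obtain ⟨ω', hω1', hω2'⟩ := topAlg ℓ D'.W D'.χ N' (fun j => (Q j : ℤ) - 1) hu0 hut hNt' c' hc0'
    (fun j => by rw [hx j]; exact hrel' j) (d + d) ρ'
    (fun i hi => coeff_limit Q hQ2 hQt c' ρ' _ (d + d) i hi (fun j r hr => hρ' j r (by omega))
      (fun j => hk' j i hi))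
  -- comparison
  have hcomp : ω' = 3 / 2 * ω := by
    choose z hz using hdual
    have hstep : ∀ j, ∑ i ∈ Finset.Icc 1 (d + d), (ρ' j i : ℚ_[ℓ]) / (i : ℚ_[ℓ]) =
        (3 / 2) * ∑ i ∈ Finset.Icc 1 (d + d), (ρ j i : ℚ_[ℓ]) / (i : ℚ_[ℓ]) +
        (((Q j : ℤ) - 1 : ℤ) : ℚ_[ℓ]) * ∑ i ∈ Finset.Icc 1 (d + d),
          ((if h : 1 ≤ i then z j i h else 0 : ℤ) : ℚ_[ℓ]) / (i : ℚ_[ℓ]) := by
      intro j
      have h1 : ∀ i ∈ Finset.Icc 1 (d + d), (ρ' j i : ℚ_[ℓ]) / (i : ℚ_[ℓ]) =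
          (ρ j i : ℚ_[ℓ]) / (i : ℚ_[ℓ]) +
          (if 2 ∣ i then (ρ j (i / 2) : ℚ_[ℓ]) else 0) / (i : ℚ_[ℓ]) +
          (((Q j : ℤ) - 1 : ℤ) : ℚ_[ℓ]) * (((if h : 1 ≤ i then z j i h else 0 : ℤ) : ℚ_[ℓ]) /
            (i : ℚ_[ℓ])) := by
        intro i hi
        rw [Finset.mem_Icc] at hi
        rw [dif_pos hi.1, hz j i hi.1]
        split_ifs <;> push_cast <;> ring
      rw [Finset.sum_congr rfl h1, Finset.sum_add_distrib, Finset.sum_add_distrib,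
        ← Finset.mul_sum, half_sum (fun i => (ρ j i : ℚ_[ℓ])) d,
        sum_Icc_extend (fun i => (ρ j i : ℚ_[ℓ])) d (fun r hr => by
          rw [hρ j r (by omega)]; simp)]
      ring
    have hlim : Tendsto (fun j => ∑ i ∈ Finset.Icc 1 (d + d), (ρ' j i : ℚ_[ℓ]) / (i : ℚ_[ℓ]))
        atTop (𝓝 ((3 / 2) * (ω : ℚ_[ℓ]))) := by
      simp only [hstep]
      have h2 : Nl (fun j => (((Q j : ℤ) - 1 : ℤ) : ℚ_[ℓ]) * ∑ i ∈ Finset.Icc 1 (d + d),
          ((if h : 1 ≤ i then z j i h else 0 : ℤ) : ℚ_[ℓ]) / (i : ℚ_[ℓ])) := by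
        refine Nl.mul_bd hut (Bd.sum _ fun i _ => ?_)
        simp only [div_eq_mul_inv]
        exact (bd_int _).mul (Bd.const _)
      have := (hω1.const_mul (3 / 2)).add h2
      simpa using this
    have h3 := tendsto_nhds_unique hω1' hlim
    have h4 : ((ω' : ℚ) : ℚ_[ℓ]) = ((3 / 2 * ω : ℚ) : ℚ_[ℓ]) := by
      rw [h3]; push_cast; rfl
    exact_mod_cast h4
  refine ⟨ω, hω2, ?_⟩
  have h5 : (3 / 2 * (ω : ℝ)) = ((ω' : ℚ) : ℝ) := by rw [hcomp]; push_cast; rfl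
  rw [h5]
  exact hω2'

end

end MP8c80e8
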