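import Pool.Agent.Lib.MP_8c80e8_al.TopAlg2

/-!
# J10, part 3: the theorem `topAlg`
-/

open Filter Topology

namespace MP8c80e8

noncomputable section

theorem specY_mul (x : ℚ) (p q : MvPolynomial (Fin 2) ℚ) :
    specY x (p * q) = specY x p * specY x q := by simp [specY]

theorem specY_prod {ι : Type} (x : ℚ) (s : Finset ι) (p : ι → MvPolynomial (Fin 2) ℚ) :
    specY x (∏ i ∈ s, p i) = ∏ i ∈ s, specY x (p i) := by simp [specY]

theorem specY_one_sub (x : ℚ) : specY x (1 - MvPolynomial.X 1) = 1 - Polynomial.X := by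
  simp [specY]

theorem substT_mul (p q : MvPolynomial (Fin 2) ℚ) : substT (p * q) = substT p * substT q := by
  simp [substT]

/-- `∑_{k ≥ 1, i ∣ k} Y^k * (1 - Y) * (1 + Y + ... + Y^{i-1}) = Y^i` -/
theorem ind_series (i : ℕ) (hi : 1 ≤ i) :
    (PowerSeries.mk (fun k => if k ≠ 0 ∧ i ∣ k then (1 : ℚ) else 0)) *
      (((1 - Polynomial.X) * ∑ a ∈ Finset.range i, Polynomial.X ^ a : Polynomial ℚ) :
        PowerSeries ℚ) = PowerSeries.X ^ i := by
  have h1 : ((1 - Polynomial.X) * ∑ a ∈ Finset.range i, Polynomial.X ^ a : Polynomial ℚ) =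
      1 - Polynomial.X ^ i := mul_neg_geom_sum _ _
  rw [h1]
  simp only [Polynomial.coe_sub, Polynomial.coe_one, Polynomial.coe_pow, Polynomial.coe_X]
  ext k
  rw [mul_sub, mul_one, map_sub, PowerSeries.coeff_mk, PowerSeries.coeff_mul_X_pow',
    PowerSeries.coeff_X_pow]
  by_cases hk : i ≤ k
  · rw [if_pos hk, PowerSeries.coeff_mk]
    have hk0 : k ≠ 0 := by omega
    by_cases hki : k = i
    · subst hki
      simp [hk0]
    · have h2 : k - i ≠ 0 := by omega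
      have h3 : i ∣ k - i ↔ i ∣ k := by
        constructor
        · intro h
          have := Nat.dvd_add h (dvd_refl i)
          rwa [Nat.sub_add_cancel hk] at this
        · intro h
          exact Nat.dvd_sub h (dvd_refl i)
      simp only [ne_eq, hk0, not_false_eq_true, true_and, h2, h3, hki, if_false, sub_self]
  · rw [if_neg hk, sub_zero]
    have h2 : ¬ (k ≠ 0 ∧ i ∣ k) := by
      rintro ⟨h0, hd⟩
      exact hk (Nat.le_of_dvd (by omega) hd)
    have h3 : k ≠ i := by omega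
    simp [h2, h3]

/-- the polynomial `∏_{i ≤ d} [i]_Y` -/
def Vpoly (d : ℕ) : Polynomial ℚ := ∏ i ∈ Finset.Icc 1 d, ∑ a ∈ Finset.range i, Polynomial.X ^ a

/-- numerator of `∑ n_i Y^i/(1-Y^i)` -/
def Spoly (d : ℕ) (n : ℕ → ℤ) : Polynomial ℚ :=
  ∑ i ∈ Finset.Icc 1 d, Polynomial.C (n i : ℚ) * Polynomial.X ^ i *
    ∏ i' ∈ (Finset.Icc 1 d).erase i, ∑ a ∈ Finset.range i', Polynomial.X ^ a

theorem coe_psum {ι : Type} (s : Finset ι) (f : ι → Polynomial ℚ) :
    ((∑ i ∈ s, f i : Polynomial ℚ) : PowerSeries ℚ) = ∑ i ∈ s, (f i : PowerSeries ℚ) :=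
  map_sum Polynomial.coeToPowerSeries.ringHom f s

theorem beta_series (d : ℕ) (n : ℕ → ℤ) :
    (PowerSeries.mk (fun k => if k = 0 then (0 : ℚ) else
      ∑ i ∈ (Finset.Icc 1 d).filter (· ∣ k), (n i : ℚ))) *
      (((1 - Polynomial.X) * Vpoly d : Polynomial ℚ) : PowerSeries ℚ) =
      ((Spoly d n : Polynomial ℚ) : PowerSeries ℚ) := by
  have h1 : (PowerSeries.mk (fun k => if k = 0 then (0 : ℚ) else
      ∑ i ∈ (Finset.Icc 1 d).filter (· ∣ k), (n i : ℚ))) =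
      ∑ i ∈ Finset.Icc 1 d, PowerSeries.C (n i : ℚ) *
        PowerSeries.mk (fun k => if k ≠ 0 ∧ i ∣ k then (1 : ℚ) else 0) := by
    ext k
    rw [PowerSeries.coeff_mk, map_sum]
    simp only [PowerSeries.coeff_C_mul, PowerSeries.coeff_mk]
    by_cases hk : k = 0
    · simp [hk]
    · simp only [hk, if_false, ne_eq, not_false_eq_true, true_and]
      rw [Finset.sum_filter]
      apply Finset.sum_congr rfl
      intro i _
      split_ifs <;> simp
  rw [h1, Finset.sum_mul]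
  unfold Spoly
  rw [coe_psum]
  apply Finset.sum_congr rfl
  intro i hi
  rw [Finset.mem_Icc] at hi
  have h2 : Vpoly d = (∑ a ∈ Finset.range i, Polynomial.X ^ a) *
      ∏ i' ∈ (Finset.Icc 1 d).erase i, ∑ a ∈ Finset.range i', Polynomial.X ^ a := by
    exact (Finset.mul_prod_erase (Finset.Icc 1 d)
      (fun i => ∑ a ∈ Finset.range i, (Polynomial.X : Polynomial ℚ) ^ a)
      (Finset.mem_Icc.mpr hi)).symm
  rw [h2, ← mul_assoc (1 - Polynomial.X), Polynomial.coe_mul, mul_assoc,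
    ← mul_assoc (PowerSeries.mk _), ind_series i hi.1, ← mul_assoc]
  simp only [Polynomial.coe_mul, Polynomial.coe_C, Polynomial.coe_pow, Polynomial.coe_X]

theorem Vpoly_eval (d : ℕ) : (Vpoly d).eval 1 = ∏ i ∈ Finset.Icc 1 d, (i : ℚ) := by
  unfold Vpoly
  rw [Polynomial.eval_prod]
  apply Finset.prod_congr rfl
  intro i _
  simp [Polynomial.eval_finsetSum]

theorem Vpoly_eval_ne (d : ℕ) : (Vpoly d).eval 1 ≠ 0 := by
  rw [Vpoly_eval, Finset.prod_ne_zero_iff]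
  intro i hi
  rw [Finset.mem_Icc] at hi
  have : i ≠ 0 := by omega
  exact_mod_cast this

theorem Spoly_eval (d : ℕ) (n : ℕ → ℤ) : (Spoly d n).eval 1 =
    (Vpoly d).eval 1 * ∑ i ∈ Finset.Icc 1 d, (n i : ℚ) / i := by
  unfold Spoly
  rw [Polynomial.eval_finsetSum, Finset.mul_sum]
  apply Finset.sum_congr rfl
  intro i hi
  have hi' := Finset.mem_Icc.mp hi
  have h0 : (i : ℚ) ≠ 0 := by
    have : i ≠ 0 := by omega
    exact_mod_cast this
  rw [Vpoly_eval, ← Finset.mul_prod_erase _ _ hi]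
  simp only [Polynomial.eval_mul, Polynomial.eval_C, Polynomial.eval_pow, Polynomial.eval_X,
    one_pow, mul_one, Polynomial.eval_prod, Polynomial.eval_finsetSum, Finset.sum_const,
    Finset.card_range, nsmul_eq_mul]
  field_simp

/-- The algebraic data extracted from the family `W`: everything we need about `D` and `P_i`. -/
structure AlgData {r : ℕ} (W : Fin r → WData) (χ : Fin r → ℤ) where
  M0 : ℕ
  m : ℕ
  E : Polynomial (Polynomial ℚ)
  G : Polynomial ℚ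
  D : MvPolynomial (Fin 2) ℚ
  P : Fin r → MvPolynomial (Fin 2) ℚ
  hDspec : ∀ u : ℚ, specY (1 + u) D =
    Polynomial.C (u ^ M0) * E.map (Polynomial.evalRingHom u) * (1 - Polynomial.X)
  hE0 : E.map (Polynomial.evalRingHom 0) = (Polynomial.X - 1) ^ m * G
  hG1 : G.eval 1 ≠ 0
  hD : D = (∏ i, (W i).den) * (1 - MvPolynomial.X 1)
  hP : ∀ i, P i = (W i).num * (∏ i' ∈ Finset.univ.erase i, (W i').den) * (1 - MvPolynomial.X 1)
  hser : PowerSeries (Polynomial ℚ)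
  hDser : substP D = PowerSeries.X ^ (M0 + m + 1) * hser
  pser : Fin r → PowerSeries (Polynomial ℚ)
  hPser : ∀ i, substP (P i) = PowerSeries.X ^ (M0 + m + 1) * pser i
  /-- leading coefficient of the denominator -/
  hCdeg : (PowerSeries.constantCoeff hser).natDegree = m + 1
  hClead : (PowerSeries.constantCoeff hser).leadingCoeff = (-1) ^ m * G.eval 1
  hrel : ∀ i, algebraMap (Polynomial ℚ) (RatFunc ℚ) (PowerSeries.constantCoeff (pser i)) =
    PowerSeries.constantCoeff (W i).ser *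
      algebraMap (Polynomial ℚ) (RatFunc ℚ) (PowerSeries.constantCoeff hser)

theorem exists_algData {r : ℕ} (W : Fin r → WData) (χ : Fin r → ℤ) : Nonempty (AlgData W χ) := by
  have hmem : (∏ i, (W i).den) ∈ cycDen := Submonoid.prod_mem _ fun i _ => (W i).hden
  obtain ⟨M0, m, E, G, c₀, h, HD⟩ := good_of_cycDen hmem
  obtain ⟨h1, hh1, hh1c⟩ := one_sub_ser
  set D : MvPolynomial (Fin 2) ℚ := (∏ i, (W i).den) * (1 - MvPolynomial.X 1) with hDdef
  set P : Fin r → MvPolynomial (Fin 2) ℚ := fun i =>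
    (W i).num * (∏ i' ∈ Finset.univ.erase i, (W i').den) * (1 - MvPolynomial.X 1) with hPdef
  have hDser : substP D = PowerSeries.X ^ (M0 + m + 1) * (h * h1) := by
    rw [hDdef, map_mul, HD.sub, hh1, pow_succ]; ring
  have hDc : PowerSeries.constantCoeff (h * h1) = c₀ * Polynomial.X := by
    rw [map_mul, HD.hc, hh1c]
  have hc0 : c₀ ≠ 0 := by
    intro h0
    have := HD.lead
    rw [h0, Polynomial.leadingCoeff_zero] at this
    exact (mul_ne_zero (pow_ne_zero _ (by norm_num)) HD.G1) this.symm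
  have hserP : ∀ i, substT D * (W i).ser = substT (P i) := by
    intro i
    rw [hDdef, ← Finset.mul_prod_erase _ _ (Finset.mem_univ i), hPdef]
    simp only [substT_mul]
    rw [← (W i).hser]
    ring
  choose pser hp1 hp2 using fun i => substP_div hDser hDc (hserP i)
  exact ⟨{
    M0 := M0, m := m, E := E, G := G, D := D, P := P
    hDspec := by
      intro u
      rw [hDdef, specY_mul, specY_one_sub, HD.spec]
    hE0 := HD.E0
    hG1 := HD.G1
    hD := rfl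
    hP := fun i => rfl
    hser := h * h1
    hDser := hDser
    pser := pser
    hPser := hp1
    hCdeg := by
      rw [hDc, Polynomial.natDegree_mul_X hc0, HD.deg]
    hClead := by
      rw [hDc, Polynomial.leadingCoeff_mul_X, HD.lead]
    hrel := by
      intro i
      rw [hp2 i, hDc] }⟩

/-- the polynomial `τ` -/
def AlgData.tau {r : ℕ} {W : Fin r → WData} {χ : Fin r → ℤ} (A : AlgData W χ) : Polynomial ℚ :=
  ∑ i, Polynomial.C (χ i : ℚ) * PowerSeries.constantCoeff (A.pser i) -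
    PowerSeries.constantCoeff A.hser

theorem AlgData.tau_rel {r : ℕ} {W : Fin r → WData} {χ : Fin r → ℤ} (A : AlgData W χ) :
    ((∑ i, (χ i : RatFunc ℚ) * PowerSeries.constantCoeff (W i).ser) - 1) *
      algebraMap (Polynomial ℚ) (RatFunc ℚ) (PowerSeries.constantCoeff A.hser) =
      algebraMap (Polynomial ℚ) (RatFunc ℚ) A.tau := by
  unfold AlgData.tau
  rw [map_sub, map_sum, sub_mul, one_mul, Finset.sum_mul]
  congr 1
  apply Finset.sum_congr rfl
  intro i _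
  rw [map_mul, A.hrel i]
  simp
  ring

/-- the polynomial `T_j` for a given `u` and `N` -/
def AlgData.T {r : ℕ} {W : Fin r → WData} {χ : Fin r → ℤ} (A : AlgData W χ) (u : ℚ)
    (N : Fin r → ℤ) : Polynomial ℚ :=
  ∑ i, Polynomial.C (N i : ℚ) * specY (1 + u) (A.P i) - specY (1 + u) A.D

theorem AlgData.T_natDegree {r : ℕ} {W : Fin r → WData} {χ : Fin r → ℤ} (A : AlgData W χ) :
    ∃ B : ℕ, ∀ u N, (A.T u N).natDegree ≤ B := by
  choose b hb using fun i => natDegree_specY (A.P i)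
  obtain ⟨b', hb'⟩ := natDegree_specY A.D
  refine ⟨max (Finset.univ.sup b) b', fun u N => ?_⟩
  unfold AlgData.T
  refine (Polynomial.natDegree_sub_le _ _).trans (max_le_max ?_ (hb' _))
  refine Polynomial.natDegree_sum_le_of_forall_le _ _ fun i _ => ?_
  refine (Polynomial.natDegree_C_mul_le _ _).trans ((hb i _).trans ?_)
  exact Finset.le_sup (f := b) (Finset.mem_univ i)

theorem AlgData.T_series {r : ℕ} {W : Fin r → WData} {χ : Fin r → ℤ} (A : AlgData W χ) (u : ℚ)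
    (N : Fin r → ℤ) (c : ℕ → ℚ) (h : SeriesRel W N (1 + u) c) :
    (PowerSeries.mk c - 1) * ((specY (1 + u) A.D : Polynomial ℚ) : PowerSeries ℚ) =
      ((A.T u N : Polynomial ℚ) : PowerSeries ℚ) := by
  unfold SeriesRel at h
  have h1 : specY (1 + u) A.D = (∏ i, specY (1 + u) (W i).den) * (1 - Polynomial.X) := by
    rw [A.hD, specY_mul, specY_prod, specY_one_sub]
  have h2 : ∀ i, specY (1 + u) (A.P i) = specY (1 + u) (W i).num *
      (∏ i' ∈ Finset.univ.erase i, specY (1 + u) (W i').den) * (1 - Polynomial.X) := by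
    intro i
    rw [A.hP, specY_mul, specY_mul, specY_prod, specY_one_sub]
  have h3 : A.T u N = (∑ i, Polynomial.C (N i : ℚ) * specY (1 + u) (W i).num *
      ∏ i' ∈ Finset.univ.erase i, specY (1 + u) (W i').den) * (1 - Polynomial.X) -
      (∏ i, specY (1 + u) (W i).den) * (1 - Polynomial.X) := by
    unfold AlgData.T
    rw [h1, Finset.sum_mul]
    congr 1
    apply Finset.sum_congr rfl
    intro i _
    rw [h2]; ring
  rw [h3, h1, Polynomial.coe_sub, Polynomial.coe_mul, Polynomial.coe_mul, ← h]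
  ring

/-- the evaluation of `T` at `(1+u)^n` -/
theorem AlgData.T_eval {r : ℕ} {W : Fin r → WData} {χ : Fin r → ℤ} (A : AlgData W χ) (n : ℕ) :
    ∃ (g : Fin r → Polynomial ℚ) (g' : Polynomial ℚ),
      (∀ i, (g i).eval 0 = (PowerSeries.constantCoeff (A.pser i)).eval (-(n : ℚ))) ∧
      g'.eval 0 = (PowerSeries.constantCoeff A.hser).eval (-(n : ℚ)) ∧
      ∀ u N, (A.T u N).eval ((1 + u) ^ n) =
        u ^ (A.M0 + A.m + 1) * (∑ i, (N i : ℚ) * (g i).eval u - g'.eval u) := by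
  choose g hg1 hg2 using fun i => substN_div (A.hPser i) n
  obtain ⟨g', hg'1, hg'2⟩ := substN_div A.hDser n
  refine ⟨g, g', hg2, hg'2, fun u N => ?_⟩
  unfold AlgData.T
  rw [Polynomial.eval_sub, Polynomial.eval_finsetSum, eval_specY, hg'1]
  simp only [Polynomial.eval_mul, Polynomial.eval_C, eval_specY, hg1, Polynomial.eval_pow,
    Polynomial.eval_X]
  rw [mul_sub, Finset.mul_sum]
  congr 1
  apply Finset.sum_congr rfl
  intro i _
  ring

theorem Spoly_natDegree (d : ℕ) : ∃ B : ℕ, ∀ n, (Spoly d n).natDegree ≤ B := by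
  refine ⟨(Finset.Icc 1 d).sup fun i => (Polynomial.X ^ i *
    ∏ i' ∈ (Finset.Icc 1 d).erase i, ∑ a ∈ Finset.range i',
      (Polynomial.X : Polynomial ℚ) ^ a).natDegree, fun n => ?_⟩
  unfold Spoly
  refine Polynomial.natDegree_sum_le_of_forall_le _ _ fun i hi => ?_
  rw [mul_assoc]
  refine (Polynomial.natDegree_C_mul_le _ _).trans ?_
  exact Finset.le_sup (f := fun i => (Polynomial.X ^ i *
    ∏ i' ∈ (Finset.Icc 1 d).erase i, ∑ a ∈ Finset.range i',
      (Polynomial.X : Polynomial ℚ) ^ a).natDegree) hi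

section padic

variable {ℓ : ℕ} [Fact ℓ.Prime]

/-- evaluation of a rational polynomial along a sequence converging to `0` -/
theorem tendsto_eval_cast (g : Polynomial ℚ) {uq : ℕ → ℚ}
    (hu : Tendsto (fun j => ((uq j : ℚ) : ℚ_[ℓ])) atTop (𝓝 0)) :
    Tendsto (fun j => ((g.eval (uq j) : ℚ) : ℚ_[ℓ])) atTop (𝓝 ((g.eval 0 : ℚ) : ℚ_[ℓ])) := by
  have h1 : ∀ x : ℚ, ((g.eval x : ℚ) : ℚ_[ℓ]) = (g.map (algebraMap ℚ ℚ_[ℓ])).eval (x : ℚ_[ℓ]) := by
    intro x
    have := Polynomial.eval_map_apply (f := algebraMap ℚ ℚ_[ℓ]) (p := g) x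
    rw [eq_ratCast, eq_ratCast] at this
    exact this.symm
  simp only [h1]
  have := ((g.map (algebraMap ℚ ℚ_[ℓ])).continuous.tendsto (((0 : ℚ) : ℚ_[ℓ])))
  rw [Rat.cast_zero] at *
  exact this.comp hu

theorem bd_int (a : ℕ → ℤ) : Bd (fun j => ((a j : ℤ) : ℚ_[ℓ])) :=
  ⟨1, fun j => Padic.norm_int_le_one (a j)⟩

end padic

/-! ## The theorem -/

section main

variable {ℓ : ℕ} [Fact ℓ.Prime]

theorem topAlg_aux {r : ℕ} {W : Fin r → WData} {χ : Fin r → ℤ} (A : AlgData W χ)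
    (N : ℕ → Fin r → ℤ) (u : ℕ → ℤ) (hu0 : ∀ j, u j ≠ 0)
    (hu : Tendsto (fun j => (u j : ℚ_[ℓ])) atTop (𝓝 0))
    (c : ℕ → ℕ → ℚ) (hc0 : ∀ j, c j 0 = 1)
    (hid : ∀ j, SeriesRel W (N j) (1 + (u j : ℚ)) (c j))
    (d : ℕ) (n : ℕ → ℕ → ℤ)
    (hn : ∀ k : ℕ, 1 ≤ k → Tendsto (fun j => ((c j k : ℚ) : ℚ_[ℓ]) / (u j : ℚ_[ℓ])
      - ∑ i ∈ (Finset.Icc 1 d).filter (· ∣ k), (n j i : ℚ_[ℓ])) atTop (𝓝 0)) :
    ∃ (a : ℕ → Polynomial ℚ) (B : ℕ),
      (∀ j, a j = Polynomial.C (((u j : ℚ) ^ (A.M0 + 1))⁻¹) * A.T (u j) (N j)) ∧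
      (∀ j, (a j).natDegree ≤ B) ∧
      (∀ i, Bd (fun j => (Polynomial.taylor 1 ((a j).map (algebraMap ℚ ℚ_[ℓ]))).coeff i)) ∧
      Nl (fun j => (Polynomial.taylor 1 ((a j).map (algebraMap ℚ ℚ_[ℓ]))).coeff A.m -
        (∑ i ∈ Finset.Icc 1 d, (n j i : ℚ_[ℓ]) / (i : ℚ_[ℓ])) * ((A.G.eval 1 : ℚ) : ℚ_[ℓ])) := by
  set ι : ℚ →+* ℚ_[ℓ] := algebraMap ℚ ℚ_[ℓ] with hι
  have hιc : ∀ x : ℚ, ι x = (x : ℚ_[ℓ]) := fun x => eq_ratCast ι x
  have huq : Tendsto (fun j => (((u j : ℚ)) : ℚ_[ℓ])) atTop (𝓝 0) := by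
    simpa using hu
  have huq0 : ∀ j, (u j : ℚ) ≠ 0 := fun j => by exact_mod_cast hu0 j
  set a : ℕ → Polynomial ℚ := fun j =>
    Polynomial.C (((u j : ℚ) ^ (A.M0 + 1))⁻¹) * A.T (u j) (N j) with ha
  obtain ⟨B, hB⟩ := A.T_natDegree
  have haB : ∀ j, (a j).natDegree ≤ B := fun j =>
    (Polynomial.natDegree_C_mul_le _ _).trans (hB _ _)
  set α : ℕ → PowerSeries ℚ := fun j =>
    PowerSeries.mk fun k => if k = 0 then 0 else c j k / (u j : ℚ) with hα
  set β : ℕ → PowerSeries ℚ := fun j => PowerSeries.mk (fun k => if k = 0 then (0 : ℚ) else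
      ∑ i ∈ (Finset.Icc 1 d).filter (· ∣ k), (n j i : ℚ)) with hβ
  set Ej : ℕ → Polynomial ℚ := fun j => A.E.map (Polynomial.evalRingHom (u j : ℚ)) with hEj
  set E0 : Polynomial ℚ := A.E.map (Polynomial.evalRingHom 0) with hE0
  have hαc : ∀ j, PowerSeries.mk (c j) - 1 = PowerSeries.C (u j : ℚ) * α j := by
    intro j
    ext k
    rw [map_sub, PowerSeries.coeff_mk, PowerSeries.coeff_C_mul, hα, PowerSeries.coeff_mk,
      PowerSeries.coeff_one]
    by_cases hk : k = 0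
    · simp [hk, hc0]
    · simp only [hk, if_false, sub_zero]
      rw [mul_div_cancel₀ _ (huq0 j)]
  have haser : ∀ j, ((a j : Polynomial ℚ) : PowerSeries ℚ) =
      α j * (Ej j : PowerSeries ℚ) * ((1 - Polynomial.X : Polynomial ℚ) : PowerSeries ℚ) := by
    intro j
    rw [ha]
    simp only
    rw [Polynomial.coe_mul, ← A.T_series _ _ _ (hid j), hαc, A.hDspec, Polynomial.coe_mul,
      Polynomial.coe_mul, Polynomial.coe_C, Polynomial.coe_C]
    have h1 : PowerSeries.C (((u j : ℚ) ^ (A.M0 + 1))⁻¹) * (PowerSeries.C (u j : ℚ) *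
        PowerSeries.C ((u j : ℚ) ^ A.M0)) = 1 := by
      rw [← map_mul, ← map_mul, ← pow_succ', inv_mul_cancel₀ (pow_ne_zero _ (huq0 j)), map_one]
    calc _ = (PowerSeries.C (((u j : ℚ) ^ (A.M0 + 1))⁻¹) * (PowerSeries.C (u j : ℚ) *
        PowerSeries.C ((u j : ℚ) ^ A.M0))) * (α j * (Ej j : PowerSeries ℚ) *
        ((1 - Polynomial.X : Polynomial ℚ) : PowerSeries ℚ)) := by ring
      _ = _ := by rw [h1, one_mul]
  set Q : ℕ → Polynomial ℚ := fun j => a j * Vpoly d - Spoly d (n j) * E0 with hQ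
  have hQser : ∀ j, ((Q j : Polynomial ℚ) : PowerSeries ℚ) =
      ((α j - β j) * (Ej j : PowerSeries ℚ) + β j * ((Ej j - E0 : Polynomial ℚ) : PowerSeries ℚ)) *
      (((1 - Polynomial.X) * Vpoly d : Polynomial ℚ) : PowerSeries ℚ) := by
    intro j
    change ((a j * Vpoly d - Spoly d (n j) * E0 : Polynomial ℚ) : PowerSeries ℚ) = _
    rw [Polynomial.coe_sub, Polynomial.coe_mul (a j), Polynomial.coe_mul (Spoly d (n j)),
      haser, ← beta_series]
    simp only [Polynomial.coe_mul, Polynomial.coe_sub]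
    ring
  -- sequences over the p-adic field
  have hEjt : ∀ k, Tendsto (fun j => ((((Ej j).coeff k : ℚ)) : ℚ_[ℓ])) atTop
      (𝓝 ((E0.coeff k : ℚ) : ℚ_[ℓ])) := by
    intro k
    have := tendsto_eval_cast (ℓ := ℓ) (A.E.coeff k) huq
    simpa [hEj, hE0, Polynomial.coeff_map] using this
  have hEbd : PBd (fun j => PowerSeries.map ι (Ej j : PowerSeries ℚ)) := by
    intro k
    simp only [PowerSeries.coeff_map, Polynomial.coeff_coe, hιc]
    exact Bd.of_tendsto (hEjt k)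
  have hβbd : PBd (fun j => PowerSeries.map ι (β j)) := by
    intro k
    simp only [PowerSeries.coeff_map, hβ, PowerSeries.coeff_mk, hιc]
    by_cases hk : k = 0
    · simpa [hk] using Bd.const (0 : ℚ_[ℓ])
    · simp only [hk, if_false, Rat.cast_sum, Rat.cast_intCast]
      exact Bd.sum _ fun i _ => bd_int _
  have hαβ : PNl (fun j => PowerSeries.map ι (α j - β j)) := by
    intro k
    simp only [PowerSeries.coeff_map, map_sub, hα, hβ, PowerSeries.coeff_mk, hιc]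
    by_cases hk : k = 0
    · simp [hk, Nl]
    · simp only [hk, if_false, Rat.cast_sum, Rat.cast_intCast, Rat.cast_div]
      exact hn k (by omega)
  have hEE : PNl (fun j => PowerSeries.map ι ((Ej j - E0 : Polynomial ℚ) : PowerSeries ℚ)) := by
    intro k
    simp only [PowerSeries.coeff_map, Polynomial.coeff_coe, Polynomial.coeff_sub, hιc]
    have := (hEjt k).sub_const ((E0.coeff k : ℚ) : ℚ_[ℓ])
    simpa [Nl] using this
  have hQnl : PNl (fun j => PowerSeries.map ι ((Q j : Polynomial ℚ) : PowerSeries ℚ)) := by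
    have h1 := ((hαβ.mul_bd hEbd).add (by
      simpa [mul_comm] using hEE.mul_bd hβbd)).mul_bd
      (PBd.const (PowerSeries.map ι (((1 - Polynomial.X) * Vpoly d : Polynomial ℚ) :
        PowerSeries ℚ)))
    intro k
    have := h1 k
    simpa [hQser, map_mul, map_add, map_sub, mul_comm] using this
  have habd : ∀ k, Bd (fun j => ((a j).map ι).coeff k) := by
    have hα' : PBd (fun j => PowerSeries.map ι (α j)) := by
      have := hαβ.bd.add hβbd
      simpa using this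
    have h1 := (hα'.mul hEbd).mul (PBd.const (PowerSeries.map ι
      ((1 - Polynomial.X : Polynomial ℚ) : PowerSeries ℚ)))
    intro k
    have h2 := h1 k
    have h3 : ∀ j, ((a j).map ι).coeff k = PowerSeries.coeff k
        (PowerSeries.map ι (α j) * PowerSeries.map ι (Ej j : PowerSeries ℚ) *
          PowerSeries.map ι ((1 - Polynomial.X : Polynomial ℚ) : PowerSeries ℚ)) := by
      intro j
      rw [← map_mul, ← map_mul, ← haser, PowerSeries.coeff_map, Polynomial.coeff_coe,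
        Polynomial.coeff_map]
    simpa only [h3] using h2
  refine ⟨a, B, fun j => rfl, haB, fun i => ?_, ?_⟩
  · exact Bd.taylor (B := B) (fun j => (Polynomial.natDegree_map_le).trans (haB j)) habd i
  · -- the step at Y = 1
    obtain ⟨B', hB'⟩ := Spoly_natDegree d
    have hV1 : ((Vpoly d).map ι).eval 1 = ι ((Vpoly d).eval 1) := Polynomial.eval_one_map _ _
    have hV : ((Vpoly d).map ι).eval 1 ≠ 0 := by
      rw [hV1]
      exact (map_ne_zero ι).mpr (Vpoly_eval_ne d)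
    have hQm : ∀ j, (a j).map ι * (Vpoly d).map ι -
        (Spoly d (n j)).map ι * ((Polynomial.X - 1) ^ A.m * A.G.map ι) = (Q j).map ι := by
      intro j
      change _ = (a j * Vpoly d - Spoly d (n j) * E0).map ι
      rw [hE0, A.hE0]
      simp
    have h1 := taylor_step (A := fun j => (a j).map ι) (S := fun j => (Spoly d (n j)).map ι)
      (V := (Vpoly d).map ι) (G := A.G.map ι) (m := A.m)
      (B := max (B + (Vpoly d).natDegree) (B' + E0.natDegree)) hV (by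
        intro j
        rw [hQm]
        refine Polynomial.natDegree_map_le.trans ((Polynomial.natDegree_sub_le _ _).trans
          (max_le_max ?_ ?_))
        · exact Polynomial.natDegree_mul_le.trans (Nat.add_le_add_right (haB j) _)
        · exact Polynomial.natDegree_mul_le.trans (Nat.add_le_add_right (hB' _) _)) (by
        intro k
        simp only [hQm, Polynomial.coeff_map]
        have := hQnl k
        simpa only [PowerSeries.coeff_map, Polynomial.coeff_coe] using this)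
    have h2 := h1.mul_bd (Bd.const ((((Vpoly d).map ι).eval 1)⁻¹))
    refine h2.congr fun j => ?_
    have h3 : ((Spoly d (n j)).map ι).eval 1 = ((Vpoly d).map ι).eval 1 *
        ∑ i ∈ Finset.Icc 1 d, (n j i : ℚ_[ℓ]) / (i : ℚ_[ℓ]) := by
      rw [Polynomial.eval_one_map, Spoly_eval, map_mul, hV1, map_sum]
      simp
    have h4 : (A.G.map ι).eval 1 = ((A.G.eval 1 : ℚ) : ℚ_[ℓ]) := by
      rw [Polynomial.eval_one_map, hιc]
    rw [h3, h4]
    field_simp

/-- the geometric sum `((1+u)^n - 1)/u` tends to `n` -/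
theorem tendsto_geom (n : ℕ) {u : ℕ → ℤ} (hu : Tendsto (fun j => (u j : ℚ_[ℓ])) atTop (𝓝 0)) :
    Tendsto (fun j => ∑ a ∈ Finset.range n, (1 + (u j : ℚ_[ℓ])) ^ a) atTop (𝓝 (n : ℚ_[ℓ])) := by
  have h1 : Tendsto (fun j => ∑ a ∈ Finset.range n, (1 + (u j : ℚ_[ℓ])) ^ a) atTop
      (𝓝 (∑ a ∈ Finset.range n, (1 + 0 : ℚ_[ℓ]) ^ a)) :=
    tendsto_finsetSum _ fun a _ => (hu.const_add 1).pow a
  simpa using h1

theorem eval_limit {r : ℕ} {W : Fin r → WData} {χ : Fin r → ℤ} (A : AlgData W χ)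
    (N : ℕ → Fin r → ℤ) (u : ℕ → ℤ) (hu0 : ∀ j, u j ≠ 0)
    (hu : Tendsto (fun j => (u j : ℚ_[ℓ])) atTop (𝓝 0))
    (hN : ∀ i, Tendsto (fun j => (N j i : ℚ_[ℓ])) atTop (𝓝 (χ i : ℚ_[ℓ])))
    (a : ℕ → Polynomial ℚ) (B : ℕ)
    (ha : ∀ j, a j = Polynomial.C (((u j : ℚ) ^ (A.M0 + 1))⁻¹) * A.T (u j) (N j))
    (hB : ∀ j, (a j).natDegree ≤ B)
    (hbd : ∀ i, Bd (fun j => (Polynomial.taylor 1 ((a j).map (algebraMap ℚ ℚ_[ℓ]))).coeff i))
    (n : ℕ) :
    Tendsto (fun j => ∑ i : Fin (A.m + 1),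
      ((Polynomial.taylor 1 ((a j).map (algebraMap ℚ ℚ_[ℓ]))).coeff i *
        (u j : ℚ_[ℓ]) ^ (i : ℕ) / (u j : ℚ_[ℓ]) ^ A.m) *
        (∑ b ∈ Finset.range n, (1 + (u j : ℚ_[ℓ])) ^ b) ^ (i : ℕ)) atTop
      (𝓝 ((A.tau.eval (-(n : ℚ)) : ℚ) : ℚ_[ℓ])) := by
  set ι : ℚ →+* ℚ_[ℓ] := algebraMap ℚ ℚ_[ℓ] with hι
  have hιc : ∀ x : ℚ, ι x = (x : ℚ_[ℓ]) := fun x => eq_ratCast ι x
  have huq : Tendsto (fun j => (((u j : ℚ)) : ℚ_[ℓ])) atTop (𝓝 0) := by
    simpa using hu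
  have huq0 : ∀ j, (u j : ℚ) ≠ 0 := fun j => by exact_mod_cast hu0 j
  have huk0 : ∀ j, (u j : ℚ_[ℓ]) ≠ 0 := fun j => by exact_mod_cast hu0 j
  obtain ⟨g, g', hg, hg', hT⟩ := A.T_eval n
  set η : ℕ → ℚ_[ℓ] := fun j => ∑ b ∈ Finset.range n, (1 + (u j : ℚ_[ℓ])) ^ b with hη
  have hηt : Tendsto η atTop (𝓝 (n : ℚ_[ℓ])) := tendsto_geom n hu
  have hηu : ∀ j, (1 + (u j : ℚ_[ℓ])) ^ n = (u j : ℚ_[ℓ]) * η j + 1 := by
    intro j
    have := mul_geom_sum (1 + (u j : ℚ_[ℓ])) n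
    rw [add_sub_cancel_left] at this
    rw [hη]
    simp only
    rw [this]; ring
  set t : ℕ → ℕ → ℚ_[ℓ] := fun j i => (Polynomial.taylor 1 ((a j).map ι)).coeff i with ht
  -- the bracket
  set b : ℕ → ℚ := fun j => ∑ i, (N j i : ℚ) * (g i).eval (u j : ℚ) - g'.eval (u j : ℚ) with hb
  have hbt : Tendsto (fun j => ((b j : ℚ) : ℚ_[ℓ])) atTop
      (𝓝 ((A.tau.eval (-(n : ℚ)) : ℚ) : ℚ_[ℓ])) := by
    have h1 : ((A.tau.eval (-(n : ℚ)) : ℚ) : ℚ_[ℓ]) =
        ∑ i, (χ i : ℚ_[ℓ]) * (((g i).eval 0 : ℚ) : ℚ_[ℓ]) - ((g'.eval 0 : ℚ) : ℚ_[ℓ]) := by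
      unfold AlgData.tau
      rw [Polynomial.eval_sub, Polynomial.eval_finsetSum, hg']
      simp only [Polynomial.eval_mul, Polynomial.eval_C, hg]
      push_cast
      rfl
    rw [h1]
    simp only [hb, Rat.cast_sub, Rat.cast_sum, Rat.cast_mul, Rat.cast_intCast]
    refine Tendsto.sub (tendsto_finsetSum _ fun i _ => (hN i).mul (tendsto_eval_cast _ huq))
      (tendsto_eval_cast _ huq)
  -- evaluation
  have heval : ∀ j, ∑ i ∈ Finset.range (B + 1 + A.m), t j i * ((u j : ℚ_[ℓ]) * η j) ^ i =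
      (u j : ℚ_[ℓ]) ^ A.m * (b j : ℚ_[ℓ]) := by
    intro j
    have h1 : (Polynomial.taylor 1 ((a j).map ι)).eval ((u j : ℚ_[ℓ]) * η j) =
        ∑ i ∈ Finset.range (B + 1 + A.m), t j i * ((u j : ℚ_[ℓ]) * η j) ^ i := by
      rw [Polynomial.eval_eq_sum_range' (n := B + 1 + A.m)]
      rw [Polynomial.natDegree_taylor]
      have := Polynomial.natDegree_map_le (f := ι) (p := a j)
      have := hB j
      omega
    rw [← h1, Polynomial.taylor_eval, ← hηu]
    have h2 : (1 + (u j : ℚ_[ℓ])) ^ n = ι ((1 + (u j : ℚ)) ^ n) := by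
      rw [map_pow, map_add, map_one, hιc]; simp
    rw [h2, Polynomial.eval_map_apply, ha, Polynomial.eval_mul, Polynomial.eval_C, hT]
    have h3 : ((u j : ℚ) ^ (A.M0 + 1))⁻¹ * ((u j : ℚ) ^ (A.M0 + A.m + 1) *
        (∑ i, (N j i : ℚ) * (g i).eval (u j : ℚ) - g'.eval (u j : ℚ))) =
        (u j : ℚ) ^ A.m * b j := by
      have : (u j : ℚ) ^ (A.M0 + A.m + 1) = (u j : ℚ) ^ (A.M0 + 1) * (u j : ℚ) ^ A.m := by
        rw [← pow_add]; congr 1; ring
      rw [this, hb]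
      have h4 := pow_ne_zero (A.M0 + 1) (huq0 j)
      field_simp
    rw [h3, map_mul, map_pow, hιc, hιc]
    simp
  -- split the sum
  have hsplit : ∀ j, ∑ i : Fin (A.m + 1), (t j i * (u j : ℚ_[ℓ]) ^ (i : ℕ) /
      (u j : ℚ_[ℓ]) ^ A.m) * η j ^ (i : ℕ) = (b j : ℚ_[ℓ]) -
      ∑ i ∈ Finset.range B, t j (A.m + 1 + i) * ((u j : ℚ_[ℓ]) ^ (i + 1) * η j ^ (A.m + 1 + i)) := by
    intro j
    have h1 := heval j
    rw [show B + 1 + A.m = (A.m + 1) + B by ring, Finset.sum_range_add] at h1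
    have hpow := pow_ne_zero A.m (huk0 j)
    rw [Finset.sum_range] at h1
    have h2 : (b j : ℚ_[ℓ]) = (∑ i : Fin (A.m + 1), t j i * ((u j : ℚ_[ℓ]) * η j) ^ (i : ℕ) +
        ∑ i ∈ Finset.range B, t j (A.m + 1 + i) * ((u j : ℚ_[ℓ]) * η j) ^ (A.m + 1 + i)) /
        (u j : ℚ_[ℓ]) ^ A.m := by
      rw [h1]; field_simp
    rw [h2, add_div, Finset.sum_div, Finset.sum_div]
    have h3 : ∀ i ∈ Finset.range B, t j (A.m + 1 + i) * ((u j : ℚ_[ℓ]) * η j) ^ (A.m + 1 + i) /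
        (u j : ℚ_[ℓ]) ^ A.m =
        t j (A.m + 1 + i) * ((u j : ℚ_[ℓ]) ^ (i + 1) * η j ^ (A.m + 1 + i)) := by
      intro i _
      rw [mul_pow, show A.m + 1 + i = A.m + (i + 1) by ring, pow_add (u j : ℚ_[ℓ]) A.m (i + 1)]
      field_simp
    rw [Finset.sum_congr rfl h3, add_sub_cancel_right]
    apply Finset.sum_congr rfl
    intro i _
    rw [mul_pow]
    ring
  refine Tendsto.congr (fun j => (hsplit j).symm) ?_
  have hrest : Nl (fun j => ∑ i ∈ Finset.range B,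
      t j (A.m + 1 + i) * ((u j : ℚ_[ℓ]) ^ (i + 1) * η j ^ (A.m + 1 + i))) := by
    refine Nl.sum _ fun i _ => Nl.bd_mul (hbd _) (Nl.mul_bd ?_ ((Bd.of_tendsto hηt).pow _))
    have := hu.pow (i + 1)
    simpa [Nl] using this
  have := hbt.sub hrest
  simpa using this

end main

theorem topAlg (ℓ : ℕ) [Fact ℓ.Prime] {r : ℕ} (W : Fin r → WData) (χ : Fin r → ℤ)
    (N : ℕ → Fin r → ℤ) (u : ℕ → ℤ) (hu0 : ∀ j, u j ≠ 0)
    (hu : Filter.Tendsto (fun j => (u j : ℚ_[ℓ])) Filter.atTop (nhds 0))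
    (hN : ∀ i, Filter.Tendsto (fun j => (N j i : ℚ_[ℓ])) Filter.atTop (nhds (χ i : ℚ_[ℓ])))
    (c : ℕ → ℕ → ℚ) (hc0 : ∀ j, c j 0 = 1)
    (hid : ∀ j, SeriesRel W (N j) (1 + (u j : ℚ)) (c j))
    (d : ℕ) (n : ℕ → ℕ → ℤ)
    (hn : ∀ k : ℕ, 1 ≤ k → Filter.Tendsto (fun j => ((c j k : ℚ) : ℚ_[ℓ]) / (u j : ℚ_[ℓ])
      - ∑ i ∈ (Finset.Icc 1 d).filter (· ∣ k), (n j i : ℚ_[ℓ])) Filter.atTop (nhds 0)) :
    ∃ ω : ℚ, Filter.Tendsto (fun j => ∑ i ∈ Finset.Icc 1 d, (n j i : ℚ_[ℓ]) / (i : ℚ_[ℓ]))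
        Filter.atTop (nhds ((ω : ℚ) : ℚ_[ℓ])) ∧
      Filter.Tendsto (fun s : ℝ => s * (RatFunc.eval (algebraMap ℚ ℝ) s
        (∑ i, (χ i : RatFunc ℚ) * PowerSeries.constantCoeff (W i).ser) - 1)) Filter.atTop
        (nhds (ω : ℝ)) := by
  obtain ⟨A⟩ := exists_algData W χ
  obtain ⟨a, B, ha, hB, hbd, hnl⟩ := topAlg_aux (ℓ := ℓ) A N u hu0 hu c hc0 hid d n hn
  have hlim := eval_limit (ℓ := ℓ) A N u hu0 hu hN a B ha hB hbd
  have huk0 : ∀ j, (u j : ℚ_[ℓ]) ≠ 0 := fun j => by exact_mod_cast hu0 j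
  set ι : ℚ →+* ℚ_[ℓ] := algebraMap ℚ ℚ_[ℓ] with hι
  have hιc : ∀ x : ℚ, ι x = (x : ℚ_[ℓ]) := fun x => eq_ratCast ι x
  -- convergence of the Taylor coefficients
  obtain ⟨x, hx⟩ := vandermonde_step (𝕜 := ℚ_[ℓ]) (m := A.m + 1)
    (fun j i => (Polynomial.taylor 1 ((a j).map ι)).coeff i *
        (u j : ℚ_[ℓ]) ^ (i : ℕ) / (u j : ℚ_[ℓ]) ^ A.m)
    (fun j n => ∑ b ∈ Finset.range (n : ℕ), (1 + (u j : ℚ_[ℓ])) ^ b)
    (fun n => ((n : ℕ) : ℚ_[ℓ])) (fun n => ((A.tau.eval (-((n : ℕ) : ℚ)) : ℚ) : ℚ_[ℓ]))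
    (fun n => tendsto_geom n hu)
    (fun a b hab => Fin.ext (by
      have h : ((a : ℕ) : ℚ_[ℓ]) = ((b : ℕ) : ℚ_[ℓ]) := hab
      exact_mod_cast h)) (fun n => hlim n)
  -- the limit polynomial
  set X : Polynomial ℚ_[ℓ] := ∑ i : Fin (A.m + 1), Polynomial.C (x i) * Polynomial.X ^ (i : ℕ)
    with hX
  have hXeval : ∀ n : ℕ, X.eval (n : ℚ_[ℓ]) = ((A.tau.comp (-Polynomial.X)).map ι).eval
      (n : ℚ_[ℓ]) := by
    intro n
    have h1 : Tendsto (fun j => ∑ i : Fin (A.m + 1),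
      ((Polynomial.taylor 1 ((a j).map ι)).coeff i *
        (u j : ℚ_[ℓ]) ^ (i : ℕ) / (u j : ℚ_[ℓ]) ^ A.m) *
        (∑ b ∈ Finset.range n, (1 + (u j : ℚ_[ℓ])) ^ b) ^ (i : ℕ)) atTop
        (𝓝 (∑ i : Fin (A.m + 1), x i * (n : ℚ_[ℓ]) ^ (i : ℕ))) :=
      tendsto_finsetSum _ fun i _ => (hx i).mul ((tendsto_geom n hu).pow _)
    have h2 := tendsto_nhds_unique h1 (hlim n)
    have h3 : X.eval (n : ℚ_[ℓ]) = ∑ i : Fin (A.m + 1), x i * (n : ℚ_[ℓ]) ^ (i : ℕ) := by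
      rw [hX, Polynomial.eval_finsetSum]
      simp
    have h4 : (n : ℚ_[ℓ]) = ι (n : ℚ) := by simp
    rw [h3, h2, h4, Polynomial.eval_map_apply, Polynomial.eval_comp, hιc]
    simp
  have hXeq : X = (A.tau.comp (-Polynomial.X)).map ι := by
    apply Polynomial.eq_of_infinite_eval_eq
    refine Set.Infinite.mono ?_ (Set.infinite_range_of_injective
      (Nat.cast_injective : Function.Injective (Nat.cast : ℕ → ℚ_[ℓ])))
    rintro _ ⟨n, rfl⟩
    exact hXeval n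
  have hcomp : (A.tau.comp (-Polynomial.X)).coeff A.m = (-1) ^ A.m * A.tau.coeff A.m := by
    have : (-Polynomial.X : Polynomial ℚ) = Polynomial.C (-1) * Polynomial.X := by simp
    rw [this, Polynomial.comp_C_mul_X_coeff]
    ring
  have hXm : X.coeff A.m = x ⟨A.m, by omega⟩ := by
    rw [hX, Polynomial.finsetSum_coeff]
    rw [Finset.sum_eq_single (⟨A.m, by omega⟩ : Fin (A.m + 1))]
    · simp
    · intro b _ hb
      rw [Polynomial.coeff_C_mul, Polynomial.coeff_X_pow, if_neg, mul_zero]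
      intro h
      exact hb (Fin.ext h.symm)
    · simp
  have hXdeg : X.natDegree ≤ A.m := by
    rw [hX]
    refine Polynomial.natDegree_sum_le_of_forall_le _ _ fun i _ => ?_
    refine (Polynomial.natDegree_C_mul_X_pow_le _ _).trans ?_
    omega
  have htaudeg : A.tau.natDegree ≤ A.m := by
    rw [hXeq, Polynomial.natDegree_map_eq_of_injective ι.injective] at hXdeg
    rwa [Polynomial.natDegree, Polynomial.degree_comp_neg_X] at hXdeg
  have hxm : x ⟨A.m, by omega⟩ = (((-1) ^ A.m * A.tau.coeff A.m : ℚ) : ℚ_[ℓ]) := by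
    rw [← hXm, hXeq, Polynomial.coeff_map, hcomp, hιc]
  have hG1 : ((A.G.eval 1 : ℚ) : ℚ_[ℓ]) ≠ 0 := by
    have := A.hG1
    exact_mod_cast this
  refine ⟨(-1) ^ A.m * A.tau.coeff A.m / A.G.eval 1, ?_, ?_⟩
  · have h1 := hx ⟨A.m, by omega⟩
    have h2 : Tendsto (fun j => (Polynomial.taylor 1 ((a j).map ι)).coeff A.m) atTop
        (𝓝 (((-1) ^ A.m * A.tau.coeff A.m : ℚ) : ℚ_[ℓ])) := by
      rw [← hxm]
      refine h1.congr fun j => ?_
      have := pow_ne_zero A.m (huk0 j)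
      field_simp
    have h3 := (h2.sub hnl).div_const ((A.G.eval 1 : ℚ) : ℚ_[ℓ])
    rw [sub_zero] at h3
    rw [Rat.cast_div]
    refine h3.congr fun j => ?_
    rw [sub_sub_cancel, mul_div_assoc, div_self hG1, mul_one]
  · have hC0 : PowerSeries.constantCoeff A.hser ≠ 0 := by
      intro h0
      have := A.hClead
      rw [h0, Polynomial.leadingCoeff_zero] at this
      exact (mul_ne_zero (pow_ne_zero _ (by norm_num)) A.hG1) this.symm
    have := real_limit _ _ A.tau A.m hC0 A.hCdeg htaudeg A.tau_rel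
    rw [A.hClead] at this
    convert this using 3
    have h5 : ((-1 : ℚ) ^ A.m) * (-1) ^ A.m = 1 := by
      rw [← mul_pow]; norm_num
    have h6 : ((-1 : ℚ) ^ A.m) ≠ 0 := pow_ne_zero _ (by norm_num)
    have h7 := A.hG1
    rw [div_eq_div_iff h7 (mul_ne_zero h6 h7)]
    linear_combination (A.tau.coeff A.m * A.G.eval 1) * h5

end

end MP8c80e8
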