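import Pool.Agent.Lib.MP_8c80e8_al.Trunc

/-!
# Counting over `F[t]/t^N` by torus actions
-/

set_option linter.unusedSectionVars false


namespace MP8c80e8

open Polynomial

/-! ### Sums of invariant functions -/

theorem torus_dvd_sum {Γ X : Type*} [Group Γ] [Finite Γ] [MulAction Γ X] [Fintype X]
    (f : X → ℤ) (hf : ∀ (g : Γ) (x : X), f (g • x) = f x) (C : ℕ)
    (h : ∀ x, f x ≠ 0 → Nat.card (MulAction.stabilizer Γ x) ∣ C) :
    (Nat.card Γ : ℤ) ∣ C * ∑ x, f x := by
  classical
  cases nonempty_fintype Γ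
  have key : ∑ x, f x = ∑ ω : MulAction.orbitRel.Quotient Γ X,
      ∑ x with (Quotient.mk _ x : MulAction.orbitRel.Quotient Γ X) = ω, f x :=
    (Finset.sum_fiberwise Finset.univ _ f).symm
  rw [key, Finset.mul_sum]
  refine Finset.dvd_sum fun ω _ => ?_
  obtain ⟨x0, rfl⟩ := Quotient.exists_rep ω
  have hmem : ∀ x, (Quotient.mk _ x : MulAction.orbitRel.Quotient Γ X) = Quotient.mk _ x0 ↔
      x ∈ MulAction.orbit Γ x0 := fun x => by
    rw [Quotient.eq]
    exact MulAction.orbitRel_apply
  have hsum : ∑ x with (Quotient.mk _ x : MulAction.orbitRel.Quotient Γ X) = Quotient.mk _ x0, f x =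
      (Fintype.card (MulAction.orbit Γ x0) : ℤ) * f x0 := by
    rw [Finset.sum_congr rfl (g := fun _ => f x0), Finset.sum_const, nsmul_eq_mul]
    · congr 2
      rw [Fintype.card_subtype]
      congr 1
      ext x
      simp only [Finset.mem_filter, Finset.mem_univ, true_and]
      exact hmem x
    · intro x hx
      simp only [Finset.mem_filter, Finset.mem_univ, true_and] at hx
      obtain ⟨g, rfl⟩ := (hmem x).1 hx
      exact hf g x0
  rw [hsum]
  by_cases h0 : f x0 = 0
  · rw [h0]; simp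
  obtain ⟨m, hm⟩ := h x0 h0
  have h1 := MulAction.card_orbit_mul_card_stabilizer_eq_card_group Γ x0
  rw [Nat.card_eq_fintype_card] at hm ⊢
  rw [← h1, hm]
  refine ⟨m * f x0, ?_⟩
  push_cast
  ring

/-! ### Skew-symmetric matrices -/

theorem torus_even_rank {F ι : Type*} [Field F] [Fintype ι] (h2 : (2 : F) ≠ 0)
    (A : Matrix ι ι F) (hA : A.transpose = -A) : Even A.rank := by
  classical
  obtain ⟨W, hW⟩ := Submodule.exists_isCompl (LinearMap.ker A.mulVecLin)
  have hρ : Module.finrank F W = A.rank := by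
    have h1 := Submodule.finrank_add_eq_of_isCompl hW
    have h2 := LinearMap.finrank_range_add_finrank_ker A.mulVecLin
    rw [Matrix.rank]
    omega
  let b := Module.finBasis F W
  let M : Matrix (Fin (Module.finrank F W)) (Fin (Module.finrank F W)) F :=
    Matrix.of fun i j => (b i : ι → F) ⬝ᵥ A.mulVec (b j : ι → F)
  have hskew : ∀ v w : ι → F, v ⬝ᵥ A.mulVec w = -(w ⬝ᵥ A.mulVec v) := by
    intro v w
    rw [Matrix.dotProduct_mulVec, ← Matrix.mulVec_transpose, hA, Matrix.neg_mulVec,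
      neg_dotProduct, dotProduct_comm]
  have hMT : M.transpose = -M := by
    ext i j
    exact hskew _ _
  have hdet : M.det ≠ 0 := by
    intro h0
    obtain ⟨z, hz, hMz⟩ := Matrix.exists_mulVec_eq_zero_iff.2 h0
    let w : W := ∑ j, z j • b j
    have hw : ∀ i, (b i : ι → F) ⬝ᵥ A.mulVec (w : ι → F) = 0 := by
      intro i
      have := congrFun hMz i
      simp only [Matrix.mulVec, dotProduct, M, Matrix.of_apply, Pi.zero_apply] at this
      rw [← this]
      have e1 : (w : ι → F) = ∑ j, z j • (b j : ι → F) := by simp [w]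
      rw [e1, Matrix.mulVec_sum, dotProduct_sum]
      refine Finset.sum_congr rfl fun j _ => ?_
      rw [Matrix.mulVec_smul, dotProduct_smul, smul_eq_mul, mul_comm]
      rfl
    have hw2 : ∀ u : W, (u : ι → F) ⬝ᵥ A.mulVec (w : ι → F) = 0 := by
      intro u
      have e1 : (u : ι → F) = ∑ j, (b.repr u j) • (b j : ι → F) := by
        have e2 := congrArg Subtype.val (b.sum_repr u)
        rw [AddSubmonoidClass.coe_finsetSum] at e2
        exact e2.symm
      rw [e1, sum_dotProduct]
      refine Finset.sum_eq_zero fun j _ => ?_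
      rw [smul_dotProduct, hw j, smul_zero]
    have hw3 : ∀ u ∈ LinearMap.ker A.mulVecLin, u ⬝ᵥ A.mulVec (w : ι → F) = 0 := by
      intro u hu
      rw [hskew]
      have : A.mulVec u = 0 := hu
      rw [this, dotProduct_zero, neg_zero]
    have hw4 : A.mulVec (w : ι → F) = 0 := by
      refine dotProduct_eq_zero _ fun u => ?_
      have hu : u ∈ LinearMap.ker A.mulVecLin ⊔ W := by rw [hW.sup_eq_top]; trivial
      obtain ⟨u1, hu1, u2, hu2, rfl⟩ := Submodule.mem_sup.1 hu
      rw [dotProduct_comm, add_dotProduct, hw3 u1 hu1, hw2 ⟨u2, hu2⟩, add_zero]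
    have hw5 : (w : ι → F) ∈ LinearMap.ker A.mulVecLin ⊓ W := ⟨hw4, w.2⟩
    rw [hW.inf_eq_bot] at hw5
    have hw6 : w = 0 := Subtype.ext hw5
    have hli := Fintype.linearIndependent_iff.1 b.linearIndependent z hw6
    exact hz (funext hli)
  rw [← hρ]
  by_contra hodd
  rw [Nat.not_even_iff_odd] at hodd
  have h3 : M.det = -M.det := by
    conv_lhs => rw [← Matrix.det_transpose, hMT, Matrix.det_neg, Fintype.card_fin, hodd.neg_one_pow]
    simp
  have h4 : (2 : F) * M.det = 0 := by linear_combination h3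
  rcases mul_eq_zero.1 h4 with h5 | h5
  · exact h2 h5
  · exact hdet h5

section coeff

variable {F : Type} [Field F] {N : ℕ}

/-- coefficients of truncated polynomials -/
noncomputable def tcf (l : ℕ) (x : TruncPoly F N) : F := (Quotient.out x).coeff l

theorem tcf_mk {l : ℕ} (hl : l < N) (f : F[X]) :
    tcf l (Ideal.Quotient.mk (Ideal.span {(X : F[X]) ^ N}) f) = f.coeff l := by
  have h : Ideal.Quotient.mk (Ideal.span {(X : F[X]) ^ N}) (Quotient.out
      (Ideal.Quotient.mk (Ideal.span {(X : F[X]) ^ N}) f)) = Ideal.Quotient.mk _ f :=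
    Ideal.Quotient.mk_out _
  rw [Ideal.Quotient.eq, Ideal.mem_span_singleton, Polynomial.X_pow_dvd_iff] at h
  have := h l hl
  rw [Polynomial.coeff_sub, sub_eq_zero] at this
  exact this

theorem tcf_ext {x y : TruncPoly F N} (h : ∀ l < N, tcf l x = tcf l y) : x = y := by
  obtain ⟨f, rfl⟩ := Ideal.Quotient.mk_surjective x
  obtain ⟨g, rfl⟩ := Ideal.Quotient.mk_surjective y
  rw [Ideal.Quotient.eq, Ideal.mem_span_singleton, Polynomial.X_pow_dvd_iff]
  intro l hl
  have := h l hl
  rw [tcf_mk hl, tcf_mk hl] at this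
  rw [Polynomial.coeff_sub, this, sub_self]

theorem tcf_surj (v : Fin N → F) : ∃ x : TruncPoly F N, ∀ l : Fin N, tcf l.1 x = v l := by
  refine ⟨Ideal.Quotient.mk _ (∑ i : Fin N, C (v i) * X ^ i.1), fun l => ?_⟩
  rw [tcf_mk l.2, Polynomial.finsetSum_coeff]
  simp only [Polynomial.coeff_C_mul_X_pow]
  rw [Finset.sum_eq_single l]
  · simp
  · intro b _ hb
    rw [if_neg]
    intro h
    exact hb (Fin.ext h.symm)
  · simp

theorem tcf_sum {α : Type*} (s : Finset α) (x : α → TruncPoly F N) {l : ℕ} (hl : l < N) :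
    tcf l (∑ a ∈ s, x a) = ∑ a ∈ s, tcf l (x a) := by
  classical
  induction s using Finset.induction_on with
  | empty =>
    rw [Finset.sum_empty, Finset.sum_empty]
    have := tcf_mk (F := F) hl 0
    rwa [map_zero, Polynomial.coeff_zero] at this
  | insert a s ha ih =>
    rw [Finset.sum_insert ha, Finset.sum_insert ha, ← ih]
    obtain ⟨f, hf⟩ := Ideal.Quotient.mk_surjective (x a)
    obtain ⟨g, hg⟩ := Ideal.Quotient.mk_surjective (∑ a ∈ s, x a)
    rw [← hf, ← hg, ← map_add, tcf_mk hl, tcf_mk hl, tcf_mk hl, Polynomial.coeff_add]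

theorem tcf_const_mul (a : F) (x : TruncPoly F N) {l : ℕ} (hl : l < N) :
    tcf l (constTP F N a * x) = a * tcf l x := by
  obtain ⟨f, rfl⟩ := Ideal.Quotient.mk_surjective x
  have : constTP F N a * Ideal.Quotient.mk _ f = Ideal.Quotient.mk _ (C a * f) := by
    rw [map_mul]; rfl
  rw [this, tcf_mk hl, tcf_mk hl, Polynomial.coeff_C_mul]

theorem tcf_mul (x y : TruncPoly F N) (l : Fin N) :
    tcf l.1 (x * y) = ∑ i : Fin N, ∑ j : Fin N,
      if i.1 + j.1 = l.1 then tcf i.1 x * tcf j.1 y else 0 := by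
  obtain ⟨f, rfl⟩ := Ideal.Quotient.mk_surjective x
  obtain ⟨g, rfl⟩ := Ideal.Quotient.mk_surjective y
  rw [← map_mul, tcf_mk l.2, Polynomial.coeff_mul]
  simp only [tcf_mk (Fin.is_lt _)]
  rw [← Finset.sum_product' (f := fun i j : Fin N => if i.1 + j.1 = l.1 then
    f.coeff i.1 * g.coeff j.1 else 0), ← Finset.sum_filter]
  refine Finset.sum_bij' (fun p hp => (⟨p.1, ?_⟩, ⟨p.2, ?_⟩)) (fun p _ => (p.1.1, p.2.1))
    ?_ ?_ ?_ ?_ ?_
  · have := Finset.HasAntidiagonal.mem_antidiagonal.1 hp
    have := l.2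
    omega
  · have := Finset.HasAntidiagonal.mem_antidiagonal.1 hp
    have := l.2
    omega
  · intro p hp
    simpa using hp
  · intro p hp
    simpa using hp
  · intro p hp; rfl
  · intro p hp; rfl
  · intro p hp; rfl

end coeff

section model

variable {F : Type} [Field F] {ι ν κ : Type} [Fintype ι] [Fintype ν] [Fintype κ] {N : ℕ}

/-- coefficient vectors -/
noncomputable def tE (y : ν → TruncPoly F N) : Fin N → ν → F := fun l k => tcf l.1 (y k)

omit [Fintype ν] in
theorem tE_bijective : Function.Bijective (tE (F := F) (ν := ν) (N := N)) := by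
  constructor
  · intro y z h
    funext k
    exact tcf_ext fun l hl => congrFun (congrFun h ⟨l, hl⟩) k
  · intro v
    choose x hx using fun k => tcf_surj fun l => v l k
    exact ⟨x, by funext l k; exact hx k l⟩

/-- the matrix of a vector, for general structure constants -/
def gMat {R : Type} [CommRing R] (d : ι → ν → κ → R) (y : κ → R) : Matrix ι ν R :=
  Matrix.of fun i j => ∑ l, d i j l * y l

omit [Fintype ι] [Fintype ν] in
theorem gMat_smul (d : ι → ν → κ → F) (a : F) (y : κ → F) : gMat d (a • y) = a • gMat d y := by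
  ext i j
  simp only [gMat, Matrix.of_apply, Matrix.smul_apply, Pi.smul_apply, smul_eq_mul, Finset.mul_sum]
  exact Finset.sum_congr rfl fun l _ => by ring

omit [Fintype ι] [Fintype ν] in
theorem gMat_zero (d : ι → ν → κ → F) : gMat d (0 : κ → F) = 0 := by
  ext i j
  simp [gMat]

/-- `x A(y)` in terms of coefficient vectors -/
def tconv (d : ι → ν → κ → F) (x : Fin N → ι → F) (y : Fin N → κ → F) : Fin N → ν → F :=
  fun l => ∑ i : Fin N, ∑ j : Fin N,
    if i.1 + j.1 = l.1 then Matrix.vecMul (x i) (gMat d (y j)) else 0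

omit [Fintype ν] in
theorem tE_vecMul (d : ι → ν → κ → F) (x : ι → TruncPoly F N) (y : κ → TruncPoly F N) :
    tE (Matrix.vecMul x (gMat (fun i j l => constTP F N (d i j l)) y)) = tconv d (tE x) (tE y) := by
  funext l k
  have h1 : ∀ (i : ι) (b : Fin N), tcf b.1 (gMat (fun i j l => constTP F N (d i j l)) y i k) =
      gMat d (tE y b) i k := by
    intro i b
    simp only [gMat, Matrix.of_apply]
    rw [tcf_sum _ _ b.2]
    exact Finset.sum_congr rfl fun l' _ => tcf_const_mul _ _ b.2
  simp only [tE, tconv, Matrix.vecMul, dotProduct]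
  rw [tcf_sum _ _ l.2]
  simp only [tcf_mul, h1, Finset.sum_apply]
  rw [Finset.sum_comm]
  refine Finset.sum_congr rfl fun a _ => ?_
  rw [Finset.sum_comm]
  refine Finset.sum_congr rfl fun b _ => ?_
  split_ifs with h
  · rfl
  · simp

/-- the number of elements of the image -/
noncomputable def tIm (d : ι → ν → κ → F) (y : Fin N → κ → F) : ℕ :=
  Nat.card (Set.range fun x : Fin N → ι → F => tconv d x y)

omit [Fintype ν] in
theorem card_range_eq (d : ι → ν → κ → F) (y : κ → TruncPoly F N) :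
    Nat.card (LinearMap.range (Matrix.vecMulLinear (gMat (fun i j l => constTP F N (d i j l)) y))) =
      tIm d (tE y) := by
  let e : (ν → TruncPoly F N) ≃ (Fin N → ν → F) := Equiv.ofBijective _ tE_bijective
  refine Nat.card_congr (e.subtypeEquiv fun w => ?_)
  constructor
  · rintro ⟨x, rfl⟩
    exact ⟨tE x, (tE_vecMul d x y).symm⟩
  · rintro ⟨x, hx⟩
    obtain ⟨x, rfl⟩ := (tE_bijective (F := F) (ν := ι) (N := N)).2 x
    refine ⟨x, e.injective ?_⟩
    exact (tE_vecMul d x y).trans hx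

/-- The action of the torus. -/
def tAct (a c : F) (y : Fin N → ν → F) : Fin N → ν → F := fun j => (a * c ^ j.1) • y j

omit [Fintype ν] in
theorem tconv_act (d : ι → ν → κ → F) (a c : F) (x : Fin N → ι → F) (y : Fin N → κ → F) :
    tconv d (tAct 1 c x) (tAct a c y) = tAct a c (tconv d x y) := by
  funext l
  simp only [tconv, tAct, Finset.smul_sum]
  refine Finset.sum_congr rfl fun i _ => Finset.sum_congr rfl fun j _ => ?_
  split_ifs with h
  · rw [gMat_smul, Matrix.smul_vecMul, Matrix.vecMul_smul, smul_smul, ← h, pow_add]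
    congr 1
    ring
  · simp

omit [Fintype ν] in
theorem tAct_inv {a c : F} (ha : a ≠ 0) (hc : c ≠ 0) (y : Fin N → ν → F) :
    tAct a⁻¹ c⁻¹ (tAct a c y) = y := by
  funext j
  simp only [tAct, smul_smul]
  have : a⁻¹ * c⁻¹ ^ j.1 * (a * c ^ j.1) = 1 := by
    rw [inv_pow]
    field_simp
  rw [this, one_smul]

omit [Fintype ν] in
theorem tIm_act (d : ι → ν → κ → F) {a c : F} (ha : a ≠ 0) (hc : c ≠ 0) (y : Fin N → κ → F) :
    tIm d (tAct a c y) = tIm d y := by
  symm
  let e : (Fin N → ν → F) ≃ (Fin N → ν → F) :=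
    { toFun := tAct a c
      invFun := tAct a⁻¹ c⁻¹
      left_inv := tAct_inv ha hc
      right_inv := fun y => by
        have := tAct_inv (inv_ne_zero ha) (inv_ne_zero hc) y
        rwa [inv_inv, inv_inv] at this }
  refine Nat.card_congr (e.subtypeEquiv fun w => ?_)
  constructor
  · rintro ⟨x, rfl⟩
    exact ⟨tAct 1 c x, tconv_act d a c x y⟩
  · rintro ⟨x, hx⟩
    refine ⟨tAct 1 c⁻¹ x, e.injective ?_⟩
    refine Eq.trans ?_ hx
    show tAct a c (tconv d (tAct 1 c⁻¹ x) y) = _
    rw [← tconv_act]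
    have := tAct_inv one_ne_zero (inv_ne_zero hc) x
    rw [inv_inv, inv_one] at this
    rw [this]

omit [Fintype ν] in
theorem tconv_single (d : ι → ν → κ → F) (x : Fin N → ι → F) (j0 : Fin N) (y0 : κ → F)
    (l : Fin N) :
    tconv d x (Pi.single j0 y0) l = if _h : j0.1 ≤ l.1 then
      Matrix.vecMul (x ⟨l.1 - j0.1, (Nat.sub_le _ _).trans_lt l.2⟩) (gMat d y0) else 0 := by
  simp only [tconv]
  have h1 : ∀ i : Fin N, (∑ j : Fin N, if i.1 + j.1 = l.1 then
      Matrix.vecMul (x i) (gMat d ((Pi.single j0 y0 : Fin N → κ → F) j)) else 0) =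
      if i.1 + j0.1 = l.1 then Matrix.vecMul (x i) (gMat d y0) else 0 := by
    intro i
    rw [Finset.sum_eq_single j0]
    · rw [Pi.single_eq_same]
    · intro j _ hj
      rw [Pi.single_eq_of_ne hj, gMat_zero, Matrix.vecMul_zero]
      simp
    · simp
  simp only [h1]
  split_ifs with h
  · rw [Finset.sum_eq_single ⟨l.1 - j0.1, (Nat.sub_le _ _).trans_lt l.2⟩]
    · rw [if_pos]
      show l.1 - j0.1 + j0.1 = l.1
      omega
    · intro i _ hi
      rw [if_neg]
      intro h'
      exact hi (Fin.ext (by show i.1 = l.1 - j0.1; omega))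
    · simp
  · refine Finset.sum_eq_zero fun i _ => ?_
    rw [if_neg (by omega)]

theorem card_row_space [Finite F] (M : Matrix ι ν F) :
    Nat.card (LinearMap.range (Matrix.vecMulLinear M)) = Nat.card F ^ M.rank := by
  have h1 : Module.finrank F (LinearMap.range (Matrix.vecMulLinear M)) = M.rank := by
    rw [← Matrix.rank_transpose, Matrix.rank, Matrix.mulVecLin_transpose]
  rw [← h1]
  exact Module.natCard_eq_pow_finrank

theorem tIm_single [Finite F] (d : ι → ν → κ → F) (j0 : Fin N) (y0 : κ → F) :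
    tIm d (Pi.single j0 y0) = Nat.card F ^ ((N - j0.1) * (gMat d y0).rank) := by
  classical
  let V := LinearMap.range (Matrix.vecMulLinear (gMat d y0))
  let S : Fin N → Set (ν → F) := fun l => if l.1 < j0.1 then {0} else (V : Set (ν → F))
  have hset : Set.range (fun x : Fin N → ι → F => tconv d x (Pi.single j0 y0)) =
      Set.univ.pi S := by
    ext w
    simp only [Set.mem_range, Set.mem_univ_pi, S]
    constructor
    · rintro ⟨x, rfl⟩ l
      rw [tconv_single]
      by_cases h : l.1 < j0.1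
      · rw [if_pos h, dif_neg (by omega)]
        rfl
      · rw [if_neg h, dif_pos (by omega)]
        exact ⟨_, rfl⟩
    · intro h
      have h' : ∀ i : Fin N, ∃ x : ι → F, ∀ hi : i.1 + j0.1 < N,
          Matrix.vecMul x (gMat d y0) = w ⟨i.1 + j0.1, hi⟩ := by
        intro i
        by_cases hi : i.1 + j0.1 < N
        · have := h ⟨i.1 + j0.1, hi⟩
          rw [if_neg (by simp)] at this
          obtain ⟨x, hx⟩ := this
          exact ⟨x, fun _ => hx⟩
        · exact ⟨0, fun h => absurd h hi⟩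
      choose x hx using h'
      refine ⟨x, ?_⟩
      funext l
      rw [tconv_single]
      by_cases hl : j0.1 ≤ l.1
      · rw [dif_pos hl, hx _ (by show l.1 - j0.1 + j0.1 < N; have := l.2; omega)]
        congr 1
        exact Fin.ext (by show l.1 - j0.1 + j0.1 = l.1; omega)
      · rw [dif_neg hl]
        have := h l
        rw [if_pos (by omega)] at this
        exact this.symm
  rw [tIm, hset]
  have hcard : Nat.card (Set.univ.pi S) = ∏ l, Nat.card (S l) := by
    rw [← Nat.card_pi]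
    exact Nat.card_congr (Equiv.Set.univPi S)
  rw [hcard]
  have hS : ∀ l : Fin N, Nat.card (S l) = if l.1 < j0.1 then 1 else Nat.card V := by
    intro l
    by_cases h : l.1 < j0.1
    · have h1 : S l = {0} := if_pos h
      rw [h1, if_pos h]
      exact Nat.card_unique
    · have h1 : S l = (V : Set (ν → F)) := if_neg h
      rw [h1, if_neg h]
      rfl
  rw [Finset.prod_congr rfl fun l _ => hS l]
  have h3 : Nat.card V = Nat.card F ^ (gMat d y0).rank := card_row_space (gMat d y0)
  rw [Finset.prod_ite, Finset.prod_const_one, one_mul, Finset.prod_const, mul_comm (N - _), pow_mul,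
    h3]
  congr 1
  have : (Finset.univ.filter fun l : Fin N => ¬ l.1 < j0.1).card = N - j0.1 := by
    have h1 : (Finset.univ.filter fun l : Fin N => ¬ l.1 < j0.1) = Finset.Ici j0 := by
      ext l
      rw [Finset.mem_filter, Finset.mem_Ici, Fin.le_def]
      simp only [Finset.mem_univ, true_and, not_lt]
    rw [h1, Fin.card_Ici]
  exact this

theorem tIm_dvd [Finite F] (d : ι → ν → κ → F) (y : Fin N → κ → F) :
    tIm d y ∣ Nat.card F ^ (N * Fintype.card ν) := by
  classical
  let φ : (Fin N → ι → F) →+ (Fin N → ν → F) :=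
    { toFun := fun x => tconv d x y
      map_zero' := by
        funext l
        simp [tconv]
      map_add' := fun x x' => by
        funext l
        simp only [tconv, Pi.add_apply, Matrix.add_vecMul]
        rw [← Finset.sum_add_distrib]
        refine Finset.sum_congr rfl fun i _ => ?_
        rw [← Finset.sum_add_distrib]
        refine Finset.sum_congr rfl fun j _ => ?_
        split_ifs <;> simp }
  have h1 : tIm d y = Nat.card φ.range := rfl
  rw [h1]
  have h2 : Nat.card (Fin N → ν → F) = Nat.card F ^ (N * Fintype.card ν) := by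
    rw [Nat.card_fun, Nat.card_fun, Nat.card_eq_fintype_card (α := Fin N), Fintype.card_fin,
      Nat.card_eq_fintype_card (α := ν), ← pow_mul, mul_comm]
  rw [← h2]
  exact AddSubgroup.card_addSubgroup_dvd_card _

end model

section main

variable {F : Type} [Field F] {ι κ ν : Type} {N : ℕ}

/-- the torus action -/
noncomputable abbrev tMulAction : MulAction (Fˣ × Fˣ) (Fin N → ν → F) where
  smul g y := tAct (g.1 : F) (g.2 : F) y
  one_smul y := by
    funext j
    show ((((1 : Fˣ × Fˣ).1 : Fˣ) : F) * (((1 : Fˣ × Fˣ).2 : Fˣ) : F) ^ j.1) • y j = y j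
    simp
  mul_smul g h y := by
    funext j
    show ((((g * h).1 : Fˣ) : F) * (((g * h).2 : Fˣ) : F) ^ j.1) • y j =
      ((g.1 : F) * (g.2 : F) ^ j.1) • (((h.1 : F) * (h.2 : F) ^ j.1) • y j)
    rw [smul_smul, Prod.fst_mul, Prod.snd_mul, Units.val_mul, Units.val_mul]
    congr 1
    ring

/-- at least two coefficients do not vanish -/
def tGen (y : Fin N → ν → F) : Prop := ∃ j j' : Fin N, j < j' ∧ y j ≠ 0 ∧ y j' ≠ 0

theorem tGen_act {a c : F} (ha : a ≠ 0) (hc : c ≠ 0) (y : Fin N → ν → F) :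
    tGen (tAct a c y) ↔ tGen y := by
  have h : ∀ j : Fin N, tAct a c y j ≠ 0 ↔ y j ≠ 0 := fun j => by
    rw [tAct, ne_eq, smul_eq_zero, not_or]
    exact ⟨fun h => h.2, fun h => ⟨mul_ne_zero ha (pow_ne_zero _ hc), h⟩⟩
  simp only [tGen, h]

theorem tGen_stabilizer [Finite F] {y : Fin N → ν → F} (hy : tGen y) :
    letI := tMulAction (F := F) (ν := ν) (N := N)
    Nat.card (MulAction.stabilizer (Fˣ × Fˣ) y) ∣ N.factorial := by
  let _ := tMulAction (F := F) (ν := ν) (N := N)
  obtain ⟨j, j', hj, h1, h2⟩ := hy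
  have key : ∀ g : Fˣ × Fˣ, g ∈ MulAction.stabilizer (Fˣ × Fˣ) y → ∀ i : Fin N, y i ≠ 0 →
      (g.1 : F) * (g.2 : F) ^ i.1 = 1 := by
    intro g hg i hi
    have h3 : ((g.1 : F) * (g.2 : F) ^ i.1) • y i = y i := congrFun (MulAction.mem_stabilizer_iff.1 hg) i
    have h4 : ((g.1 : F) * (g.2 : F) ^ i.1 - 1) • y i = 0 := by rw [sub_smul, h3, one_smul, sub_self]
    rcases smul_eq_zero.1 h4 with h5 | h5
    · exact sub_eq_zero.1 h5
    · exact absurd h5 hi
  let φ : MulAction.stabilizer (Fˣ × Fˣ) y →* F :=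
    (Units.coeHom F).comp ((MonoidHom.snd Fˣ Fˣ).comp (MulAction.stabilizer (Fˣ × Fˣ) y).subtype)
  have hφ : ∀ g, φ g = (g.1.2 : F) := fun g => rfl
  have hinj : Function.Injective φ := by
    rintro ⟨g, hg⟩ ⟨h, hh⟩ e
    have e' : (g.2 : F) = (h.2 : F) := e
    have k1 := key g hg j h1
    have k2 := key h hh j h1
    rw [e'] at k1
    have k3 : (g.1 : F) = (h.1 : F) :=
      mul_right_cancel₀ (pow_ne_zero j.1 h.2.ne_zero) (k1.trans k2.symm)
    exact Subtype.ext (Prod.ext (Units.ext k3) (Units.ext e'))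
  have hcyc : IsCyclic (MulAction.stabilizer (Fˣ × Fˣ) y) := isCyclic_of_injective_ringHom φ hinj
  rw [← IsCyclic.exponent_eq_card]
  have hd : j'.1 - j.1 ∣ N.factorial := Nat.dvd_factorial (by have := Fin.lt_def.1 hj; omega)
    (by have := j'.2; omega)
  refine Dvd.dvd.trans (Monoid.exponent_dvd_of_forall_pow_eq_one fun g => ?_) hd
  apply hinj
  rw [map_pow, map_one, hφ]
  have k1 := key g.1 g.2 j h1
  have k2 := key g.1 g.2 j' h2
  have hj' := Fin.lt_def.1 hj
  have e1 : j'.1 = j.1 + (j'.1 - j.1) := by omega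
  rw [e1, pow_add, ← mul_assoc, k1, one_mul] at k2
  exact k2

variable [Finite F] [Fintype ι] [Fintype κ]

theorem tcard_units : (Nat.card (Fˣ × Fˣ) : ℤ) = ((Nat.card F : ℤ) - 1) ^ 2 := by
  have : 1 ≤ Nat.card F := Nat.card_pos
  rw [Nat.card_prod, Nat.card_units]
  push_cast [Nat.cast_sub this]
  ring

/-- sums over vectors of functions which are invariant under scaling -/
theorem tscale_dvd {W : Type} [AddCommGroup W] [Module F W] [Fintype W] (g : W → ℤ)
    (h0 : g 0 = 0) (hg : ∀ (a : Fˣ) (y : W), g ((a : F) • y) = g y) :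
    ((Nat.card F : ℤ) - 1) ∣ ∑ y, g y := by
  have h := torus_dvd_sum (Γ := Fˣ) (X := W) g (fun a y => hg a y) 1 fun y hy => ?_
  · have : 1 ≤ Nat.card F := Nat.card_pos
    rw [Nat.card_units] at h
    push_cast [Nat.cast_sub this] at h
    simpa using h
  · have hy0 : y ≠ 0 := fun h => hy (by rw [h, h0])
    have : MulAction.stabilizer Fˣ y = ⊥ := by
      rw [Subgroup.eq_bot_iff_forall]
      intro a ha
      have h3 : (a : F) • y = y := ha
      have h4 : ((a : F) - 1) • y = 0 := by rw [sub_smul, h3, one_smul, sub_self]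
      rcases smul_eq_zero.1 h4 with h5 | h5
      · exact Units.ext (sub_eq_zero.1 h5)
      · exact absurd h5 hy0
    rw [this, Subgroup.card_bot]

omit [Finite F] in
theorem rankCount_eq_sum [Fintype (κ → F)] [DecidableEq (κ → F)] (c : ι → ι → κ → F) (r : ℕ) :
    rankCount c r = ∑ y : κ → F, if y ≠ 0 ∧ (comMat c y).rank = 2 * r then 1 else 0 := by
  rw [rankCount, Nat.card_eq_fintype_card, Fintype.card_subtype, Finset.card_filter]

omit [Finite F] [Fintype ι] in
theorem trank_smul {ν' : Type} [Fintype ν'] (d : ι → ν' → κ → F) (a : Fˣ) (y : κ → F) :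
    (gMat d ((a : F) • y)).rank = (gMat d y).rank := by
  rw [gMat_smul]
  exact Matrix.rank_smul_of_mem_nonZeroDivisors _ (mem_nonZeroDivisors_of_ne_zero a.ne_zero)


theorem rankCount_dvd (c : ι → ι → κ → F) (r : ℕ) : (Nat.card F - 1) ∣ rankCount c r := by
  classical
  cases nonempty_fintype F
  have h := tscale_dvd (F := F) (W := κ → F)
    (fun y => if y ≠ 0 ∧ (comMat c y).rank = 2 * r then 1 else 0) (by simp) fun a y => by
      have h1 : (comMat c ((a : F) • y)).rank = (comMat c y).rank := trank_smul c a y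
      have h2 : (a : F) • y ≠ 0 ↔ y ≠ 0 := by simp
      simp only [h1, h2]
  have h3 : (rankCount c r : ℤ) =
      ∑ y : κ → F, if y ≠ 0 ∧ (comMat c y).rank = 2 * r then 1 else 0 := by
    rw [rankCount_eq_sum]
    push_cast
    rfl
  rw [← h3] at h
  have : 1 ≤ Nat.card F := Nat.card_pos
  rw [← Int.natCast_dvd_natCast]
  push_cast [Nat.cast_sub this]
  exact h

omit [Finite F] in
theorem rankCount_eq_zero (c : ι → ι → κ → F) (r : ℕ) (hr : Fintype.card ι < 2 * r) :
    rankCount c r = 0 := by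
  have : IsEmpty {y : κ → F // y ≠ 0 ∧ (comMat c y).rank = 2 * r} := ⟨fun y => by
    have h1 := (comMat c y.1).rank_le_card_height
    have h2 := y.2.2
    omega⟩
  exact Nat.card_of_isEmpty

omit [Finite F] in
theorem tcomMat_even (c : ι → ι → κ → F) (hanti : ∀ i j l, c j i l = - c i j l)
    (h2 : (2 : F) ≠ 0) (y : κ → F) : Even (comMat c y).rank := by
  refine torus_even_rank h2 _ ?_
  ext i j
  simp only [comMat, Matrix.transpose_apply, Matrix.of_apply, Matrix.neg_apply]
  rw [← Finset.sum_neg_distrib]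
  exact Finset.sum_congr rfl fun l _ => by rw [hanti i j l]; ring

/-- weights -/
noncomputable def tW (dA : ι → ι → κ → F) (dB : ι → κ → κ → F) (k : ℕ) (y : Fin N → κ → F) : ℕ :=
  if tIm dA y = (Nat.card F ^ k) ^ 2 then
    Nat.card F ^ (N * Fintype.card κ) / tIm dB y else 0

theorem tstar_eq [Fintype (Fin N → κ → F)] (s : κ → ι) (c : ι → ι → κ → F) (k : ℕ) :
    (Nat.card F : ℚ) ^ (N * Fintype.card κ) *
      starSum (R := TruncPoly F N) s (fun i j l => constTP F N (c i j l)) (Nat.card F ^ k) =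
      ∑ y : Fin N → κ → F, (tW c (fun i j l => c i (s j) l) k y : ℚ) := by
  have h1 : starSum (R := TruncPoly F N) s (fun i j l => constTP F N (c i j l)) (Nat.card F ^ k) =
      ∑ᶠ y : Fin N → κ → F, if tIm c y = (Nat.card F ^ k) ^ 2 then
        (1 / (tIm (fun i j l => c i (s j) l) y : ℚ)) else 0 := by
    refine finsum_eq_of_bijective (tE (F := F) (ν := κ) (N := N)) tE_bijective fun y => ?_
    have e1 : imA (fun i j l => constTP F N (c i j l)) y = tIm c (tE y) := card_range_eq c y
    have e2 : imB s (fun i j l => constTP F N (c i j l)) y =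
        tIm (fun i j l => c i (s j) l) (tE y) := card_range_eq (fun i j l => c i (s j) l) y
    rw [e1, e2]
  rw [h1, finsum_eq_sum_of_fintype, Finset.mul_sum]
  refine Finset.sum_congr rfl fun y _ => ?_
  unfold tW
  split_ifs with h
  · have h2 := tIm_dvd (fun i j l => c i (s j) l) y
    have hpos : 0 < tIm (fun i j l => c i (s j) l) y := by
      refine Nat.pos_of_dvd_of_pos h2 ?_
      exact pow_pos Nat.card_pos _
    rw [Nat.cast_div h2 (by exact_mod_cast hpos.ne')]
    push_cast
    ring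
  · simp


theorem tcard_F : 2 ≤ Nat.card F := Finite.one_lt_card

theorem tgen_dvd [Fintype (Fin N → κ → F)] (dA : ι → ι → κ → F) (dB : ι → κ → κ → F) (k : ℕ)
    [DecidablePred (tGen (F := F) (ν := κ) (N := N))] :
    ((Nat.card F : ℤ) - 1) ^ 2 ∣ (N.factorial : ℤ) *
      ∑ y : Fin N → κ → F, if tGen y then (tW dA dB k y : ℤ) else 0 := by
  rw [← tcard_units]
  let _ := tMulAction (F := F) (ν := κ) (N := N)
  refine torus_dvd_sum (Γ := Fˣ × Fˣ) (X := Fin N → κ → F)
    (fun y => if tGen y then (tW dA dB k y : ℤ) else 0) (fun g y => ?_) N.factorial fun y hy => ?_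
  · have h1 : tGen (g • y) ↔ tGen y := tGen_act g.1.ne_zero g.2.ne_zero y
    have h2 : tW dA dB k (g • y) = tW dA dB k y := by
      have e1 : tIm dA (g • y) = tIm dA y := tIm_act dA g.1.ne_zero g.2.ne_zero y
      have e2 : tIm dB (g • y) = tIm dB y := tIm_act dB g.1.ne_zero g.2.ne_zero y
      rw [tW, tW, e1, e2]
    simp only [h1, h2]
  · refine tGen_stabilizer ?_
    by_contra h
    exact hy (if_neg h)

theorem tW_zero (dA : ι → ι → κ → F) (dB : ι → κ → κ → F) {k : ℕ} (hk : 1 ≤ k) :
    tW dA dB k (0 : Fin N → κ → F) = 0 := by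
  rw [tW, if_neg]
  have h1 : tIm dA (0 : Fin N → κ → F) = 1 := by
    have h2 : ∀ x : Fin N → ι → F, tconv dA x (0 : Fin N → κ → F) = 0 := by
      intro x
      funext l
      simp [tconv, gMat_zero]
    rw [tIm]
    simp only [h2]
    rw [Nat.card_eq_one_iff_unique]
    exact ⟨⟨fun a b => by
      obtain ⟨x, hx⟩ := a.2
      obtain ⟨x', hx'⟩ := b.2
      exact Subtype.ext (hx.symm.trans hx')⟩, ⟨⟨0, 0, rfl⟩⟩⟩
  rw [h1]
  have h3 : 1 < Nat.card F ^ k := Nat.one_lt_pow (by omega) tcard_F
  nlinarith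

theorem tW_single (dA : ι → ι → κ → F) (dB : ι → κ → κ → F) (k : ℕ) (j0 : Fin N) (y0 : κ → F) :
    tW dA dB k (Pi.single j0 y0) = if (N - j0.1) * (gMat dA y0).rank = 2 * k then
      Nat.card F ^ (N * Fintype.card κ - (N - j0.1) * (gMat dB y0).rank) else 0 := by
  rw [tW, tIm_single, tIm_single, ← pow_mul, mul_comm k 2]
  have hinj := Nat.pow_right_injective (tcard_F (F := F))
  by_cases h : (N - j0.1) * (gMat dA y0).rank = 2 * k
  · rw [if_pos h, if_pos (by rw [h]), Nat.pow_div _ Nat.card_pos]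
    have h1 := (gMat dB y0).rank_le_card_width
    exact Nat.mul_le_mul (Nat.sub_le _ _) h1
  · rw [if_neg h, if_neg fun h' => h (hinj h')]

theorem tmono_sum [Fintype (Fin N → κ → F)] [Fintype (κ → F)] [DecidableEq (κ → F)]
    [DecidablePred (tGen (F := F) (ν := κ) (N := N))]
    (w : (Fin N → κ → F) → ℤ) (hw0 : w 0 = 0) :
    (∑ y : Fin N → κ → F, if tGen y then 0 else w y) =
      ∑ y0 : κ → F, if y0 = 0 then 0 else ∑ j0 : Fin N, w (Pi.single j0 y0) := by
  classical
  have h1 : (∑ y : Fin N → κ → F, if tGen y then 0 else w y) =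
      ∑ y ∈ Finset.univ.filter (fun y : Fin N → κ → F => ¬ tGen y ∧ y ≠ 0), w y := by
    rw [Finset.sum_filter]
    refine Finset.sum_congr rfl fun y _ => ?_
    by_cases hg : tGen y
    · rw [if_pos hg, if_neg (fun h => h.1 hg)]
    · by_cases h0 : y = 0
      · rw [if_neg hg, if_neg (fun h => h.2 h0), h0, hw0]
      · rw [if_neg hg, if_pos ⟨hg, h0⟩]
  have h2 : (∑ y0 : κ → F, if y0 = 0 then 0 else ∑ j0 : Fin N, w (Pi.single j0 y0)) =
      ∑ p ∈ (Finset.univ.filter fun y0 : κ → F => y0 ≠ 0) ×ˢ (Finset.univ : Finset (Fin N)),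
        w (Pi.single p.2 p.1) := by
    rw [Finset.sum_product, Finset.sum_filter]
    refine Finset.sum_congr rfl fun y0 _ => ?_
    by_cases h0 : y0 = 0
    · rw [if_pos h0, if_neg (fun h => h h0)]
    · rw [if_neg h0, if_pos h0]
  rw [h1, h2]
  symm
  refine Finset.sum_bij (fun p _ => Pi.single p.2 p.1) ?_ ?_ ?_ ?_
  · rintro ⟨y0, j0⟩ hp
    simp only [Finset.mem_product, Finset.mem_filter, Finset.mem_univ, true_and, and_true] at hp
    simp only [Finset.mem_filter, Finset.mem_univ, true_and]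
    refine ⟨?_, fun h => hp (by simpa using h)⟩
    rintro ⟨j, j', hj, h1, h2⟩
    have e1 : j = j0 := by
      by_contra h
      exact h1 (Pi.single_eq_of_ne h _)
    have e2 : j' = j0 := by
      by_contra h
      exact h2 (Pi.single_eq_of_ne h _)
    rw [e1, e2] at hj
    exact lt_irrefl _ hj
  · rintro ⟨y0, j0⟩ hp ⟨y1, j1⟩ _ h
    simp only [Finset.mem_product, Finset.mem_filter, Finset.mem_univ, true_and, and_true] at hp
    have h3 := congrFun h j0
    simp only [Pi.single_eq_same] at h3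
    have e1 : j0 = j1 := by
      by_contra hne
      rw [Pi.single_eq_of_ne hne] at h3
      exact hp h3
    subst e1
    rw [Pi.single_eq_same] at h3
    rw [h3]
  · intro y hy
    simp only [Finset.mem_filter, Finset.mem_univ, true_and] at hy
    obtain ⟨hg, h0⟩ := hy
    have : ∃ j0, y j0 ≠ 0 := by
      by_contra h
      push Not at h
      exact h0 (funext h)
    obtain ⟨j0, hj0⟩ := this
    refine ⟨(y j0, j0), ?_, ?_⟩
    · simpa using hj0
    · funext j
      by_cases hj : j = j0
      · rw [hj]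
        exact Pi.single_eq_same _ _
      · rw [Pi.single_eq_of_ne hj]
        by_contra h
        rcases lt_or_gt_of_ne hj with h' | h'
        · exact hg ⟨j, j0, h', fun h'' => h h''.symm, hj0⟩
        · exact hg ⟨j0, j, h', hj0, fun h'' => h h''.symm⟩
  · rintro ⟨y0, j0⟩ _
    rfl

theorem tcount_identity {ρ k : ℕ} (hρ : Even ρ) (hk : 1 ≤ k) (hkN : k ≤ N) :
    (∑ j0 : Fin N, if (N - j0.1) * ρ = 2 * k then (1 : ℤ) else 0) =
      ∑ r ∈ (Finset.Icc 1 k).filter (· ∣ k), if ρ = 2 * r then (1 : ℤ) else 0 := by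
  obtain ⟨r0, hr0⟩ := hρ
  have hρ' : ρ = 2 * r0 := by omega
  subst hρ'
  by_cases hd : r0 ∣ k
  · obtain ⟨e, he⟩ := hd
    have hr1 : 1 ≤ r0 := by
      rcases Nat.eq_zero_or_pos r0 with h | h
      · rw [h] at he; omega
      · exact h
    have he1 : 1 ≤ e := by
      rcases Nat.eq_zero_or_pos e with h | h
      · rw [h] at he; omega
      · exact h
    have hek : e ≤ k := by rw [he]; exact Nat.le_mul_of_pos_left e hr1
    have hrk : r0 ≤ k := by rw [he]; exact Nat.le_mul_of_pos_right r0 he1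
    rw [Finset.sum_eq_single (⟨N - e, by omega⟩ : Fin N), Finset.sum_eq_single r0]
    · have : (N - (N - e)) * (2 * r0) = 2 * k := by
        have : N - (N - e) = e := by omega
        rw [this, he]; ring
      rw [if_pos this, if_pos rfl]
    · intro r _ hr
      rw [if_neg (by omega)]
    · intro h
      exact absurd (Finset.mem_filter.2 ⟨Finset.mem_Icc.2 ⟨hr1, hrk⟩, ⟨e, he⟩⟩) h
    · intro j _ hj
      rw [if_neg]
      intro h
      apply hj
      apply Fin.ext
      show j.1 = N - e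
      have h3 : (N - j.1) * r0 = e * r0 := by
        rw [he] at h
        linarith
      have h4 := Nat.eq_of_mul_eq_mul_right hr1 h3
      have := j.2
      omega
    · simp
  · rw [Finset.sum_eq_zero, Finset.sum_eq_zero]
    · intro r hr
      rw [if_neg]
      intro h
      have : r = r0 := by omega
      rw [this] at hr
      exact hd (Finset.mem_filter.1 hr).2
    · intro j _
      rw [if_neg]
      intro h
      exact hd ⟨N - j.1, by linarith⟩

theorem tpow_sub_dvd (q : ℤ) (a b : ℕ) : q - 1 ∣ q ^ a - q ^ b := by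
  have h1 : q ^ a - q ^ b = (q ^ a - 1) - (q ^ b - 1) := by ring
  rw [h1]
  exact dvd_sub (sub_one_dvd_pow_sub_one q a) (sub_one_dvd_pow_sub_one q b)

variable [DecidableEq ι] [DecidableEq κ]

theorem torus (s : κ → ι) (c : ι → ι → κ → F) (hself : ∀ i l, c i i l = 0)
    (hanti : ∀ i j l, c j i l = - c i j l) (h2 : (2 : F) ≠ 0) (k N : ℕ) (hk : 1 ≤ k)
    (hkN : k ≤ N) :
    ∃ z : ℤ, (N.factorial : ℚ) * (Nat.card F : ℚ) ^ (N * Fintype.card κ) *
      (starSum (R := TruncPoly F N) s (fun i j l => constTP F N (c i j l)) (Nat.card F ^ k)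
        - ∑ r ∈ (Finset.Icc 1 k).filter (· ∣ k), (rankCount c r : ℚ)) =
      ((Nat.card F : ℚ) - 1) ^ 2 * z := by
  classical
  cases nonempty_fintype F
  let dB : ι → κ → κ → F := fun i j l => c i (s j) l
  let Q : ℤ := (Nat.card F : ℤ) ^ (N * Fintype.card κ)
  let G : (κ → F) → ℤ := fun y0 => if y0 = 0 then 0 else ∑ j0 : Fin N,
    if (N - j0.1) * (gMat c y0).rank = 2 * k then
      (Nat.card F : ℤ) ^ (N * Fintype.card κ - (N - j0.1) * (gMat dB y0).rank) - Q else 0
  have hG0 : G 0 = 0 := if_pos rfl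
  have hGinv : ∀ (a : Fˣ) (y : κ → F), G ((a : F) • y) = G y := by
    intro a y
    have e1 : (a : F) • y = 0 ↔ y = 0 := by simp
    simp only [G, e1, trank_smul]
  have hGdvd : ∀ y, ((Nat.card F : ℤ) - 1) ∣ G y := by
    intro y
    simp only [G]
    split_ifs
    · exact dvd_zero _
    · refine Finset.dvd_sum fun j _ => ?_
      split_ifs
      · exact tpow_sub_dvd _ _ _
      · exact dvd_zero _
  have hGsum : ((Nat.card F : ℤ) - 1) ^ 2 ∣ ∑ y, G y := by
    have h3 := tscale_dvd (F := F) (W := κ → F) (fun y => G y / ((Nat.card F : ℤ) - 1))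
      (by rw [hG0]; simp) fun a y => by rw [hGinv]
    have h4 : ∑ y, G y = ((Nat.card F : ℤ) - 1) * ∑ y, G y / ((Nat.card F : ℤ) - 1) := by
      rw [Finset.mul_sum]
      exact Finset.sum_congr rfl fun y _ => (Int.mul_ediv_cancel' (hGdvd y)).symm
    rw [h4, sq]
    exact mul_dvd_mul_left _ h3
  have hmono : (∑ y : Fin N → κ → F, if tGen y then 0 else (tW c dB k y : ℤ)) -
      Q * ∑ r ∈ (Finset.Icc 1 k).filter (· ∣ k), (rankCount c r : ℤ) = ∑ y, G y := by
    rw [tmono_sum (fun y => (tW c dB k y : ℤ)) (by rw [tW_zero c dB hk]; rfl)]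
    have h5 : ∑ r ∈ (Finset.Icc 1 k).filter (· ∣ k), (rankCount c r : ℤ) =
        ∑ y0 : κ → F, if y0 = 0 then 0 else
          ∑ j0 : Fin N, if (N - j0.1) * (gMat c y0).rank = 2 * k then (1 : ℤ) else 0 := by
      have h6 : ∀ r, (rankCount c r : ℤ) = ∑ y : κ → F, if y = 0 then 0 else
          if (gMat c y).rank = 2 * r then (1 : ℤ) else 0 := by
        intro r
        rw [rankCount_eq_sum]
        push_cast
        refine Finset.sum_congr rfl fun y _ => ?_
        by_cases h0 : y = 0
        · rw [if_pos h0, if_neg (fun h => h.1 h0)]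
        · rw [if_neg h0]
          by_cases h1 : (gMat c y).rank = 2 * r
          · rw [if_pos h1, if_pos ⟨h0, h1⟩]
          · rw [if_neg h1, if_neg fun h => h1 h.2]
      simp only [h6]
      rw [Finset.sum_comm]
      refine Finset.sum_congr rfl fun y _ => ?_
      by_cases h0 : y = 0
      · simp [h0]
      · simp only [if_neg h0]
        exact (tcount_identity (tcomMat_even c hanti h2 y) hk hkN).symm
    rw [h5, Finset.mul_sum, ← Finset.sum_sub_distrib]
    refine Finset.sum_congr rfl fun y _ => ?_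
    simp only [G]
    by_cases h0 : y = 0
    · simp [h0]
    · simp only [if_neg h0]
      rw [Finset.mul_sum, ← Finset.sum_sub_distrib]
      refine Finset.sum_congr rfl fun j _ => ?_
      rw [tW_single]
      split_ifs with h7
      · push_cast
        ring
      · simp
  have hgen := tgen_dvd (N := N) c dB k
  obtain ⟨z1, hz1⟩ := hgen
  obtain ⟨z2, hz2⟩ := hGsum
  refine ⟨z1 + N.factorial * z2, ?_⟩
  have hstar := tstar_eq (N := N) s c k
  have hsplit : ∑ y : Fin N → κ → F, (tW c dB k y : ℤ) =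
      (∑ y : Fin N → κ → F, if tGen y then (tW c dB k y : ℤ) else 0) +
        ∑ y : Fin N → κ → F, if tGen y then 0 else (tW c dB k y : ℤ) := by
    rw [← Finset.sum_add_distrib]
    refine Finset.sum_congr rfl fun y _ => ?_
    split_ifs <;> simp
  have hint : (N.factorial : ℤ) * (∑ y : Fin N → κ → F, (tW c dB k y : ℤ) -
      Q * ∑ r ∈ (Finset.Icc 1 k).filter (· ∣ k), (rankCount c r : ℤ)) =
      ((Nat.card F : ℤ) - 1) ^ 2 * (z1 + N.factorial * z2) := by
    rw [hsplit]
    linear_combination hz1 + (N.factorial : ℤ) * hmono + (N.factorial : ℤ) * hz2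
  have hQ : ((Q : ℤ) : ℚ) = (Nat.card F : ℚ) ^ (N * Fintype.card κ) := by
    simp [Q]
  have hcast := congrArg (fun n : ℤ => (n : ℚ)) hint
  push_cast at hcast
  rw [mul_sub, mul_assoc, hstar, mul_assoc, ← hQ]
  push_cast
  rw [← hcast]
  ring

end main

/-! ### Dual numbers -/

section dual

variable {F : Type} [Field F] [Finite F] {ι κ ν : Type} [Fintype ι] [Fintype κ] [Fintype ν]

theorem tcomMat_dual (c : ι → ι → κ → F) (y : κ ⊕ κ → F) :
    comMat (dualC c) y = Matrix.fromBlocks (comMat c (y ∘ Sum.inl)) (comMat c (y ∘ Sum.inr))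
      (comMat c (y ∘ Sum.inr)) 0 := by
  ext i j
  rcases i with i | i <;> rcases j with j | j <;> simp [comMat, dualC, Fintype.sum_sum_type]

theorem trank_of_card (M : Matrix ι ν F) {k : ℕ}
    (h : Nat.card (LinearMap.range (Matrix.vecMulLinear M)) = Nat.card F ^ k) : M.rank = k :=
  Nat.pow_right_injective (tcard_F (F := F)) ((card_row_space M).symm.trans h)

theorem trank_block1 (A : Matrix ι ι F) : (Matrix.fromBlocks A 0 0 (0 : Matrix ι ι F)).rank =
    A.rank := by
  refine trank_of_card _ ?_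
  rw [← card_row_space A]
  have hv : ∀ x : ι ⊕ ι → F, Matrix.vecMul x (Matrix.fromBlocks A 0 0 (0 : Matrix ι ι F)) =
      Sum.elim (Matrix.vecMul (x ∘ Sum.inl) A) 0 := by
    intro x
    rw [Matrix.vecMul_fromBlocks]
    simp
  refine Nat.card_congr
    { toFun := fun w => ⟨fun i => w.1 (Sum.inl i), ?_⟩
      invFun := fun v => ⟨Sum.elim v.1 0, ?_⟩
      left_inv := ?_
      right_inv := ?_ }
  · obtain ⟨x, hx⟩ := w.2
    refine ⟨x ∘ Sum.inl, ?_⟩
    have h1 : Matrix.vecMul x (Matrix.fromBlocks A 0 0 (0 : Matrix ι ι F)) = w.1 := hx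
    rw [← h1, hv]
    rfl
  · obtain ⟨x, hx⟩ := v.2
    refine ⟨Sum.elim x 0, ?_⟩
    have h1 : Matrix.vecMul x A = v.1 := hx
    show Matrix.vecMul (Sum.elim x 0) (Matrix.fromBlocks A 0 0 (0 : Matrix ι ι F)) = _
    rw [hv, Sum.elim_comp_inl, h1]
  · rintro ⟨w, x, hx⟩
    apply Subtype.ext
    have h1 : Matrix.vecMul x (Matrix.fromBlocks A 0 0 (0 : Matrix ι ι F)) = w := hx
    rw [hv] at h1
    funext i
    rcases i with i | i
    · rfl
    · show (0 : F) = w (Sum.inr i)
      rw [← h1]
      rfl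
  · rintro ⟨v, hv⟩
    rfl

theorem trank_block2 (A : Matrix ι ι F) : (Matrix.fromBlocks 0 A A (0 : Matrix ι ι F)).rank =
    2 * A.rank := by
  refine trank_of_card _ ?_
  rw [two_mul, pow_add, ← card_row_space A, ← Nat.card_prod]
  have hv : ∀ x : ι ⊕ ι → F, Matrix.vecMul x (Matrix.fromBlocks 0 A A (0 : Matrix ι ι F)) =
      Sum.elim (Matrix.vecMul (x ∘ Sum.inr) A) (Matrix.vecMul (x ∘ Sum.inl) A) := by
    intro x
    rw [Matrix.vecMul_fromBlocks]
    simp
  refine Nat.card_congr
    { toFun := fun w => (⟨fun i => w.1 (Sum.inl i), ?_⟩, ⟨fun i => w.1 (Sum.inr i), ?_⟩)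
      invFun := fun v => ⟨Sum.elim v.1.1 v.2.1, ?_⟩
      left_inv := ?_
      right_inv := ?_ }
  · obtain ⟨x, hx⟩ := w.2
    refine ⟨x ∘ Sum.inr, ?_⟩
    have h1 : Matrix.vecMul x (Matrix.fromBlocks 0 A A (0 : Matrix ι ι F)) = w.1 := hx
    rw [← h1, hv]
    rfl
  · obtain ⟨x, hx⟩ := w.2
    refine ⟨x ∘ Sum.inl, ?_⟩
    have h1 : Matrix.vecMul x (Matrix.fromBlocks 0 A A (0 : Matrix ι ι F)) = w.1 := hx
    rw [← h1, hv]
    rfl
  · obtain ⟨x, hx⟩ := v.1.2
    obtain ⟨x', hx'⟩ := v.2.2
    refine ⟨Sum.elim x' x, ?_⟩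
    have h1 : Matrix.vecMul x A = v.1.1 := hx
    have h2 : Matrix.vecMul x' A = v.2.1 := hx'
    show Matrix.vecMul (Sum.elim x' x) (Matrix.fromBlocks 0 A A (0 : Matrix ι ι F)) = _
    rw [hv, Sum.elim_comp_inl, Sum.elim_comp_inr, h1, h2]
  · rintro ⟨w, hw⟩
    apply Subtype.ext
    funext i
    rcases i with i | i <;> rfl
  · rintro ⟨⟨v, hv⟩, ⟨v', hv'⟩⟩
    rfl

theorem trank_block_smul [DecidableEq ι] (A B : Matrix ι ι F) (a b : Fˣ) :
    (Matrix.fromBlocks ((a : F) • A) ((b : F) • B) ((b : F) • B) (0 : Matrix ι ι F)).rank =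
      (Matrix.fromBlocks A B B (0 : Matrix ι ι F)).rank := by
  have h1 : Matrix.fromBlocks ((a : F) • A) ((b : F) • B) ((b : F) • B) (0 : Matrix ι ι F) =
      Matrix.fromBlocks ((a : F) • (1 : Matrix ι ι F)) 0 0 ((b : F) • (1 : Matrix ι ι F)) *
        (Matrix.fromBlocks A B B (0 : Matrix ι ι F) *
          Matrix.fromBlocks (1 : Matrix ι ι F) 0 0 (((b : F) * (a : F)⁻¹) • (1 : Matrix ι ι F))) := by
    rw [Matrix.fromBlocks_multiply, Matrix.fromBlocks_multiply]
    simp only [Matrix.mul_one, Matrix.mul_zero, add_zero, zero_add, Matrix.zero_mul,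
      Matrix.mul_smul, Matrix.smul_mul, Matrix.one_mul, smul_zero, smul_smul]
    congr 2
    field_simp
  have hd1 : (Matrix.fromBlocks ((a : F) • (1 : Matrix ι ι F)) 0 0
      ((b : F) • (1 : Matrix ι ι F))).det ≠ 0 := by
    rw [Matrix.det_fromBlocks_zero₂₁, Matrix.det_smul, Matrix.det_smul, Matrix.det_one]
    simp
  have hd2 : (Matrix.fromBlocks (1 : Matrix ι ι F) 0 0
      (((b : F) * (a : F)⁻¹) • (1 : Matrix ι ι F))).det ≠ 0 := by
    rw [Matrix.det_fromBlocks_zero₂₁, Matrix.det_smul, Matrix.det_one]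
    simp
  rw [h1, Matrix.rank_mul_eq_right_of_det_ne_zero _ _ hd1,
    Matrix.rank_mul_eq_left_of_det_ne_zero _ _ hd2]

variable [DecidableEq ι] [DecidableEq κ]

theorem dual_count (c : ι → ι → κ → F) (hself : ∀ i l, c i i l = 0)
    (hanti : ∀ i j l, c j i l = - c i j l) (h2 : (2 : F) ≠ 0) (r : ℕ) (hr : 1 ≤ r) :
    ∃ z : ℤ, (rankCount (dualC c) r : ℤ) = (rankCount c r : ℤ) +
      (if 2 ∣ r then (rankCount c (r / 2) : ℤ) else 0) + ((Nat.card F : ℤ) - 1) ^ 2 * z := by
  classical
  cases nonempty_fintype F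
  let M : (κ → F) → (κ → F) → Matrix (ι ⊕ ι) (ι ⊕ ι) F := fun y0 y1 =>
    Matrix.fromBlocks (comMat c y0) (comMat c y1) (comMat c y1) 0
  let K : (κ → F) → (κ → F) → ℤ := fun y0 y1 =>
    if y0 ≠ 0 ∧ y1 ≠ 0 ∧ (M y0 y1).rank = 2 * r then 1 else 0
  have hsm : ∀ (a : F) (y : κ → F), comMat c (a • y) = a • comMat c y := fun a y => gMat_smul c a y
  have h0m : comMat c (0 : κ → F) = 0 := gMat_zero c
  have hKinv : ∀ (a b : Fˣ) (y0 y1 : κ → F), K ((a : F) • y0) ((b : F) • y1) = K y0 y1 := by
    intro a b y0 y1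
    have e1 : (a : F) • y0 ≠ 0 ↔ y0 ≠ 0 := by simp
    have e2 : (b : F) • y1 ≠ 0 ↔ y1 ≠ 0 := by simp
    have e3 : (M ((a : F) • y0) ((b : F) • y1)).rank = (M y0 y1).rank := by
      simp only [M, hsm]
      exact trank_block_smul _ _ a b
    simp only [K, e1, e2, e3]
  have hK : ((Nat.card F : ℤ) - 1) ^ 2 ∣ ∑ y0, ∑ y1, K y0 y1 := by
    have hd : ∀ y0, ((Nat.card F : ℤ) - 1) ∣ ∑ y1, K y0 y1 := fun y0 =>
      tscale_dvd (F := F) (W := κ → F) (fun y1 => K y0 y1) (by simp [K]) fun b y1 => by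
        have := hKinv 1 b y0 y1
        rwa [Units.val_one, one_smul] at this
    have h4 : ∑ y0, ∑ y1, K y0 y1 =
        ((Nat.card F : ℤ) - 1) * ∑ y0, (∑ y1, K y0 y1) / ((Nat.card F : ℤ) - 1) := by
      rw [Finset.mul_sum]
      exact Finset.sum_congr rfl fun y _ => (Int.mul_ediv_cancel' (hd y)).symm
    rw [h4, sq]
    refine mul_dvd_mul_left _ (tscale_dvd (F := F) (W := κ → F)
      (fun y0 => (∑ y1, K y0 y1) / ((Nat.card F : ℤ) - 1)) (by simp [K]) fun a y0 => ?_)
    congr 1
    refine Finset.sum_congr rfl fun y1 _ => ?_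
    have := hKinv a 1 y0 y1
    rwa [Units.val_one, one_smul] at this
  obtain ⟨z, hz⟩ := hK
  refine ⟨z, ?_⟩
  rw [← hz]
  have h1 : (rankCount (dualC c) r : ℤ) = ∑ y0 : κ → F, ∑ y1 : κ → F,
      if (y0 ≠ 0 ∨ y1 ≠ 0) ∧ (M y0 y1).rank = 2 * r then (1 : ℤ) else 0 := by
    rw [rankCount_eq_sum]
    push_cast
    rw [← (Equiv.sumArrowEquivProdArrow κ κ F).symm.sum_comp, Fintype.sum_prod_type]
    refine Finset.sum_congr rfl fun y0 _ => Finset.sum_congr rfl fun y1 _ => ?_
    have e1 : (Equiv.sumArrowEquivProdArrow κ κ F).symm (y0, y1) = Sum.elim y0 y1 := rfl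
    have e2 : Sum.elim y0 y1 ≠ 0 ↔ (y0 ≠ 0 ∨ y1 ≠ 0) := by
      rw [← not_and_or, not_iff_not]
      constructor
      · intro h
        exact ⟨funext fun i => congrFun h (Sum.inl i), funext fun i => congrFun h (Sum.inr i)⟩
      · rintro ⟨rfl, rfl⟩
        funext i
        rcases i with i | i <;> rfl
    rw [e1, tcomMat_dual, Sum.elim_comp_inl, Sum.elim_comp_inr]
    simp only [e2, M]
  have h3 : (rankCount c r : ℤ) = ∑ y0 : κ → F, ∑ y1 : κ → F,
      if y1 = 0 then (if y0 ≠ 0 ∧ (comMat c y0).rank = 2 * r then (1 : ℤ) else 0) else 0 := by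
    rw [rankCount_eq_sum]
    push_cast
    refine Finset.sum_congr rfl fun y0 _ => ?_
    rw [Finset.sum_ite_eq' Finset.univ (0 : κ → F), if_pos (Finset.mem_univ _)]
  have h4 : (if 2 ∣ r then (rankCount c (r / 2) : ℤ) else 0) = ∑ y0 : κ → F, ∑ y1 : κ → F,
      if y0 = 0 then (if y1 ≠ 0 ∧ (comMat c y1).rank = r then (1 : ℤ) else 0) else 0 := by
    rw [Finset.sum_comm]
    simp only [Finset.sum_ite_eq' Finset.univ (0 : κ → F), Finset.mem_univ, if_true]
    split_ifs with hd
    · rw [rankCount_eq_sum]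
      push_cast
      refine Finset.sum_congr rfl fun y _ => ?_
      have : 2 * (r / 2) = r := Nat.mul_div_cancel' hd
      rw [this]
    · symm
      refine Finset.sum_eq_zero fun y _ => ?_
      rw [if_neg]
      rintro ⟨_, h⟩
      obtain ⟨e, he⟩ := tcomMat_even c hanti h2 y
      exact hd ⟨e, by omega⟩
  rw [h1, h3, h4, ← Finset.sum_add_distrib, ← Finset.sum_add_distrib]
  refine Finset.sum_congr rfl fun y0 _ => ?_
  rw [← Finset.sum_add_distrib, ← Finset.sum_add_distrib]
  refine Finset.sum_congr rfl fun y1 _ => ?_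
  simp only [K, M]
  by_cases e0 : y0 = 0
  · subst e0
    by_cases e1 : y1 = 0
    · subst e1
      simp [h0m, show ¬ (0 = r) by omega]
    · simp [e1, h0m, trank_block2]
  · by_cases e1 : y1 = 0
    · subst e1
      simp [e0, h0m, trank_block1]
    · simp [e0, e1]

omit [Finite F] in
/-- `starSum` only depends on the ring up to isomorphism -/
theorem starSum_congr {R R' : Type} [CommRing R] [CommRing R'] (e : R ≃+* R') (s : κ → ι)
    (c : ι → ι → κ → R) (n : ℕ) :
    starSum s c n = starSum s (fun i j l => e (c i j l)) n := by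
  have key : ∀ (ν : Type) [Fintype ν] (d : ι → ν → κ → R) (y : κ → R),
      Nat.card (LinearMap.range (Matrix.vecMulLinear (gMat d y))) =
        Nat.card (LinearMap.range (Matrix.vecMulLinear
          (gMat (fun i j l => e (d i j l)) (fun l => e (y l))))) := by
    intro ν _ d y
    have hg : ∀ i j, gMat (fun i j l => e (d i j l)) (fun l => e (y l)) i j = e (gMat d y i j) := by
      intro i j
      simp [gMat]
    have hv : ∀ x : ι → R, Matrix.vecMul (fun i => e (x i))
        (gMat (fun i j l => e (d i j l)) (fun l => e (y l))) =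
          fun j => e (Matrix.vecMul x (gMat d y) j) := by
      intro x
      funext j
      simp only [Matrix.vecMul, dotProduct, hg, map_sum, map_mul]
    let E : (ν → R) ≃ (ν → R') := Equiv.piCongrRight fun _ => e.toEquiv
    refine Nat.card_congr (E.subtypeEquiv fun w => ?_)
    constructor
    · rintro ⟨x, rfl⟩
      exact ⟨fun i => e (x i), hv x⟩
    · rintro ⟨x, hx⟩
      refine ⟨fun i => e.symm (x i), E.injective ?_⟩
      refine Eq.trans ?_ hx
      have := hv fun i => e.symm (x i)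
      simp only [RingEquiv.apply_symm_apply] at this
      exact this.symm
  refine finsum_eq_of_bijective (fun y l => e (y l))
    (Equiv.piCongrRight fun _ : κ => e.toEquiv).bijective fun y => ?_
  have e1 : imA c y = imA (fun i j l => e (c i j l)) (fun l => e (y l)) := key ι c y
  have e2 : imB s c y = imB s (fun i j l => e (c i j l)) (fun l => e (y l)) :=
    key κ (fun i j l => c i (s j) l) y
  rw [e1, e2]

end dual
end MP8c80e8
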