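import Pool.Agent.Lib.MP_8c80e8_al.Star
import Pool.Agent.Lib.MP_8c80e8_al.Torus
import Pool.Agent.Lib.MP_8c80e8_al.Ext
import Pool.Agent.Lib.MP_8c80e8_al.Ell
import Pool.Agent.Lib.MP_8c80e8_al.Dirichlet
import Pool.Agent.Lib.MP_8c80e8_al.Basis
import Pool.Agent.Lib.MP_8c80e8_al.TopAlg

/-!
# J12: the final assembly
-/

open scoped TensorProduct NumberField
open IsDedekindDomain Filter Topology

namespace MP8c80e8

noncomputable section

attribute [local instance 100] LieRing.ofAssociativeRing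

variable {k : Type} [Field k] [NumberField k]

/-- existence of a place avoiding a finite set and a nonzero element -/
theorem exists_good_place (T : Set (HeightOneSpectrum (𝓞 k))) (hT : T.Finite) (Δ : 𝓞 k)
    (hΔ : Δ ≠ 0) : ∃ v : HeightOneSpectrum (𝓞 k), v ∉ T ∧ Δ ∉ v.asIdeal := by
  classical
  have hx : ∀ v : HeightOneSpectrum (𝓞 k), ∃ x ∈ v.asIdeal, x ≠ 0 := by
    intro v
    exact Submodule.exists_mem_ne_zero_of_ne_bot v.ne_bot
  choose x hxmem hx0 using hx
  set y : 𝓞 k := Δ * ∏ v ∈ hT.toFinset, x v with hy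
  have hy0 : y ≠ 0 := mul_ne_zero hΔ (Finset.prod_ne_zero_iff.mpr fun v _ => hx0 v)
  have := Ell_isJacobsonRing_int
  have : IsJacobsonRing (𝓞 k) := isJacobsonRing_of_isIntegral (R := ℤ)
  have hjac : (⊥ : Ideal (𝓞 k)).jacobson = ⊥ :=
    IsJacobsonRing.out inferInstance ((Ideal.isRadical_iff_quotient_reduced _).mpr (by
      have : Ideal.IsPrime (⊥ : Ideal (𝓞 k)) := Ideal.isPrime_bot
      infer_instance))
  have hyn : y ∉ (⊥ : Ideal (𝓞 k)).jacobson := by
    rw [hjac]; simpa using hy0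
  rw [Ideal.jacobson, Ideal.mem_sInf] at hyn
  push Not at hyn
  obtain ⟨M, hM, hyM⟩ := hyn
  have hMmax : M.IsMaximal := hM.2
  have hMbot : M ≠ ⊥ := Ring.ne_bot_of_isMaximal_of_not_isField hMmax
    (NumberField.RingOfIntegers.not_isField k)
  refine ⟨⟨M, hMmax.isPrime, hMbot⟩, fun hv => ?_, fun hv => ?_⟩
  · apply hyM
    rw [hy]
    apply Ideal.mul_mem_left
    have hmem : (⟨M, hMmax.isPrime, hMbot⟩ : HeightOneSpectrum (𝓞 k)) ∈ hT.toFinset := by
      simpa using hv
    rw [← Finset.mul_prod_erase _ _ hmem]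
    exact Ideal.mul_mem_right _ _ (hxmem ⟨M, hMmax.isPrime, hMbot⟩)
  · exact hyM (Ideal.mul_mem_right _ _ hv)

/-- specialised denominators do not vanish -/
theorem specY_den_ne_zero {p : MvPolynomial (Fin 2) ℚ} (hp : p ∈ cycDen) (Q : ℕ) (hQ : 2 ≤ Q) :
    specY (Q : ℚ) p ≠ 0 := by
  have hQ0 : (Q : ℚ) ≠ 0 := by
    have : Q ≠ 0 := by omega
    exact_mod_cast this
  induction hp using Submonoid.closure_induction with
  | mem x hx =>
    rcases hx with hx | ⟨a, b, c, d, hne, rfl⟩
    · rcases hx with rfl | hx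
      · simpa [specY] using hQ0
      · rw [Set.mem_singleton_iff] at hx
        subst hx
        simp [specY]
    · intro h0
      have h1 : specY (Q : ℚ) (MvPolynomial.X 0 ^ a * MvPolynomial.X 1 ^ b
        - MvPolynomial.X 0 ^ c * MvPolynomial.X 1 ^ d) =
          Polynomial.C ((Q : ℚ) ^ a) * Polynomial.X ^ b -
          Polynomial.C ((Q : ℚ) ^ c) * Polynomial.X ^ d := by
        simp [specY]
      rw [h1] at h0
      by_cases hbd : b = d
      · subst hbd
        have h2 := congrArg (fun p => Polynomial.coeff p b) h0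
        simp only [Polynomial.coeff_sub, Polynomial.coeff_C_mul, Polynomial.coeff_X_pow, if_true,
          mul_one, Polynomial.coeff_zero] at h2
        have h3 : (Q : ℚ) ^ a = (Q : ℚ) ^ c := by linarith
        have h4 : Q ^ a = Q ^ c := by exact_mod_cast h3
        have h5 := Nat.pow_right_injective hQ h4
        exact hne (by rw [h5])
      · have h2 := congrArg (fun p => Polynomial.coeff p b) h0
        simp only [Polynomial.coeff_sub, Polynomial.coeff_C_mul, Polynomial.coeff_X_pow, if_true,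
          mul_one, Polynomial.coeff_zero, hbd, if_false, mul_zero, sub_zero] at h2
        exact pow_ne_zero _ hQ0 h2
  | one => simp [specY]
  | mul x y _ _ hx hy =>
    rw [specY_mul]
    exact mul_ne_zero hx hy

/-- uniqueness of the series satisfying `SeriesRel` -/
theorem seriesRel_unique {r : ℕ} {W : Fin r → WData} {N : Fin r → ℤ} {Q : ℕ} (hQ : 2 ≤ Q)
    {c c' : ℕ → ℚ} (h : SeriesRel W N (Q : ℚ) c) (h' : SeriesRel W N (Q : ℚ) c') : c = c' := by
  unfold SeriesRel at h h'
  have hne : ((∏ i, specY (Q : ℚ) (W i).den : Polynomial ℚ) : PowerSeries ℚ) ≠ 0 := by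
    intro h0
    have h1 : (∏ i, specY (Q : ℚ) (W i).den : Polynomial ℚ) = 0 := by
      exact_mod_cast h0
    rw [Finset.prod_eq_zero_iff] at h1
    obtain ⟨i, _, hi⟩ := h1
    exact specY_den_ne_zero (W i).hden Q hQ hi
  have h2 : PowerSeries.mk c = PowerSeries.mk c' := mul_right_cancel₀ hne (h.trans h'.symm)
  funext n
  have := congrArg (PowerSeries.coeff n) h2
  simpa using this

/-- the properties of the finite field `F` provided by `exists_ext` -/
def ExtOK (v : HeightOneSpectrum (𝓞 k)) (f : ℕ) (F : Type) [Field F] [Finite F]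
    (b : 𝓞 k →+* F) : Prop :=
  RingHom.ker b = v.asIdeal ∧ Nat.card F = Nat.card (𝓞 k ⧸ v.asIdeal) ^ f ∧
      ∀ e : ℕ, 0 < e → ∃ (K : Type) (_ : Field K) (_ : Algebra (v.adicCompletion k) K)
        (_ : FiniteDimensional (v.adicCompletion k) K) (_ : IsDiscreteValuationRing (intRing v K)),
        (Nat.card (intRing v K ⧸ IsLocalRing.maximalIdeal (intRing v K)) = Nat.card F) ∧
        RingHom.ker ((Ideal.Quotient.mk (IsLocalRing.maximalIdeal (intRing v K))).comp
          (toIntRing v K)) = v.asIdeal ∧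
        ∀ N : ℕ, N ≤ e →
          ∃ φ : (intRing v K ⧸ IsLocalRing.maximalIdeal (intRing v K) ^ N) ≃+* TruncPoly F N,
            ∀ x : 𝓞 k, φ (Ideal.Quotient.mk _ (toIntRing v K x)) = constTP F N (b x)

/-- the formula for the zeta functions at the place `v` -/
def FormulaAt {G : UnipotentGroup k} (D : ZetaData G) (v : HeightOneSpectrum (𝓞 k)) : Prop :=
  ∀ (K : Type) [Field K] [Algebra (v.adicCompletion k) K] [FiniteDimensional (v.adicCompletion k) K]
      (P : Ideal (intRing v K)), P.IsMaximal →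
      ∃ s₀ : ℝ, ∀ s : ℝ, s₀ < s →
        HasSum (fun n : ℕ => (G.rtilde v K P n : ℝ) * (n : ℝ) ^ (-s))
          (∑ i, (numPoints (D.V i) ((Ideal.Quotient.mk P).comp (toIntRing v K)) : ℝ) *
            (D.W i).eval (Nat.card (intRing v K ⧸ P) : ℝ) ((Nat.card (intRing v K ⧸ P) : ℝ) ^ (-s)))

/-- the eigenvalues of the `V_i` at the place `v` -/
structure EigAt {G : UnipotentGroup k} (D : ZetaData G) (v : HeightOneSpectrum (𝓞 k)) where
  r : Fin D.r → ℕ
  α : ∀ i, Fin (r i) → ℂ
  m : ∀ i, Fin (r i) → ℤ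
  hα : ∀ i s, α i s ≠ 0
  hsum : ∀ i, ∑ s, m i s = D.χ i
  hcount : ∀ i (F : Type) [Field F] (b : 𝓞 k →+* F) (f : ℕ), RingHom.ker b = v.asIdeal →
        Nat.card F = Nat.card (𝓞 k ⧸ v.asIdeal) ^ f → 0 < f →
        (numPoints (D.V i) b : ℂ) = ∑ s, (m i s : ℂ) * α i s ^ f

theorem toField_comp (v : HeightOneSpectrum (𝓞 k)) (K : Type) [Field K]
    [Algebra (v.adicCompletion k) K] (x : 𝓞 k) :
    algebraMap (intRing v K) K (toIntRing v K x) = toField v K (algebraMap (𝓞 k) k x) := by
  rfl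

theorem imA_subsingleton {R : Type} [CommRing R] [Subsingleton R] {ι κ : Type} [Fintype ι]
    [Fintype κ] (c : ι → ι → κ → R) (y : κ → R) : imA c y = 1 := by
  unfold imA
  have : Subsingleton (LinearMap.range (Matrix.vecMulLinear (comMat c y))) := inferInstance
  exact Nat.card_eq_one_iff_unique.mpr ⟨this, ⟨0⟩⟩

theorem imB_subsingleton {R : Type} [CommRing R] [Subsingleton R] {ι κ : Type} [Fintype ι]
    [Fintype κ] (s : κ → ι) (c : ι → ι → κ → R) (y : κ → R) : imB s c y = 1 := by
  unfold imB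
  have : Subsingleton
    (LinearMap.range (Matrix.vecMulLinear ((comMat c y).submatrix id s))) := inferInstance
  exact Nat.card_eq_one_iff_unique.mpr ⟨this, ⟨0⟩⟩

theorem starSum_subsingleton {R : Type} [CommRing R] [Subsingleton R] {ι κ : Type} [Fintype ι]
    [Fintype κ] (s : κ → ι) (c : ι → ι → κ → R) : starSum s c 1 = 1 := by
  unfold starSum
  simp only [imA_subsingleton, imB_subsingleton]
  have : Subsingleton (κ → R) := inferInstance
  rw [finsum_eq_single _ (0 : κ → R) (fun y hy => absurd (Subsingleton.elim _ _) hy)]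
  simp

end

end MP8c80e8
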