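import Pool.Agent.Lib.MP_8c80e8_al.Final1

open scoped TensorProduct NumberField
open IsDedekindDomain Filter Topology

namespace MP8c80e8

noncomputable section

attribute [local instance 100] LieRing.ofAssociativeRing

variable {k : Type} [Field k] [NumberField k]

theorem count_of_isField {v : HeightOneSpectrum (𝓞 k)} {f : ℕ} (hf : 0 < f)
    {G : UnipotentGroup k} {D : ZetaData G} (E : EigAt D v) (i : Fin D.r) {R : Type} [CommRing R]
    (hR : IsField R) (b : 𝓞 k →+* R) (hker : RingHom.ker b = v.asIdeal)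
    (hcard : Nat.card R = Nat.card (𝓞 k ⧸ v.asIdeal) ^ f) :
    (numPoints (D.V i) b : ℂ) = ∑ s, (E.m i s : ℂ) * E.α i s ^ f := by
  let _ := hR.toField
  exact E.hcount i R b f hker hcard hf

theorem count_quot {v : HeightOneSpectrum (𝓞 k)} {f : ℕ} (hf : 0 < f)
    {G : UnipotentGroup k} {D : ZetaData G} (E : EigAt D v) (i : Fin D.r) {A : Type} [CommRing A]
    (P : Ideal A) (hP : P.IsMaximal) (a : 𝓞 k →+* A)
    (hker : RingHom.ker ((Ideal.Quotient.mk P).comp a) = v.asIdeal)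
    (hcard : Nat.card (A ⧸ P) = Nat.card (𝓞 k ⧸ v.asIdeal) ^ f) :
    (numPoints (D.V i) ((Ideal.Quotient.mk P).comp a) : ℂ) =
      ∑ s, (E.m i s : ℂ) * E.α i s ^ f :=
  count_of_isField hf E i ((Ideal.Quotient.maximal_ideal_iff_isField_quotient P).mp hP)
      ((Ideal.Quotient.mk P).comp a) hker hcard

theorem star_trunc {G : UnipotentGroup k} {ι κ : Type}
    [Fintype ι] [Fintype κ] [DecidableEq ι] [DecidableEq κ] (B : IntData G ι κ)
    {v : HeightOneSpectrum (𝓞 k)} (hbad : B.bad ∉ v.asIdeal)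
    {O K : Type} [CommRing O] [IsDomain O] [IsDiscreteValuationRing O] [Field K]
    (a₀ : k →+* K) (jj : O →+* K) (a : 𝓞 k →+* O) (hj : Function.Injective jj)
    (hcompat : ∀ x, jj (a x) = a₀ (algebraMap (𝓞 k) k x)) {F : Type} [Field F] [Finite F]
    (b : 𝓞 k →+* F)
    (hc : Nat.card (O ⧸ IsLocalRing.maximalIdeal O) = Nat.card F)
    (hk : RingHom.ker ((Ideal.Quotient.mk (IsLocalRing.maximalIdeal O)).comp a) = v.asIdeal)
    (j : ℕ) (φ : (O ⧸ IsLocalRing.maximalIdeal O ^ j) ≃+* TruncPoly F j)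
    (hφ : ∀ x : 𝓞 k, φ (Ideal.Quotient.mk _ (a x)) = constTP F j (b x)) :
    (numTwistClasses (IsLocalRing.maximalIdeal O) (G.points a₀ jj) (Nat.card F ^ j) : ℚ) =
      starSum (R := TruncPoly F j) B.s (fun i i' l => constTP F j (b (B.c i i' l)))
        (Nat.card F ^ j) := by
  have : CharZero K := charZero_of_injective_ringHom a₀.injective
  have hQ : 2 ≤ Nat.card F := Finite.one_lt_card
  have : Finite (O ⧸ IsLocalRing.maximalIdeal O) := Nat.finite_of_card_ne_zero (by rw [hc]; omega)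
  have hu : IsUnit (a B.bad) := by
    rw [← IsLocalRing.notMem_maximalIdeal]
    intro hmem
    apply hbad
    rw [← hk, RingHom.mem_ker, RingHom.comp_apply]
    exact Ideal.Quotient.eq_zero_iff_mem.mpr hmem
  have hst := star G B O K a₀ jj a hj hcompat hu j (Nat.card F ^ j) (by rw [hc])
  rw [hst, starSum_congr φ]
  congr 1
  funext i i' l
  exact hφ _

theorem dir_abs {G : UnipotentGroup k} (D : ZetaData G) (Q : ℕ) (hQ2 : 2 ≤ Q) (a : ℕ → ℕ)
    (Nn : Fin D.r → ℕ) (s₀ : ℝ)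
    (hs₀ : ∀ s : ℝ, s₀ < s → HasSum (fun n : ℕ => (a n : ℝ) * (n : ℝ) ^ (-s))
      (∑ i, (Nn i : ℝ) * (D.W i).eval (Q : ℝ) ((Q : ℝ) ^ (-s)))) :
    SeriesRel D.W (fun i => (Nn i : ℤ)) (Q : ℚ) (fun j => (a (Q ^ j) : ℚ)) := by
  exact dirichlet Q hQ2 a D.W Nn s₀ hs₀

theorem level_K {v : HeightOneSpectrum (𝓞 k)} {f : ℕ} (hf : 0 < f) {F : Type} [Field F]
    [Finite F] {G : UnipotentGroup k}
    (D : ZetaData G) (hform : FormulaAt D v) (E : EigAt D v)
    (hcard : Nat.card F = Nat.card (𝓞 k ⧸ v.asIdeal) ^ f)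
    (K : Type) [Field K] [Algebra (v.adicCompletion k) K] [FiniteDimensional (v.adicCompletion k) K]
    (P : Ideal (intRing v K)) (hPmax : P.IsMaximal)
    (hcK : Nat.card (intRing v K ⧸ P) = Nat.card F)
    (hkK : RingHom.ker ((Ideal.Quotient.mk P).comp (toIntRing v K)) = v.asIdeal) :
    ∃ (N : Fin D.r → ℤ), (∀ i, (N i : ℂ) = ∑ s, (E.m i s : ℂ) * E.α i s ^ f) ∧
      SeriesRel D.W N (Nat.card F : ℚ) (fun j => (G.rtilde v K P (Nat.card F ^ j) : ℚ)) := by
  obtain ⟨s₀, hs₀⟩ := hform K P hPmax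
  have hQ2 : 2 ≤ Nat.card F := Finite.one_lt_card
  obtain ⟨a, ha⟩ : ∃ a : ℕ → ℕ, ∀ n, G.rtilde v K P n = a n := ⟨_, fun _ => rfl⟩
  obtain ⟨Nn, hN⟩ : ∃ Nn : Fin D.r → ℕ, ∀ i,
    numPoints (D.V i) ((Ideal.Quotient.mk P).comp (toIntRing v K)) = Nn i := ⟨_, fun _ => rfl⟩
  rw [hcK] at hs₀
  simp only [ha, hN] at hs₀
  have h' : ∀ s : ℝ, s₀ < s → HasSum (fun n : ℕ => (a n : ℝ) * (n : ℝ) ^ (-s))
      (∑ i, (Nn i : ℝ) * (D.W i).eval (Nat.card F : ℝ) ((Nat.card F : ℝ) ^ (-s))) := by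
    intro s hs
    exact hs₀ s hs
  have hdir := dir_abs D (Nat.card F) hQ2 a Nn s₀ h'
  refine ⟨fun i => (Nn i : ℤ), ?_, ?_⟩
  · intro i
    have h1 := count_quot hf E i P hPmax (toIntRing v K) hkK (by rw [hcK, hcard])
    rw [hN] at h1
    rw [← h1]
    simp
  · simp only [ha]
    exact hdir

theorem star_K {G : UnipotentGroup k} {ι κ : Type}
    [Fintype ι] [Fintype κ] [DecidableEq ι] [DecidableEq κ] (B : IntData G ι κ)
    {v : HeightOneSpectrum (𝓞 k)} (hbad : B.bad ∉ v.asIdeal)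
    {F : Type} [Field F] [Finite F] (b : 𝓞 k →+* F)
    (K : Type) [Field K] [Algebra (v.adicCompletion k) K] [IsDiscreteValuationRing (intRing v K)]
    (hc : Nat.card (intRing v K ⧸ IsLocalRing.maximalIdeal (intRing v K)) = Nat.card F)
    (hk : RingHom.ker ((Ideal.Quotient.mk (IsLocalRing.maximalIdeal (intRing v K))).comp
      (toIntRing v K)) = v.asIdeal)
    (j : ℕ) (φ : (intRing v K ⧸ IsLocalRing.maximalIdeal (intRing v K) ^ j) ≃+* TruncPoly F j)
    (hφ : ∀ x : 𝓞 k, φ (Ideal.Quotient.mk _ (toIntRing v K x)) = constTP F j (b x)) :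
    (G.rtilde v K (IsLocalRing.maximalIdeal (intRing v K)) (Nat.card F ^ j) : ℚ) =
      starSum (R := TruncPoly F j) B.s (fun i i' l => constTP F j (b (B.c i i' l)))
        (Nat.card F ^ j) := by
  unfold UnipotentGroup.rtilde
  exact star_trunc B hbad (toField v K) (algebraMap (intRing v K) K) (toIntRing v K)
    Subtype.val_injective (toField_comp v K) b hc hk j φ hφ

theorem level_e {v : HeightOneSpectrum (𝓞 k)} {f : ℕ} (hf : 0 < f) {F : Type} [Field F]
    [Finite F] {b : 𝓞 k →+* F} (h : ExtOK v f F b) {G : UnipotentGroup k} {ι κ : Type}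
    [Fintype ι] [Fintype κ] [DecidableEq ι] [DecidableEq κ] (B : IntData G ι κ)
    (D : ZetaData G) (hbad : B.bad ∉ v.asIdeal) (hform : FormulaAt D v) (E : EigAt D v)
    (e : ℕ) (he : 0 < e) :
    ∃ (N : Fin D.r → ℤ) (c : ℕ → ℚ), (∀ i, (N i : ℂ) = ∑ s, (E.m i s : ℂ) * E.α i s ^ f) ∧
      SeriesRel D.W N (Nat.card F : ℚ) c ∧
      ∀ j ≤ e, c j = starSum (R := TruncPoly F j) B.s (fun i i' l => constTP F j (b (B.c i i' l)))
        (Nat.card F ^ j) := by
  obtain ⟨hker, hcard, hext⟩ := h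
  obtain ⟨K, iF, iA, iFD, iDVR, hcK, hkK, hφ⟩ := hext e he
  obtain ⟨N, hN1, hN2⟩ := level_K hf D hform E hcard K (IsLocalRing.maximalIdeal (intRing v K))
    (IsLocalRing.maximalIdeal.isMaximal _) hcK hkK
  refine ⟨N, _, hN1, hN2, fun j hj => ?_⟩
  obtain ⟨φ, hφ'⟩ := hφ j hj
  exact star_K B hbad b K hcK hkK j φ hφ'

/-- the coefficient sequence at residue degree `f` -/
theorem level_one {v : HeightOneSpectrum (𝓞 k)} {f : ℕ} (hf : 0 < f) {F : Type} [Field F]
    [Finite F] {b : 𝓞 k →+* F} (h : ExtOK v f F b) {G : UnipotentGroup k} {ι κ : Type}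
    [Fintype ι] [Fintype κ] [DecidableEq ι] [DecidableEq κ] (B : IntData G ι κ)
    (D : ZetaData G) (hbad : B.bad ∉ v.asIdeal) (hform : FormulaAt D v) (E : EigAt D v) :
    ∃ (N : Fin D.r → ℤ) (c : ℕ → ℚ), (∀ i, (N i : ℂ) = ∑ s, (E.m i s : ℂ) * E.α i s ^ f) ∧
      SeriesRel D.W N (Nat.card F : ℚ) c ∧ c 0 = 1 ∧
      ∀ j, 1 ≤ j → ∃ z : ℤ, (j.factorial : ℚ) * (Nat.card F : ℚ) ^ (j * Fintype.card κ) *
        (c j - ∑ r ∈ (Finset.Icc 1 j).filter (· ∣ j),
          (rankCount (fun i i' l => b (B.c i i' l)) r : ℚ)) = ((Nat.card F : ℚ) - 1) ^ 2 * z := by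
  have hQ2 : 2 ≤ Nat.card F := Finite.one_lt_card
  obtain ⟨N, c, hN, hc, hcs⟩ := level_e hf h B D hbad hform E 1 one_pos
  have hall : ∀ e, 0 < e → ∀ j ≤ e, c j = starSum (R := TruncPoly F j) B.s
      (fun i i' l => constTP F j (b (B.c i i' l))) (Nat.card F ^ j) := by
    intro e he j hj
    obtain ⟨N', c', hN', hc', hcs'⟩ := level_e hf h B D hbad hform E e he
    have hNN : N' = N := by
      funext i
      have h1 := (hN' i).trans (hN i).symm
      exact_mod_cast h1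
    rw [hNN] at hc'
    have hcc : c = c' := seriesRel_unique hQ2 hc hc'
    rw [hcc]
    exact hcs' j hj
  refine ⟨N, c, hN, hc, ?_, fun j hj => ?_⟩
  · have h0 := hall 1 one_pos 0 (by omega)
    have hsub : Subsingleton (TruncPoly F 0) := by
      unfold TruncPoly
      rw [pow_zero, Ideal.Quotient.subsingleton_iff, Ideal.span_singleton_one]
    rw [h0, show Nat.card F ^ 0 = 1 from pow_zero _]
    exact starSum_subsingleton _ _
  · have h1 := hall j (by omega) j le_rfl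
    have h2 : (2 : F) ≠ 0 := by
      intro h0
      apply hbad
      rw [← h.1, RingHom.mem_ker]
      unfold IntData.bad
      push_cast
      rw [map_mul, map_mul, map_mul, map_ofNat, h0]
      simp
    obtain ⟨z, hz⟩ := torus (F := F) B.s (fun i i' l => b (B.c i i' l))
      (fun i l => by rw [B.c_self, map_zero]) (fun i i' l => by rw [B.c_anti, map_neg]) h2 j j hj
      le_rfl
    refine ⟨z, ?_⟩
    rw [h1]
    exact hz

/-- division of `rankCount` by `q - 1` -/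
def rho {F : Type} [Field F] [Finite F] {ι κ : Type} [Fintype ι] [Fintype κ] [DecidableEq ι]
    [DecidableEq κ] (c : ι → ι → κ → F) (r : ℕ) : ℤ :=
  ((rankCount c r / (Nat.card F - 1) : ℕ) : ℤ)

theorem rho_spec {F : Type} [Field F] [Finite F] {ι κ : Type} [Fintype ι] [Fintype κ]
    [DecidableEq ι] [DecidableEq κ] (c : ι → ι → κ → F) (r : ℕ) :
    ((rankCount c r : ℕ) : ℤ) = ((Nat.card F : ℤ) - 1) * rho c r := by
  have hQ2 : 2 ≤ Nat.card F := Finite.one_lt_card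
  have h1 := Nat.mul_div_cancel' (rankCount_dvd c r)
  unfold rho
  have h2 : ((Nat.card F - 1 : ℕ) : ℤ) = (Nat.card F : ℤ) - 1 := by
    rw [Nat.cast_sub (by omega)]; simp
  rw [← h2]
  exact_mod_cast h1.symm

theorem rho_zero {F : Type} [Field F] [Finite F] {ι κ : Type} [Fintype ι] [Fintype κ]
    [DecidableEq ι] [DecidableEq κ] (c : ι → ι → κ → F) (r : ℕ) (hr : Fintype.card ι < 2 * r) :
    rho c r = 0 := by
  unfold rho
  rw [rankCount_eq_zero c r hr]
  simp

theorem rho_dual {F : Type} [Field F] [Finite F] {ι κ : Type} [Fintype ι] [Fintype κ]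
    [DecidableEq ι] [DecidableEq κ] (c : ι → ι → κ → F) (hself : ∀ i l, c i i l = 0)
    (hanti : ∀ i j l, c j i l = - c i j l) (h2 : (2 : F) ≠ 0) (r : ℕ) (hr : 1 ≤ r) :
    ∃ z : ℤ, rho (dualC c) r = rho c r + (if 2 ∣ r then rho c (r / 2) else 0) +
      ((Nat.card F : ℤ) - 1) * z := by
  obtain ⟨z, hz⟩ := dual_count c hself hanti h2 r hr
  refine ⟨z, ?_⟩
  have hQ2 : 2 ≤ Nat.card F := Finite.one_lt_card
  have hQ : ((Nat.card F : ℤ) - 1) ≠ 0 := by
    have : (2 : ℤ) ≤ Nat.card F := by exact_mod_cast hQ2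
    omega
  apply mul_left_cancel₀ hQ
  rw [rho_spec, rho_spec] at hz
  rw [hz]
  split_ifs
  · rw [rho_spec]; ring
  · ring

end

end MP8c80e8
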