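import Pool.Agent.Lib.MP_8c80e8_al.Final2

/-!
# J12: the final assembly, part 3
-/

open scoped TensorProduct NumberField
open IsDedekindDomain Filter Topology

namespace MP8c80e8

noncomputable section

attribute [local instance 100] LieRing.ofAssociativeRing

theorem dualC_map {R S : Type} [CommRing R] [CommRing S] (b : R →+* S) {ι κ : Type}
    (c : ι → ι → κ → R) :
    (fun i i' l => b (dualC c i i' l)) = dualC (fun i i' l => b (c i i' l)) := by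
  funext i i' l
  rcases i with i | i <;> rcases i' with i' | i' <;> rcases l with l | l <;> simp [dualC]

theorem level_pair {k : Type} [Field k] [NumberField k] {v : HeightOneSpectrum (𝓞 k)} {f : ℕ}
    (hf : 0 < f) {G G' : UnipotentGroup k} {d d' : ℕ}
    (B : IntData G (Fin d) (Fin d')) (B' : IntData G' (Fin d ⊕ Fin d) (Fin d' ⊕ Fin d'))
    (hBc : B'.c = dualC B.c) (D : ZetaData G) (D' : ZetaData G')
    (hbad : B.bad ∉ v.asIdeal) (hbad' : B'.bad ∉ v.asIdeal)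
    (hform : FormulaAt D v) (hform' : FormulaAt D' v) (E : EigAt D v) (E' : EigAt D' v) :
    ∃ (Q : ℕ) (N : Fin D.r → ℤ) (N' : Fin D'.r → ℤ) (c c' : ℕ → ℚ) (ρ ρ' : ℕ → ℤ),
      Q = Nat.card (𝓞 k ⧸ v.asIdeal) ^ f ∧ 2 ≤ Q ∧
      (∀ i, (N i : ℂ) = ∑ s, (E.m i s : ℂ) * E.α i s ^ f) ∧
      (∀ i, (N' i : ℂ) = ∑ s, (E'.m i s : ℂ) * E'.α i s ^ f) ∧
      SeriesRel D.W N (Q : ℚ) c ∧ SeriesRel D'.W N' (Q : ℚ) c' ∧ c 0 = 1 ∧ c' 0 = 1 ∧
      (∀ j, 1 ≤ j → ∃ z : ℤ, (j.factorial : ℚ) * (Q : ℚ) ^ (j * d') *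
        (c j - ((Q : ℚ) - 1) * ∑ r ∈ (Finset.Icc 1 j).filter (· ∣ j), (ρ r : ℚ)) =
          ((Q : ℚ) - 1) ^ 2 * z) ∧
      (∀ j, 1 ≤ j → ∃ z : ℤ, (j.factorial : ℚ) * (Q : ℚ) ^ (j * (d' + d')) *
        (c' j - ((Q : ℚ) - 1) * ∑ r ∈ (Finset.Icc 1 j).filter (· ∣ j), (ρ' r : ℚ)) =
          ((Q : ℚ) - 1) ^ 2 * z) ∧
      (∀ r, d < 2 * r → ρ r = 0) ∧ (∀ r, d + d < 2 * r → ρ' r = 0) ∧
      (∀ r, 1 ≤ r → ∃ z : ℤ, ρ' r = ρ r + (if 2 ∣ r then ρ (r / 2) else 0) + ((Q : ℤ) - 1) * z) := by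
  obtain ⟨F, iF, iFin, b, h1, h2, h3⟩ := exists_ext v f hf
  have hOK : ExtOK v f F b := ⟨h1, h2, h3⟩
  have hQ2 : 2 ≤ Nat.card F := Finite.one_lt_card
  obtain ⟨N, c, hN, hc, hc0, hcj⟩ := level_one hf hOK B D hbad hform E
  obtain ⟨N', c', hN', hc', hc0', hcj'⟩ := level_one hf hOK B' D' hbad' hform' E'
  have htwo : (2 : F) ≠ 0 := by
    intro h0
    apply hbad
    rw [← h1, RingHom.mem_ker]
    unfold IntData.bad
    push_cast
    rw [map_mul, map_mul, map_mul, map_ofNat, h0]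
    simp
  have hsum : ∀ (R : Type) [Fintype R] (rc : ℕ → ℕ) (rh : ℕ → ℤ)
      (_ : ∀ r, ((rc r : ℕ) : ℤ) = ((Nat.card F : ℤ) - 1) * rh r) (j : ℕ),
      ∑ r ∈ (Finset.Icc 1 j).filter (· ∣ j), (rc r : ℚ) =
        ((Nat.card F : ℚ) - 1) * ∑ r ∈ (Finset.Icc 1 j).filter (· ∣ j), (rh r : ℚ) := by
    intro _ _ rc rh hr j
    rw [Finset.mul_sum]
    apply Finset.sum_congr rfl
    intro r _
    have := congrArg (fun x : ℤ => (x : ℚ)) (hr r)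
    push_cast at this
    exact this
  refine ⟨Nat.card F, N, N', c, c', rho (fun i i' l => b (B.c i i' l)),
    rho (dualC (fun i i' l => b (B.c i i' l))), h2, hQ2, hN, hN', hc, hc', hc0, hc0', ?_, ?_, ?_,
    ?_, ?_⟩
  · intro j hj
    obtain ⟨z, hz⟩ := hcj j hj
    refine ⟨z, ?_⟩
    rw [hsum Unit _ _ (rho_spec (fun i i' l => b (B.c i i' l))), Fintype.card_fin] at hz
    exact hz
  · intro j hj
    obtain ⟨z, hz⟩ := hcj' j hj
    refine ⟨z, ?_⟩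
    rw [hsum Unit _ _ (rho_spec (fun i i' l => b (B'.c i i' l))), Fintype.card_sum,
      Fintype.card_fin, hBc, dualC_map] at hz
    exact hz
  · intro r hr
    exact rho_zero _ _ (by simpa using hr)
  · intro r hr
    exact rho_zero _ _ (by simpa using hr)
  · intro r hr
    exact rho_dual _ (fun i l => by rw [B.c_self, map_zero])
      (fun i i' l => by rw [B.c_anti, map_neg]) htwo r hr

/-- change the range of summation -/
theorem sum_range_change (ρ : ℕ → ℤ) (M j : ℕ) (hj : 1 ≤ j) (h : ∀ r, M < r → ρ r = 0) :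
    ∑ r ∈ (Finset.Icc 1 j).filter (· ∣ j), (ρ r : ℚ) =
      ∑ r ∈ (Finset.Icc 1 M).filter (· ∣ j), (ρ r : ℚ) := by
  have h1 : ∑ r ∈ (Finset.Icc 1 j).filter (· ∣ j), (ρ r : ℚ) =
      ∑ r ∈ (Finset.Icc 1 (j + M)).filter (· ∣ j), (ρ r : ℚ) := by
    apply Finset.sum_subset
    · intro r hr
      rw [Finset.mem_filter, Finset.mem_Icc] at *
      exact ⟨⟨hr.1.1, by omega⟩, hr.2⟩
    · intro r hr hr'
      rw [Finset.mem_filter, Finset.mem_Icc] at *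
      exfalso
      exact hr' ⟨⟨hr.1.1, Nat.le_of_dvd hj hr.2⟩, hr.2⟩
  have h2 : ∑ r ∈ (Finset.Icc 1 M).filter (· ∣ j), (ρ r : ℚ) =
      ∑ r ∈ (Finset.Icc 1 (j + M)).filter (· ∣ j), (ρ r : ℚ) := by
    apply Finset.sum_subset
    · intro r hr
      rw [Finset.mem_filter, Finset.mem_Icc] at *
      exact ⟨⟨hr.1.1, by omega⟩, hr.2⟩
    · intro r hr hr'
      rw [Finset.mem_filter, Finset.mem_Icc] at *
      have : M < r := by
        by_contra hle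
        exact hr' ⟨⟨hr.1.1, by omega⟩, hr.2⟩
      rw [h r this]; simp
  rw [h1, h2]

/-- `∑_{i ≤ 2d} [2 ∣ i] ρ(i/2)/i = (1/2) ∑_{i ≤ d} ρ(i)/i` -/
theorem half_sum {𝕜 : Type} [Field 𝕜] [CharZero 𝕜] (ρ : ℕ → 𝕜) (d : ℕ) :
    ∑ i ∈ Finset.Icc 1 (d + d), (if 2 ∣ i then ρ (i / 2) else 0) / (i : 𝕜) =
      (1 / 2) * ∑ i ∈ Finset.Icc 1 d, ρ i / (i : 𝕜) := by
  induction d with
  | zero => simp
  | succ d ih =>
    rw [show d + 1 + (d + 1) = (d + d + 1) + 1 by ring, Finset.sum_Icc_succ_top (by omega),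
      Finset.sum_Icc_succ_top (by omega), ih, Finset.sum_Icc_succ_top (by omega)]
    have h1 : ¬ (2 ∣ d + d + 1) := by omega
    have h2 : 2 ∣ d + d + 1 + 1 := by omega
    have h3 : (d + d + 1 + 1) / 2 = d + 1 := by omega
    rw [if_neg h1, if_pos h2, h3]
    have h4 : ((d : 𝕜) + 1) ≠ 0 := by exact_mod_cast Nat.succ_ne_zero d
    have h5 : ((d + d + 1 + 1 : ℕ) : 𝕜) = 2 * ((d : 𝕜) + 1) := by push_cast; ring
    rw [h5]
    push_cast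
    field_simp
    ring

theorem sum_Icc_extend {𝕜 : Type} [Field 𝕜] (ρ : ℕ → 𝕜) (d : ℕ) (h : ∀ r, d < r → ρ r = 0) :
    ∑ i ∈ Finset.Icc 1 d, ρ i / (i : 𝕜) = ∑ i ∈ Finset.Icc 1 (d + d), ρ i / (i : 𝕜) := by
  apply Finset.sum_subset
  · intro r hr
    rw [Finset.mem_Icc] at *
    omega
  · intro r hr hr'
    rw [Finset.mem_Icc] at *
    rw [h r (by omega), zero_div]

section seq

variable {ℓ : ℕ} [Fact ℓ.Prime]

/-- the hypothesis `hn` of `topAlg` -/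
theorem coeff_limit (Q : ℕ → ℕ) (hQ : ∀ j, 2 ≤ Q j)
    (hQt : Tendsto (fun j => ((Q j : ℕ) : ℚ_[ℓ])) atTop (𝓝 1))
    (c : ℕ → ℕ → ℚ) (ρ : ℕ → ℕ → ℤ) (e M k : ℕ) (hk : 1 ≤ k) (hρ : ∀ j r, M < r → ρ j r = 0)
    (h : ∀ j, ∃ z : ℤ, (k.factorial : ℚ) * (Q j : ℚ) ^ e *
        (c j k - ((Q j : ℚ) - 1) * ∑ r ∈ (Finset.Icc 1 k).filter (· ∣ k), (ρ j r : ℚ)) =
          ((Q j : ℚ) - 1) ^ 2 * z) :
    Tendsto (fun j => ((c j k : ℚ) : ℚ_[ℓ]) / (((Q j : ℤ) - 1 : ℤ) : ℚ_[ℓ])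
      - ∑ i ∈ (Finset.Icc 1 M).filter (· ∣ k), (ρ j i : ℚ_[ℓ])) atTop (𝓝 0) := by
  choose z hz using h
  have hu : Nl (fun j => (Q j : ℚ_[ℓ]) - 1) := by
    have := hQt.sub_const 1
    simpa [Nl] using this
  have hinv : Bd (fun j => ((Q j : ℚ_[ℓ]))⁻¹ ^ e) :=
    (Bd.of_tendsto (hQt.inv₀ one_ne_zero)).pow e
  have hmain : Nl (fun j => ((Q j : ℚ_[ℓ]) - 1) * ((z j : ℚ_[ℓ]) *
      (((k.factorial : ℚ_[ℓ]))⁻¹ * ((Q j : ℚ_[ℓ]))⁻¹ ^ e))) :=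
    hu.mul_bd ((bd_int z).mul ((Bd.const _).mul hinv))
  refine hmain.congr fun j => ?_
  have hQ0 : (Q j : ℚ) ≠ 0 := by
    have : Q j ≠ 0 := by have := hQ j; omega
    exact_mod_cast this
  have hQ1 : (Q j : ℚ) - 1 ≠ 0 := by
    have h2 : (2 : ℚ) ≤ Q j := by exact_mod_cast hQ j
    linarith
  have hf0 : (k.factorial : ℚ) ≠ 0 := by exact_mod_cast Nat.factorial_ne_zero k
  have hq : c j k / ((Q j : ℚ) - 1) - ∑ r ∈ (Finset.Icc 1 M).filter (· ∣ k), (ρ j r : ℚ) =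
      ((Q j : ℚ) - 1) * ((z j : ℚ) * (((k.factorial : ℚ))⁻¹ * ((Q j : ℚ))⁻¹ ^ e)) := by
    have h1 := hz j
    rw [sum_range_change (ρ j) M k hk (hρ j)] at h1
    have hp := pow_ne_zero e hQ0
    rw [inv_pow]
    field_simp
    linear_combination h1
  have hq' := congrArg (fun x : ℚ => (x : ℚ_[ℓ])) hq
  push_cast at hq'
  rw [← hq']
  push_cast
  rfl

end seq

end

end MP8c80e8
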