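import Pool.Agent.Lib.MP_8c80e8_al.Defs

/-!
# Auxiliary definitions shared by the modules of the proof of MP_8c80e8_al
-/

open scoped TensorProduct NumberField
open IsDedekindDomain

namespace MP8c80e8

noncomputable section

attribute [local instance 100] LieRing.ofAssociativeRing

/-! ## Commutator matrices over a commutative ring -/

section star

variable {R : Type} [CommRing R] {ι κ : Type} [Fintype ι] [Fintype κ]

/-- the commutator matrix `A(y)`, with entries `∑ l, c i j l * y l`. -/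
def comMat (c : ι → ι → κ → R) (y : κ → R) : Matrix ι ι R :=
  Matrix.of fun i j => ∑ l, c i j l * y l

/-- `|im A(y)|`, the image of `x ↦ x ᵥ* A(y)`, `R^ι → R^ι`. -/
def imA (c : ι → ι → κ → R) (y : κ → R) : ℕ :=
  Nat.card (LinearMap.range (Matrix.vecMulLinear (comMat c y)))

/-- `|im B(y)|`, `B(y)` the columns `s l` of `A(y)`: the image of `x ↦ x ᵥ* B(y)`, `R^ι → R^κ`. -/
def imB (s : κ → ι) (c : ι → ι → κ → R) (y : κ → R) : ℕ :=
  Nat.card (LinearMap.range (Matrix.vecMulLinear ((comMat c y).submatrix id s)))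

/-- `∑_{y ∈ R^κ, |im A(y)| = n²} |im B(y)|⁻¹` (`R` finite). -/
def starSum (s : κ → ι) (c : ι → ι → κ → R) (n : ℕ) : ℚ :=
  ∑ᶠ y : κ → R, if imA c y = n ^ 2 then (1 / (imB s c y : ℚ)) else 0

/-- number of `y ≠ 0` with `rank A(y) = 2 r` (used over a finite field). -/
def rankCount (c : ι → ι → κ → R) (r : ℕ) : ℕ :=
  Nat.card {y : κ → R // y ≠ 0 ∧ (comMat c y).rank = 2 * r}

end star

section dual

variable {R : Type} [CommRing R] {ι κ : Type}

/-- structure constants of `𝔤 ⊗ k[ε]`: `[e_i, e_j] = ∑ c e_l`, `[e_i, ε e_j] = ∑ c ε e_l`,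
`[ε e_i, ε e_j] = 0`.  (`inl` = without `ε`, `inr` = with `ε`.) -/
def dualC (c : ι → ι → κ → R) : (ι ⊕ ι) → (ι ⊕ ι) → (κ ⊕ κ) → R
  | Sum.inl i, Sum.inl j, Sum.inl l => c i j l
  | Sum.inl i, Sum.inr j, Sum.inr l => c i j l
  | Sum.inr i, Sum.inl j, Sum.inr l => c i j l
  | _, _, _ => 0

/-- the positions of the derived basis elements. -/
def dualS (s : κ → ι) : κ ⊕ κ → ι ⊕ ι := Sum.map s s

end dual

/-! ## Integral bases of `𝔤` adapted to the derived algebra -/

/-- A basis `e` of `𝔤` consisting of integral matrices, such that the `e (s l)` span the derived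
algebra, with integral structure constants, and with explicit denominators. -/
structure IntData {k : Type} [Field k] [NumberField k] (G : UnipotentGroup k)
    (ι κ : Type) [Fintype ι] [Fintype κ] [DecidableEq ι] [DecidableEq κ] where
  s : κ → ι
  s_inj : Function.Injective s
  e : ι → Matrix (Fin G.m) (Fin G.m) (𝓞 k)
  upper : ∀ i p q, q ≤ p → e i p q = 0
  span : Submodule.span k (Set.range fun i => (e i).map (algebraMap (𝓞 k) k)) =
    G.lie.toSubmodule
  c : ι → ι → κ → 𝓞 k
  bracket : ∀ i j, e i * e j - e j * e i = ∑ l, c i j l • e (s l)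
  c_self : ∀ i l, c i i l = 0
  c_anti : ∀ i j l, c j i l = - c i j l
  δ : 𝓞 k
  δ_ne : δ ≠ 0
  b : ι → Fin G.m → Fin G.m → 𝓞 k
  hb : ∀ i j, ∑ p, ∑ q, b i p q * e j p q = if i = j then δ else 0
  δ' : 𝓞 k
  δ'_ne : δ' ≠ 0
  a : κ → ι → ι → 𝓞 k
  ha : ∀ l l', ∑ i, ∑ j, a l i j * c i j l' = if l = l' then δ' else 0

/-- the product of the bad primes -/
def IntData.bad {k : Type} [Field k] [NumberField k] {G : UnipotentGroup k}
    {ι κ : Type} [Fintype ι] [Fintype κ] [DecidableEq ι] [DecidableEq κ] (D : IntData G ι κ) :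
    𝓞 k :=
  ((2 * (2 * G.m + 2).factorial : ℕ) : 𝓞 k) * D.δ * D.δ'

/-! ## Matrix exponential over commutative rings in which small factorials are invertible -/

section expo

variable {R : Type} [CommRing R] {m : ℕ}

/-- strictly upper triangular -/
def StrictUpper (x : Matrix (Fin m) (Fin m) R) : Prop := ∀ i j : Fin m, j ≤ i → x i j = 0

/-- unitriangular -/
def UniUpper (x : Matrix (Fin m) (Fin m) R) : Prop := StrictUpper (x - 1)

/-- the exponential, defined over every commutative ring (meaningful when `j!` is a unit for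
`j < m`). -/
def expR (x : Matrix (Fin m) (Fin m) R) : Matrix (Fin m) (Fin m) R :=
  ∑ j ∈ Finset.range m, (Ring.inverse (j.factorial : R)) • x ^ j

/-- `ad y`, the commutator with `y`. -/
def adM (y u : Matrix (Fin m) (Fin m) R) : Matrix (Fin m) (Fin m) R := y * u - u * y

end expo

/-! ## Abstract Kirillov data -/

/-- Kirillov data: a group `H`, a Lie ring `L`, a bijection `exp : L → H`, and an action `Ad`. -/
structure KData (H L : Type) [Group H] [AddCommGroup L] where
  br : L →+ L →+ L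
  br_self : ∀ x, br x x = 0
  jacobi : ∀ x y z, br x (br y z) = br (br x y) z + br y (br x z)
  nilp : ∃ c : ℕ, ∀ (xs : List L) (x : L), c ≤ xs.length → xs.foldr (fun a b => br a b) x = 0
  exp : L ≃ H
  exp_add : ∀ x z, br x z = 0 → exp (x + z) = exp x * exp z
  exp_mul : ∀ (x z : L) (M : AddSubgroup L), br x z ∈ M → (∀ u ∈ M, br x u ∈ M) →
    (∀ u ∈ M, br z u ∈ M) → (∀ u ∈ M, ∀ v ∈ M, br u v ∈ M) →
    ∃ w ∈ M, exp x * exp z = exp (x + z + w)
  Ad : H → L →+ L
  conj : ∀ g x, g * exp x * g⁻¹ = exp (Ad g x)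
  coef : ℕ → ℤ
  deg : ℕ
  coef_zero : coef 0 = 1
  coef_one : coef 1 = 1
  two_le : 2 ≤ deg
  Ad_exp : ∀ y u, Ad (exp y) u = ∑ j ∈ Finset.range deg, coef j • ((fun w => br y w)^[j] u)

section kdata

variable {H L : Type} [Group H] [AddCommGroup L] (D : KData H L)

/-- the derived ideal `L' = [L, L]` -/
def KData.der : AddSubgroup L := AddSubgroup.closure {u | ∃ x z, u = D.br x z}

theorem KData.br_mem_der (x z : L) : D.br x z ∈ D.der :=
  AddSubgroup.subset_closure ⟨x, z, rfl⟩

/-- the radical `{x | ψ([x, z]) = 1 for all z ∈ L}` of a character `ψ` of `L'` -/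
def KData.radA (ψ : AddChar D.der ℂ) : AddSubgroup L where
  carrier := {x | ∀ z, ψ ⟨D.br x z, D.br_mem_der x z⟩ = 1}
  zero_mem' := by
    intro z
    have : (⟨D.br 0 z, D.br_mem_der 0 z⟩ : D.der) = 0 := by
      ext; simp
    rw [this]; simp
  add_mem' := by
    intro x y hx hy z
    have : (⟨D.br (x + y) z, D.br_mem_der (x + y) z⟩ : D.der) =
        ⟨D.br x z, D.br_mem_der x z⟩ + ⟨D.br y z, D.br_mem_der y z⟩ := by
      ext; simp
    rw [this, AddChar.map_add_eq_mul, hx z, hy z, one_mul]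
  neg_mem' := by
    intro x hx z
    have : (⟨D.br (-x) z, D.br_mem_der (-x) z⟩ : D.der) = - ⟨D.br x z, D.br_mem_der x z⟩ := by
      ext; simp
    rw [this, AddChar.map_neg_eq_inv, hx z, inv_one]

/-- `{x | ψ([x, z]) = 1 for all z ∈ L'}` -/
def KData.radB (ψ : AddChar D.der ℂ) : AddSubgroup L where
  carrier := {x | ∀ z ∈ D.der, ψ ⟨D.br x z, D.br_mem_der x z⟩ = 1}
  zero_mem' := by
    intro z _
    have : (⟨D.br 0 z, D.br_mem_der 0 z⟩ : D.der) = 0 := by
      ext; simp
    rw [this]; simp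
  add_mem' := by
    intro x y hx hy z hz
    have : (⟨D.br (x + y) z, D.br_mem_der (x + y) z⟩ : D.der) =
        ⟨D.br x z, D.br_mem_der x z⟩ + ⟨D.br y z, D.br_mem_der y z⟩ := by
      ext; simp
    rw [this, AddChar.map_add_eq_mul, hx z hz, hy z hz, one_mul]
  neg_mem' := by
    intro x hx z hz
    have : (⟨D.br (-x) z, D.br_mem_der (-x) z⟩ : D.der) = - ⟨D.br x z, D.br_mem_der x z⟩ := by
      ext; simp
    rw [this, AddChar.map_neg_eq_inv, hx z hz, inv_one]

end kdata

/-- number of irreducible `n`-dimensional representations of `H` up to twist (`H` finite). -/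
def numTwist (H : Type) [Group H] (n : ℕ) : ℕ :=
  Nat.card (Quot (fun ρ σ : {ρ : H →* GL (Fin n) ℂ // Irred ρ} =>
    ∃ χ : H →* ℂˣ, ∃ T : GL (Fin n) ℂ, ∀ g : H,
      ((ρ.1 g : GL (Fin n) ℂ) : Matrix (Fin n) (Fin n) ℂ) =
        ((χ g : ℂˣ) : ℂ) • ((T * σ.1 g * T⁻¹ : GL (Fin n) ℂ) : Matrix (Fin n) (Fin n) ℂ)))

/-! ## Specialising `X` to a rational number -/

/-- `p(x, Y)` as a polynomial in `Y`. -/
def specY (x : ℚ) (p : MvPolynomial (Fin 2) ℚ) : Polynomial ℚ :=
  MvPolynomial.aeval ![Polynomial.C x, Polynomial.X] p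

/-- The relation satisfied by the generating series `∑ c_k Y^k`: it equals
`∑ i, N i * W_i(x, Y)`, with denominators cleared. -/
def SeriesRel {r : ℕ} (W : Fin r → WData) (N : Fin r → ℤ) (x : ℚ) (c : ℕ → ℚ) : Prop :=
  PowerSeries.mk c * ((∏ i, specY x (W i).den : Polynomial ℚ) : PowerSeries ℚ) =
    ((∑ i, Polynomial.C (N i : ℚ) * specY x (W i).num *
      ∏ i' ∈ Finset.univ.erase i, specY x (W i').den : Polynomial ℚ) : PowerSeries ℚ)

end

end MP8c80e8
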