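import Pool.Agent.Lib.MP_8c80e8_al.KirRep

/-!
# Counting irreducible representations up to twist by the orbit method
-/

namespace MP8c80e8

noncomputable section

open Representation

section rep

variable {H : Type} [Group H] {n m : ℕ}

/-- a matrix representation as a `Representation` -/
def kcRep (ρ : H →* GL (Fin n) ℂ) : Representation ℂ H (Fin n → ℂ) where
  toFun g := Matrix.toLin' ((ρ g : GL (Fin n) ℂ) : Matrix (Fin n) (Fin n) ℂ)
  map_one' := by simp; rfl
  map_mul' g h := by simp [Matrix.toLin'_mul]; rfl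

theorem kcRep_apply (ρ : H →* GL (Fin n) ℂ) (g : H) (v : Fin n → ℂ) :
    kcRep ρ g v = ((ρ g : GL (Fin n) ℂ) : Matrix (Fin n) (Fin n) ℂ).mulVec v := rfl

theorem kcRep_char (ρ : H →* GL (Fin n) ℂ) (g : H) :
    (kcRep ρ).character g = Matrix.trace ((ρ g : GL (Fin n) ℂ) : Matrix (Fin n) (Fin n) ℂ) := by
  unfold character
  show LinearMap.trace ℂ (Fin n → ℂ) (Matrix.toLin' _) = _
  rw [LinearMap.trace_eq_matrix_trace ℂ (Pi.basisFun ℂ (Fin n))]
  congr 1
  rw [← Matrix.toLin_eq_toLin', LinearMap.toMatrix_toLin]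

theorem kcRep_irred (ρ : H →* GL (Fin n) ℂ) : Irred ρ ↔ IsIrreducible (kcRep ρ) := by
  constructor
  · rintro ⟨hn, h⟩
    have hnt : (⊥ : Submodule ℂ (Fin n → ℂ)) ≠ ⊤ := by
      have : Nonempty (Fin n) := ⟨⟨0, hn⟩⟩
      exact bot_ne_top
    refine { exists_pair_ne := ⟨⊥, ⊤, fun e => hnt ?_⟩, eq_bot_or_eq_top := fun W => ?_ }
    · exact congrArg Subrepresentation.toSubmodule e
    · rcases h W.toSubmodule (fun g w hw => W.apply_mem_toSubmodule g hw) with h1 | h1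
      · left; exact Subrepresentation.toSubmodule_injective h1
      · right; exact Subrepresentation.toSubmodule_injective h1
  · intro h
    refine ⟨?_, fun W hW => ?_⟩
    · by_contra hn
      have hn0 : n = 0 := by omega
      subst hn0
      obtain ⟨a, b, hab⟩ := h.exists_pair_ne
      apply hab
      apply Subrepresentation.toSubmodule_injective
      exact Subsingleton.elim _ _
    · rcases h.eq_bot_or_eq_top ⟨W, fun g w hw => hW g w hw⟩ with h1 | h1
      · left; exact congrArg Subrepresentation.toSubmodule h1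
      · right; exact congrArg Subrepresentation.toSubmodule h1

variable [Finite H]

/-- nonzero inner product of characters gives a bijective intertwiner. -/
theorem kc_exists_bij [Fintype H] (ρ : H →* GL (Fin n) ℂ) (σ : H →* GL (Fin m) ℂ) (hρ : Irred ρ)
    (hσ : Irred σ)
    (h : ∑ g : H, Matrix.trace ((σ g : GL (Fin m) ℂ) : Matrix (Fin m) (Fin m) ℂ) *
      Matrix.trace ((ρ g⁻¹ : GL (Fin n) ℂ) : Matrix (Fin n) (Fin n) ℂ) ≠ 0) :
    ∃ f : IntertwiningMap (kcRep ρ) (kcRep σ), Function.Bijective f := by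
  have := (kcRep_irred ρ).1 hρ
  have := (kcRep_irred σ).1 hσ
  have : Invertible (Nat.card H : ℂ) := invertibleOfNonzero (by exact_mod_cast Nat.card_pos.ne')
  have h1 := card_inv_mul_sum_char_mul_char_eq_finrank (kcRep ρ) (kcRep σ)
  simp only [kcRep_char] at h1
  have h2 : (Module.finrank ℂ (IntertwiningMap (kcRep ρ) (kcRep σ)) : ℂ) ≠ 0 := by
    rw [← h1]
    exact mul_ne_zero (inv_ne_zero (by exact_mod_cast Nat.card_pos.ne')) h
  have h3 : 0 < Module.finrank ℂ (IntertwiningMap (kcRep ρ) (kcRep σ)) :=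
    Nat.pos_of_ne_zero (by exact_mod_cast h2)
  have := Module.nontrivial_of_finrank_pos h3
  obtain ⟨f, hf⟩ := exists_ne (0 : IntertwiningMap (kcRep ρ) (kcRep σ))
  exact ⟨f, (IsIrreducible.bijective_or_eq_zero f).resolve_right hf⟩

theorem kc_norm_one [Fintype H] (ρ : H →* GL (Fin n) ℂ) (hρ : Irred ρ) :
    ∑ g : H, Matrix.trace ((ρ g : GL (Fin n) ℂ) : Matrix (Fin n) (Fin n) ℂ) *
      Matrix.trace ((ρ g⁻¹ : GL (Fin n) ℂ) : Matrix (Fin n) (Fin n) ℂ) = Nat.card H := by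
  have := (kcRep_irred ρ).1 hρ
  have : Invertible (Nat.card H : ℂ) := invertibleOfNonzero (by exact_mod_cast Nat.card_pos.ne')
  have h1 := card_inv_mul_sum_char_mul_char_eq_finrank (kcRep ρ) (kcRep ρ)
  simp only [kcRep_char] at h1
  rw [IsIrreducible.finrank_intertwiningMap_self, Nat.cast_one] at h1
  have h0 : (Nat.card H : ℂ) ≠ 0 := by exact_mod_cast Nat.card_pos.ne'
  field_simp at h1
  exact h1

theorem kc_irred_of_norm_one [Fintype H] (ρ : H →* GL (Fin n) ℂ) (hn : 0 < n)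
    (h : ∑ g : H, Matrix.trace ((ρ g : GL (Fin n) ℂ) : Matrix (Fin n) (Fin n) ℂ) *
      Matrix.trace ((ρ g⁻¹ : GL (Fin n) ℂ) : Matrix (Fin n) (Fin n) ℂ) = Nat.card H) :
    Irred ρ := by
  have : Invertible (Nat.card H : ℂ) := invertibleOfNonzero (by exact_mod_cast Nat.card_pos.ne')
  have h0 : (Nat.card H : ℂ) ≠ 0 := by exact_mod_cast Nat.card_pos.ne'
  have h1 := card_inv_mul_sum_char_mul_char_eq_finrank (kcRep ρ) (kcRep ρ)
  simp only [kcRep_char] at h1
  rw [h, inv_mul_cancel₀ h0] at h1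
  have h2 : Module.finrank ℂ (IntertwiningMap (kcRep ρ) (kcRep ρ)) = 1 := by exact_mod_cast h1.symm
  have hid : IntertwiningMap.id (kcRep ρ) ≠ 0 := by
    intro e
    have h3 := congrArg (fun f : IntertwiningMap (kcRep ρ) (kcRep ρ) =>
      f (Pi.single (⟨0, hn⟩ : Fin n) (1 : ℂ)) ⟨0, hn⟩) e
    simp at h3
  have h3 := (finrank_eq_one_iff_of_nonzero' (IntertwiningMap.id (kcRep ρ)) hid).1 h2
  have : NeZero (Nat.card H : ℂ) := ⟨h0⟩
  refine ⟨hn, fun W hW => ?_⟩
  obtain ⟨W', hW'⟩ := exists_isCompl (⟨W, fun g w hw => hW g w hw⟩ : Subrepresentation (kcRep ρ))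
  have hc : IsCompl W W'.toSubmodule := by
    constructor
    · rw [disjoint_iff]
      exact congrArg Subrepresentation.toSubmodule hW'.inf_eq_bot
    · rw [codisjoint_iff]
      exact congrArg Subrepresentation.toSubmodule hW'.sup_eq_top
  have hint : ∀ (g : H) (v : Fin n → ℂ), W.projection W'.toSubmodule hc (kcRep ρ g v) =
      kcRep ρ g (W.projection W'.toSubmodule hc v) := by
    intro g v
    have hv := Submodule.sub_projection_mem hc v
    have hp := Submodule.projection_apply_mem hc v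
    have e : kcRep ρ g v = kcRep ρ g (W.projection W'.toSubmodule hc v) +
        kcRep ρ g (v - W.projection W'.toSubmodule hc v) := by
      rw [← map_add, add_sub_cancel]
    rw [e, map_add]
    have e1 := Submodule.projection_apply_left hc ⟨_, hW g _ hp⟩
    have e2 := Submodule.projection_apply_right hc ⟨_, W'.apply_mem_toSubmodule g hv⟩
    rw [show kcRep ρ g (W.projection W'.toSubmodule hc v) =
      ((ρ g : GL (Fin n) ℂ) : Matrix (Fin n) (Fin n) ℂ).mulVec
        (W.projection W'.toSubmodule hc v) from rfl]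
    simp only at e1 e2
    rw [e1, e2, add_zero]
  obtain ⟨c, hc1⟩ := h3 (LinearMap.intertwiningMap_of_isIntertwiningMap _ _
    (W.projection W'.toSubmodule hc) hint)
  have hc2 : ∀ v, W.projection W'.toSubmodule hc v = c • v := by
    intro v
    have := congrArg (fun f : IntertwiningMap (kcRep ρ) (kcRep ρ) => f v) hc1
    exact this.symm
  by_cases hc0 : c = 1
  · right
    rw [eq_top_iff]
    intro v _
    have := Submodule.projection_apply_mem hc v
    rw [hc2 v, hc0, one_smul] at this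
    exact this
  · left
    rw [eq_bot_iff]
    intro v hv
    have e1 := Submodule.projection_apply_left hc ⟨v, hv⟩
    rw [hc2] at e1
    have e3 : (c - 1) • v = 0 := by rw [sub_smul, one_smul]; simp only at e1; rw [e1, sub_self]
    rcases smul_eq_zero.1 e3 with h5 | h5
    · exact absurd (sub_eq_zero.1 h5) hc0
    · exact h5

omit [Finite H] in
theorem kc_dim_eq (ρ : H →* GL (Fin n) ℂ) (σ : H →* GL (Fin m) ℂ)
    (f : IntertwiningMap (kcRep ρ) (kcRep σ)) (hf : Function.Bijective f) : n = m := by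
  have := (LinearEquiv.ofBijective f.toLinearMap hf).finrank_eq
  simpa using this

omit [Finite H] in
theorem kc_conj (ρ σ : H →* GL (Fin n) ℂ)
    (f : IntertwiningMap (kcRep ρ) (kcRep σ)) (hf : Function.Bijective f) :
    ∃ T : GL (Fin n) ℂ, ∀ g, σ g = T * ρ g * T⁻¹ := by
  let e := LinearEquiv.ofBijective f.toLinearMap hf
  let T : GL (Fin n) ℂ := ⟨LinearMap.toMatrix' e.toLinearMap, LinearMap.toMatrix' e.symm.toLinearMap,
    by rw [← LinearMap.toMatrix'_comp]; simp, by rw [← LinearMap.toMatrix'_comp]; simp⟩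
  refine ⟨T, fun g => ?_⟩
  rw [eq_mul_inv_iff_mul_eq]
  apply Units.ext
  show ((σ g : GL (Fin n) ℂ) : Matrix (Fin n) (Fin n) ℂ) * LinearMap.toMatrix' e.toLinearMap =
    LinearMap.toMatrix' e.toLinearMap * ((ρ g : GL (Fin n) ℂ) : Matrix (Fin n) (Fin n) ℂ)
  apply Matrix.toLin'.injective
  rw [Matrix.toLin'_mul, Matrix.toLin'_mul, Matrix.toLin'_toMatrix']
  refine LinearMap.ext fun v => ?_
  exact (IntertwiningMap.isIntertwining _ _ f g v).symm

omit [Finite H] in
theorem kc_conj_trace (ρ σ : H →* GL (Fin n) ℂ) (T : GL (Fin n) ℂ)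
    (h : ∀ g, σ g = T * ρ g * T⁻¹) (g : H) :
    Matrix.trace ((σ g : GL (Fin n) ℂ) : Matrix (Fin n) (Fin n) ℂ) =
      Matrix.trace ((ρ g : GL (Fin n) ℂ) : Matrix (Fin n) (Fin n) ℂ) := by
  rw [h g]
  rw [Units.val_mul, Units.val_mul, Matrix.trace_mul_comm, ← Matrix.mul_assoc, ← Units.val_mul,
    inv_mul_cancel, Units.val_one, Matrix.one_mul]

end rep

/-! ## Counting classes of an equivalence relation -/

theorem kc_card_quot {B : Type} [Fintype B] (r : B → B → Prop) (hr : Equivalence r) :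
    (Nat.card (Quot r) : ℚ) = ∑ b : B, (1 / (Nat.card {b' // r b b'} : ℚ)) := by
  classical
  have : Fintype (Quot r) := Fintype.ofFinite _
  rw [← Finset.sum_fiberwise (s := Finset.univ) (g := Quot.mk r)]
  have key : ∀ q : Quot r, ∑ b ∈ Finset.univ.filter (fun b => Quot.mk r b = q),
      (1 / (Nat.card {b' // r b b'} : ℚ)) = 1 := by
    intro q
    obtain ⟨a, rfl⟩ := Quot.exists_rep q
    have hiff : ∀ b, (Quot.mk r b = Quot.mk r a) ↔ r b a := fun b =>
      ⟨fun h => (hr.eqvGen_iff.1 (Quot.eqvGen_exact h)), fun h => Quot.sound h⟩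
    have h1 : ∀ b ∈ Finset.univ.filter (fun b => Quot.mk r b = Quot.mk r a),
        (1 / (Nat.card {b' // r b b'} : ℚ)) = 1 / (Nat.card {b' // r a b'} : ℚ) := by
      intro b hb
      rw [Finset.mem_filter, hiff] at hb
      have : Nat.card {b' // r b b'} = Nat.card {b' // r a b'} := by
        apply Nat.card_congr
        apply Equiv.subtypeEquivRight
        intro b'
        exact ⟨fun h => hr.trans (hr.symm hb.2) h, fun h => hr.trans hb.2 h⟩
      rw [this]
    rw [Finset.sum_congr rfl h1, Finset.sum_const, nsmul_eq_mul]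
    have h2 : (Finset.univ.filter (fun b => Quot.mk r b = Quot.mk r a)).card =
        Nat.card {b' // r a b'} := by
      rw [Nat.card_eq_fintype_card, Fintype.card_subtype]
      congr 1
      ext b
      simp only [Finset.mem_filter, Finset.mem_univ, true_and]
      rw [hiff]
      exact ⟨fun h => hr.symm h, fun h => hr.symm h⟩
    rw [h2]
    have h3 : (Nat.card {b' // r a b'} : ℚ) ≠ 0 := by
      have : Nonempty {b' // r a b'} := ⟨⟨a, hr.refl a⟩⟩
      exact_mod_cast Nat.card_pos.ne'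
    field_simp
  rw [Finset.sum_congr rfl (fun q _ => key q)]
  simp [Nat.card_eq_fintype_card]

/-- two quotients related by a correspondence have the same cardinality. -/
theorem kc_quot_card_eq {A B : Type} (rA : A → A → Prop) (rB : B → B → Prop)
    (hA : ∀ a, rA a a) (hB : Equivalence rB) (R : A → B → Prop) (h1 : ∀ a, ∃ b, R a b)
    (h2 : ∀ b, ∃ a, R a b)
    (h3 : ∀ a b a' b', R a b → R a' b' → (rA a a' ↔ rB b b')) :
    Nat.card (Quot rA) = Nat.card (Quot rB) := by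
  choose g hg using h1
  let F : Quot rA → Quot rB := Quot.map g (fun a a' h => (h3 a (g a) a' (g a') (hg a) (hg a')).1 h)
  apply Nat.card_congr
  apply Equiv.ofBijective F
  constructor
  · intro x y hxy
    obtain ⟨a, rfl⟩ := Quot.exists_rep x
    obtain ⟨a', rfl⟩ := Quot.exists_rep y
    have hxy' : Quot.mk rB (g a) = Quot.mk rB (g a') := hxy
    exact Quot.sound ((h3 a (g a) a' (g a') (hg a) (hg a')).2
      (hB.eqvGen_iff.1 (Quot.eqvGen_exact hxy')))
  · intro y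
    obtain ⟨b, rfl⟩ := Quot.exists_rep y
    obtain ⟨a, ha⟩ := h2 b
    refine ⟨Quot.mk rA a, ?_⟩
    exact Quot.sound ((h3 a (g a) a b (hg a) ha).1 (hA a))

/-! ## Orbits of characters -/

section orb

variable {H M : Type} [Group H] [AddCommGroup M]

/-- the action of `H` on characters. -/
@[instance_reducible]
def kcAct (A : H → M →+ M) (h1 : ∀ x, A 1 x = x) (hm : ∀ g h x, A (g * h) x = A g (A h x)) :
    MulAction H (AddChar M ℂ) where
  smul g η := η.compAddMonoidHom (A g⁻¹)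
  one_smul η := by
    ext x
    show η (A 1⁻¹ x) = η x
    rw [inv_one, h1]
  mul_smul g h η := by
    ext x
    show η (A (g * h)⁻¹ x) = η (A h⁻¹ (A g⁻¹ x))
    rw [mul_inv_rev, hm]

theorem kc_orbit_card (A : H → M →+ M) (h1 : ∀ x, A 1 x = x)
    (hm : ∀ g h x, A (g * h) x = A g (A h x)) (η : AddChar M ℂ) :
    Nat.card {η' : AddChar M ℂ | ∃ g, ∀ x, η' x = η (A g x)} *
      Nat.card {g : H | ∀ x, η (A g x) = η x} = Nat.card H := by
  let _ := kcAct A h1 hm
  have e := MulAction.orbitProdStabilizerEquivGroup H η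
  rw [← Nat.card_congr e, Nat.card_prod]
  congr 1
  · apply Nat.card_congr
    apply Equiv.setCongr
    ext η'
    constructor
    · rintro ⟨g, hg⟩
      refine ⟨g⁻¹, ?_⟩
      ext x
      show η (A g⁻¹⁻¹ x) = η' x
      rw [inv_inv, hg]
    · rintro ⟨g, rfl⟩
      exact ⟨g⁻¹, fun x => rfl⟩
  · apply Nat.card_congr
    refine ⟨fun g => ⟨g.1⁻¹, ?_⟩, fun g => ⟨g.1⁻¹, ?_⟩, fun g => ?_, fun g => ?_⟩
    · rw [MulAction.mem_stabilizer_iff]
      ext x
      show η (A g.1⁻¹⁻¹ x) = η x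
      rw [inv_inv]
      exact g.2 x
    · intro x
      have := MulAction.mem_stabilizer_iff.1 g.2
      have h3 := congrArg (fun f : AddChar M ℂ => f x) this
      exact h3
    · simp
    · simp

theorem kc_stab (a A : M →+ M) (coef : ℕ → ℤ) (deg : ℕ) (h0 : coef 0 = 1) (h1 : coef 1 = 1)
    (hdeg : 2 ≤ deg) (hA : ∀ u, A u = ∑ j ∈ Finset.range deg, coef j • (a^[j] u))
    (c : ℕ) (hc : ∀ u, a^[c] u = 0) (η : AddChar M ℂ) :
    (∀ u, η (A u) = η u) ↔ ∀ u, η (a u) = 1 := by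
  have hsplit : ∀ u, A u = u + ∑ j ∈ Finset.range (deg - 1), coef (j + 1) • (a^[j + 1] u) := by
    intro u
    rw [hA, show deg = (deg - 1) + 1 by omega, Finset.sum_range_succ', h0]
    simp [add_comm]
  have hsum : ∀ (s : Finset ℕ) (f : ℕ → M), η (∑ j ∈ s, f j) = ∏ j ∈ s, η (f j) := by
    intro s f
    classical
    induction s using Finset.induction_on with
    | empty => simp
    | insert a s ha ih => rw [Finset.sum_insert ha, Finset.prod_insert ha, AddChar.map_add_eq_mul, ih]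
  constructor
  · intro h
    have key : ∀ d k : ℕ, k + d = c + 1 → 1 ≤ k → ∀ u, η (a^[k] u) = 1 := by
      intro d
      induction d using Nat.strong_induction_on with
      | _ d ih =>
        intro k hk hk1 u
        rcases Nat.lt_or_ge k c with hlt | hge
        · have e1 := h (a^[k - 1] u)
          rw [hsplit, AddChar.map_add_eq_mul, hsum] at e1
          have hne : η (a^[k - 1] u) ≠ 0 := (η.val_isUnit _).ne_zero
          have e2 : ∏ j ∈ Finset.range (deg - 1), η (coef (j + 1) • (a^[j + 1] (a^[k - 1] u))) = 1 :=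
            mul_left_cancel₀ hne (by rw [e1, mul_one])
          rw [show deg - 1 = (deg - 2) + 1 by omega, Finset.prod_range_succ'] at e2
          have e3 : ∏ j ∈ Finset.range (deg - 2),
              η (coef (j + 1 + 1) • (a^[j + 1 + 1] (a^[k - 1] u))) = 1 := by
            apply Finset.prod_eq_one
            intro j _
            rw [AddChar.map_zsmul_eq_zpow]
            rw [← Function.iterate_add_apply, show j + 1 + 1 + (k - 1) = k + (j + 1) by omega]
            have : η (a^[k + (j + 1)] u) = 1 := by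
              rcases Nat.lt_or_ge (k + (j + 1)) (c + 1) with h5 | h5
              · exact ih (d - (j + 1)) (by omega) (k + (j + 1)) (by omega) (by omega) u
              · rw [show k + (j + 1) = c + (k + (j + 1) - c) by omega, Function.iterate_add_apply,
                  hc]
                simp
            rw [this, one_zpow]
          rw [e3, one_mul, zero_add, h1, one_smul, ← Function.iterate_add_apply,
            show 1 + (k - 1) = k by omega] at e2
          exact e2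
        · rw [show k = c + (k - c) by omega, Function.iterate_add_apply, hc]
          simp
    intro u
    exact key c 1 (by omega) le_rfl u
  · intro h u
    rw [hsplit, AddChar.map_add_eq_mul, hsum]
    have : ∏ j ∈ Finset.range (deg - 1), η (coef (j + 1) • (a^[j + 1] u)) = 1 := by
      apply Finset.prod_eq_one
      intro j _
      rw [AddChar.map_zsmul_eq_zpow, Function.iterate_succ_apply', h, one_zpow]
    rw [this, mul_one]

end orb

section kc

variable {H L : Type} [Group H] [AddCommGroup L] (D : KData H L)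

theorem kc_exp_zero : D.exp 0 = 1 := by
  have h := D.exp_add 0 0 (by simp)
  rw [add_zero] at h
  exact left_eq_mul.1 h

theorem kc_exp_neg (x : L) : D.exp (-x) = (D.exp x)⁻¹ := by
  have h := D.exp_add x (-x) (by rw [map_neg, D.br_self, neg_zero])
  rw [add_neg_cancel, kc_exp_zero] at h
  exact (inv_eq_of_mul_eq_one_right h.symm).symm

theorem kc_Ad_one (x : L) : D.Ad 1 x = x := by
  have h := D.conj 1 x
  rw [one_mul, inv_one, mul_one] at h
  exact (D.exp.injective h).symm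

theorem kc_Ad_mul (g h : H) (x : L) : D.Ad (g * h) x = D.Ad g (D.Ad h x) := by
  apply D.exp.injective
  rw [← D.conj, ← D.conj, ← D.conj]
  group

theorem kc_foldr (y : L) (c : ℕ) (x : L) :
    (List.replicate c y).foldr (fun a b => D.br a b) x = (fun w => D.br y w)^[c] x := by
  induction c with
  | zero => rfl
  | succ c ih => rw [List.replicate_succ, List.foldr_cons, ih, Function.iterate_succ_apply']

theorem kc_nil : ∃ c, ∀ y x, (fun w => D.br y w)^[c] x = 0 := by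
  obtain ⟨c, hc⟩ := D.nilp
  refine ⟨c, fun y x => ?_⟩
  rw [← kc_foldr]
  exact hc _ _ (by simp)

theorem kc_iter_mem (y x : L) (j : ℕ) (hj : 1 ≤ j) : (fun w => D.br y w)^[j] x ∈ D.der := by
  obtain ⟨i, rfl⟩ := Nat.exists_eq_add_of_le' hj
  rw [Function.iterate_succ_apply']
  exact D.br_mem_der _ _

theorem kc_Ad_sub (g : H) (x : L) : D.Ad g x - x ∈ D.der := by
  obtain ⟨y, rfl⟩ := D.exp.surjective g
  have h := D.two_le
  rw [D.Ad_exp, show D.deg = (D.deg - 1) + 1 by omega, Finset.sum_range_succ', D.coef_zero]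
  simp only [Function.iterate_zero, id_eq, one_smul, add_sub_cancel_right]
  apply AddSubgroup.sum_mem
  intro j _
  exact AddSubgroup.zsmul_mem _ (kc_iter_mem D y x (j + 1) (by omega)) _

theorem kc_Ad_mem (g : H) {x : L} (hx : x ∈ D.der) : D.Ad g x ∈ D.der := by
  have := AddSubgroup.add_mem _ (kc_Ad_sub D g x) hx
  rwa [sub_add_cancel] at this

/-- the bracket on the derived ideal -/
def kcDerBr (y : L) : D.der →+ D.der where
  toFun x := ⟨D.br y x, D.br_mem_der _ _⟩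
  map_zero' := by ext; simp
  map_add' a b := by ext; simp

/-- the adjoint action on the derived ideal -/
def kcDerAd (g : H) : D.der →+ D.der where
  toFun x := ⟨D.Ad g x, kc_Ad_mem D g x.2⟩
  map_zero' := by ext; simp
  map_add' a b := by ext; simp

theorem kcDerAd_coe (g : H) (x : D.der) : ((kcDerAd D g x : D.der) : L) = D.Ad g x := rfl

theorem kcDerBr_iter (y : L) (j : ℕ) (x : D.der) :
    (((kcDerBr D y)^[j] x : D.der) : L) = (fun w => D.br y w)^[j] (x : L) := by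
  induction j generalizing x with
  | zero => rfl
  | succ j ih => rw [Function.iterate_succ_apply, Function.iterate_succ_apply, ih]; rfl

/-- characters of `L` invariant under `Ad` are those trivial on `L'`. -/
theorem kc_stabL (ψ : AddChar L ℂ) (y : L) :
    (∀ u, ψ (D.Ad (D.exp y) u) = ψ u) ↔ ∀ u, ψ (D.br y u) = 1 := by
  obtain ⟨c, hc⟩ := kc_nil D
  exact kc_stab (D.br y) (D.Ad (D.exp y)) D.coef D.deg D.coef_zero D.coef_one D.two_le
    (fun u => D.Ad_exp y u) c (hc y) ψ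

theorem kc_stabD (η : AddChar D.der ℂ) (y : L) :
    (∀ u, η (kcDerAd D (D.exp y) u) = η u) ↔ ∀ u, η (kcDerBr D y u) = 1 := by
  obtain ⟨c, hc⟩ := kc_nil D
  refine kc_stab (kcDerBr D y) (kcDerAd D (D.exp y)) D.coef D.deg D.coef_zero D.coef_one D.two_le
    (fun u => ?_) c (fun u => ?_) η
  · ext
    rw [kcDerAd_coe, D.Ad_exp, AddSubgroup.val_finsetSum]
    apply Finset.sum_congr rfl
    intro j _
    rw [AddSubgroup.coe_zsmul, kcDerBr_iter]
  · ext
    rw [kcDerBr_iter, hc]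
    rfl

/-- restriction of a character to the derived ideal -/
def kcRes (ψ : AddChar L ℂ) : AddChar D.der ℂ := ψ.compAddMonoidHom D.der.subtype

theorem kcRes_apply (ψ : AddChar L ℂ) (x : D.der) : kcRes D ψ x = ψ (x : L) := rfl

theorem kc_res_surj [Finite L] (η : AddChar D.der ℂ) : ∃ ψ : AddChar L ℂ, kcRes D ψ = η := by
  have : NeZero (Monoid.exponent (Multiplicative L)) := ⟨Monoid.exponent_ne_zero_of_finite⟩
  have hs := MonoidHom.domRestrict_surjective (G := Multiplicative L) ℂ D.der.toSubgroup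
  let η' : D.der.toSubgroup →* ℂˣ := MonoidHom.toHomUnits
    { toFun := fun x => η ⟨(x : Multiplicative L).toAdd, x.2⟩
      map_one' := η.map_zero_eq_one
      map_mul' := fun a b => η.map_add_eq_mul ⟨_, a.2⟩ ⟨_, b.2⟩ }
  obtain ⟨φ, hφ⟩ := hs η'
  refine ⟨AddChar.toMonoidHomEquiv.symm ((Units.coeHom ℂ).comp φ), ?_⟩
  ext x
  have h1 : η' ⟨Multiplicative.ofAdd (x : L), x.2⟩ = φ (Multiplicative.ofAdd (x : L)) := by
    rw [← hφ]; rfl
  have h2 := congrArg (fun u : ℂˣ => (u : ℂ)) h1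
  exact h2.symm

theorem kc_orbit_L [Finite H] [Finite L] (ψ : AddChar L ℂ) :
    Nat.card (D.orbit ψ) = (D.radA (kcRes D ψ)).index := by
  have h1 := kc_orbit_card D.Ad (kc_Ad_one D) (kc_Ad_mul D) ψ
  have h2 : Nat.card {g : H | ∀ x, ψ (D.Ad g x) = ψ x} = Nat.card (D.radA (kcRes D ψ)) := by
    symm
    apply Nat.card_congr
    refine (D.exp.subtypeEquiv fun y => ?_)
    show (∀ z, _ = _) ↔ (∀ x, _ = _)
    rw [kc_stabL]
    rfl
  have h3 : Nat.card H = Nat.card L := Nat.card_congr D.exp.symm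
  have h4 := AddSubgroup.card_mul_index (D.radA (kcRes D ψ))
  rw [h2, h3, ← h4, mul_comm] at h1
  exact Nat.eq_of_mul_eq_mul_left Nat.card_pos h1

theorem kc_orbit_D [Finite H] [Finite L] (η : AddChar D.der ℂ) :
    Nat.card {η' : AddChar D.der ℂ | ∃ g, ∀ x, η' x = η (kcDerAd D g x)} =
      (D.radB η).index := by
  have h1 := kc_orbit_card (kcDerAd D) (fun x => by ext; exact kc_Ad_one D _)
    (fun g h x => by ext; exact kc_Ad_mul D _ _ _) η
  have h2 : Nat.card {g : H | ∀ x, η (kcDerAd D g x) = η x} = Nat.card (D.radB η) := by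
    symm
    apply Nat.card_congr
    refine (D.exp.subtypeEquiv fun y => ?_)
    show (∀ z ∈ D.der, _ = _) ↔ (∀ x, _ = _)
    rw [kc_stabD]
    exact ⟨fun h u => h u.1 u.2, fun h z hz => h ⟨z, hz⟩⟩
  have h3 : Nat.card H = Nat.card L := Nat.card_congr D.exp.symm
  have h4 := AddSubgroup.card_mul_index (D.radB η)
  rw [h2, h3, ← h4, mul_comm] at h1
  exact Nat.eq_of_mul_eq_mul_left Nat.card_pos h1

/-! ### orbits -/

theorem kc_mem_orbit_self (ψ : AddChar L ℂ) : ψ ∈ D.orbit ψ :=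
  ⟨1, fun x => by rw [kc_Ad_one]⟩

theorem kc_orbit_eq {ψ φ : AddChar L ℂ} (h : φ ∈ D.orbit ψ) : D.orbit φ = D.orbit ψ := by
  obtain ⟨g, hg⟩ := h
  ext θ
  constructor
  · rintro ⟨h, hh⟩
    exact ⟨g * h, fun x => by rw [hh, hg, kc_Ad_mul]⟩
  · rintro ⟨h, hh⟩
    refine ⟨g⁻¹ * h, fun x => ?_⟩
    rw [hh, hg, kc_Ad_mul, ← kc_Ad_mul D g, mul_inv_cancel, kc_Ad_one]

theorem kc_orbit_mul (φ₀ ψ : AddChar L ℂ) (h0 : ∀ y u, φ₀ (D.br y u) = 1) :
    D.orbit (φ₀ + ψ) = (fun φ => φ₀ + φ) '' D.orbit ψ := by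
  have hinv : ∀ g x, φ₀ (D.Ad g x) = φ₀ x := by
    intro g x
    obtain ⟨y, rfl⟩ := D.exp.surjective g
    exact (kc_stabL D φ₀ y).2 (h0 y) x
  ext θ
  constructor
  · rintro ⟨g, hg⟩
    refine ⟨ψ.compAddMonoidHom (D.Ad g), ⟨g, fun x => rfl⟩, ?_⟩
    ext x
    rw [hg]
    show φ₀ x * ψ (D.Ad g x) = φ₀ (D.Ad g x) * ψ (D.Ad g x)
    rw [hinv]
  · rintro ⟨φ, ⟨g, hg⟩, rfl⟩
    refine ⟨g, fun x => ?_⟩
    show φ₀ x * φ x = φ₀ (D.Ad g x) * ψ (D.Ad g x)
    rw [hinv, hg]

/-- the character formula -/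
def kcT {n : ℕ} (ρ : H →* GL (Fin n) ℂ) (ψ : AddChar L ℂ) : Prop :=
  ∀ x : L, (n : ℂ) * Matrix.trace ((ρ (D.exp x) : GL (Fin n) ℂ) : Matrix (Fin n) (Fin n) ℂ) =
    ∑ᶠ φ ∈ D.orbit ψ, φ x

variable [Finite L]

theorem kc_inner [Fintype H] {n m : ℕ} (ρ : H →* GL (Fin n) ℂ) (σ : H →* GL (Fin m) ℂ)
    (ψ ψ' : AddChar L ℂ) (h1 : kcT D ρ ψ) (h2 : kcT D σ ψ') :
    (n : ℂ) * m * ∑ g : H, Matrix.trace ((ρ g : GL (Fin n) ℂ) : Matrix (Fin n) (Fin n) ℂ) *
      Matrix.trace ((σ g⁻¹ : GL (Fin m) ℂ) : Matrix (Fin m) (Fin m) ℂ) =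
    (Nat.card H : ℂ) * (Nat.card (D.orbit ψ ∩ D.orbit ψ' : Set (AddChar L ℂ)) : ℂ) := by
  classical
  have : Fintype L := Fintype.ofFinite L
  have e1 : ∑ g : H, Matrix.trace ((ρ g : GL (Fin n) ℂ) : Matrix (Fin n) (Fin n) ℂ) *
      Matrix.trace ((σ g⁻¹ : GL (Fin m) ℂ) : Matrix (Fin m) (Fin m) ℂ) =
      ∑ x : L, Matrix.trace ((ρ (D.exp x) : GL (Fin n) ℂ) : Matrix (Fin n) (Fin n) ℂ) *
      Matrix.trace ((σ (D.exp (-x)) : GL (Fin m) ℂ) : Matrix (Fin m) (Fin m) ℂ) := by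
    rw [← Equiv.sum_comp D.exp]
    apply Finset.sum_congr rfl
    intro x _
    rw [kc_exp_neg]
  rw [e1, Finset.mul_sum]
  set A := (Set.toFinite (D.orbit ψ)).toFinset with hA
  set B := (Set.toFinite (D.orbit ψ')).toFinset with hB
  have e2 : ∀ x : L, (n : ℂ) * m *
      (Matrix.trace ((ρ (D.exp x) : GL (Fin n) ℂ) : Matrix (Fin n) (Fin n) ℂ) *
      Matrix.trace ((σ (D.exp (-x)) : GL (Fin m) ℂ) : Matrix (Fin m) (Fin m) ℂ)) =
      ∑ φ ∈ A, ∑ φ' ∈ B, (φ - φ') x := by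
    intro x
    have a1 := h1 x
    have a2 := h2 (-x)
    rw [finsum_mem_eq_finite_toFinset_sum _ (Set.toFinite _)] at a1 a2
    rw [show (n : ℂ) * m *
      (Matrix.trace ((ρ (D.exp x) : GL (Fin n) ℂ) : Matrix (Fin n) (Fin n) ℂ) *
      Matrix.trace ((σ (D.exp (-x)) : GL (Fin m) ℂ) : Matrix (Fin m) (Fin m) ℂ)) =
      ((n : ℂ) * Matrix.trace ((ρ (D.exp x) : GL (Fin n) ℂ) : Matrix (Fin n) (Fin n) ℂ)) *
      ((m : ℂ) * Matrix.trace ((σ (D.exp (-x)) : GL (Fin m) ℂ) : Matrix (Fin m) (Fin m) ℂ)) by ring,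
      a1, a2, Finset.sum_mul_sum]
    apply Finset.sum_congr rfl
    intro φ _
    apply Finset.sum_congr rfl
    intro φ' _
    rw [AddChar.sub_apply]
  rw [Finset.sum_congr rfl (fun x _ => e2 x), Finset.sum_comm]
  have e3 : ∀ φ ∈ A, ∑ x : L, ∑ φ' ∈ B, (φ - φ') x = if φ ∈ B then (Nat.card H : ℂ) else 0 := by
    intro φ _
    rw [Finset.sum_comm]
    have e4 : ∀ φ' ∈ B, ∑ x : L, (φ - φ') x = if φ = φ' then (Nat.card H : ℂ) else 0 := by
      intro φ' _
      rw [AddChar.sum_eq_ite]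
      simp only [sub_eq_zero]
      split_ifs
      · rw [Nat.card_congr D.exp.symm, Nat.card_eq_fintype_card]
      · rfl
    rw [Finset.sum_congr rfl e4, Finset.sum_ite_eq]
  rw [Finset.sum_congr rfl e3, ← Finset.sum_filter, Finset.sum_const, nsmul_eq_mul, mul_comm]
  congr 2
  rw [Nat.card_eq_card_toFinset]
  congr 1
  ext φ
  simp [hA, hB]

variable [Finite H]

omit [AddCommGroup L] [Finite L] in
theorem kc_card_pos : (Nat.card H : ℂ) ≠ 0 := by exact_mod_cast Nat.card_pos.ne'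

theorem kc_irred_of_T [Fintype H] {n : ℕ} (ρ : H →* GL (Fin n) ℂ) (ψ : AddChar L ℂ) (hn : 0 < n)
    (h1 : kcT D ρ ψ) (h2 : n ^ 2 = Nat.card (D.orbit ψ)) : Irred ρ := by
  apply kc_irred_of_norm_one ρ hn
  have h := kc_inner D ρ ρ ψ ψ h1 h1
  rw [Set.inter_self, ← h2] at h
  have hn' : (n : ℂ) ≠ 0 := by exact_mod_cast hn.ne'
  push_cast at h
  have h5 : (n : ℂ) * n ≠ 0 := mul_ne_zero hn' hn'
  apply mul_left_cancel₀ h5
  rw [h]; ring

theorem kc_orbit_unique [Fintype H] {n : ℕ} (ρ : H →* GL (Fin n) ℂ) (ψ ψ' : AddChar L ℂ)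
    (hρ : Irred ρ) (h1 : kcT D ρ ψ) (h2 : kcT D ρ ψ') : D.orbit ψ = D.orbit ψ' := by
  have h := kc_inner D ρ ρ ψ ψ' h1 h2
  rw [kc_norm_one ρ hρ] at h
  have hn' : (n : ℂ) ≠ 0 := by exact_mod_cast hρ.1.ne'
  have h3 : (Nat.card (D.orbit ψ ∩ D.orbit ψ' : Set (AddChar L ℂ)) : ℂ) ≠ 0 := by
    intro e
    rw [e, mul_zero] at h
    exact (mul_ne_zero (mul_ne_zero hn' hn') kc_card_pos) h
  have h4 : Nat.card (D.orbit ψ ∩ D.orbit ψ' : Set (AddChar L ℂ)) ≠ 0 := by exact_mod_cast h3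
  obtain ⟨⟨φ, hφ⟩⟩ := (Nat.card_ne_zero.1 h4).1
  rw [← kc_orbit_eq D hφ.1, ← kc_orbit_eq D hφ.2]

theorem kc_exists_T [Fintype H] (p : ℕ) (hp : p.Prime) (hL : ∀ x : L, ∃ e : ℕ, p ^ e • x = 0)
    {m : ℕ} (σ : H →* GL (Fin m) ℂ) (hσ : Irred σ) :
    ∃ ψ : AddChar L ℂ, m ^ 2 = Nat.card (D.orbit ψ) ∧ kcT D σ ψ := by
  classical
  have : Fintype L := Fintype.ofFinite L
  let c : AddChar L ℂ → ℂ := fun φ => ∑ x : L, φ x *
    Matrix.trace ((σ (D.exp (-x)) : GL (Fin m) ℂ) : Matrix (Fin m) (Fin m) ℂ)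
  have hcinv : ∀ φ φ' : AddChar L ℂ, φ' ∈ D.orbit φ → c φ' = c φ := by
    rintro φ φ' ⟨g, hg⟩
    let e : L ≃ L := ⟨D.Ad g, D.Ad g⁻¹, fun x => by rw [← kc_Ad_mul, inv_mul_cancel, kc_Ad_one],
      fun x => by rw [← kc_Ad_mul, mul_inv_cancel, kc_Ad_one]⟩
    show ∑ x : L, φ' x * _ = ∑ x : L, φ x * _
    rw [← Equiv.sum_comp e (fun x => φ x *
      Matrix.trace ((σ (D.exp (-x)) : GL (Fin m) ℂ) : Matrix (Fin m) (Fin m) ℂ))]
    apply Finset.sum_congr rfl
    intro x _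
    show φ' x * _ = φ (D.Ad g x) * Matrix.trace ((σ (D.exp (-(D.Ad g x))) : GL (Fin m) ℂ) :
      Matrix (Fin m) (Fin m) ℂ)
    rw [hg, ← map_neg, ← D.conj, map_mul, map_mul, map_inv, Units.val_mul, Units.val_mul,
      Matrix.trace_mul_comm, ← Matrix.mul_assoc, ← Units.val_mul, inv_mul_cancel, Units.val_one,
      Matrix.one_mul]
  have hsum : ∑ φ : AddChar L ℂ, c φ = (Nat.card L : ℂ) * m := by
    show ∑ φ : AddChar L ℂ, ∑ x : L, φ x * _ = _
    rw [Finset.sum_comm]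
    have e1 : ∀ x : L, ∑ φ : AddChar L ℂ, φ x *
        Matrix.trace ((σ (D.exp (-x)) : GL (Fin m) ℂ) : Matrix (Fin m) (Fin m) ℂ) =
        if x = 0 then (Nat.card L : ℂ) * m else 0 := by
      intro x
      rw [← Finset.sum_mul, AddChar.sum_apply_eq_ite]
      split_ifs with hx
      · rw [hx, neg_zero, kc_exp_zero, map_one, Units.val_one, Matrix.trace_one,
          Fintype.card_fin, Nat.card_eq_fintype_card]
      · rw [zero_mul]
    rw [Finset.sum_congr rfl (fun x _ => e1 x), Finset.sum_ite_eq' Finset.univ (0 : L)]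
    simp
  have hm : (m : ℂ) ≠ 0 := by exact_mod_cast hσ.1.ne'
  have hL0 : (Nat.card L : ℂ) ≠ 0 := by exact_mod_cast Nat.card_pos.ne'
  obtain ⟨ψ, -, hψ⟩ := Finset.exists_ne_zero_of_sum_ne_zero
    (show ∑ φ : AddChar L ℂ, c φ ≠ 0 by rw [hsum]; exact mul_ne_zero hL0 hm)
  obtain ⟨n, ρ, hn, hn2, hT⟩ := kirRep D p hp hL ψ
  have hρ : Irred ρ := kc_irred_of_T D ρ ψ hn hT hn2
  have hn' : (n : ℂ) ≠ 0 := by exact_mod_cast hn.ne'
  have key : (n : ℂ) * ∑ g : H, Matrix.trace ((ρ g : GL (Fin n) ℂ) : Matrix (Fin n) (Fin n) ℂ) *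
      Matrix.trace ((σ g⁻¹ : GL (Fin m) ℂ) : Matrix (Fin m) (Fin m) ℂ) =
      (Nat.card (D.orbit ψ) : ℂ) * c ψ := by
    rw [← Equiv.sum_comp D.exp, Finset.mul_sum]
    have e2 : ∀ x : L, (n : ℂ) *
        (Matrix.trace ((ρ (D.exp x) : GL (Fin n) ℂ) : Matrix (Fin n) (Fin n) ℂ) *
        Matrix.trace ((σ (D.exp x)⁻¹ : GL (Fin m) ℂ) : Matrix (Fin m) (Fin m) ℂ)) =
        ∑ φ ∈ (Set.toFinite (D.orbit ψ)).toFinset, φ x *
          Matrix.trace ((σ (D.exp (-x)) : GL (Fin m) ℂ) : Matrix (Fin m) (Fin m) ℂ) := by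
      intro x
      rw [← mul_assoc, hT x, finsum_mem_eq_finite_toFinset_sum _ (Set.toFinite _), Finset.sum_mul,
        kc_exp_neg]
    rw [Finset.sum_congr rfl (fun x _ => e2 x), Finset.sum_comm]
    have e3 : ∀ φ ∈ (Set.toFinite (D.orbit ψ)).toFinset, ∑ x : L, φ x *
          Matrix.trace ((σ (D.exp (-x)) : GL (Fin m) ℂ) : Matrix (Fin m) (Fin m) ℂ) = c ψ := by
      intro φ hφ
      exact hcinv ψ φ ((Set.Finite.mem_toFinset _).1 hφ)
    rw [Finset.sum_congr rfl e3, Finset.sum_const, nsmul_eq_mul, Nat.card_eq_card_finite_toFinset]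
  have hne : ∑ g : H, Matrix.trace ((ρ g : GL (Fin n) ℂ) : Matrix (Fin n) (Fin n) ℂ) *
      Matrix.trace ((σ g⁻¹ : GL (Fin m) ℂ) : Matrix (Fin m) (Fin m) ℂ) ≠ 0 := by
    intro e
    rw [e, mul_zero] at key
    have h6 : (Nat.card (D.orbit ψ) : ℂ) ≠ 0 := by
      rw [← hn2]; push_cast; exact pow_ne_zero 2 hn'
    exact (mul_ne_zero h6 hψ) key.symm
  obtain ⟨f, hf⟩ := kc_exists_bij σ ρ hσ hρ hne
  have hmn := kc_dim_eq σ ρ f hf
  subst hmn
  obtain ⟨T, hTT⟩ := kc_conj σ ρ f hf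
  refine ⟨ψ, hn2, fun x => ?_⟩
  rw [← kc_conj_trace σ ρ T hTT]
  exact hT x

/-! ### one-dimensional representations and twists -/

/-- scalar matrices -/
def kcScal (n : ℕ) : ℂˣ →* GL (Fin n) ℂ :=
  Units.map (algebraMap ℂ (Matrix (Fin n) (Fin n) ℂ)).toMonoidHom

omit [Finite H] [Finite L] [AddCommGroup L] [Group H] in
theorem kcScal_val (n : ℕ) (u : ℂˣ) :
    ((kcScal n u : GL (Fin n) ℂ) : Matrix (Fin n) (Fin n) ℂ) = (u : ℂ) • 1 := by
  show algebraMap ℂ (Matrix (Fin n) (Fin n) ℂ) (u : ℂ) = _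
  rw [Algebra.algebraMap_eq_smul_one]

/-- the twist of a representation by a one-dimensional one -/
def kcTwist {n : ℕ} (χ : H →* ℂˣ) (σ : H →* GL (Fin n) ℂ) : H →* GL (Fin n) ℂ where
  toFun g := kcScal n (χ g) * σ g
  map_one' := by simp
  map_mul' g h := by
    rw [map_mul, map_mul, map_mul]
    have : ∀ (u : ℂˣ) (M : GL (Fin n) ℂ), M * kcScal n u = kcScal n u * M := by
      intro u M
      apply Units.ext
      rw [Units.val_mul, Units.val_mul, kcScal_val]
      simp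
    rw [mul_assoc (kcScal n (χ g)), mul_assoc (kcScal n (χ g)), ← mul_assoc (kcScal n (χ h)),
      ← this (χ h) (σ g), mul_assoc]

omit [AddCommGroup L] [Finite L] [Finite H] in
theorem kcTwist_val {n : ℕ} (χ : H →* ℂˣ) (σ : H →* GL (Fin n) ℂ) (g : H) :
    ((kcTwist χ σ g : GL (Fin n) ℂ) : Matrix (Fin n) (Fin n) ℂ) =
      ((χ g : ℂˣ) : ℂ) • ((σ g : GL (Fin n) ℂ) : Matrix (Fin n) (Fin n) ℂ) := by
  show ((kcScal n (χ g) * σ g : GL (Fin n) ℂ) : Matrix (Fin n) (Fin n) ℂ) = _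
  rw [Units.val_mul, kcScal_val]
  simp

omit [AddCommGroup L] [Finite L] [Finite H] in
theorem kcTwist_irred {n : ℕ} (χ : H →* ℂˣ) (σ : H →* GL (Fin n) ℂ) (hσ : Irred σ) :
    Irred (kcTwist χ σ) := by
  refine ⟨hσ.1, fun W hW => hσ.2 W fun g w hw => ?_⟩
  have h := hW g w hw
  rw [kcTwist_val, Matrix.smul_mulVec] at h
  have h2 := W.smul_mem ((χ g : ℂˣ) : ℂ)⁻¹ h
  rwa [smul_smul, inv_mul_cancel₀ (Units.ne_zero _), one_smul] at h2

/-- every one-dimensional representation is given by a character of `L` trivial on brackets. -/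
theorem kc_char_of_hom (p : ℕ) (hp : p.Prime) (hL : ∀ x : L, ∃ e : ℕ, p ^ e • x = 0)
    (χ : H →* ℂˣ) : ∃ φ₀ : AddChar L ℂ, (∀ y u, φ₀ (D.br y u) = 1) ∧
      ∀ x, φ₀ x = ((χ (D.exp x) : ℂˣ) : ℂ) := by
  have : Fintype H := Fintype.ofFinite H
  have hirr : Irred ((kcScal 1).comp χ) := by
    refine ⟨one_pos, fun W _ => ?_⟩
    by_cases h : W = ⊥
    · exact Or.inl h
    · right
      obtain ⟨w, hw, hw0⟩ := Submodule.exists_mem_ne_zero_of_ne_bot h
      rw [eq_top_iff]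
      intro v _
      have hw1 : w 0 ≠ 0 := by
        intro e
        apply hw0
        ext i
        rw [Subsingleton.elim i 0, e]
        rfl
      have : v = (v 0 * (w 0)⁻¹) • w := by
        ext i
        rw [Subsingleton.elim i 0]
        simp [hw1]
      rw [this]
      exact W.smul_mem _ hw
  obtain ⟨φ₀, h1, h2⟩ := kc_exists_T D p hp hL _ hirr
  have hsing : D.orbit φ₀ = {φ₀} := by
    rw [one_pow] at h1
    obtain ⟨a, ha⟩ := Set.ncard_eq_one.1 h1.symm
    have := kc_mem_orbit_self D φ₀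
    rw [ha] at this ⊢
    rw [Set.mem_singleton_iff.1 this]
  refine ⟨φ₀, ?_, fun x => ?_⟩
  · intro y
    rw [← kc_stabL]
    intro u
    have : φ₀.compAddMonoidHom (D.Ad (D.exp y)) ∈ D.orbit φ₀ := ⟨D.exp y, fun x => rfl⟩
    rw [hsing, Set.mem_singleton_iff] at this
    exact congrArg (fun f : AddChar L ℂ => f u) this
  · have h3 := h2 x
    rw [hsing, finsum_mem_singleton] at h3
    rw [← h3, MonoidHom.comp_apply, kcScal_val]
    simp

/-- every character of `L` trivial on brackets gives a one-dimensional representation. -/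
theorem kc_hom_of_char (p : ℕ) (hp : p.Prime) (hL : ∀ x : L, ∃ e : ℕ, p ^ e • x = 0)
    (φ₀ : AddChar L ℂ) (h0 : ∀ y u, φ₀ (D.br y u) = 1) :
    ∃ χ : H →* ℂˣ, ∀ x, φ₀ x = ((χ (D.exp x) : ℂˣ) : ℂ) := by
  obtain ⟨n, ρ, hn, hn2, hT⟩ := kirRep D p hp hL φ₀
  have hsing : D.orbit φ₀ = {φ₀} := by
    ext φ
    rw [Set.mem_singleton_iff]
    constructor
    · rintro ⟨g, hg⟩
      obtain ⟨y, rfl⟩ := D.exp.surjective g
      ext x
      rw [hg, (kc_stabL D φ₀ y).2 (h0 y)]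
    · rintro rfl
      exact kc_mem_orbit_self D φ
  rw [hsing, Nat.card_coe_set_eq, Set.ncard_singleton] at hn2
  have hn1 : n = 1 := by
    rcases Nat.lt_or_ge n 2 with h | h
    · omega
    · nlinarith
  subst hn1
  refine ⟨(Matrix.GeneralLinearGroup.det).comp ρ, fun x => ?_⟩
  have h3 := hT x
  rw [hsing, finsum_mem_singleton] at h3
  rw [← h3]
  simp [Matrix.trace]

omit [Finite H] in
theorem kcT_twist {n : ℕ} (χ : H →* ℂˣ) (φ₀ : AddChar L ℂ) (h0 : ∀ y u, φ₀ (D.br y u) = 1)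
    (hχ : ∀ x, φ₀ x = ((χ (D.exp x) : ℂˣ) : ℂ)) (σ : H →* GL (Fin n) ℂ) (ψ : AddChar L ℂ)
    (hT : kcT D σ ψ) : kcT D (kcTwist χ σ) (φ₀ + ψ) := by
  intro x
  rw [kcTwist_val, Matrix.trace_smul, smul_eq_mul, ← hχ, mul_left_comm, hT x,
    kc_orbit_mul D φ₀ ψ h0, finsum_mem_image (fun a _ b _ h => add_left_cancel h),
    finsum_mem_eq_finite_toFinset_sum _ (Set.toFinite _),
    finsum_mem_eq_finite_toFinset_sum _ (Set.toFinite _), Finset.mul_sum]
  rfl

theorem kirCount_aux (p : ℕ) (hp : p.Prime)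
    (hL : ∀ x : L, ∃ e : ℕ, p ^ e • x = 0) (n : ℕ) :
    (numTwist H n : ℚ) = ∑ᶠ ψ : AddChar D.der ℂ,
      if (D.radA ψ).index = n ^ 2 then (1 / ((D.radB ψ).index : ℚ)) else 0 := by
  classical
  have : Fintype H := Fintype.ofFinite H
  let B := {η : AddChar D.der ℂ // (D.radA η).index = n ^ 2}
  let rA : {ρ : H →* GL (Fin n) ℂ // Irred ρ} → {ρ : H →* GL (Fin n) ℂ // Irred ρ} → Prop :=
    fun ρ σ => ∃ χ : H →* ℂˣ, ∃ T : GL (Fin n) ℂ, ∀ g : H,
      ((ρ.1 g : GL (Fin n) ℂ) : Matrix (Fin n) (Fin n) ℂ) =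
        ((χ g : ℂˣ) : ℂ) • ((T * σ.1 g * T⁻¹ : GL (Fin n) ℂ) : Matrix (Fin n) (Fin n) ℂ)
  let rB : B → B → Prop := fun η η' => ∃ g : H, ∀ x, η.1 x = η'.1 (kcDerAd D g x)
  have hAd1 : ∀ x : D.der, kcDerAd D 1 x = x := fun x => by ext; exact kc_Ad_one D _
  have hAdm : ∀ (g h : H) (x : D.der), kcDerAd D (g * h) x = kcDerAd D g (kcDerAd D h x) :=
    fun g h x => by ext; exact kc_Ad_mul D _ _ _
  have hrB : Equivalence rB := by
    refine ⟨fun η => ⟨1, fun x => by rw [hAd1]⟩, ?_, ?_⟩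
    · rintro η η' ⟨g, hg⟩
      exact ⟨g⁻¹, fun x => by rw [hg, ← hAdm, mul_inv_cancel, hAd1]⟩
    · rintro η η' η'' ⟨g, hg⟩ ⟨h, hh⟩
      exact ⟨h * g, fun x => by rw [hg, hh, hAdm]⟩
  have hcard : numTwist H n = Nat.card (Quot rB) := by
    refine kc_quot_card_eq rA rB (fun ρ => ⟨1, 1, fun g => by simp⟩) hrB
      (fun ρ η => ∃ ψ : AddChar L ℂ, kcRes D ψ = η.1 ∧ kcT D ρ.1 ψ) ?_ ?_ ?_
    · rintro ⟨ρ, hρ⟩
      obtain ⟨ψ, h1, h2⟩ := kc_exists_T D p hp hL ρ hρ
      exact ⟨⟨kcRes D ψ, by rw [← kc_orbit_L, h1]⟩, ψ, rfl, h2⟩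
    · rintro ⟨η, hη⟩
      obtain ⟨ψ, hψ⟩ := kc_res_surj D η
      obtain ⟨m, ρ, hm, hm2, hT⟩ := kirRep D p hp hL ψ
      have hmn : m = n := by
        rw [kc_orbit_L, hψ, hη] at hm2
        exact Nat.pow_left_injective (by norm_num : (2 : ℕ) ≠ 0) hm2
      subst hmn
      exact ⟨⟨ρ, kc_irred_of_T D ρ ψ hm hT hm2⟩, ψ, hψ, hT⟩
    · rintro ⟨ρ, hρ⟩ ⟨η, hη⟩ ⟨ρ', hρ'⟩ ⟨η', hη'⟩ ⟨ψ, hψ, hT⟩ ⟨ψ', hψ', hT'⟩
      simp only at hψ hψ' hT hT'
      constructor
      · rintro ⟨χ, T, h⟩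
        simp only at h
        obtain ⟨φ₀, h0, hχ⟩ := kc_char_of_hom D p hp hL χ
        have h1 := kcT_twist D χ φ₀ h0 hχ ρ' ψ' hT'
        have h2 : kcT D ρ (φ₀ + ψ') := by
          intro x
          rw [← h1 x, h, kcTwist_val, Matrix.trace_smul, Matrix.trace_smul]
          congr 2
          rw [Units.val_mul, Units.val_mul, Matrix.trace_mul_comm, ← Matrix.mul_assoc,
            ← Units.val_mul, inv_mul_cancel, Units.val_one, Matrix.one_mul]
        have h3 := kc_orbit_unique D ρ ψ (φ₀ + ψ') hρ hT h2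
        have h4 := kc_mem_orbit_self D ψ
        rw [h3] at h4
        obtain ⟨g, hg⟩ := h4
        refine ⟨g, fun x => ?_⟩
        simp only
        rw [← hψ, ← hψ', kcRes_apply, kcRes_apply, hg]
        show φ₀ (D.Ad g x) * ψ' (D.Ad g x) = ψ' (D.Ad g x)
        have h5 : φ₀ (D.Ad g x) = 1 := by
          have hmem := kc_Ad_mem D g x.2
          generalize D.Ad g (x : L) = z at hmem
          unfold KData.der at hmem
          induction hmem using AddSubgroup.closure_induction with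
          | mem z hz => obtain ⟨a, b, rfl⟩ := hz; exact h0 a b
          | zero => simp
          | add a b _ _ ha hb => rw [AddChar.map_add_eq_mul, ha, hb, one_mul]
          | neg a _ ha => rw [AddChar.map_neg_eq_inv, ha, inv_one]
        rw [h5, one_mul]
      · rintro ⟨g, hg⟩
        simp only at hg
        let ψ'' : AddChar L ℂ := ψ'.compAddMonoidHom (D.Ad g)
        have hψ'' : ψ'' ∈ D.orbit ψ' := ⟨g, fun x => rfl⟩
        let φ₀ : AddChar L ℂ := ψ - ψ''
        have h0 : ∀ y u, φ₀ (D.br y u) = 1 := by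
          intro y u
          have h1 := hg ⟨D.br y u, D.br_mem_der y u⟩
          rw [← hψ, ← hψ', kcRes_apply, kcRes_apply, kcDerAd_coe] at h1
          show (ψ - ψ'') (D.br y u) = 1
          rw [AddChar.sub_apply']
          show ψ (D.br y u) / ψ' (D.Ad g (D.br y u)) = 1
          simp only at h1
          rw [h1]
          exact div_self (AddChar.val_isUnit _ _).ne_zero
        obtain ⟨χ, hχ⟩ := kc_hom_of_char D p hp hL φ₀ h0
        have h1 := kcT_twist D χ φ₀ h0 hχ ρ' ψ' hT'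
        have h2 : D.orbit (φ₀ + ψ') = D.orbit ψ := by
          rw [kc_orbit_mul D φ₀ ψ' h0, ← kc_orbit_eq D hψ'', ← kc_orbit_mul D φ₀ ψ'' h0]
          congr 1
          exact sub_add_cancel ψ ψ''
        have hn' : (n : ℂ) ≠ 0 := by exact_mod_cast hρ.1.ne'
        have htr : ∀ g, Matrix.trace ((kcTwist χ ρ' g : GL (Fin n) ℂ) : Matrix (Fin n) (Fin n) ℂ) =
            Matrix.trace ((ρ g : GL (Fin n) ℂ) : Matrix (Fin n) (Fin n) ℂ) := by
          intro g
          obtain ⟨y, rfl⟩ := D.exp.surjective g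
          apply mul_left_cancel₀ hn'
          rw [h1 y, hT y, h2]
        have hne : ∑ g : H, Matrix.trace ((ρ g : GL (Fin n) ℂ) : Matrix (Fin n) (Fin n) ℂ) *
            Matrix.trace ((kcTwist χ ρ' g⁻¹ : GL (Fin n) ℂ) : Matrix (Fin n) (Fin n) ℂ) ≠ 0 := by
          rw [Finset.sum_congr rfl (fun g _ => by rw [htr g⁻¹]), kc_norm_one ρ hρ]
          exact kc_card_pos
        obtain ⟨f, hf⟩ := kc_exists_bij (kcTwist χ ρ') ρ (kcTwist_irred χ ρ' hρ') hρ hne
        obtain ⟨T, hTT⟩ := kc_conj (kcTwist χ ρ') ρ f hf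
        refine ⟨χ, T, fun g => ?_⟩
        simp only
        rw [hTT g, Units.val_mul, Units.val_mul, kcTwist_val, Units.val_mul, Units.val_mul,
          Matrix.mul_smul, Matrix.smul_mul]
  rw [hcard]
  have : Fintype B := Fintype.ofFinite B
  rw [kc_card_quot rB hrB, finsum_eq_sum_of_fintype]
  rw [← Finset.sum_filter]
  have hB : ∀ b : B, (1 / (Nat.card {b' // rB b b'} : ℚ)) = 1 / ((D.radB b.1).index : ℚ) := by
    intro b
    congr 2
    rw [← kc_orbit_D]
    have hmem : ∀ η' : AddChar D.der ℂ, (∃ g, ∀ x, η' x = b.1 (kcDerAd D g x)) →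
        (D.radA η').index = n ^ 2 := by
      rintro η' ⟨g, hg⟩
      obtain ⟨ψ, hψ⟩ := kc_res_surj D b.1
      have h1 : kcRes D (ψ.compAddMonoidHom (D.Ad g)) = η' := by
        ext x
        rw [hg, ← hψ]
        rfl
      have h2 : ψ.compAddMonoidHom (D.Ad g) ∈ D.orbit ψ := ⟨g, fun x => rfl⟩
      rw [← h1, ← kc_orbit_L, kc_orbit_eq D h2, kc_orbit_L, hψ]
      exact b.2
    apply Nat.card_congr
    refine ⟨fun b' => ⟨b'.1.1, ?_⟩, fun η' => ⟨⟨η'.1, hmem η'.1 η'.2⟩, ?_⟩, fun b' => rfl,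
      fun η' => rfl⟩
    · exact hrB.symm b'.2
    · obtain ⟨g, hg⟩ := η'.2
      exact ⟨g⁻¹, fun x => by
        show b.1 x = η'.1 _
        rw [hg, ← hAdm, mul_inv_cancel, hAd1]⟩
  rw [Finset.sum_congr rfl (fun b _ => hB b)]
  rw [Finset.sum_subtype (Finset.univ.filter fun η : AddChar D.der ℂ => (D.radA η).index = n ^ 2)
    (p := fun η => (D.radA η).index = n ^ 2) (fun x => by simp)]

end kc

section kir

variable {H L : Type} [Group H] [AddCommGroup L]

theorem kirCount [Finite H] [Finite L] (D : KData H L) (p : ℕ) (hp : p.Prime)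
    (hL : ∀ x : L, ∃ e : ℕ, p ^ e • x = 0) (n : ℕ) :
    (numTwist H n : ℚ) = ∑ᶠ ψ : AddChar D.der ℂ,
      if (D.radA ψ).index = n ^ 2 then (1 / ((D.radB ψ).index : ℚ)) else 0 :=
  kirCount_aux D p hp hL n

end kir

end

end MP8c80e8
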