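import Pool.Agent.Lib.MP_8c80e8_al.Iface

namespace MP8c80e8

noncomputable section

section kir
variable {H L : Type} [Group H] [AddCommGroup L]

/-- the coadjoint orbit of a character of `L`. -/
def KData.orbit (D : KData H L) (ψ : AddChar L ℂ) : Set (AddChar L ℂ) :=
  {ψ' | ∃ g : H, ∀ x, ψ' x = ψ (D.Ad g x)}

/-! ### Basic facts -/

theorem kirRep_br_anti (D : KData H L) (x y : L) : D.br x y = - D.br y x := by
  have h := D.br_self (x + y)
  simp only [map_add, AddMonoidHom.add_apply, D.br_self, zero_add, add_zero] at h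
  exact eq_neg_of_add_eq_zero_left (by rw [add_comm]; exact h)

theorem kirRep_exp_zero (D : KData H L) : D.exp 0 = 1 := by
  have h := D.exp_add 0 0 (by simp)
  rw [add_zero] at h
  exact (left_eq_mul.mp h)

theorem kirRep_exp_neg (D : KData H L) (x : L) : D.exp (-x) = (D.exp x)⁻¹ := by
  have h := D.exp_add x (-x) (by simp [D.br_self])
  rw [add_neg_cancel, kirRep_exp_zero] at h
  exact eq_inv_of_mul_eq_one_right h.symm

theorem kirRep_Ad_mul (D : KData H L) (g h : H) (x : L) :
    D.Ad (g * h) x = D.Ad g (D.Ad h x) := by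
  apply D.exp.injective
  rw [← D.conj, ← D.conj, ← D.conj]
  group

theorem kirRep_Ad_one (D : KData H L) (x : L) : D.Ad 1 x = x := by
  apply D.exp.injective
  rw [← D.conj]
  simp

theorem kirRep_iter_zero (D : KData H L) {y u : L} (h : D.br y u = 0) (j : ℕ) :
    (fun w => D.br y w)^[j + 1] u = 0 := by
  rw [Function.iterate_succ_apply]
  rw [h]
  induction j with
  | zero => rfl
  | succ j ih => rw [Function.iterate_succ_apply, map_zero, ih]

theorem kirRep_Ad_of_br (D : KData H L) {y u : L} (h : D.br y u = 0) :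
    D.Ad (D.exp y) u = u := by
  rw [D.Ad_exp]
  obtain ⟨d, hd⟩ : ∃ d, D.deg = d + 1 := ⟨D.deg - 1, by have := D.two_le; omega⟩
  rw [hd, Finset.sum_range_succ']
  rw [Finset.sum_eq_zero]
  · simp [D.coef_zero]
  · intro j _
    rw [kirRep_iter_zero D h, smul_zero]

theorem kirRep_Ad_of_br_br (D : KData H L) {y u : L} (h : D.br y (D.br y u) = 0) :
    D.Ad (D.exp y) u = u + D.br y u := by
  rw [D.Ad_exp]
  obtain ⟨d, hd⟩ : ∃ d, D.deg = d + 1 + 1 := ⟨D.deg - 2, by have := D.two_le; omega⟩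
  rw [hd, Finset.sum_range_succ', Finset.sum_range_succ']
  rw [Finset.sum_eq_zero]
  · simp [D.coef_zero, D.coef_one, add_comm]
  · intro j _
    have : (fun w => D.br y w)^[j + 1 + 1] u = (fun w => D.br y w)^[j + 1] (D.br y u) := by
      rw [Function.iterate_succ_apply]
    rw [this, kirRep_iter_zero D h, smul_zero]

/-- `Ad (exp y) u - u` lies in every additive subgroup containing `[y, u]` and stable under
`ad y`. -/
theorem kirRep_Ad_sub_mem (D : KData H L) {y u : L} (M : AddSubgroup L) (h : D.br y u ∈ M)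
    (hM : ∀ v ∈ M, D.br y v ∈ M) : D.Ad (D.exp y) u - u ∈ M := by
  rw [D.Ad_exp]
  obtain ⟨d, hd⟩ : ∃ d, D.deg = d + 1 := ⟨D.deg - 1, by have := D.two_le; omega⟩
  rw [hd, Finset.sum_range_succ']
  simp only [Function.iterate_zero, id, D.coef_zero, one_smul, add_sub_cancel_right]
  refine AddSubgroup.sum_mem _ fun j _ => AddSubgroup.zsmul_mem _ ?_ _
  rw [Function.iterate_succ_apply]
  have key : ∀ (j : ℕ) (w : L), w ∈ M → (fun w => D.br y w)^[j] w ∈ M := by
    intro j
    induction j with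
    | zero => intro w h; exact h
    | succ j ih =>
      intro w h
      rw [Function.iterate_succ_apply]
      exact ih _ (hM _ h)
  exact key j _ h

theorem kirRep_Ad_inv (D : KData H L) (g : H) (x : L) : D.Ad g⁻¹ (D.Ad g x) = x := by
  rw [← kirRep_Ad_mul, inv_mul_cancel, kirRep_Ad_one]

theorem kirRep_Ad_inv' (D : KData H L) (g : H) (x : L) : D.Ad g (D.Ad g⁻¹ x) = x := by
  rw [← kirRep_Ad_mul, mul_inv_cancel, kirRep_Ad_one]

theorem kirRep_Ad_central (D : KData H L) {z : L} (hz : ∀ y, D.br y z = 0) (g : H) :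
    D.Ad g z = z := by
  obtain ⟨y, rfl⟩ := D.exp.surjective g
  exact kirRep_Ad_of_br D (hz y)


/-! ### Restriction to a subring -/

/-- Kirillov data restricted to a subring `L₀` and the subgroup `H₀ = exp L₀`. -/
def kirRep_res (D : KData H L) (H₀ : Subgroup H) (L₀ : AddSubgroup L)
    (h : ∀ x, D.exp x ∈ H₀ ↔ x ∈ L₀) (hbr : ∀ x ∈ L₀, ∀ y ∈ L₀, D.br x y ∈ L₀) :
    KData H₀ L₀ where
  br := AddMonoidHom.mk' (fun x => AddMonoidHom.mk' (fun y => ⟨D.br x y, hbr x x.2 y y.2⟩)
      (by intro a b; ext; simp)) (by intro a b; ext; simp)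
  br_self := by intro x; ext; simp [D.br_self]
  jacobi := by intro x y z; ext; simpa using D.jacobi x y z
  nilp := by
    obtain ⟨c, hc⟩ := D.nilp
    refine ⟨c, fun xs x hx => ?_⟩
    have key : ∀ (xs : List L₀) (x : L₀), ((xs.foldr (fun (a b : L₀) =>
        (⟨D.br a b, hbr a a.2 b b.2⟩ : L₀)) x : L₀) : L) =
        (xs.map (fun a : L₀ => (a : L))).foldr (fun a b => D.br a b) (x : L) := by
      intro xs x
      induction xs with
      | nil => rfl
      | cons a xs ih => simp only [List.foldr_cons, List.map_cons, ih]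
    ext
    have := hc (xs.map (fun a : L₀ => (a : L))) (x : L) (by simpa using hx)
    rw [← key] at this
    exact this
  exp := D.exp.subtypeEquiv (fun x => (h x).symm)
  exp_add := by
    intro x z hxz
    ext
    have := D.exp_add x z (by simpa using congrArg Subtype.val hxz)
    simpa using this
  exp_mul := by
    intro x z M h0 h1 h2 h3
    obtain ⟨w, hw, hw'⟩ := D.exp_mul x z (M.map L₀.subtype)
      ⟨_, h0, rfl⟩
      (by rintro _ ⟨u, hu, rfl⟩; exact ⟨_, h1 u hu, rfl⟩)
      (by rintro _ ⟨u, hu, rfl⟩; exact ⟨_, h2 u hu, rfl⟩)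
      (by rintro _ ⟨u, hu, rfl⟩ _ ⟨v, hv, rfl⟩; exact ⟨_, h3 u hu v hv, rfl⟩)
    obtain ⟨w, hw, rfl⟩ := hw
    refine ⟨w, hw, ?_⟩
    ext
    simpa using hw'
  Ad := fun g => AddMonoidHom.mk' (fun x => ⟨D.Ad g x, by
      rw [← h, ← D.conj]
      exact H₀.mul_mem (H₀.mul_mem g.2 ((h x).2 x.2)) (H₀.inv_mem g.2)⟩)
      (by intro a b; ext; simp)
  conj := by
    intro g x
    ext
    simpa using D.conj g x
  coef := D.coef
  deg := D.deg
  coef_zero := D.coef_zero
  coef_one := D.coef_one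
  two_le := D.two_le
  Ad_exp := by
    intro y u
    ext
    have key : ∀ (j : ℕ) (u : L₀), (((fun w : L₀ => (⟨D.br y w, hbr y y.2 w w.2⟩ : L₀))^[j] u : L₀) : L)
        = (fun w => D.br y w)^[j] (u : L) := by
      intro j
      induction j with
      | zero => intro u; rfl
      | succ j ih => intro u; rw [Function.iterate_succ_apply, Function.iterate_succ_apply, ih]
    have := D.Ad_exp y u
    simp only [AddMonoidHom.mk'_apply, Equiv.subtypeEquiv_apply, AddSubgroup.val_finsetSum,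
      AddSubgroup.coe_zsmul]
    rw [this]
    exact Finset.sum_congr rfl fun j _ => by rw [← key j u]

@[simp] theorem kirRep_res_exp (D : KData H L) (H₀ : Subgroup H) (L₀ : AddSubgroup L)
    (h : ∀ x, D.exp x ∈ H₀ ↔ x ∈ L₀) (hbr : ∀ x ∈ L₀, ∀ y ∈ L₀, D.br x y ∈ L₀) (x : L₀) :
    (((kirRep_res D H₀ L₀ h hbr).exp x : H₀) : H) = D.exp x := rfl

@[simp] theorem kirRep_res_Ad (D : KData H L) (H₀ : Subgroup H) (L₀ : AddSubgroup L)
    (h : ∀ x, D.exp x ∈ H₀ ↔ x ∈ L₀) (hbr : ∀ x ∈ L₀, ∀ y ∈ L₀, D.br x y ∈ L₀) (g : H₀) (x : L₀) :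
    (((kirRep_res D H₀ L₀ h hbr).Ad g x : L₀) : L) = D.Ad g x := rfl

/-! ### Quotients by central subgroups -/

/-- `exp I` for `I` central -/
def kirRep_expI (D : KData H L) (I : AddSubgroup L) (hI : ∀ z ∈ I, ∀ y, D.br y z = 0) :
    Subgroup H where
  carrier := {g | D.exp.symm g ∈ I}
  one_mem' := by
    have : D.exp.symm 1 = 0 := by rw [Equiv.symm_apply_eq, kirRep_exp_zero]
    simp [this]
  mul_mem' := by
    intro a b ha hb
    have : D.exp.symm (a * b) = D.exp.symm a + D.exp.symm b := by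
      rw [Equiv.symm_apply_eq, D.exp_add _ _ (hI _ hb _)]
      simp
    simp only [Set.mem_ofPred_eq] at *
    rw [this]
    exact I.add_mem ha hb
  inv_mem' := by
    intro a ha
    have : D.exp.symm a⁻¹ = - D.exp.symm a := by
      rw [Equiv.symm_apply_eq, kirRep_exp_neg]
      simp
    simp only [Set.mem_ofPred_eq] at *
    rw [this]
    exact I.neg_mem ha

theorem kirRep_mem_expI (D : KData H L) (I : AddSubgroup L) (hI : ∀ z ∈ I, ∀ y, D.br y z = 0)
    (x : L) : D.exp x ∈ kirRep_expI D I hI ↔ x ∈ I := by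
  change D.exp.symm (D.exp x) ∈ I ↔ x ∈ I
  simp

theorem kirRep_expI_normal (D : KData H L) (I : AddSubgroup L)
    (hI : ∀ z ∈ I, ∀ y, D.br y z = 0) : (kirRep_expI D I hI).Normal := by
  constructor
  intro n hn g
  obtain ⟨x, rfl⟩ := D.exp.surjective n
  rw [D.conj, kirRep_mem_expI]
  rw [kirRep_mem_expI] at hn
  rw [kirRep_Ad_central D (hI x hn)]
  exact hn


theorem kirRep_quot_exp_rel (D : KData H L) (I : AddSubgroup L)
    (hI : ∀ z ∈ I, ∀ y, D.br y z = 0) (a b : L) :
    -a + b ∈ I ↔ (D.exp a)⁻¹ * D.exp b ∈ kirRep_expI D I hI := by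
  constructor
  · intro h
    have : D.exp b = D.exp a * D.exp (-a + b) := by
      rw [← D.exp_add _ _ (hI _ h a)]
      congr 1
      abel
    rw [this, inv_mul_cancel_left, kirRep_mem_expI]
    exact h
  · intro h
    obtain ⟨z, hz⟩ := D.exp.surjective ((D.exp a)⁻¹ * D.exp b)
    rw [← hz, kirRep_mem_expI] at h
    have : D.exp b = D.exp (a + z) := by
      rw [D.exp_add _ _ (hI _ h a), hz, mul_inv_cancel_left]
    have := D.exp.injective this
    rw [this, neg_add_cancel_left]
    exact h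

theorem kirRep_Ad_expI (D : KData H L) (I : AddSubgroup L)
    (hI : ∀ z ∈ I, ∀ y, D.br y z = 0) {g : H} (hg : g ∈ kirRep_expI D I hI) (x : L) :
    D.Ad g x = x := by
  obtain ⟨z, rfl⟩ := D.exp.surjective g
  rw [kirRep_mem_expI] at hg
  exact kirRep_Ad_of_br D (by rw [kirRep_br_anti, hI z hg, neg_zero])

/-- the bracket of the quotient -/
def kirRep_qbr (D : KData H L) (I : AddSubgroup L) (hI : ∀ z ∈ I, ∀ y, D.br y z = 0) :
    (L ⧸ I) →+ (L ⧸ I) →+ (L ⧸ I) :=
  QuotientAddGroup.lift I (AddMonoidHom.mk' (fun x =>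
      QuotientAddGroup.lift I ((QuotientAddGroup.mk' I).comp (D.br x)) (by
        intro z hz
        simp [AddMonoidHom.mem_ker, hI z hz x]))
      (by
        intro a b
        ext y
        simp)) (by
        intro z hz
        rw [AddMonoidHom.mem_ker]
        ext y
        simp [kirRep_br_anti D z y, hI z hz y])

theorem kirRep_qbr_mk (D : KData H L) (I : AddSubgroup L) (hI : ∀ z ∈ I, ∀ y, D.br y z = 0)
    (x y : L) : kirRep_qbr D I hI (x : L ⧸ I) (y : L ⧸ I) = ((D.br x y : L) : L ⧸ I) := rfl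

/-- the exponential of the quotient -/
def kirRep_qexp (D : KData H L) (I : AddSubgroup L) (hI : ∀ z ∈ I, ∀ y, D.br y z = 0)
    [hN : (kirRep_expI D I hI).Normal] : (L ⧸ I) ≃ (H ⧸ kirRep_expI D I hI) :=
  Quotient.congr D.exp (by
    intro a b
    rw [QuotientAddGroup.leftRel_apply]
    refine (kirRep_quot_exp_rel D I hI a b).trans ?_
    rw [← QuotientGroup.leftRel_apply])

theorem kirRep_qexp_mk (D : KData H L) (I : AddSubgroup L) (hI : ∀ z ∈ I, ∀ y, D.br y z = 0)
    [hN : (kirRep_expI D I hI).Normal] (x : L) :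
    kirRep_qexp D I hI (x : L ⧸ I) = ((D.exp x : H) : H ⧸ kirRep_expI D I hI) := rfl

/-- the adjoint action of the quotient -/
def kirRep_qAd (D : KData H L) (I : AddSubgroup L) (hI : ∀ z ∈ I, ∀ y, D.br y z = 0)
    (g : H ⧸ kirRep_expI D I hI) : (L ⧸ I) →+ (L ⧸ I) :=
  QuotientAddGroup.map I I (D.Ad g.out) (by
    intro z hz
    rw [AddSubgroup.mem_comap, kirRep_Ad_central D (hI z hz)]
    exact hz)

theorem kirRep_qAd_mk (D : KData H L) (I : AddSubgroup L) (hI : ∀ z ∈ I, ∀ y, D.br y z = 0)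
    (g : H) (x : L) :
    kirRep_qAd D I hI (g : H ⧸ kirRep_expI D I hI) (x : L ⧸ I) = ((D.Ad g x : L) : L ⧸ I) := by
  obtain ⟨n, hn⟩ := QuotientGroup.mk_out_eq_mul (kirRep_expI D I hI) g
  change ((D.Ad (Quotient.out (g : H ⧸ kirRep_expI D I hI)) x : L) : L ⧸ I) = _
  rw [hn, kirRep_Ad_mul, kirRep_Ad_expI D I hI n.2]

theorem kirRep_qbr_iter (D : KData H L) (I : AddSubgroup L) (hI : ∀ z ∈ I, ∀ y, D.br y z = 0)
    (y : L) (j : ℕ) (u : L) :
    (fun w => kirRep_qbr D I hI (y : L ⧸ I) w)^[j] (u : L ⧸ I) =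
      (((fun w => D.br y w)^[j] u : L) : L ⧸ I) := by
  induction j generalizing u with
  | zero => rfl
  | succ j ih => rw [Function.iterate_succ_apply, Function.iterate_succ_apply, kirRep_qbr_mk, ih]

/-- The quotient Kirillov data `(H / exp I, L / I)`, `I` central. -/
def kirRep_quot (D : KData H L) (I : AddSubgroup L) (hI : ∀ z ∈ I, ∀ y, D.br y z = 0)
    [hN : (kirRep_expI D I hI).Normal] : KData (H ⧸ kirRep_expI D I hI) (L ⧸ I) where
  br := kirRep_qbr D I hI
  br_self := by
    intro x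
    obtain ⟨x, rfl⟩ := QuotientAddGroup.mk_surjective x
    rw [kirRep_qbr_mk, D.br_self, QuotientAddGroup.mk_zero]
  jacobi := by
    intro x y z
    obtain ⟨x, rfl⟩ := QuotientAddGroup.mk_surjective x
    obtain ⟨y, rfl⟩ := QuotientAddGroup.mk_surjective y
    obtain ⟨z, rfl⟩ := QuotientAddGroup.mk_surjective z
    simp only [kirRep_qbr_mk]
    rw [D.jacobi x y z, QuotientAddGroup.mk_add]
  nilp := by
    obtain ⟨c, hc⟩ := D.nilp
    refine ⟨c, fun xs x hx => ?_⟩
    obtain ⟨x, rfl⟩ := QuotientAddGroup.mk_surjective x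
    have key : ∀ (xs : List L), (xs.map (fun a : L => (a : L ⧸ I))).foldr
        (fun a b => kirRep_qbr D I hI a b) (x : L ⧸ I) =
        ((xs.foldr (fun a b => D.br a b) x : L) : L ⧸ I) := by
      intro xs
      induction xs with
      | nil => rfl
      | cons a xs ih => rw [List.map_cons, List.foldr_cons, ih, kirRep_qbr_mk, List.foldr_cons]
    obtain ⟨ys, rfl⟩ : ∃ ys : List L, ys.map (fun a : L => (a : L ⧸ I)) = xs := by
      refine ⟨xs.map Quotient.out, ?_⟩
      rw [List.map_map]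
      conv_rhs => rw [← List.map_id xs]
      refine List.map_congr_left fun a _ => ?_
      simp
    rw [key, hc ys x (by simpa using hx), QuotientAddGroup.mk_zero]
  exp := kirRep_qexp D I hI
  exp_add := by
    intro x z hxz
    obtain ⟨x, rfl⟩ := QuotientAddGroup.mk_surjective x
    obtain ⟨z, rfl⟩ := QuotientAddGroup.mk_surjective z
    rw [kirRep_qbr_mk, QuotientAddGroup.eq_zero_iff] at hxz
    obtain ⟨w, hw, hw'⟩ := D.exp_mul x z I hxz (fun u hu => by rw [hI u hu]; exact I.zero_mem)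
      (fun u hu => by rw [hI u hu]; exact I.zero_mem) (fun u hu v hv => by
        rw [hI v hv]; exact I.zero_mem)
    rw [← QuotientAddGroup.mk_add, kirRep_qexp_mk, kirRep_qexp_mk, kirRep_qexp_mk,
      ← QuotientGroup.mk_mul, hw', D.exp_add _ _ (hI w hw _), QuotientGroup.mk_mul,
      (QuotientGroup.eq_one_iff (D.exp w)).mpr ((kirRep_mem_expI D I hI w).mpr hw), mul_one]
  exp_mul := by
    intro x z M h0 h1 h2 h3
    obtain ⟨x, rfl⟩ := QuotientAddGroup.mk_surjective x
    obtain ⟨z, rfl⟩ := QuotientAddGroup.mk_surjective z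
    obtain ⟨w, hw, hw'⟩ := D.exp_mul x z (M.comap (QuotientAddGroup.mk' I)) h0
      (fun u hu => h1 _ hu) (fun u hu => h2 _ hu) (fun u hu v hv => h3 _ hu _ hv)
    refine ⟨(w : L ⧸ I), hw, ?_⟩
    rw [← QuotientAddGroup.mk_add, ← QuotientAddGroup.mk_add, kirRep_qexp_mk, kirRep_qexp_mk,
      kirRep_qexp_mk, ← QuotientGroup.mk_mul, hw']
  Ad := kirRep_qAd D I hI
  conj := by
    intro g x
    obtain ⟨g, rfl⟩ := QuotientGroup.mk_surjective g
    obtain ⟨x, rfl⟩ := QuotientAddGroup.mk_surjective x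
    rw [kirRep_qAd_mk, kirRep_qexp_mk, kirRep_qexp_mk, ← D.conj]
    rfl
  coef := D.coef
  deg := D.deg
  coef_zero := D.coef_zero
  coef_one := D.coef_one
  two_le := D.two_le
  Ad_exp := by
    intro y u
    obtain ⟨y, rfl⟩ := QuotientAddGroup.mk_surjective y
    obtain ⟨u, rfl⟩ := QuotientAddGroup.mk_surjective u
    rw [kirRep_qexp_mk, kirRep_qAd_mk, D.Ad_exp]
    simp only [kirRep_qbr_iter]
    exact map_sum (QuotientAddGroup.mk' I) _ _

/-! ### Orbits and stabilisers -/

/-- the stabiliser of `ψ` -/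
def kirRep_stab (D : KData H L) (ψ : AddChar L ℂ) : Subgroup H where
  carrier := {g | ∀ x, ψ (D.Ad g x) = ψ x}
  one_mem' := by intro x; rw [kirRep_Ad_one]
  mul_mem' := by
    intro a b ha hb x
    rw [kirRep_Ad_mul, ha, hb]
  inv_mem' := by
    intro a ha x
    rw [← ha (D.Ad a⁻¹ x), kirRep_Ad_inv']

theorem kirRep_mem_stab (D : KData H L) (ψ : AddChar L ℂ) (g : H) :
    g ∈ kirRep_stab D ψ ↔ ∀ x, ψ (D.Ad g x) = ψ x := Iff.rfl

/-- `ψ ∘ Ad g` -/
def kirRep_tr (D : KData H L) (ψ : AddChar L ℂ) (g : H) : AddChar L ℂ :=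
  ψ.compAddMonoidHom (D.Ad g)

theorem kirRep_tr_apply (D : KData H L) (ψ : AddChar L ℂ) (g : H) (x : L) :
    kirRep_tr D ψ g x = ψ (D.Ad g x) := rfl

theorem kirRep_mem_orbit (D : KData H L) (ψ ψ' : AddChar L ℂ) :
    ψ' ∈ D.orbit ψ ↔ ∃ g, kirRep_tr D ψ g = ψ' := by
  constructor
  · rintro ⟨g, hg⟩
    exact ⟨g, by ext x; rw [hg, kirRep_tr_apply]⟩
  · rintro ⟨g, rfl⟩
    exact ⟨g, fun x => rfl⟩

theorem kirRep_sum_orbit [Finite H] [Finite L] (D : KData H L) (ψ : AddChar L ℂ)
    (F : AddChar L ℂ → ℂ) :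
    ∑ᶠ g : H, F (kirRep_tr D ψ g) =
      (Nat.card (kirRep_stab D ψ) : ℂ) * ∑ᶠ ψ' ∈ D.orbit ψ, F ψ' := by
  classical
  have : Fintype H := Fintype.ofFinite H
  rw [finsum_eq_sum_of_fintype]
  rw [Finset.sum_comp F (kirRep_tr D ψ)]
  have h1 : D.orbit ψ = ((Finset.univ.image (kirRep_tr D ψ) : Finset _) : Set (AddChar L ℂ)) := by
    ext ψ'
    rw [kirRep_mem_orbit]
    simp
  rw [h1, finsum_mem_coe_finset, Finset.mul_sum]
  refine Finset.sum_congr rfl fun b hb => ?_
  obtain ⟨g₀, -, rfl⟩ := Finset.mem_image.mp hb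
  rw [nsmul_eq_mul]
  congr 2
  rw [← Fintype.card_subtype, ← Nat.card_eq_fintype_card]
  refine Nat.card_congr
    { toFun := fun a => ⟨a.1 * g₀⁻¹, fun x => ?_⟩
      invFun := fun s => ⟨s.1 * g₀, ?_⟩
      left_inv := fun a => by ext; simp
      right_inv := fun s => by ext; simp }
  · rw [kirRep_Ad_mul]
    have := DFunLike.congr_fun a.2 (D.Ad g₀⁻¹ x)
    rw [kirRep_tr_apply, kirRep_tr_apply, kirRep_Ad_inv'] at this
    exact this
  · ext x
    rw [kirRep_tr_apply, kirRep_tr_apply, kirRep_Ad_mul, s.2 (D.Ad g₀ x)]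

theorem kirRep_card_orbit [Finite H] [Finite L] (D : KData H L) (ψ : AddChar L ℂ) :
    Nat.card (D.orbit ψ) = (kirRep_stab D ψ).index := by
  classical
  have : Fintype H := Fintype.ofFinite H
  have h1 := kirRep_sum_orbit D ψ (fun _ => 1)
  have h2 : (∑ᶠ ψ' ∈ D.orbit ψ, (1 : ℂ)) = Nat.card (D.orbit ψ) := by
    rw [finsum_mem_eq_finite_toFinset_sum _ (Set.toFinite _), Finset.sum_const, nsmul_eq_mul,
      mul_one, Nat.card_coe_set_eq, Set.ncard_eq_toFinset_card _ (Set.toFinite _)]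
  rw [h2, finsum_eq_sum_of_fintype, Finset.sum_const, nsmul_eq_mul, mul_one,
    Finset.card_univ, ← Nat.card_eq_fintype_card,
    ← (kirRep_stab D ψ).card_mul_index] at h1
  have h3 : Nat.card (kirRep_stab D ψ) * (kirRep_stab D ψ).index =
      Nat.card (kirRep_stab D ψ) * Nat.card (D.orbit ψ) := by exact_mod_cast h1
  exact (Nat.eq_of_mul_eq_mul_left Nat.card_pos h3).symm

/-- the induction predicate -/
def kirRep_good (D : KData H L) (ψ : AddChar L ℂ) : Prop :=
  ∃ (n : ℕ) (ρ : H →* GL (Fin n) ℂ), 0 < n ∧ n ^ 2 = (kirRep_stab D ψ).index ∧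
    ∀ x : L, (Nat.card H : ℂ) *
      Matrix.trace ((ρ (D.exp x) : GL (Fin n) ℂ) : Matrix (Fin n) (Fin n) ℂ) =
        n * ∑ᶠ g : H, ψ (D.Ad g x)

theorem kirRep_of_good [Finite H] [Finite L] (D : KData H L) (ψ : AddChar L ℂ)
    (h : kirRep_good D ψ) :
    ∃ (n : ℕ) (ρ : H →* GL (Fin n) ℂ), 0 < n ∧ n ^ 2 = Nat.card (D.orbit ψ) ∧
      ∀ x : L, (n : ℂ) * Matrix.trace ((ρ (D.exp x) : GL (Fin n) ℂ) : Matrix (Fin n) (Fin n) ℂ) =
        ∑ᶠ ψ' ∈ D.orbit ψ, ψ' x := by
  obtain ⟨n, ρ, hn, hn2, hρ⟩ := h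
  refine ⟨n, ρ, hn, by rw [kirRep_card_orbit, hn2], fun x => ?_⟩
  have h1 := hρ x
  have h2 := kirRep_sum_orbit D ψ (fun ψ' => ψ' x)
  simp only [kirRep_tr_apply] at h2
  rw [h2, ← (kirRep_stab D ψ).card_mul_index, ← hn2] at h1
  have h3 : (Nat.card (kirRep_stab D ψ) : ℂ) ≠ 0 := by exact_mod_cast Nat.card_pos.ne'
  have h4 : (n : ℂ) ≠ 0 := by exact_mod_cast hn.ne'
  apply mul_left_cancel₀ (mul_ne_zero h3 h4)
  push_cast at h1
  linear_combination h1

/-! ### Case A: `L` abelian -/

theorem kirRep_caseA [Finite H] [Finite L] (D : KData H L) (ψ : AddChar L ℂ)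
    (hab : ∀ x y, D.br x y = 0) : kirRep_good D ψ := by
  classical
  have hAd : ∀ g x, D.Ad g x = x := fun g x => kirRep_Ad_central D (fun y => hab y x) g
  let f : H →* ℂ :=
    { toFun := fun g => ψ (D.exp.symm g)
      map_one' := by
        have : D.exp.symm 1 = 0 := by rw [Equiv.symm_apply_eq, kirRep_exp_zero]
        rw [this, AddChar.map_zero_eq_one]
      map_mul' := by
        intro a b
        have : D.exp.symm (a * b) = D.exp.symm a + D.exp.symm b := by
          rw [Equiv.symm_apply_eq, D.exp_add _ _ (hab _ _)]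
          simp
        rw [this, AddChar.map_add_eq_mul] }
  let R : H →* Matrix (Fin 1) (Fin 1) ℂ := (Matrix.scalar (Fin 1)).toMonoidHom.comp f
  refine ⟨1, R.toHomUnits, one_pos, ?_, fun x => ?_⟩
  · have : kirRep_stab D ψ = ⊤ := by
      ext g
      simp [kirRep_mem_stab, hAd]
    rw [this, Subgroup.index_top, one_pow]
  · have : Fintype H := Fintype.ofFinite H
    rw [finsum_eq_sum_of_fintype]
    simp only [hAd, Finset.sum_const, Nat.cast_one, one_mul, nsmul_eq_mul, Finset.card_univ]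
    rw [Nat.card_eq_fintype_card]
    congr 1
    change Matrix.trace (Matrix.scalar (Fin 1) (ψ (D.exp.symm (D.exp x)))) = _
    simp

/-! ### Case B: a central kernel -/

theorem kirRep_sum_cosets {H : Type} [Group H] [Finite H] (N : Subgroup H) (F : H → ℂ) :
    ∑ᶠ g : H, F g = ∑ᶠ i : H ⧸ N, ∑ᶠ h : N, F (i.out * h) := by
  classical
  have : Fintype H := Fintype.ofFinite H
  have : Fintype N := Fintype.ofFinite N
  have : Fintype (H ⧸ N) := Fintype.ofFinite (H ⧸ N)
  simp only [finsum_eq_sum_of_fintype]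
  rw [← Fintype.sum_prod_type' (fun (i : H ⧸ N) (h : N) => F (i.out * h))]
  symm
  refine Fintype.sum_bijective (fun p : (H ⧸ N) × N => p.1.out * (p.2 : H)) ⟨?_, ?_⟩ _ _ ?_
  · rintro ⟨i, h⟩ ⟨j, h'⟩ heq
    simp only at heq
    have h1 : ((i.out * (h : H) : H) : H ⧸ N) = i := by
      rw [QuotientGroup.mk_mul_of_mem _ h.2]; simp
    have h2 : ((j.out * (h' : H) : H) : H ⧸ N) = j := by
      rw [QuotientGroup.mk_mul_of_mem _ h'.2]; simp
    have hij : i = j := by rw [← h1, ← h2, heq]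
    subst hij
    rw [mul_left_cancel_iff] at heq
    rw [Subtype.ext heq]
  · intro g
    obtain ⟨n, hn⟩ := QuotientGroup.mk_out_eq_mul N g
    refine ⟨((g : H ⧸ N), n⁻¹), ?_⟩
    simp only [InvMemClass.coe_inv]
    rw [hn, mul_inv_cancel_right]
  · intro x
    rfl

theorem kirRep_caseB [Finite H] [Finite L] (D : KData H L) (ψ : AddChar L ℂ)
    (I : AddSubgroup L) (hI : ∀ z ∈ I, ∀ y, D.br y z = 0)
    [hN : (kirRep_expI D I hI).Normal] (ψ' : AddChar (L ⧸ I) ℂ)
    (hψ' : ∀ x : L, ψ' (x : L ⧸ I) = ψ x)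
    (hgood : kirRep_good (kirRep_quot D I hI) ψ') : kirRep_good D ψ := by
  classical
  obtain ⟨n, ρ, hn, hn2, hρ⟩ := hgood
  refine ⟨n, ρ.comp (QuotientGroup.mk' _), hn, ?_, fun x => ?_⟩
  · rw [hn2]
    have : kirRep_stab D ψ = (kirRep_stab (kirRep_quot D I hI) ψ').comap (QuotientGroup.mk' _) := by
      ext g
      rw [Subgroup.mem_comap, kirRep_mem_stab, kirRep_mem_stab]
      constructor
      · intro h x
        obtain ⟨x, rfl⟩ := QuotientAddGroup.mk_surjective x
        change ψ' (kirRep_qAd D I hI (g : H ⧸ kirRep_expI D I hI) (x : L ⧸ I)) = _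
        rw [kirRep_qAd_mk, hψ', hψ', h]
      · intro h x
        have h' := h (x : L ⧸ I)
        change ψ' (kirRep_qAd D I hI (g : H ⧸ kirRep_expI D I hI) (x : L ⧸ I)) = _ at h'
        rw [kirRep_qAd_mk, hψ', hψ'] at h'
        exact h'
    rw [this, Subgroup.index_comap_of_surjective _ (QuotientGroup.mk'_surjective _)]
  · have h1 := hρ (x : L ⧸ I)
    have h2 : ∑ᶠ g : H, ψ (D.Ad g x) = (Nat.card (kirRep_expI D I hI) : ℂ) *
        ∑ᶠ g : H ⧸ kirRep_expI D I hI, ψ' ((kirRep_quot D I hI).Ad g (x : L ⧸ I)) := by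
      rw [kirRep_sum_cosets (kirRep_expI D I hI), mul_finsum]
      refine finsum_congr fun i => ?_
      have : ∀ h : kirRep_expI D I hI, ψ (D.Ad (i.out * (h : H)) x) =
          ψ' ((kirRep_quot D I hI).Ad i (x : L ⧸ I)) := by
        intro h
        rw [kirRep_Ad_mul, kirRep_Ad_expI D I hI h.2, ← hψ']
        rfl
      simp only [this]
      have : Fintype (kirRep_expI D I hI) := Fintype.ofFinite _
      rw [finsum_eq_sum_of_fintype, Finset.sum_const, nsmul_eq_mul, Finset.card_univ,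
        Nat.card_eq_fintype_card]
    rw [h2, (kirRep_expI D I hI).card_eq_card_quotient_mul_card_subgroup]
    push_cast
    have h3 : (ρ.comp (QuotientGroup.mk' _)) (D.exp x) =
      ρ ((kirRep_quot D I hI).exp (x : L ⧸ I)) := rfl
    rw [h3]
    linear_combination (Nat.card (kirRep_expI D I hI) : ℂ) * h1

/-- block matrices of an induced representation -/
theorem kirRep_ind {H : Type} [Group H] [Finite H] (H₀ : Subgroup H) (n₀ : ℕ)
    (ρ₀ : H₀ →* GL (Fin n₀) ℂ) :
    ∃ (ρ : H →* GL (Fin (H₀.index * n₀)) ℂ), ∀ h : H,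
      Matrix.trace ((ρ h : GL (Fin (H₀.index * n₀)) ℂ) : Matrix (Fin (H₀.index * n₀)) (Fin (H₀.index * n₀)) ℂ) =
        ∑ᶠ i : H ⧸ H₀, open Classical in if hh : (i.out)⁻¹ * h * i.out ∈ H₀ then
          Matrix.trace ((ρ₀ ⟨_, hh⟩ : GL (Fin n₀) ℂ) : Matrix (Fin n₀) (Fin n₀) ℂ) else 0 := by
  classical
  have : Fintype (H ⧸ H₀) := Fintype.ofFinite _
  let M : H →* Matrix (H ⧸ H₀) (H ⧸ H₀) (Matrix (Fin n₀) (Fin n₀) ℂ) :=
    { toFun := fun h => Matrix.of fun i j => if hh : (i.out)⁻¹ * h * j.out ∈ H₀ then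
          ((ρ₀ ⟨_, hh⟩ : GL (Fin n₀) ℂ) : Matrix (Fin n₀) (Fin n₀) ℂ) else 0
      map_one' := by
        ext1 i j
        rw [Matrix.of_apply, Matrix.one_apply]
        by_cases hij : i = j
        · subst hij
          have h1 : (i.out)⁻¹ * 1 * i.out = 1 := by group
          rw [dif_pos (by rw [h1]; exact H₀.one_mem), if_pos rfl]
          have : (⟨(i.out)⁻¹ * 1 * i.out, by rw [h1]; exact H₀.one_mem⟩ : H₀) = 1 := by
            ext; exact h1
          rw [this, map_one]
          rfl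
        · rw [if_neg hij, dif_neg]
          intro h
          apply hij
          rw [mul_one, ← QuotientGroup.eq] at h
          simpa using h
      map_mul' := by
        intro g h
        ext1 i k
        rw [Matrix.of_apply, Matrix.mul_apply]
        have key : ∀ j : H ⧸ H₀, (j.out)⁻¹ * h * k.out ∈ H₀ ↔ j = ((h * k.out : H) : H ⧸ H₀) := by
          intro j
          rw [mul_assoc, ← QuotientGroup.eq]
          simp
        rw [Finset.sum_eq_single ((h * k.out : H) : H ⧸ H₀)]
        · set j : H ⧸ H₀ := ((h * k.out : H) : H ⧸ H₀) with hj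
          have h2 : (j.out)⁻¹ * h * k.out ∈ H₀ := (key j).mpr rfl
          simp only [Matrix.of_apply]
          rw [dif_pos h2]
          have h3 : i.out⁻¹ * (g * h) * k.out = (i.out⁻¹ * g * j.out) * (j.out⁻¹ * h * k.out) := by
            group
          by_cases h1 : i.out⁻¹ * g * j.out ∈ H₀
          · rw [dif_pos h1, dif_pos (by rw [h3]; exact H₀.mul_mem h1 h2)]
            have : (⟨i.out⁻¹ * (g * h) * k.out, by rw [h3]; exact H₀.mul_mem h1 h2⟩ : H₀) =
                ⟨_, h1⟩ * ⟨_, h2⟩ := by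
              ext; exact h3
            rw [this, map_mul]
            rfl
          · rw [dif_neg h1, dif_neg, zero_mul]
            intro h4
            apply h1
            rw [h3] at h4
            exact (H₀.mul_mem_cancel_right h2).mp h4
        · intro j _ hj
          simp only [Matrix.of_apply]
          rw [dif_neg (fun h' => hj ((key j).mp h')), mul_zero]
        · intro h'
          exact absurd (Finset.mem_univ _) h' }
  have hcard : Fintype.card ((H ⧸ H₀) × Fin n₀) = H₀.index * n₀ := by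
    rw [Fintype.card_prod, Fintype.card_fin, ← Nat.card_eq_fintype_card]
    rfl
  let e : (H ⧸ H₀) × Fin n₀ ≃ Fin (H₀.index * n₀) := Fintype.equivFinOfCardEq hcard
  let R : H →* Matrix (Fin (H₀.index * n₀)) (Fin (H₀.index * n₀)) ℂ :=
    ((Matrix.reindexAlgEquiv ℂ ℂ e).toRingEquiv.toRingHom.comp
      (Matrix.compRingEquiv (H ⧸ H₀) (Fin n₀) ℂ).toRingHom).toMonoidHom.comp M
  refine ⟨R.toHomUnits, fun h => ?_⟩
  rw [finsum_eq_sum_of_fintype]
  change Matrix.trace (R h) = _
  change Matrix.trace (Matrix.reindex e e (Matrix.comp _ _ _ _ _ (M h))) = _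
  rw [Matrix.trace]
  rw [← e.sum_comp]
  simp only [Matrix.diag_apply, Matrix.reindex_apply, Matrix.submatrix_apply, Equiv.symm_apply_apply]
  rw [Fintype.sum_prod_type]
  refine Finset.sum_congr rfl fun i _ => ?_
  change ∑ a, (M h i i) a a = _
  change Matrix.trace (M h i i) = _
  change Matrix.trace (if hh : (i.out)⁻¹ * h * i.out ∈ H₀ then
          ((ρ₀ ⟨_, hh⟩ : GL (Fin n₀) ℂ) : Matrix (Fin n₀) (Fin n₀) ℂ) else 0) = _
  split_ifs
  · rfl
  · simp

/-! ### Case C: the inductive step -/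

/-- a nontrivial homomorphism with values in the `p`-th roots of unity has kernel of index `p` -/
theorem kirRep_index_ker {G : Type} [Group G] (p : ℕ) (hp : p.Prime) (f : G →* ℂ)
    (h1 : ∀ g, f g ^ p = 1) (g₀ : G) (h2 : f g₀ ≠ 1) : f.ker.index = p := by
  have : NeZero p := ⟨hp.ne_zero⟩
  have hf : Fact p.Prime := ⟨hp⟩
  rw [← MonoidHom.ker_toHomUnits, Subgroup.index_ker]
  have hle : f.toHomUnits.range ≤ rootsOfUnity p ℂ := by
    rintro _ ⟨g, rfl⟩
    rw [mem_rootsOfUnity]
    ext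
    simpa using h1 g
  have hcard : Nat.card (rootsOfUnity p ℂ) = p := Complex.card_rootsOfUnity p
  have hdvd : Nat.card f.toHomUnits.range ∣ p := by
    rw [← hcard]
    exact Subgroup.card_dvd_of_le hle
  rcases (Nat.dvd_prime hp).mp hdvd with h | h
  · exfalso
    rw [Subgroup.card_eq_one] at h
    have : f.toHomUnits g₀ = 1 := by
      rw [← Subgroup.mem_bot, ← h]
      exact ⟨g₀, rfl⟩
    apply h2
    have := congrArg Units.val this
    simpa using this
  · exact h

theorem kirRep_exists_x (D : KData H L) (p : ℕ)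
    (hL : ∀ x : L, ∃ e : ℕ, p ^ e • x = 0) (hab : ∃ x y, D.br x y ≠ 0) :
    ∃ x, (∀ y b, D.br y (D.br b x) = 0) ∧ (∃ a, D.br a x ≠ 0) ∧ (∀ y, D.br y (p • x) = 0) := by
  classical
  obtain ⟨a₁, b₁, hab⟩ := hab
  -- an element of the second centre which is not central
  obtain ⟨u, hu1, hu2⟩ : ∃ u, (∀ y b, D.br y (D.br b u) = 0) ∧ (∃ a, D.br a u ≠ 0) := by
    have hP := D.nilp
    set c := Nat.find hP with hc
    have hcs := Nat.find_spec hP
    rw [← hc] at hcs
    have h2 : 2 ≤ c := by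
      by_contra hlt
      have := hcs [a₁] b₁ (by simp; omega)
      exact hab this
    obtain ⟨c', hc'⟩ : ∃ c', c = c' + 2 := ⟨c - 2, by omega⟩
    have hnot := Nat.find_min hP (m := c' + 1) (by omega)
    push Not at hnot
    obtain ⟨xs, x, hlen, hne⟩ := hnot
    have hlen' : xs.length = c' + 1 := by
      by_contra hne'
      exact hne (hcs xs x (by omega))
    obtain ⟨a, ys, rfl⟩ : ∃ a ys, xs = a :: ys := by
      cases xs with
      | nil => simp at hlen'
      | cons a ys => exact ⟨a, ys, rfl⟩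
    refine ⟨ys.foldr (fun a b => D.br a b) x, fun y b => ?_, a, hne⟩
    exact hcs (y :: b :: ys) x (by simp at hlen' ⊢; omega)
  have hex : ∃ e : ℕ, ∀ y, D.br y (p ^ e • u) = 0 := by
    obtain ⟨e, he⟩ := hL u
    exact ⟨e, fun y => by rw [he, map_zero]⟩
  obtain ⟨a, ha⟩ := hu2
  have h0 : Nat.find hex ≠ 0 := by
    intro h0
    have := Nat.find_spec hex a
    rw [h0, pow_zero, one_smul] at this
    exact ha this
  obtain ⟨e, he⟩ : ∃ e, Nat.find hex = e + 1 := ⟨Nat.find hex - 1, by omega⟩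
  have hmin := Nat.find_min hex (m := e) (by omega)
  have hspec := Nat.find_spec hex
  rw [he] at hspec
  push Not at hmin
  refine ⟨p ^ e • u, fun y b => ?_, hmin, fun y => ?_⟩
  · rw [map_nsmul, map_nsmul, hu1, smul_zero]
  · rw [smul_smul, ← pow_succ']
    exact hspec y

theorem kirRep_caseC [Finite H] [Finite L] (D : KData H L) (p : ℕ) (hp : p.Prime)
    (hL : ∀ x : L, ∃ e : ℕ, p ^ e • x = 0) (ψ : AddChar L ℂ)
    (hinj : ∀ z, (∀ y, D.br y z = 0) → ψ z = 1 → z = 0) (hab : ∃ x y, D.br x y ≠ 0)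
    (ih : ∀ (H₀ : Subgroup H) (L₀ : AddSubgroup L) (h : ∀ x, D.exp x ∈ H₀ ↔ x ∈ L₀)
      (hbr : ∀ x ∈ L₀, ∀ y ∈ L₀, D.br x y ∈ L₀), L₀ ≠ ⊤ → ∀ ψ₀ : AddChar L₀ ℂ,
      kirRep_good (kirRep_res D H₀ L₀ h hbr) ψ₀) : kirRep_good D ψ := by
  classical
  obtain ⟨x, hx1, ⟨a, ha⟩, hx2⟩ := kirRep_exists_x D p hL hab
  -- the adjoint action on `x`
  have hAdx : ∀ y, D.Ad (D.exp y) x = x + D.br y x := fun y => kirRep_Ad_of_br_br D (hx1 y y)
  have hxc : ∀ y, ∀ b, D.br b (D.br y x) = 0 := fun y b => hx1 b y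
  have hAdxc : ∀ g : H, ∀ b, D.br b (D.Ad g x - x) = 0 := by
    intro g b
    obtain ⟨y, rfl⟩ := D.exp.surjective g
    rw [hAdx, add_sub_cancel_left]
    exact hxc y b
  -- `L₀` and `H₀`
  let L₀ : AddSubgroup L :=
    { carrier := {y | D.br y x = 0}
      zero_mem' := by simp
      add_mem' := by
        intro y z hy hz
        simp only [Set.mem_ofPred_eq] at *
        rw [map_add, AddMonoidHom.add_apply, hy, hz, add_zero]
      neg_mem' := by
        intro y hy
        simp only [Set.mem_ofPred_eq] at *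
        rw [map_neg, AddMonoidHom.neg_apply, hy, neg_zero] }
  have hL₀ : ∀ y, y ∈ L₀ ↔ D.br y x = 0 := fun y => Iff.rfl
  let H₀ : Subgroup H :=
    { carrier := {g | D.Ad g x = x}
      one_mem' := kirRep_Ad_one D x
      mul_mem' := by
        intro g h hg hh
        simp only [Set.mem_ofPred_eq] at *
        rw [kirRep_Ad_mul, hh, hg]
      inv_mem' := by
        intro g hg
        simp only [Set.mem_ofPred_eq] at *
        conv_lhs => rw [← hg]
        rw [kirRep_Ad_inv] }
  have hH₀ : ∀ g, g ∈ H₀ ↔ D.Ad g x = x := fun g => Iff.rfl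
  have hexp : ∀ y, D.exp y ∈ H₀ ↔ y ∈ L₀ := by
    intro y
    rw [hH₀, hL₀, hAdx]
    simp
  have hder : ∀ y z, D.br y z ∈ L₀ := by
    intro y z
    rw [hL₀]
    have := D.jacobi y z x
    rw [hxc, hxc, add_zero] at this
    exact this.symm
  have hbr : ∀ y ∈ L₀, ∀ z ∈ L₀, D.br y z ∈ L₀ := fun y _ z _ => hder y z
  have haL : a ∉ L₀ := fun h => ha h
  have hxL : x ∈ L₀ := D.br_self x
  have hAdL : ∀ g : H, ∀ v, D.Ad g v - v ∈ L₀ := by
    intro g v
    obtain ⟨y, rfl⟩ := D.exp.surjective g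
    exact kirRep_Ad_sub_mem D L₀ (hder _ _) (fun v _ => hder _ _)
  have hAdL' : ∀ g : H, ∀ v ∈ L₀, D.Ad g v ∈ L₀ := by
    intro g v hv
    have := L₀.add_mem (hAdL g v) hv
    rwa [sub_add_cancel] at this
  have hnorm : H₀.Normal := by
    constructor
    intro h hh g
    rw [hH₀] at hh ⊢
    have h1 : D.Ad g⁻¹ x = x + (D.Ad g⁻¹ x - x) := by abel
    rw [kirRep_Ad_mul, kirRep_Ad_mul, h1, map_add, hh,
      kirRep_Ad_central D (hAdxc g⁻¹) h, ← h1, kirRep_Ad_inv']
  -- the index of `H₀`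
  have hidx : H₀.index = p := by
    let f : H →* ℂ :=
      { toFun := fun g => ψ (D.Ad g x - x)
        map_one' := by rw [kirRep_Ad_one, sub_self, AddChar.map_zero_eq_one]
        map_mul' := by
          intro g h
          rw [kirRep_Ad_mul, ← AddChar.map_add_eq_mul]
          congr 1
          have h1 : D.Ad h x = x + (D.Ad h x - x) := by abel
          conv_lhs => rw [h1]
          rw [map_add, kirRep_Ad_central D (hAdxc h) g]
          abel }
    have hker : f.ker = H₀ := by
      ext g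
      rw [MonoidHom.mem_ker, hH₀]
      change ψ (D.Ad g x - x) = 1 ↔ _
      constructor
      · intro h
        exact sub_eq_zero.mp (hinj _ (hAdxc g) h)
      · intro h
        rw [h, sub_self, AddChar.map_zero_eq_one]
    rw [← hker]
    refine kirRep_index_ker p hp f (fun g => ?_) (D.exp a) ?_
    · change ψ (D.Ad g x - x) ^ p = 1
      rw [← AddChar.map_nsmul_eq_pow, smul_sub, ← map_nsmul, kirRep_Ad_central D hx2 g, sub_self,
        AddChar.map_zero_eq_one]
    · change ψ (D.Ad (D.exp a) x - x) ≠ 1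
      rw [hAdx, add_sub_cancel_left]
      exact fun h => ha (hinj _ (hxc a) h)
  have hcardH : Nat.card H = p * Nat.card H₀ := by
    rw [← H₀.card_mul_index, hidx, mul_comm]
  have hcardL₀ : Nat.card L₀ = Nat.card H₀ := Nat.card_congr (D.exp.subtypeEquiv fun y => (hexp y).symm)
  have hcardL : Nat.card L = Nat.card H := Nat.card_congr D.exp
  have hidxL : L₀.index = p := by
    have h1 := L₀.card_mul_index
    rw [hcardL₀, hcardL, hcardH, mul_comm p] at h1
    exact Nat.eq_of_mul_eq_mul_left Nat.card_pos h1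
  have hne0 : ∀ v, ψ v ≠ 0 := by
    intro v h0
    have := AddChar.map_add_eq_mul ψ v (-v)
    rw [add_neg_cancel, AddChar.map_zero_eq_one, h0, zero_mul] at this
    exact one_ne_zero this
  have hne : L₀ ≠ ⊤ := fun h => haL (by rw [h]; trivial)
  obtain ⟨n₀, ρ₀, hn₀, hn₀2, hρ₀⟩ := ih H₀ L₀ hexp hbr hne (ψ.compAddMonoidHom L₀.subtype)
  obtain ⟨ρ, hρ⟩ := kirRep_ind H₀ n₀ ρ₀
  refine ⟨H₀.index * n₀, ρ, Nat.mul_pos (by rw [hidx]; exact hp.pos) hn₀, ?_, fun v => ?_⟩
  · -- orbits
    let T : Subgroup H :=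
      { carrier := {g | ∀ v ∈ L₀, ψ (D.Ad g v) = ψ v}
        one_mem' := fun v _ => by rw [kirRep_Ad_one]
        mul_mem' := by
          intro g h hg hh v hv
          rw [kirRep_Ad_mul, hg _ (hAdL' h v hv), hh v hv]
        inv_mem' := by
          intro g hg v hv
          rw [← hg _ (hAdL' g⁻¹ v hv), kirRep_Ad_inv'] }
    have hT : ∀ g, g ∈ T ↔ ∀ v ∈ L₀, ψ (D.Ad g v) = ψ v := fun g => Iff.rfl
    have hST : kirRep_stab D ψ ≤ T := fun g hg v _ => hg v
    have hTH : T ≤ H₀ := by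
      intro g hg
      rw [hH₀]
      have h1 := hg x hxL
      apply sub_eq_zero.mp
      apply hinj _ (hAdxc g)
      rw [AddChar.map_sub_eq_div, h1, div_self (hne0 x)]
    have h1 : T.relIndex H₀ = n₀ ^ 2 := by
      rw [hn₀2]
      change (T.subgroupOf H₀).index = _
      congr 1
      ext g
      rw [Subgroup.mem_subgroupOf, hT, kirRep_mem_stab]
      constructor
      · intro h v
        exact h v v.2
      · intro h v hv
        exact h ⟨v, hv⟩
    have h2 : (kirRep_stab D ψ).relIndex T = p := by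
      let f : T →* ℂ :=
        { toFun := fun g => ψ (D.Ad g a - a)
          map_one' := by
            rw [OneMemClass.coe_one, kirRep_Ad_one, sub_self, AddChar.map_zero_eq_one]
          map_mul' := by
            intro g h
            have h1 : D.Ad (g * h : T) a - a = (D.Ad g a - a) + D.Ad g (D.Ad h a - a) := by
              rw [Subgroup.coe_mul, kirRep_Ad_mul, map_sub]
              abel
            rw [h1, AddChar.map_add_eq_mul, (hT g).mp g.2 _ (hAdL h a)] }
      have hker : f.ker = (kirRep_stab D ψ).subgroupOf T := by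
        ext g
        rw [MonoidHom.mem_ker, Subgroup.mem_subgroupOf, kirRep_mem_stab]
        change ψ (D.Ad g a - a) = 1 ↔ _
        constructor
        · intro h
          let K : AddSubgroup L :=
            { carrier := {v | ψ (D.Ad g v - v) = 1}
              zero_mem' := by
                change ψ (D.Ad g 0 - 0) = 1
                rw [map_zero, sub_zero, AddChar.map_zero_eq_one]
              add_mem' := by
                intro v w hv hw
                change ψ (D.Ad g (v + w) - (v + w)) = 1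
                have h1 : D.Ad g (v + w) - (v + w) = (D.Ad g v - v) + (D.Ad g w - w) := by
                  rw [map_add]; abel
                rw [h1, AddChar.map_add_eq_mul]
                change ψ (D.Ad g v - v) = 1 at hv
                change ψ (D.Ad g w - w) = 1 at hw
                rw [hv, hw, one_mul]
              neg_mem' := by
                intro v hv
                change ψ (D.Ad g (-v) - (-v)) = 1
                have h1 : D.Ad g (-v) - (-v) = -(D.Ad g v - v) := by
                  rw [map_neg]; abel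
                change ψ (D.Ad g v - v) = 1 at hv
                rw [h1, AddChar.map_neg_eq_inv, hv, inv_one] }
          have hK : ∀ v, v ∈ K ↔ ψ (D.Ad g v - v) = 1 := fun v => Iff.rfl
          have hKL : L₀ ≤ K := by
            intro v hv
            rw [hK, AddChar.map_sub_eq_div, (hT g).mp g.2 v hv, div_self (hne0 v)]
          have hKtop : K = ⊤ := by
            have h2 : K.index ∣ p := hidxL ▸ AddSubgroup.index_dvd_of_le hKL
            rcases (Nat.dvd_prime hp).mp h2 with h3 | h3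
            · exact AddSubgroup.index_eq_one.mp h3
            · exfalso
              have h4 : K = L₀ := by
                have h5 := AddSubgroup.relIndex_mul_index hKL
                rw [h3, hidxL] at h5
                have h6 : L₀.relIndex K = 1 :=
                  Nat.eq_of_mul_eq_mul_right hp.pos (by rw [h5, one_mul])
                exact le_antisymm (AddSubgroup.relIndex_eq_one.mp h6) hKL
              exact haL (h4 ▸ (hK a).mpr h)
          intro v
          have h2 : v ∈ K := by rw [hKtop]; trivial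
          rw [hK, AddChar.map_sub_eq_div, div_eq_one_iff_eq (hne0 v)] at h2
          exact h2
        · intro h
          rw [AddChar.map_sub_eq_div, h a, div_self (hne0 a)]
      change ((kirRep_stab D ψ).subgroupOf T).index = p
      rw [← hker]
      have hxT : D.exp x ∈ T := by
        intro v hv
        rw [kirRep_Ad_of_br D (by rw [kirRep_br_anti, (hL₀ v).mp hv, neg_zero])]
      refine kirRep_index_ker p hp f (fun g => ?_) ⟨D.exp x, hxT⟩ ?_
      · change ψ (D.Ad g a - a) ^ p = 1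
        have hpa : p • a ∈ L₀ := by
          rw [hL₀, map_nsmul, AddMonoidHom.nsmul_apply, ← map_nsmul]
          exact hx2 a
        rw [← AddChar.map_nsmul_eq_pow, smul_sub, ← map_nsmul, AddChar.map_sub_eq_div,
          (hT g).mp g.2 _ hpa, div_self (hne0 _)]
      · change ψ (D.Ad (D.exp x) a - a) ≠ 1
        have h1 : D.br x a = - D.br a x := kirRep_br_anti D x a
        rw [kirRep_Ad_of_br_br D (by rw [h1, map_neg, hxc, neg_zero]), add_sub_cancel_left]
        intro h
        have h2 := hinj _ (fun y => by rw [h1, map_neg, hxc, neg_zero]) h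
        rw [h1, neg_eq_zero] at h2
        exact ha h2
    rw [← Subgroup.relIndex_mul_index hST, ← Subgroup.relIndex_mul_index hTH, h1, h2, hidx]
    ring
  · rw [hρ]
    have hconj : ∀ i : H ⧸ H₀, i.out⁻¹ * D.exp v * i.out = D.exp (D.Ad i.out⁻¹ v) := by
      intro i
      rw [← D.conj, inv_inv]
    by_cases hv : v ∈ L₀
    · have h1 : ∀ i : H ⧸ H₀, D.Ad i.out⁻¹ v ∈ L₀ := fun i => hAdL' _ v hv
      have h2 : ∀ i : H ⧸ H₀, (if hh : (i.out)⁻¹ * D.exp v * i.out ∈ H₀ then
          Matrix.trace ((ρ₀ ⟨_, hh⟩ : GL (Fin n₀) ℂ) : Matrix (Fin n₀) (Fin n₀) ℂ) else 0) =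
          Matrix.trace ((ρ₀ ((kirRep_res D H₀ L₀ hexp hbr).exp ⟨_, h1 i⟩) : GL (Fin n₀) ℂ) :
            Matrix (Fin n₀) (Fin n₀) ℂ) := by
        intro i
        have hh : (i.out)⁻¹ * D.exp v * i.out ∈ H₀ := by
          rw [hconj, hexp]; exact h1 i
        rw [dif_pos hh]
        congr 3
        ext
        exact hconj i
      simp only [h2]
      have h3 : ∑ᶠ g : H, ψ (D.Ad g v) = ∑ᶠ g : H, ψ (D.Ad g⁻¹ v) := by
        have : Fintype H := Fintype.ofFinite H
        rw [finsum_eq_sum_of_fintype, finsum_eq_sum_of_fintype]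
        exact (Equiv.sum_comp (Equiv.inv H) (fun g => ψ (D.Ad g v))).symm
      rw [h3, kirRep_sum_cosets H₀, mul_finsum, mul_finsum]
      refine finsum_congr fun i => ?_
      have h4 := hρ₀ ⟨_, h1 i⟩
      have h5 : ∑ᶠ h : H₀, ψ (D.Ad (i.out * (h : H))⁻¹ v) =
          ∑ᶠ g : H₀, (ψ.compAddMonoidHom L₀.subtype)
            ((kirRep_res D H₀ L₀ hexp hbr).Ad g ⟨_, h1 i⟩) := by
        have : Fintype H₀ := Fintype.ofFinite H₀
        rw [finsum_eq_sum_of_fintype, finsum_eq_sum_of_fintype]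
        rw [← Equiv.sum_comp (Equiv.inv H₀)]
        refine Finset.sum_congr rfl fun h _ => ?_
        change ψ (D.Ad (i.out * ((h⁻¹ : H₀) : H))⁻¹ v) = ψ (D.Ad h (D.Ad i.out⁻¹ v))
        rw [← kirRep_Ad_mul, mul_inv_rev, InvMemClass.coe_inv, inv_inv]
      rw [h5, ← H₀.card_mul_index]
      rw [Nat.cast_mul, Nat.cast_mul]
      linear_combination (H₀.index : ℂ) * h4
    · have h1 : ∀ i : H ⧸ H₀, (if hh : (i.out)⁻¹ * D.exp v * i.out ∈ H₀ then
          Matrix.trace ((ρ₀ ⟨_, hh⟩ : GL (Fin n₀) ℂ) : Matrix (Fin n₀) (Fin n₀) ℂ) else 0) = 0 := by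
        intro i
        rw [dif_neg]
        intro hh
        apply hv
        rw [← hexp]
        have := hnorm.conj_mem _ hh i.out
        simpa [mul_assoc] using this
      simp only [h1, finsum_zero, mul_zero]
      have h2 : ∑ᶠ g : H, ψ (D.Ad g v) = ψ (D.br x v) * ∑ᶠ g : H, ψ (D.Ad g v) := by
        have : Fintype H := Fintype.ofFinite H
        rw [finsum_eq_sum_of_fintype]
        conv_lhs => rw [← Equiv.sum_comp (Equiv.mulRight (D.exp x))]
        rw [Finset.mul_sum]
        refine Finset.sum_congr rfl fun g _ => ?_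
        have h3 : D.br x v = - D.br v x := kirRep_br_anti D x v
        have h4 : ∀ y, D.br y (D.br x v) = 0 := fun y => by rw [h3, map_neg, hxc, neg_zero]
        rw [Equiv.coe_mulRight, kirRep_Ad_mul, kirRep_Ad_of_br_br D (h4 x), map_add,
          kirRep_Ad_central D h4, AddChar.map_add_eq_mul, mul_comm]
      have h3 : ψ (D.br x v) ≠ 1 := by
        intro h
        have h1 : D.br x v = - D.br v x := kirRep_br_anti D x v
        have h2 := hinj _ (fun y => by rw [h1, map_neg, hxc, neg_zero]) h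
        rw [h1, neg_eq_zero] at h2
        exact hv h2
      have h4 : (1 - ψ (D.br x v)) * ∑ᶠ g : H, ψ (D.Ad g v) = 0 := by
        linear_combination h2
      rcases mul_eq_zero.mp h4 with h5 | h5
      · exact absurd (sub_eq_zero.mp h5).symm h3
      · rw [h5, mul_zero]

/-! ### The induction -/

theorem kirRep_all (p : ℕ) (hp : p.Prime) : ∀ (N : ℕ) (H L : Type) [Group H] [AddCommGroup L]
    [Finite H] [Finite L] (D : KData H L), (∀ x : L, ∃ e : ℕ, p ^ e • x = 0) →
    Nat.card L = N → ∀ ψ : AddChar L ℂ, kirRep_good D ψ := by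
  intro N
  induction N using Nat.strong_induction_on with
  | _ N IH =>
  intro H L _ _ _ _ D hL hN ψ
  by_cases hab : ∃ x y, D.br x y ≠ 0
  swap
  · push Not at hab
    exact kirRep_caseA D ψ hab
  by_cases hinj : ∀ z, (∀ y, D.br y z = 0) → ψ z = 1 → z = 0
  · refine kirRep_caseC D p hp hL ψ hinj hab fun H₀ L₀ h hbr hne ψ₀ => ?_
    refine IH (Nat.card L₀) ?_ H₀ L₀ _ ?_ rfl ψ₀
    · rw [← hN]
      exact lt_of_le_of_ne (Nat.card_le_card_of_injective _ Subtype.val_injective)
        (fun h => hne (AddSubgroup.eq_top_of_card_eq _ h))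
    · intro x
      obtain ⟨e, he⟩ := hL x
      exact ⟨e, by ext; simpa using he⟩
  · push Not at hinj
    obtain ⟨z, hz, hz1, hz0⟩ := hinj
    have hI : ∀ w ∈ AddSubgroup.zmultiples z, ∀ y, D.br y w = 0 := by
      rintro _ ⟨m, rfl⟩ y
      simp [hz]
    have hψ : ∀ w ∈ AddSubgroup.zmultiples z, ψ w = 1 := by
      rintro _ ⟨m, rfl⟩
      simp only
      rw [AddChar.map_zsmul_eq_zpow, hz1, one_zpow]
    have : (kirRep_expI D _ hI).Normal := kirRep_expI_normal D _ hI
    have hout : ∀ x : L, ψ ((x : L ⧸ AddSubgroup.zmultiples z)).out = ψ x := by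
      intro x
      obtain ⟨n, hn⟩ := QuotientAddGroup.mk_out_eq_add (AddSubgroup.zmultiples z) x
      rw [hn, AddChar.map_add_eq_mul, hψ _ n.2, mul_one]
    let ψ' : AddChar (L ⧸ AddSubgroup.zmultiples z) ℂ :=
      { toFun := fun q => ψ q.out
        map_zero_eq_one' := by
          have := hout 0
          rw [QuotientAddGroup.mk_zero, AddChar.map_zero_eq_one] at this
          exact this
        map_add_eq_mul' := by
          intro q r
          obtain ⟨x, rfl⟩ := QuotientAddGroup.mk_surjective q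
          obtain ⟨y, rfl⟩ := QuotientAddGroup.mk_surjective r
          have := hout (x + y)
          rw [QuotientAddGroup.mk_add] at this
          rw [this, hout, hout, AddChar.map_add_eq_mul] }
    refine kirRep_caseB D ψ _ hI ψ' hout (IH _ ?_ _ _ _ ?_ rfl ψ')
    · rw [← hN]
      have h1 := (AddSubgroup.zmultiples z).card_eq_card_quotient_mul_card_addSubgroup
      have h2 : 1 < Nat.card (AddSubgroup.zmultiples z) := by
        rw [Finite.one_lt_card_iff_nontrivial]
        exact ⟨⟨⟨z, AddSubgroup.mem_zmultiples z⟩, 0, fun h => hz0 (congrArg Subtype.val h)⟩⟩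
      rw [h1]
      exact lt_mul_of_one_lt_right Nat.card_pos h2
    · intro x
      obtain ⟨x, rfl⟩ := QuotientAddGroup.mk_surjective x
      obtain ⟨e, he⟩ := hL x
      exact ⟨e, by rw [← QuotientAddGroup.mk_nsmul, he, QuotientAddGroup.mk_zero]⟩

theorem kirRep [Finite H] [Finite L] (D : KData H L) (p : ℕ) (hp : p.Prime)
    (hL : ∀ x : L, ∃ e : ℕ, p ^ e • x = 0) (ψ : AddChar L ℂ) :
    ∃ (n : ℕ) (ρ : H →* GL (Fin n) ℂ), 0 < n ∧ n ^ 2 = Nat.card (D.orbit ψ) ∧
      ∀ x : L, (n : ℂ) * Matrix.trace ((ρ (D.exp x) : GL (Fin n) ℂ) : Matrix (Fin n) (Fin n) ℂ) =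
        ∑ᶠ ψ' ∈ D.orbit ψ, ψ' x :=
  kirRep_of_good D ψ (kirRep_all p hp _ H L D hL rfl ψ)

end kir

end

end MP8c80e8
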