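import Pool.Agent.Lib.MP_8c80e8_al.Final

/-!
# MP_8c80e8_al: from the internal version to the public statement
-/

open scoped TensorProduct NumberField
open IsDedekindDomain

namespace MP8c80e8

noncomputable section

attribute [local instance 100] LieRing.ofAssociativeRing

section conv

variable {k 𝔤 : Type} [Field k] [LieRing 𝔤] [LieAlgebra k 𝔤] {m : ℕ}

/-- the embedding as a morphism of Lie algebras -/
def UniGroup.hom (G : UniGroup k 𝔤 m) : 𝔤 →ₗ⁅k⁆ Matrix (Fin m) (Fin m) k :=
  { G.ρ with
    map_lie' := by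
      intro x y
      exact G.bracket x y }

/-- the internal version of a unipotent group -/
def UniGroup.toOld (G : UniGroup k 𝔤 m) : UnipotentGroup k where
  m := m
  lie := G.hom.range
  upper := by
    rintro x ⟨y, rfl⟩ i j hij
    exact G.upper y i j hij

/-- the Lie algebra of the internal version -/
def UniGroup.equiv (G : UniGroup k 𝔤 m) : 𝔤 ≃ₗ⁅k⁆ G.toOld.lie :=
  LieEquiv.ofInjective G.hom G.inj

/-- base change of an isomorphism of Lie algebras -/
def tensorEquiv {A L L' : Type} [CommRing A] [Algebra k A] [LieRing L] [LieAlgebra k L]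
    [LieRing L'] [LieAlgebra k L'] (e : L ≃ₗ⁅k⁆ L') : (A ⊗[k] L) ≃ₗ⁅k⁆ (A ⊗[k] L') :=
  { LinearEquiv.lTensor A (e : L ≃ₗ[k] L') with
    map_lie' := by
      intro x y
      change (LinearEquiv.lTensor A (e : L ≃ₗ[k] L')) ⁅x, y⁆ =
        ⁅(LinearEquiv.lTensor A (e : L ≃ₗ[k] L')) x, (LinearEquiv.lTensor A (e : L ≃ₗ[k] L')) y⁆
      induction x using TensorProduct.induction_on with
      | zero => simp
      | add x x' hx hx' => rw [add_lie, map_add, hx, hx', map_add, add_lie]
      | tmul a x =>
        induction y using TensorProduct.induction_on with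
        | zero => simp
        | add y y' hy hy' => rw [lie_add, map_add, hy, hy', map_add, lie_add]
        | tmul b y =>
          simp [LieAlgebra.ExtendScalars.bracket_tmul]
          rw [LieEquiv.map_lie] }

theorem points_eq {O K : Type} [CommRing O] [Field K] (G : UniGroup k 𝔤 m) (ι : k →+* K)
    (j : O →+* K) : G.toOld.points ι j = expGroup (spanOver (Set.range G.ρ) ι) j := rfl

end conv

section integers

variable {k : Type} [Field k] [NumberField k]

theorem isLocalExt_intRing (v : HeightOneSpectrum (𝓞 k)) (K : Type) [Field K]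
    [Algebra (v.adicCompletion k) K] [FiniteDimensional (v.adicCompletion k) K] :
    IsLocalExt v (toIntRing v K) (toField v K) (algebraMap (intRing v K) K) where
  exists_hom := by
    refine ⟨algebraMap (v.adicCompletion k) K, ?_, fun x => rfl, fun y => ?_⟩
    · rw [RingHom.finite_algebraMap]
      infer_instance
    · constructor
      · rintro ⟨z, rfl⟩
        exact z.2
      · intro hy
        exact ⟨⟨y, hy⟩, rfl⟩
  inj := Subtype.val_injective
  compat := fun x => rfl

variable {𝔤 : Type} [LieRing 𝔤] [LieAlgebra k 𝔤] {m : ℕ}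

/-- conversion to the internal version -/
def RepZetaData.toOld {G : UniGroup k 𝔤 m} (D : RepZetaData G) : ZetaData G.toOld where
  r := D.r
  V := D.V
  sep := D.sep
  ft := D.ft
  W := D.W
  formula := by
    obtain ⟨S, hS, h⟩ := D.formula
    refine ⟨S, hS, fun v hv K _ _ _ P hP => ?_⟩
    exact h v hv (intRing v K) K (toIntRing v K) (toField v K) (algebraMap (intRing v K) K)
      (isLocalExt_intRing v K) P hP
  χ := D.χ
  hχ := D.hχ

end integers

/-- The main theorem. -/
theorem mainPublic (k 𝔤 : Type) [Field k] [NumberField k] [LieRing 𝔤] [LieAlgebra k 𝔤] {m m' : ℕ}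
    (G : UniGroup k 𝔤 m) (G' : UniGroup k (DualNumber k ⊗[k] 𝔤) m')
    (D : RepZetaData G) (D' : RepZetaData G') :
    ∃ ω : ℚ, IsOmega D.W D.χ ω ∧ IsOmega D'.W D'.χ (3 / 2 * ω) :=
  main k G.toOld G'.toOld ((tensorEquiv G.equiv).symm.trans G'.equiv) D.toOld D'.toOld

end

end MP8c80e8
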