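import Pool.Agent.Lib.MP_8c80e8_al.BCH
import Pool.Agent.Lib.MP_8c80e8_al.KirCount

/-!
# The orbit method formula for the number of twist classes of `G(O)`
-/

open scoped TensorProduct NumberField
open IsDedekindDomain

namespace MP8c80e8

noncomputable section

attribute [local instance 100] LieRing.ofAssociativeRing

/-! ## Part A: the matrices `E x` -/

section partA

variable {k : Type} [Field k] [NumberField k] {G : UnipotentGroup k}
  {ι κ : Type} [Fintype ι] [Fintype κ] [DecidableEq ι] [DecidableEq κ] (D : IntData G ι κ)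
  {R S : Type} [CommRing R] [CommRing S]

/-- the matrix `∑ x_i e_i` over a ring `R` -/
def starE (r : 𝓞 k →+* R) (x : ι → R) : Matrix (Fin G.m) (Fin G.m) R :=
  ∑ i, x i • (D.e i).map r

/-- the bracket in coordinates -/
def starBr (r : 𝓞 k →+* R) (x z : ι → R) : ι → R :=
  ∑ l, (∑ i, ∑ j, x i * z j * r (D.c i j l)) • Pi.single (D.s l) (1 : R)

theorem starE_apply (r : 𝓞 k →+* R) (x : ι → R) (p q : Fin G.m) :
    starE D r x p q = ∑ i, x i * r (D.e i p q) := by
  simp [starE, Matrix.sum_apply]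

theorem starE_add (r : 𝓞 k →+* R) (x z : ι → R) : starE D r (x + z) = starE D r x + starE D r z := by
  simp [starE, add_smul, Finset.sum_add_distrib]

theorem starE_smul (r : 𝓞 k →+* R) (t : R) (x : ι → R) :
    starE D r (t • x) = t • starE D r x := by
  simp [starE, Finset.smul_sum, mul_smul]

theorem starE_zero (r : 𝓞 k →+* R) : starE D r 0 = 0 := by
  simp [starE]

theorem starE_neg (r : 𝓞 k →+* R) (x : ι → R) : starE D r (-x) = - starE D r x := by
  simp [starE]

theorem starE_sum (r : 𝓞 k →+* R) {σ : Type} (t : Finset σ) (f : σ → ι → R) :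
    starE D r (∑ a ∈ t, f a) = ∑ a ∈ t, starE D r (f a) := by
  classical
  induction t using Finset.induction_on with
  | empty => simp [starE_zero]
  | insert a t ha ih => rw [Finset.sum_insert ha, Finset.sum_insert ha, starE_add, ih]

theorem starE_single (r : 𝓞 k →+* R) (i : ι) : starE D r (Pi.single i 1) = (D.e i).map r := by
  simp [starE, Pi.single_apply]

theorem starE_upper (r : 𝓞 k →+* R) (x : ι → R) : StrictUpper (starE D r x) := by
  intro p q hqp
  rw [starE_apply]
  apply Finset.sum_eq_zero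
  intro i _
  rw [D.upper i p q hqp, map_zero, mul_zero]

theorem starE_coord (r : 𝓞 k →+* R) (x : ι → R) (i : ι) :
    ∑ p, ∑ q, r (D.b i p q) * starE D r x p q = r D.δ * x i := by
  have h1 : ∀ p q, r (D.b i p q) * starE D r x p q = ∑ i', x i' * r (D.b i p q * D.e i' p q) := by
    intro p q
    rw [starE_apply, Finset.mul_sum]
    refine Finset.sum_congr rfl (fun i' _ => ?_)
    rw [map_mul]; ring
  simp only [h1]
  have h2 : ∑ p, ∑ q, ∑ i', x i' * r (D.b i p q * D.e i' p q) =
      ∑ i', x i' * r (∑ p, ∑ q, D.b i p q * D.e i' p q) := by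
    simp only [map_sum, Finset.mul_sum]
    calc ∑ p, ∑ q, ∑ i', x i' * r (D.b i p q * D.e i' p q)
        = ∑ p, ∑ i', ∑ q, x i' * r (D.b i p q * D.e i' p q) :=
          Finset.sum_congr rfl (fun p _ => Finset.sum_comm)
      _ = _ := Finset.sum_comm
  rw [h2]
  simp only [D.hb]
  simp [Finset.sum_ite_eq, apply_ite r, mul_comm]

theorem starE_inj (r : 𝓞 k →+* R) (hδ : IsUnit (r D.δ)) {x z : ι → R}
    (h : starE D r x = starE D r z) : x = z := by
  funext i
  have h1 := starE_coord D r x i
  have h2 := starE_coord D r z i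
  rw [h] at h1
  exact hδ.mul_left_cancel (h1.symm.trans h2)

theorem starBr_apply_s (r : 𝓞 k →+* R) (x z : ι → R) (l : κ) :
    starBr D r x z (D.s l) = ∑ i, ∑ j, x i * z j * r (D.c i j l) := by
  have h1 : ∀ l', Pi.single (M := fun _ : ι => R) (D.s l') (1 : R) (D.s l) =
      if l' = l then 1 else 0 := by
    intro l'
    by_cases h : l' = l
    · subst h; simp
    · rw [if_neg h, Pi.single_eq_of_ne]
      intro h2
      exact h (D.s_inj h2).symm
  simp [starBr, Finset.sum_apply, h1]

theorem starBr_apply_ns (r : 𝓞 k →+* R) (x z : ι → R) (i : ι) (hi : ∀ l, D.s l ≠ i) :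
    starBr D r x z i = 0 := by
  have h1 : ∀ l', Pi.single (M := fun _ : ι => R) (D.s l') (1 : R) i = 0 := by
    intro l'
    rw [Pi.single_eq_of_ne]
    exact (hi l').symm
  simp [starBr, Finset.sum_apply, h1]

theorem starE_br (r : 𝓞 k →+* R) (x z : ι → R) :
    starE D r (starBr D r x z) = starE D r x * starE D r z - starE D r z * starE D r x := by
  have h1 : ∀ i j, (D.e i).map r * (D.e j).map r - (D.e j).map r * (D.e i).map r =
      ∑ l, r (D.c i j l) • (D.e (D.s l)).map r := by
    intro i j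
    have h := congrArg (fun M : Matrix (Fin G.m) (Fin G.m) (𝓞 k) => M.map r) (D.bracket i j)
    rw [Matrix.map_sub _ (by simp), Matrix.map_mul, Matrix.map_mul] at h
    rw [h]
    ext p q
    simp [Matrix.sum_apply, Matrix.map_apply]
  have hl : starE D r x * starE D r z - starE D r z * starE D r x =
      ∑ i, ∑ j, (x i * z j) • ((D.e i).map r * (D.e j).map r - (D.e j).map r * (D.e i).map r) := by
    unfold starE
    simp only [Finset.sum_mul, Finset.mul_sum, smul_sub, Finset.sum_sub_distrib]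
    congr 1
    · rw [Finset.sum_comm]
      refine Finset.sum_congr rfl (fun i _ => Finset.sum_congr rfl (fun j _ => ?_))
      simp [smul_smul, mul_comm]
    · refine Finset.sum_congr rfl (fun i _ => Finset.sum_congr rfl (fun j _ => ?_))
      simp [smul_smul]
  rw [hl]
  simp only [h1]
  unfold starBr
  rw [starE_sum]
  simp only [starE_smul, starE_single]
  simp only [Finset.smul_sum, Finset.sum_smul, smul_smul]
  calc ∑ l, ∑ i, ∑ j, (x i * z j * r (D.c i j l)) • (D.e (D.s l)).map r
      = ∑ i, ∑ l, ∑ j, (x i * z j * r (D.c i j l)) • (D.e (D.s l)).map r := Finset.sum_comm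
    _ = _ := Finset.sum_congr rfl (fun i _ => Finset.sum_comm)

theorem starE_map (r : 𝓞 k →+* R) (f : R →+* S) (x : ι → R) :
    (starE D r x).map f = starE D (f.comp r) (fun i => f (x i)) := by
  ext p q
  simp [starE_apply, Matrix.map_apply]

end partA

/-! ## Part B: the group `G(O)` -/

section partB

variable {k : Type} [Field k] [NumberField k] {G : UnipotentGroup k}
  {ι κ : Type} [Fintype ι] [Fintype κ] [DecidableEq ι] [DecidableEq κ] (D : IntData G ι κ)
  {O K : Type} [CommRing O] [Field K]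

theorem star_mem_lieOver (a₀ : k →+* K) (X : Matrix (Fin G.m) (Fin G.m) K) :
    X ∈ G.lieOver a₀ ↔ ∃ t : ι → K, X = starE D (a₀.comp (algebraMap (𝓞 k) k)) t := by
  constructor
  · intro hX
    unfold UnipotentGroup.lieOver at hX
    refine Submodule.span_induction ?_ ?_ ?_ ?_ hX
    · rintro _ ⟨x, hx, rfl⟩
      have hx' : x ∈ G.lie.toSubmodule := hx
      rw [← D.span, Submodule.mem_span_range_iff_exists_fun] at hx'
      obtain ⟨t, rfl⟩ := hx'
      refine ⟨fun i => a₀ (t i), ?_⟩
      ext p q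
      simp [starE_apply, Matrix.map_apply, Matrix.sum_apply]
    · exact ⟨0, (starE_zero D _).symm⟩
    · rintro _ _ _ _ ⟨t, rfl⟩ ⟨u, rfl⟩
      exact ⟨t + u, (starE_add D _ t u).symm⟩
    · rintro c _ _ ⟨t, rfl⟩
      exact ⟨c • t, (starE_smul D _ c t).symm⟩
  · rintro ⟨t, rfl⟩
    unfold starE
    refine Submodule.sum_mem _ (fun i _ => Submodule.smul_mem _ _ ?_)
    refine Submodule.subset_span ⟨(D.e i).map (algebraMap (𝓞 k) k), ?_, ?_⟩
    · have h1 : (D.e i).map (algebraMap (𝓞 k) k) ∈ G.lie.toSubmodule := by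
        rw [← D.span]
        exact Submodule.subset_span ⟨i, rfl⟩
      exact h1
    · ext p q
      simp [Matrix.map_apply]

/-- invertibility of the small factorials -/
def StarFac (R : Type) [CommRing R] (m : ℕ) : Prop :=
  ∀ j ≤ 2 * m + 2, IsUnit (j.factorial : R)

theorem starFac_lt {R : Type} [CommRing R] {m : ℕ} (h : StarFac R m) :
    ∀ j < m, IsUnit (j.factorial : R) := fun j hj => h j (by omega)

theorem star_fac_of_bad {R : Type} [CommRing R] (r : 𝓞 k →+* R) (hu : IsUnit (r D.bad)) :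
    StarFac R G.m ∧ IsUnit (r D.δ) ∧ IsUnit (r D.δ') ∧ IsUnit (2 : R) := by
  unfold IntData.bad at hu
  rw [map_mul, map_mul, map_natCast] at hu
  have h1 := isUnit_of_mul_isUnit_left hu
  have h2 := isUnit_of_mul_isUnit_left h1
  push_cast at h2
  have h3 : IsUnit (((2 * G.m + 2).factorial : ℕ) : R) := isUnit_of_mul_isUnit_right h2
  refine ⟨?_, isUnit_of_mul_isUnit_right h1, isUnit_of_mul_isUnit_right hu,
    isUnit_of_mul_isUnit_left h2⟩
  intro j hj
  obtain ⟨c, hc⟩ := Nat.factorial_dvd_factorial hj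
  rw [hc, Nat.cast_mul] at h3
  exact isUnit_of_mul_isUnit_left h3

theorem star_fac_field [CharZero K] (m : ℕ) : StarFac K m := by
  intro j _
  rw [isUnit_iff_ne_zero]
  exact_mod_cast Nat.factorial_ne_zero j

/-- `expR (E x)` as an element of `GL` -/
def starGL {R : Type} [CommRing R] (hR : StarFac R G.m) (r : 𝓞 k →+* R) (x : ι → R) :
    GL (Fin G.m) R :=
  ⟨expR (starE D r x), expR (-starE D r x),
    expR_mul_neg (starFac_lt hR) (starE_upper D r x),
    expR_neg_mul (starFac_lt hR) (starE_upper D r x)⟩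

theorem starGL_coe {R : Type} [CommRing R] (hR : StarFac R G.m) (r : 𝓞 k →+* R) (x : ι → R) :
    ((starGL D hR r x : GL (Fin G.m) R) : Matrix (Fin G.m) (Fin G.m) R) =
      expR (starE D r x) := rfl

theorem star_mem_points [CharZero K] (a₀ : k →+* K) (j : O →+* K) (a : 𝓞 k →+* O)
    (hj : Function.Injective j) (hcompat : ∀ x, j (a x) = a₀ (algebraMap (𝓞 k) k x))
    (hu : IsUnit (a D.bad)) (g : GL (Fin G.m) O) :
    g ∈ G.points a₀ j ↔
      ∃ x : ι → O, (g : Matrix (Fin G.m) (Fin G.m) O) = expR (starE D a x) := by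
  obtain ⟨hfac, hδ, -, -⟩ := star_fac_of_bad D a hu
  have hrK : a₀.comp (algebraMap (𝓞 k) k) = j.comp a := by
    ext x; exact (hcompat x).symm
  have hfacK : StarFac K G.m := star_fac_field G.m
  constructor
  · intro hg
    -- over `K`
    have h1 : ∃ x ∈ G.lieOver a₀, (g : Matrix (Fin G.m) (Fin G.m) O).map j = expMat x := by
      unfold UnipotentGroup.points at hg
      induction hg using Subgroup.closure_induction with
      | mem g hg => exact hg
      | one =>
        refine ⟨0, Submodule.zero_mem _, ?_⟩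
        have h2 : expMat (0 : Matrix (Fin G.m) (Fin G.m) K) = 1 := by
          rw [expMat_eq_expR]
          have h3 := expR_mul_neg (starFac_lt hfacK) (x := (0 : Matrix (Fin G.m) (Fin G.m) K))
            (by intro p q _; rfl)
          have h4 := expR_add (starFac_lt hfacK) (x := (0 : Matrix (Fin G.m) (Fin G.m) K))
            (z := 0) (by intro p q _; rfl) (by intro p q _; rfl) rfl
          rw [neg_zero] at h3
          rw [add_zero, h3] at h4
          exact h4
        rw [h2]
        simp [Matrix.map_one]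
      | mul g h _ _ ihg ihh =>
        obtain ⟨x, hx, hgx⟩ := ihg
        obtain ⟨y, hy, hhy⟩ := ihh
        obtain ⟨z, hz, hxyz⟩ := bch_closed (G.lieOver a₀) (by
            intro X hX
            obtain ⟨t, rfl⟩ := (star_mem_lieOver D a₀ X).mp hX
            exact starE_upper D _ t) (by
            intro X hX Y hY
            obtain ⟨t, rfl⟩ := (star_mem_lieOver D a₀ X).mp hX
            obtain ⟨u, rfl⟩ := (star_mem_lieOver D a₀ Y).mp hY
            rw [← starE_br, star_mem_lieOver D]
            exact ⟨_, rfl⟩) hx hy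
        refine ⟨z, hz, ?_⟩
        rw [← hxyz, ← hgx, ← hhy, ← Matrix.map_mul]
        rfl
      | inv g _ ihg =>
        obtain ⟨x, hx, hgx⟩ := ihg
        refine ⟨-x, Submodule.neg_mem _ hx, ?_⟩
        have hxu : StrictUpper x := by
          obtain ⟨t, rfl⟩ := (star_mem_lieOver D a₀ x).mp hx
          exact starE_upper D _ t
        have h2 : (g : Matrix (Fin G.m) (Fin G.m) O).map j *
            ((g⁻¹ : GL (Fin G.m) O) : Matrix (Fin G.m) (Fin G.m) O).map j = 1 := by
          rw [← Matrix.map_mul]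
          have h5 : (g : Matrix (Fin G.m) (Fin G.m) O) *
            ((g⁻¹ : GL (Fin G.m) O) : Matrix (Fin G.m) (Fin G.m) O) = 1 := by
            rw [← Units.val_mul, mul_inv_cancel]; rfl
          rw [h5]
          simp [Matrix.map_one]
        have h3 : expMat (-x) * expMat x = 1 := by
          rw [expMat_eq_expR, expMat_eq_expR]
          exact expR_neg_mul (starFac_lt hfacK) hxu
        rw [hgx] at h2
        calc ((g⁻¹ : GL (Fin G.m) O) : Matrix (Fin G.m) (Fin G.m) O).map j
            = (expMat (-x) * expMat x) *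
              ((g⁻¹ : GL (Fin G.m) O) : Matrix (Fin G.m) (Fin G.m) O).map j := by
              rw [h3, one_mul]
          _ = expMat (-x) := by rw [mul_assoc, h2, mul_one]
    obtain ⟨X, hX, hgX⟩ := h1
    obtain ⟨t, rfl⟩ := (star_mem_lieOver D a₀ X).mp hX
    rw [hrK] at hgX
    rw [expMat_eq_expR] at hgX
    -- `g` is unitriangular over `O`
    have hgu : UniUpper (g : Matrix (Fin G.m) (Fin G.m) O) := by
      intro p q hqp
      apply hj
      have h2 := strictUpper_expR_sub_one (starE_upper D (j.comp a) t) p q hqp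
      rw [← hgX] at h2
      rw [map_zero, ← h2]
      simp only [Matrix.sub_apply, Matrix.map_apply, map_sub]
      congr 1
      rw [Matrix.one_apply, Matrix.one_apply]
      split_ifs <;> simp
    obtain ⟨Y, hYu, hY⟩ := expR_surjOn (starFac_lt hfac) hgu
    have hYj : Y.map j = starE D (j.comp a) t := by
      apply expR_injOn (starFac_lt hfacK)
      · intro p q hqp
        rw [Matrix.map_apply, hYu p q hqp, map_zero]
      · exact starE_upper D _ t
      · rw [expR_map j (starFac_lt hfac), hY, hgX]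
    obtain ⟨δi, hδi⟩ := hδ.exists_left_inv
    refine ⟨fun i => δi * ∑ p, ∑ q, a (D.b i p q) * Y p q, ?_⟩
    rw [← hY]
    congr 1
    have h5 : t = fun i => j (δi * ∑ p, ∑ q, a (D.b i p q) * Y p q) := by
      funext i
      have h6 := starE_coord D (j.comp a) t i
      rw [← hYj] at h6
      have h7 : j (∑ p, ∑ q, a (D.b i p q) * Y p q) = j (a D.δ) * t i := by
        rw [map_sum]
        rw [← RingHom.comp_apply, ← h6]
        refine Finset.sum_congr rfl (fun p _ => ?_)
        rw [map_sum]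
        refine Finset.sum_congr rfl (fun q _ => ?_)
        rw [map_mul]; rfl
      rw [map_mul, h7, ← mul_assoc, ← map_mul, hδi, map_one, one_mul]
    ext p q
    apply hj
    have h8 := congrFun (congrFun hYj p) q
    rw [Matrix.map_apply] at h8
    rw [h8, h5, ← starE_map, Matrix.map_apply]
  · rintro ⟨x, hx⟩
    refine Subgroup.subset_closure ⟨starE D (j.comp a) (fun i => j (x i)), ?_, ?_⟩
    · rw [star_mem_lieOver D, hrK]
      exact ⟨_, rfl⟩
    · rw [hx, expMat_eq_expR, ← starE_map, expR_map j (starFac_lt hfac)]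

end partB

/-! ## Part C: Kirillov data at finite level -/

section partC

variable {k : Type} [Field k] [NumberField k] {G : UnipotentGroup k}
  {ι κ : Type} [Fintype ι] [Fintype κ] [DecidableEq ι] [DecidableEq κ] (D : IntData G ι κ)
  {R : Type} [CommRing R]

theorem starBr_add_left (r : 𝓞 k →+* R) (x y z : ι → R) :
    starBr D r (x + y) z = starBr D r x z + starBr D r y z := by
  simp [starBr, add_mul, Finset.sum_add_distrib, add_smul]

theorem starBr_add_right (r : 𝓞 k →+* R) (x y z : ι → R) :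
    starBr D r x (y + z) = starBr D r x y + starBr D r x z := by
  simp [starBr, add_mul, mul_add, Finset.sum_add_distrib, add_smul]

theorem starBr_zero_left (r : 𝓞 k →+* R) (z : ι → R) : starBr D r 0 z = 0 := by
  simp [starBr]

theorem starBr_zero_right (r : 𝓞 k →+* R) (x : ι → R) : starBr D r x 0 = 0 := by
  simp [starBr]

/-- the bracket as a biadditive map -/
def starBrHom (r : 𝓞 k →+* R) : (ι → R) →+ (ι → R) →+ (ι → R) where
  toFun x :=
    { toFun := fun z => starBr D r x z
      map_zero' := starBr_zero_right D r x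
      map_add' := fun y z => starBr_add_right D r x y z }
  map_zero' := AddMonoidHom.ext fun z => starBr_zero_left D r z
  map_add' x y := AddMonoidHom.ext fun z => starBr_add_left D r x y z

theorem starBrHom_apply (r : 𝓞 k →+* R) (x z : ι → R) :
    starBrHom D r x z = starBr D r x z := rfl

theorem starE_adM (r : 𝓞 k →+* R) (x z : ι → R) :
    starE D r (starBrHom D r x z) = adM (starE D r x) (starE D r z) := by
  rw [starBrHom_apply, starE_br]; rfl

theorem starE_iter (r : 𝓞 k →+* R) (y u : ι → R) (t : ℕ) :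
    starE D r ((fun w => starBrHom D r y w)^[t] u) = (adM (starE D r y))^[t] (starE D r u) := by
  induction t generalizing u with
  | zero => rfl
  | succ t ih => rw [Function.iterate_succ_apply, Function.iterate_succ_apply, ih, starE_adM]

theorem starE_foldr (r : 𝓞 k →+* R) (xs : List (ι → R)) (u : ι → R) :
    starE D r (xs.foldr (fun a b => starBrHom D r a b) u) =
      (xs.map (starE D r)).foldr (fun a b => adM a b) (starE D r u) := by
  induction xs with
  | nil => rfl
  | cons x xs ih => rw [List.foldr_cons, List.map_cons, List.foldr_cons, starE_adM, ih]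

theorem star_adM_iter_zero (r : 𝓞 k →+* R) (y u : ι → R) (t : ℕ) (ht : G.m ≤ t + 1) :
    (adM (starE D r y))^[t] (starE D r u) = 0 := by
  have h1 : ∀ t : ℕ, (adM (starE D r y))^[t] (starE D r u) =
      (List.replicate t (starE D r y)).foldr (fun a b => adM a b) (starE D r u) := by
    intro t
    induction t with
    | zero => rfl
    | succ t ih => rw [Function.iterate_succ_apply', ih, List.replicate_succ, List.foldr_cons]
  rw [h1]
  apply adM_foldr
  · intro x hx
    rw [List.eq_of_mem_replicate hx]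
    exact starE_upper D r y
  · exact starE_upper D r u
  · rw [List.length_replicate]; exact ht

theorem star_exists_coef [Finite R] (m : ℕ) (hR : StarFac R m) :
    ∃ coef : ℕ → ℤ, coef 0 = 1 ∧ coef 1 = 1 ∧
      ∀ t ≤ 2 * m + 2, ((coef t : ℤ) : R) = Ring.inverse (t.factorial : R) := by
  have h1 : ∀ t : ℕ, ∃ c : ℤ, t ≤ 2 * m + 2 → (c : R) = Ring.inverse (t.factorial : R) := by
    intro t
    by_cases ht : t ≤ 2 * m + 2
    · obtain ⟨u, hu⟩ := hR t ht
      have hfin : IsOfFinOrder u := isOfFinOrder_of_finite u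
      obtain ⟨n, hn, hun⟩ := isOfFinOrder_iff_pow_eq_one.mp hfin
      refine ⟨((t.factorial : ℕ) : ℤ) ^ (n - 1), fun _ => ?_⟩
      push_cast
      rw [← hu, Ring.inverse_unit]
      have h2 : u ^ (n - 1) * u = 1 := by
        rw [← pow_succ, Nat.sub_add_cancel hn, hun]
      rw [eq_inv_of_mul_eq_one_left h2 |>.symm]
      push_cast
      rfl
    · exact ⟨0, fun h => absurd h ht⟩
  choose c hc using h1
  refine ⟨fun t => if t ≤ 1 then 1 else c t, by simp, by simp, fun t ht => ?_⟩
  by_cases h : t ≤ 1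
  · have h2 : t.factorial = 1 := by interval_cases t <;> rfl
    simp [h, h2]
  · simp only [h, if_false]
    exact hc t ht

/-- iterates of an additive map -/
def starPow {L : Type} [AddCommGroup L] (f : L →+ L) : ℕ → (L →+ L)
  | 0 => AddMonoidHom.id L
  | t + 1 => (starPow f t).comp f

theorem starPow_apply {L : Type} [AddCommGroup L] (f : L →+ L) (t : ℕ) (u : L) :
    starPow f t u = (fun w => f w)^[t] u := by
  induction t generalizing u with
  | zero => rfl
  | succ t ih =>
    rw [Function.iterate_succ_apply, ← ih]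
    rfl

/-- the additive endomorphism `∑ coef t • ad(y)^t` -/
def starAdHom (r : 𝓞 k →+* R) (coef : ℕ → ℤ) (d : ℕ) (y : ι → R) : (ι → R) →+ (ι → R) :=
  ∑ t ∈ Finset.range d, coef t • starPow (starBrHom D r y) t

theorem starAdHom_apply (r : 𝓞 k →+* R) (coef : ℕ → ℤ) (d : ℕ) (y u : ι → R) :
    starAdHom D r coef d y u =
      ∑ t ∈ Finset.range d, coef t • ((fun w => starBrHom D r y w)^[t] u) := by
  unfold starAdHom
  rw [AddMonoidHom.finsetSum_apply]
  refine Finset.sum_congr rfl (fun t _ => ?_)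
  rw [← starPow_apply]
  rfl

theorem star_conj_E (r : 𝓞 k →+* R) (hR : StarFac R G.m) (coef : ℕ → ℤ)
    (hcoef : ∀ t ≤ 2 * G.m + 2, ((coef t : ℤ) : R) = Ring.inverse (t.factorial : R))
    (y u : ι → R) :
    expR (starE D r y) * starE D r u * expR (-starE D r y) =
      starE D r (starAdHom D r coef (G.m + 2) y u) := by
  rw [expR_Ad (starFac_lt hR) (starE_upper D r y) (starE_upper D r u), starAdHom_apply,
    starE_sum]
  rw [Finset.sum_range_succ, Finset.sum_range_succ]
  have h0 : ∀ t, G.m ≤ t + 1 → starE D r (coef t • (fun w => starBrHom D r y w)^[t] u) = 0 := by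
    intro t ht
    have h1 : coef t • (fun w => starBrHom D r y w)^[t] u =
        ((coef t : ℤ) : R) • (fun w => starBrHom D r y w)^[t] u := by
      rw [Int.cast_smul_eq_zsmul]
    rw [h1, starE_smul, starE_iter, star_adM_iter_zero D r y u t ht, smul_zero]
  rw [h0 _ (by omega), h0 _ (by omega), add_zero, add_zero]
  refine Finset.sum_congr rfl (fun t ht => ?_)
  have h1 : coef t • (fun w => starBrHom D r y w)^[t] u =
      ((coef t : ℤ) : R) • (fun w => starBrHom D r y w)^[t] u := by
    rw [Int.cast_smul_eq_zsmul]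
  rw [h1, starE_smul, starE_iter, hcoef t (by
    have := Finset.mem_range.mp ht
    omega)]

/-- Kirillov data for the finite group `H` of the matrices `expR (E x)`. -/
theorem star_kdata [Finite R] (r : 𝓞 k →+* R) (hR : StarFac R G.m) (hδ : IsUnit (r D.δ))
    (H : Subgroup (GL (Fin G.m) R))
    (hH : ∀ g : GL (Fin G.m) R, g ∈ H ↔
      ∃ x : ι → R, (g : Matrix (Fin G.m) (Fin G.m) R) = expR (starE D r x)) :
    ∃ X : KData H (ι → R), X.br = starBrHom D r := by
  obtain ⟨coef, hc0, hc1, hcoef⟩ := star_exists_coef (R := R) G.m hR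
  have hmem : ∀ x : ι → R, starGL D hR r x ∈ H := fun x => (hH _).mpr ⟨x, rfl⟩
  let f : (ι → R) → H := fun x => ⟨starGL D hR r x, hmem x⟩
  have hf : Function.Bijective f := by
    constructor
    · intro x z hxz
      have h1 : starGL D hR r x = starGL D hR r z := congrArg Subtype.val hxz
      have h2 : expR (starE D r x) = expR (starE D r z) := by
        rw [← starGL_coe D hR, ← starGL_coe D hR, h1]
      exact starE_inj D r hδ (expR_injOn (starFac_lt hR) (starE_upper D r x)
        (starE_upper D r z) h2)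
    · rintro ⟨g, hg⟩
      obtain ⟨x, hx⟩ := (hH g).mp hg
      exact ⟨x, Subtype.ext (Units.ext hx.symm)⟩
  let e : (ι → R) ≃ H := Equiv.ofBijective f hf
  have he : ∀ x, ((e x : GL (Fin G.m) R) : Matrix (Fin G.m) (Fin G.m) R) =
      expR (starE D r x) := fun x => rfl
  have heinv : ∀ x, (((e x)⁻¹ : H) : GL (Fin G.m) R).val = expR (-starE D r x) := fun x => rfl
  refine ⟨{
    br := starBrHom D r
    br_self := ?_
    jacobi := ?_
    nilp := ?_
    exp := e
    exp_add := ?_
    exp_mul := ?_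
    Ad := fun g => starAdHom D r coef (G.m + 2) (e.symm g)
    conj := ?_
    coef := coef
    deg := G.m + 2
    coef_zero := hc0
    coef_one := hc1
    two_le := by omega
    Ad_exp := ?_ }, rfl⟩
  · intro x
    apply starE_inj D r hδ
    rw [starE_adM, starE_zero]
    simp [adM]
  · intro x y z
    apply starE_inj D r hδ
    rw [starE_add]
    simp only [starE_adM, adM]
    noncomm_ring
  · refine ⟨G.m, fun xs x hxs => ?_⟩
    apply starE_inj D r hδ
    rw [starE_foldr, starE_zero]
    apply adM_foldr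
    · intro X hX
      obtain ⟨y, _, rfl⟩ := List.mem_map.mp hX
      exact starE_upper D r y
    · exact starE_upper D r x
    · rw [List.length_map]; omega
  · intro x z hxz
    apply Subtype.ext
    apply Units.ext
    show expR (starE D r (x + z)) = expR (starE D r x) * expR (starE D r z)
    rw [starE_add]
    apply expR_add (starFac_lt hR) (starE_upper D r x) (starE_upper D r z)
    have h1 := starE_adM D r x z
    rw [hxz, starE_zero] at h1
    exact (sub_eq_zero.mp h1.symm)
  · intro x z M h0 h1 h2 h3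
    -- the image of `M` under `E`
    let EH : (ι → R) →+ Matrix (Fin G.m) (Fin G.m) R :=
      { toFun := starE D r, map_zero' := starE_zero D r, map_add' := starE_add D r }
    have hEH : ∀ u, EH u = starE D r u := fun _ => rfl
    have hmemM : ∀ X, X ∈ M.map EH ↔ ∃ u ∈ M, starE D r u = X := fun X => Iff.rfl
    obtain ⟨W, hW, hWe⟩ := bch_mem (m := G.m) (fun j hj => hR j (by omega)) (M.map EH) (by
        intro j hj1 hjm X hX
        obtain ⟨u, hu, rfl⟩ := (hmemM X).mp hX
        have hju : IsUnit (j : R) := by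
          have h5 := hR j (by omega)
          rw [← Nat.mul_factorial_pred (by omega), Nat.cast_mul] at h5
          exact isUnit_of_mul_isUnit_left h5
        obtain ⟨v, hv⟩ := hju
        obtain ⟨n, hn, hvn⟩ := isOfFinOrder_iff_pow_eq_one.mp (isOfFinOrder_of_finite v)
        have h6 : Ring.inverse (j : R) = ((((j : ℕ) : ℤ) ^ (n - 1) : ℤ) : R) := by
          push_cast
          rw [← hv, Ring.inverse_unit]
          have h7 : v ^ (n - 1) * v = 1 := by
            rw [← pow_succ, Nat.sub_add_cancel hn, hvn]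
          rw [eq_inv_of_mul_eq_one_left h7 |>.symm]
          push_cast
          rfl
        rw [h6, ← starE_smul, Int.cast_smul_eq_zsmul]
        exact (hmemM _).mpr ⟨_, M.zsmul_mem hu _, rfl⟩)
      (starE_upper D r x) (starE_upper D r z)
      ((hmemM _).mpr ⟨_, h0, starE_adM D r x z⟩)
      (by
        intro X hX
        obtain ⟨u, hu, rfl⟩ := (hmemM X).mp hX
        exact (hmemM _).mpr ⟨_, h1 u hu, starE_adM D r x u⟩)
      (by
        intro X hX
        obtain ⟨u, hu, rfl⟩ := (hmemM X).mp hX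
        exact (hmemM _).mpr ⟨_, h2 u hu, starE_adM D r z u⟩)
      (by
        intro X hX Y hY
        obtain ⟨u, hu, rfl⟩ := (hmemM X).mp hX
        obtain ⟨v, hv, rfl⟩ := (hmemM Y).mp hY
        exact (hmemM _).mpr ⟨_, h3 u hu v hv, starE_adM D r u v⟩)
    obtain ⟨w, hw, rfl⟩ := (hmemM W).mp hW
    refine ⟨w, hw, ?_⟩
    apply Subtype.ext
    apply Units.ext
    show expR (starE D r x) * expR (starE D r z) = expR (starE D r (x + z + w))
    rw [hWe, starE_add, starE_add]
  · intro g x
    obtain ⟨y, rfl⟩ := e.surjective g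
    apply Subtype.ext
    apply Units.ext
    show expR (starE D r y) * expR (starE D r x) * expR (-starE D r y) =
      expR (starE D r (starAdHom D r coef (G.m + 2) (e.symm (e y)) x))
    rw [Equiv.symm_apply_apply, ← star_conj_E D r hR coef hcoef]
    rw [expR_conj _ _ _ (expR_mul_neg (starFac_lt hR) (starE_upper D r y))
      (expR_neg_mul (starFac_lt hR) (starE_upper D r y))]
  · intro y u
    show starAdHom D r coef (G.m + 2) (e.symm (e y)) u = _
    rw [Equiv.symm_apply_apply, starAdHom_apply]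

end partC

/-! ## Part D: characters of the derived ideal and matrices -/

section partD

variable {k : Type} [Field k] [NumberField k] {G : UnipotentGroup k}
  {ι κ : Type} [Fintype ι] [Fintype κ] [DecidableEq ι] [DecidableEq κ] (D : IntData G ι κ)
  {R : Type} [CommRing R]

theorem star_sum_comMat (r : 𝓞 k →+* R) (x z : ι → R) (y : κ → R) :
    ∑ l, y l * starBr D r x z (D.s l) =
      ∑ j, (Matrix.vecMul x (comMat (fun i j l => r (D.c i j l)) y)) j * z j := by
  simp only [starBr_apply_s, Matrix.vecMul, dotProduct, comMat, Matrix.of_apply, Finset.mul_sum,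
    Finset.sum_mul]
  calc ∑ l, ∑ i, ∑ j, y l * (x i * z j * r (D.c i j l))
      = ∑ i, ∑ l, ∑ j, y l * (x i * z j * r (D.c i j l)) := Finset.sum_comm
    _ = ∑ i, ∑ j, ∑ l, y l * (x i * z j * r (D.c i j l)) :=
        Finset.sum_congr rfl (fun i _ => Finset.sum_comm)
    _ = ∑ j, ∑ i, ∑ l, y l * (x i * z j * r (D.c i j l)) := Finset.sum_comm
    _ = _ := by
        refine Finset.sum_congr rfl (fun j _ => Finset.sum_congr rfl (fun i _ =>
          Finset.sum_congr rfl (fun l _ => ?_)))
        ring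

/-- The derived ideal consists of the vectors supported on the range of `s`. -/
theorem star_mem_der {H : Type} [Group H] (r : 𝓞 k →+* R) (hδ' : IsUnit (r D.δ'))
    (X : KData H (ι → R)) (hX : X.br = starBrHom D r) (u : ι → R) :
    u ∈ X.der ↔ ∀ i, (∀ l, D.s l ≠ i) → u i = 0 := by
  constructor
  · intro hu i hi
    unfold KData.der at hu
    induction hu using AddSubgroup.closure_induction with
    | mem u hu =>
      obtain ⟨x, z, rfl⟩ := hu
      rw [hX]
      exact starBr_apply_ns D r x z i hi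
    | zero => rfl
    | add u v _ _ h1 h2 => rw [Pi.add_apply, h1, h2, add_zero]
    | neg u _ h1 => rw [Pi.neg_apply, h1, neg_zero]
  · intro hu
    obtain ⟨di, hdi⟩ := hδ'.exists_left_inv
    -- single vectors
    have h1 : ∀ (l : κ) (t : R), Pi.single (D.s l) t ∈ X.der := by
      intro l t
      have h2 : Pi.single (D.s l) t = ∑ i, ∑ j,
          X.br (Pi.single i (t * di * r (D.a l i j))) (Pi.single j 1) := by
        funext i'
        rw [Finset.sum_apply]
        simp only [Finset.sum_apply]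
        rw [hX]
        simp only [starBrHom_apply]
        by_cases hi' : ∃ l', D.s l' = i'
        · obtain ⟨l', rfl⟩ := hi'
          simp only [starBr_apply_s]
          have h3 : ∀ i j, (∑ i₁, ∑ j₁, (Pi.single (M := fun _ => R) i (t * di * r (D.a l i j)) i₁) *
              (Pi.single (M := fun _ => R) j (1 : R) j₁) * r (D.c i₁ j₁ l')) =
              t * di * r (D.a l i j * D.c i j l') := by
            intro i j
            rw [Finset.sum_eq_single i]
            · rw [Finset.sum_eq_single j]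
              · rw [Pi.single_eq_same, Pi.single_eq_same, map_mul]; ring
              · intro j₁ _ hj₁
                rw [Pi.single_eq_of_ne hj₁, mul_zero, zero_mul]
              · intro h; exact absurd (Finset.mem_univ _) h
            · intro i₁ _ hi₁
              apply Finset.sum_eq_zero
              intro j₁ _
              rw [Pi.single_eq_of_ne hi₁, zero_mul, zero_mul]
            · intro h; exact absurd (Finset.mem_univ _) h
          simp only [h3]
          have h4 : ∑ i, ∑ j, t * di * r (D.a l i j * D.c i j l') =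
              t * di * r (∑ i, ∑ j, D.a l i j * D.c i j l') := by
            simp only [map_sum, Finset.mul_sum]
          rw [h4, D.ha]
          by_cases hl : l = l'
          · subst hl
            rw [Pi.single_eq_same, if_pos rfl, mul_assoc, hdi, mul_one]
          · rw [if_neg hl, map_zero, mul_zero, Pi.single_eq_of_ne]
            intro h; exact hl (D.s_inj h).symm
        · push Not at hi'
          have h3 : ∀ i j, starBr D r (Pi.single i (t * di * r (D.a l i j))) (Pi.single j 1) i' = 0 :=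
            fun i j => starBr_apply_ns D r _ _ i' hi'
          simp only [h3, Finset.sum_const_zero]
          rw [Pi.single_eq_of_ne]
          exact (hi' l).symm
      rw [h2]
      exact AddSubgroup.sum_mem _ (fun i _ => AddSubgroup.sum_mem _ (fun j _ => X.br_mem_der _ _))
    have h2 : u = ∑ l, Pi.single (D.s l) (u (D.s l)) := by
      funext i
      rw [Finset.sum_apply]
      by_cases hi : ∃ l, D.s l = i
      · obtain ⟨l, rfl⟩ := hi
        rw [Finset.sum_eq_single l]
        · rw [Pi.single_eq_same]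
        · intro l' _ hl'
          rw [Pi.single_eq_of_ne]
          intro h; exact hl' (D.s_inj h).symm
        · intro h; exact absurd (Finset.mem_univ _) h
      · push Not at hi
        rw [hu i hi]
        symm
        apply Finset.sum_eq_zero
        intro l _
        rw [Pi.single_eq_of_ne]
        exact (hi l).symm
    rw [h2]
    exact AddSubgroup.sum_mem _ (fun l _ => h1 l _)

theorem star_char_ne_zero {A : Type} [AddCommGroup A] (θ : AddChar A ℂ) (x : A) : θ x ≠ 0 := by
  intro h
  have h1 : θ (x + -x) = θ x * θ (-x) := AddChar.map_add_eq_mul θ x (-x)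
  rw [add_neg_cancel, AddChar.map_zero_eq_one, h, zero_mul] at h1
  exact one_ne_zero h1

/-- primitivity of an additive character -/
def StarPrim (θ : AddChar R ℂ) : Prop := ∀ a : R, a ≠ 0 → ∃ t, θ (a * t) ≠ 1

/-- the character of the derived ideal attached to `y` -/
def starChar {H : Type} [Group H] (X : KData H (ι → R)) (θ : AddChar R ℂ) (y : κ → R) :
    AddChar X.der ℂ where
  toFun u := θ (∑ l, y l * (u : ι → R) (D.s l))
  map_zero_eq_one' := by simp
  map_add_eq_mul' u v := by
    rw [← AddChar.map_add_eq_mul]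
    congr 1
    rw [← Finset.sum_add_distrib]
    refine Finset.sum_congr rfl (fun l _ => ?_)
    rw [AddSubgroup.coe_add, Pi.add_apply, mul_add]

theorem starChar_apply {H : Type} [Group H] (X : KData H (ι → R)) (θ : AddChar R ℂ) (y : κ → R)
    (u : X.der) : starChar D X θ y u = θ (∑ l, y l * (u : ι → R) (D.s l)) := rfl

theorem star_prim_vec {θ : AddChar R ℂ} (hθ : StarPrim θ) {σ : Type} [Fintype σ] [DecidableEq σ]
    (w : σ → R) (h : ∀ z : σ → R, θ (∑ j, w j * z j) = 1) : w = 0 := by
  funext j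
  by_contra hj
  obtain ⟨t, ht⟩ := hθ (w j) hj
  apply ht
  have h1 := h (Pi.single j t)
  rw [Finset.sum_eq_single j] at h1
  · rwa [Pi.single_eq_same] at h1
  · intro j' _ hj'
    rw [Pi.single_eq_of_ne hj', mul_zero]
  · intro h; exact absurd (Finset.mem_univ _) h

theorem starChar_injective {H : Type} [Group H] (r : 𝓞 k →+* R) (hδ' : IsUnit (r D.δ'))
    (X : KData H (ι → R)) (hX : X.br = starBrHom D r) {θ : AddChar R ℂ} (hθ : StarPrim θ) :
    Function.Injective (starChar D X θ) := by
  intro y y' h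
  have h1 : y - y' = 0 := by
    apply star_prim_vec hθ
    intro z
    -- extend z to a vector in the derived ideal
    let u : ι → R := ∑ l, Pi.single (D.s l) (z l)
    have hus : ∀ l, u (D.s l) = z l := by
      intro l
      show (∑ l', Pi.single (D.s l') (z l') : ι → R) (D.s l) = z l
      rw [Finset.sum_apply, Finset.sum_eq_single l]
      · rw [Pi.single_eq_same]
      · intro l' _ hl'
        rw [Pi.single_eq_of_ne]
        intro h; exact hl' (D.s_inj h).symm
      · intro h; exact absurd (Finset.mem_univ _) h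
    have hu : u ∈ X.der := by
      rw [star_mem_der D r hδ' X hX]
      intro i hi
      show (∑ l', Pi.single (D.s l') (z l') : ι → R) i = 0
      rw [Finset.sum_apply]
      apply Finset.sum_eq_zero
      intro l _
      rw [Pi.single_eq_of_ne]
      exact (hi l).symm
    have h2 := DFunLike.congr_fun h ⟨u, hu⟩
    rw [starChar_apply, starChar_apply] at h2
    simp only [hus] at h2
    have h3 : ∑ l, (y - y') l * z l = ∑ l, y l * z l - ∑ l, y' l * z l := by
      rw [← Finset.sum_sub_distrib]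
      exact Finset.sum_congr rfl (fun l _ => by rw [Pi.sub_apply, sub_mul])
    rw [h3, AddChar.map_sub_eq_div, h2]
    exact div_self (star_char_ne_zero _ _)
  exact sub_eq_zero.mp h1

theorem starChar_bijective [Finite R] {H : Type} [Group H] (r : 𝓞 k →+* R)
    (hδ' : IsUnit (r D.δ'))
    (X : KData H (ι → R)) (hX : X.br = starBrHom D r) {θ : AddChar R ℂ} (hθ : StarPrim θ) :
    Function.Bijective (starChar D X θ) := by
  classical
  have : Fintype R := Fintype.ofFinite R
  have : Fintype X.der := Fintype.ofFinite _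
  have hcard : Fintype.card (κ → R) = Fintype.card (AddChar X.der ℂ) := by
    rw [AddChar.card_eq]
    refine Fintype.card_congr
      { toFun := fun z => ⟨∑ l, Pi.single (D.s l) (z l), ?_⟩
        invFun := fun u l => (u : ι → R) (D.s l)
        left_inv := ?_
        right_inv := ?_ }
    · rw [star_mem_der D r hδ' X hX]
      intro i hi
      rw [Finset.sum_apply]
      apply Finset.sum_eq_zero
      intro l _
      rw [Pi.single_eq_of_ne]
      exact (hi l).symm
    · intro z
      funext l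
      show (∑ l', Pi.single (D.s l') (z l') : ι → R) (D.s l) = z l
      rw [Finset.sum_apply, Finset.sum_eq_single l]
      · rw [Pi.single_eq_same]
      · intro l' _ hl'
        rw [Pi.single_eq_of_ne]
        intro h; exact hl' (D.s_inj h).symm
      · intro h; exact absurd (Finset.mem_univ _) h
    · rintro ⟨u, hu⟩
      rw [star_mem_der D r hδ' X hX] at hu
      apply Subtype.ext
      funext i
      show (∑ l', Pi.single (D.s l') (u (D.s l')) : ι → R) i = u i
      rw [Finset.sum_apply]
      by_cases hi : ∃ l, D.s l = i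
      · obtain ⟨l, rfl⟩ := hi
        rw [Finset.sum_eq_single l]
        · rw [Pi.single_eq_same]
        · intro l' _ hl'
          rw [Pi.single_eq_of_ne]
          intro h; exact hl' (D.s_inj h).symm
        · intro h; exact absurd (Finset.mem_univ _) h
      · push Not at hi
        rw [hu i hi]
        apply Finset.sum_eq_zero
        intro l _
        rw [Pi.single_eq_of_ne]
        exact (hi l).symm
  exact (Fintype.bijective_iff_injective_and_card _).mpr
    ⟨starChar_injective D r hδ' X hX hθ, hcard⟩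

theorem star_radA_index {H : Type} [Group H] (r : 𝓞 k →+* R)
    (X : KData H (ι → R)) (hX : X.br = starBrHom D r) {θ : AddChar R ℂ} (hθ : StarPrim θ)
    (y : κ → R) :
    (X.radA (starChar D X θ y)).index = imA (fun i j l => r (D.c i j l)) y := by
  have h1 : X.radA (starChar D X θ y) = (AddMonoidHom.ker
      (Matrix.vecMulLinear (comMat (fun i j l => r (D.c i j l)) y)).toAddMonoidHom) := by
    ext x
    show (∀ z, starChar D X θ y ⟨X.br x z, X.br_mem_der x z⟩ = 1) ↔
      Matrix.vecMul x (comMat (fun i j l => r (D.c i j l)) y) = 0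
    constructor
    · intro h
      apply star_prim_vec hθ
      intro z
      have h5 : θ (∑ l, y l * (X.br x z) (D.s l)) = 1 := h z
      rw [hX] at h5
      rw [← star_sum_comMat]
      exact h5
    · intro h z
      rw [starChar_apply]
      have h2 := star_sum_comMat D r x z y
      rw [h] at h2
      simp only [Pi.zero_apply, zero_mul, Finset.sum_const_zero] at h2
      show θ (∑ l, y l * (X.br x z) (D.s l)) = 1
      rw [hX, starBrHom_apply, h2, AddChar.map_zero_eq_one]
  rw [h1, AddSubgroup.index_ker]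
  rfl

theorem star_radB_index {H : Type} [Group H] (r : 𝓞 k →+* R) (hδ' : IsUnit (r D.δ'))
    (X : KData H (ι → R)) (hX : X.br = starBrHom D r) {θ : AddChar R ℂ} (hθ : StarPrim θ)
    (y : κ → R) :
    (X.radB (starChar D X θ y)).index = imB D.s (fun i j l => r (D.c i j l)) y := by
  have h1 : X.radB (starChar D X θ y) = (AddMonoidHom.ker
      (Matrix.vecMulLinear ((comMat (fun i j l => r (D.c i j l)) y).submatrix id
        D.s)).toAddMonoidHom) := by
    ext x
    show (∀ z ∈ X.der, starChar D X θ y ⟨X.br x z, X.br_mem_der x z⟩ = 1) ↔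
      Matrix.vecMul x ((comMat (fun i j l => r (D.c i j l)) y).submatrix id D.s) = 0
    have h3 : ∀ l, Matrix.vecMul x ((comMat (fun i j l => r (D.c i j l)) y).submatrix id D.s) l =
        Matrix.vecMul x (comMat (fun i j l => r (D.c i j l)) y) (D.s l) := fun l => rfl
    have h4 : ∀ z : κ → R, (∑ j, (Matrix.vecMul x (comMat (fun i j l => r (D.c i j l)) y)) j *
        (∑ l, Pi.single (D.s l) (z l) : ι → R) j) =
        ∑ l, Matrix.vecMul x (comMat (fun i j l => r (D.c i j l)) y) (D.s l) * z l := by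
      intro z
      simp only [Finset.sum_apply, Finset.mul_sum]
      rw [Finset.sum_comm]
      refine Finset.sum_congr rfl (fun l _ => ?_)
      rw [Finset.sum_eq_single (D.s l)]
      · rw [Pi.single_eq_same]
      · intro j _ hj
        rw [Pi.single_eq_of_ne hj, mul_zero]
      · intro h; exact absurd (Finset.mem_univ _) h
    constructor
    · intro h
      apply star_prim_vec hθ
      intro z
      have hz : (∑ l, Pi.single (D.s l) (z l) : ι → R) ∈ X.der := by
        rw [star_mem_der D r hδ' X hX]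
        intro i hi
        rw [Finset.sum_apply]
        apply Finset.sum_eq_zero
        intro l _
        rw [Pi.single_eq_of_ne]
        exact (hi l).symm
      have h5 : θ (∑ l, y l * (X.br x (∑ l, Pi.single (D.s l) (z l))) (D.s l)) = 1 := h _ hz
      rw [hX] at h5
      have h6 := star_sum_comMat D r x (∑ l, Pi.single (D.s l) (z l)) y
      rw [h4] at h6
      simp only [h3]
      rw [← h6]
      exact h5
    · intro h z hz
      rw [star_mem_der D r hδ' X hX] at hz
      rw [starChar_apply]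
      have h2 := star_sum_comMat D r x z y
      have h5 : ∑ j, (Matrix.vecMul x (comMat (fun i j l => r (D.c i j l)) y)) j * z j = 0 := by
        apply Finset.sum_eq_zero
        intro j _
        by_cases hj : ∃ l, D.s l = j
        · obtain ⟨l, rfl⟩ := hj
          rw [← h3, h, Pi.zero_apply, zero_mul]
        · push Not at hj
          rw [hz j hj, mul_zero]
      show θ (∑ l, y l * (X.br x z) (D.s l)) = 1
      rw [hX, starBrHom_apply, h2, h5, AddChar.map_zero_eq_one]
  rw [h1, AddSubgroup.index_ker]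
  rfl

/-- the count for the finite group -/
theorem star_count [Finite R] {H : Type} [Group H] [Finite H] (r : 𝓞 k →+* R)
    (hδ' : IsUnit (r D.δ'))
    (X : KData H (ι → R)) (hX : X.br = starBrHom D r) {θ : AddChar R ℂ} (hθ : StarPrim θ)
    (p : ℕ) (hp : p.Prime) (hpR : ∃ e : ℕ, ((p : R)) ^ e = 0) (n : ℕ) :
    (numTwist H n : ℚ) = starSum D.s (fun i j l => r (D.c i j l)) n := by
  rw [kirCount X p hp ?_ n]
  · unfold starSum
    symm
    refine finsum_eq_of_bijective (starChar D X θ) (starChar_bijective D r hδ' X hX hθ) ?_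
    intro y
    rw [star_radA_index D r X hX hθ, star_radB_index D r hδ' X hX hθ]
  · intro x
    obtain ⟨e, he⟩ := hpR
    refine ⟨e, ?_⟩
    funext i
    rw [Pi.smul_apply, nsmul_eq_mul]
    push_cast
    rw [he, zero_mul]
    rfl

end partD

/-! ## Part E: the rings `O/P^N` and stability in `N` -/

section partE

open IsLocalRing

variable {O : Type} [CommRing O] [IsDomain O] [IsDiscreteValuationRing O]

theorem star_mem_pow {ϖ : O} (hϖ : Irreducible ϖ) (n : ℕ) (x : O) :
    x ∈ maximalIdeal O ^ n ↔ ϖ ^ n ∣ x := by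
  rw [hϖ.maximalIdeal_eq, Ideal.span_singleton_pow, Ideal.mem_span_singleton]

theorem star_mk_eq {ϖ : O} (hϖ : Irreducible ϖ) (n : ℕ) (x y : O) :
    (Ideal.Quotient.mk (maximalIdeal O ^ n) x = Ideal.Quotient.mk (maximalIdeal O ^ n) y) ↔
      ϖ ^ n ∣ x - y := by
  rw [Ideal.Quotient.eq, star_mem_pow hϖ]

theorem star_finite [Finite (O ⧸ maximalIdeal O)] (N : ℕ) : Finite (O ⧸ maximalIdeal O ^ N) :=
  Ideal.finite_quotient_pow (IsNoetherian.noetherian _) N

theorem star_card (N : ℕ) :
    Nat.card (O ⧸ maximalIdeal O ^ N) = Nat.card (O ⧸ maximalIdeal O) ^ N := by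
  have h := cardQuot_pow_of_prime (S := O) (P := maximalIdeal O)
    (IsDiscreteValuationRing.not_a_field O) (i := N)
  rwa [Submodule.cardQuot_apply, Submodule.cardQuot_apply] at h

/-- multiplication by `ϖ^(N' - N)` from `O/P^N` to `O/P^N'` -/
theorem star_mu {ϖ : O} (hϖ : Irreducible ϖ) {N N' : ℕ} (h : N ≤ N') :
    ∃ μ : (O ⧸ maximalIdeal O ^ N) → (O ⧸ maximalIdeal O ^ N'),
      (∀ x, μ (Ideal.Quotient.mk _ x) = Ideal.Quotient.mk _ (ϖ ^ (N' - N) * x)) ∧
      Function.Injective μ ∧ (∀ a b, μ (a + b) = μ a + μ b) ∧ μ 0 = 0 ∧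
      (∀ (x : O) a, μ (Ideal.Quotient.mk _ x * a) = Ideal.Quotient.mk _ x * μ a) := by
  have hsurj : Function.Surjective (Ideal.Quotient.mk (maximalIdeal O ^ N)) :=
    Ideal.Quotient.mk_surjective
  obtain ⟨μ, h1⟩ : ∃ μ : (O ⧸ maximalIdeal O ^ N) → (O ⧸ maximalIdeal O ^ N'),
      ∀ x, μ (Ideal.Quotient.mk _ x) = Ideal.Quotient.mk _ (ϖ ^ (N' - N) * x) := by
    refine ⟨fun a => Ideal.Quotient.mk (maximalIdeal O ^ N')
      (ϖ ^ (N' - N) * Function.surjInv hsurj a), ?_⟩
    intro x
    have h2 := Function.surjInv_eq hsurj (Ideal.Quotient.mk (maximalIdeal O ^ N) x)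
    rw [star_mk_eq hϖ] at h2
    show Ideal.Quotient.mk (maximalIdeal O ^ N') _ = _
    rw [star_mk_eq hϖ, ← mul_sub]
    have h3 : ϖ ^ N' = ϖ ^ (N' - N) * ϖ ^ N := by rw [← pow_add, Nat.sub_add_cancel h]
    rw [h3]
    exact mul_dvd_mul_left _ h2
  refine ⟨μ, h1, ?_, ?_, ?_, ?_⟩
  · intro a b hab
    obtain ⟨x, rfl⟩ := hsurj a
    obtain ⟨y, rfl⟩ := hsurj b
    rw [h1, h1, star_mk_eq hϖ, ← mul_sub] at hab
    rw [star_mk_eq hϖ]
    have h3 : ϖ ^ N' = ϖ ^ (N' - N) * ϖ ^ N := by rw [← pow_add, Nat.sub_add_cancel h]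
    rw [h3] at hab
    exact (mul_dvd_mul_iff_left (pow_ne_zero _ hϖ.ne_zero)).mp hab
  · intro a b
    obtain ⟨x, rfl⟩ := hsurj a
    obtain ⟨y, rfl⟩ := hsurj b
    rw [← map_add, h1, h1, h1, ← map_add, mul_add]
  · have := h1 0
    rwa [map_zero, mul_zero, map_zero] at this
  · intro x a
    obtain ⟨y, rfl⟩ := hsurj a
    rw [← map_mul, h1, h1, ← map_mul]
    congr 1
    ring

/-- the number of multiples of `ϖ^j` -/
theorem star_card_range {ϖ : O} (hϖ : Irreducible ϖ) {j N' : ℕ} (h : j ≤ N') :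
    Nat.card {z : O ⧸ maximalIdeal O ^ N' // ∃ y, z = Ideal.Quotient.mk _ (ϖ ^ j * y)} =
      Nat.card (O ⧸ maximalIdeal O) ^ (N' - j) := by
  obtain ⟨μ, h1, h2, -⟩ := star_mu hϖ (Nat.sub_le N' j)
  rw [← star_card]
  symm
  refine Nat.card_congr (Equiv.ofBijective
    (fun a => (⟨μ a, ?_⟩ : {z : O ⧸ maximalIdeal O ^ N' // ∃ y,
      z = Ideal.Quotient.mk _ (ϖ ^ j * y)})) ⟨?_, ?_⟩)
  · obtain ⟨x, rfl⟩ := Ideal.Quotient.mk_surjective a
    refine ⟨x, ?_⟩
    rw [h1, Nat.sub_sub_self h]
  · intro a b hab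
    exact h2 (congrArg Subtype.val hab)
  · rintro ⟨z, y, rfl⟩
    refine ⟨Ideal.Quotient.mk _ y, Subtype.ext ?_⟩
    show μ _ = _
    rw [h1, Nat.sub_sub_self h]

theorem star_range_mu {N N' : ℕ} {ι σ : Type} [Fintype ι]
    (μ : (O ⧸ maximalIdeal O ^ N) → (O ⧸ maximalIdeal O ^ N'))
    (hinj : Function.Injective μ) (hadd : ∀ a b, μ (a + b) = μ a + μ b) (h0 : μ 0 = 0)
    (hmul : ∀ (x : O) a, μ (Ideal.Quotient.mk _ x * a) = Ideal.Quotient.mk _ x * μ a)
    (A : Matrix ι σ (O ⧸ maximalIdeal O ^ N)) :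
    Nat.card (LinearMap.range (Matrix.vecMulLinear (A.map μ))) =
      Nat.card (LinearMap.range (Matrix.vecMulLinear A)) := by
  classical
  have hsum : ∀ (f : ι → (O ⧸ maximalIdeal O ^ N)), μ (∑ i, f i) = ∑ i, μ (f i) := by
    intro f
    have : ∀ s : Finset ι, μ (∑ i ∈ s, f i) = ∑ i ∈ s, μ (f i) := by
      intro s
      induction s using Finset.induction_on with
      | empty => simpa using h0
      | insert a s ha ih => rw [Finset.sum_insert ha, Finset.sum_insert ha, hadd, ih]
    exact this Finset.univ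
  have key : ∀ X : ι → O, Matrix.vecMul (fun i => Ideal.Quotient.mk (maximalIdeal O ^ N') (X i))
      (A.map μ) = fun t => μ (Matrix.vecMul
        (fun i => Ideal.Quotient.mk (maximalIdeal O ^ N) (X i)) A t) := by
    intro X
    funext t
    simp only [Matrix.vecMul, dotProduct, Matrix.map_apply, hsum, hmul]
  symm
  refine Nat.card_congr (Equiv.ofBijective
    (fun w : LinearMap.range (Matrix.vecMulLinear A) =>
      (⟨fun t => μ ((w : σ → (O ⧸ maximalIdeal O ^ N)) t), ?_⟩ :
        LinearMap.range (Matrix.vecMulLinear (A.map μ)))) ⟨?_, ?_⟩)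
  · obtain ⟨w, x, rfl⟩ := w
    choose X hX using fun i => Ideal.Quotient.mk_surjective (x i)
    refine ⟨fun i => Ideal.Quotient.mk _ (X i), ?_⟩
    have h1 : x = fun i => Ideal.Quotient.mk (maximalIdeal O ^ N) (X i) := funext fun i => (hX i).symm
    rw [h1]
    exact key X
  · intro w w' hw
    apply Subtype.ext
    funext t
    have h1 := congrArg Subtype.val hw
    exact hinj (congrFun h1 t)
  · rintro ⟨w, x, rfl⟩
    choose X hX using fun i => Ideal.Quotient.mk_surjective (x i)
    refine ⟨⟨_, fun i => Ideal.Quotient.mk _ (X i), rfl⟩, Subtype.ext ?_⟩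
    have h1 : x = fun i => Ideal.Quotient.mk (maximalIdeal O ^ N') (X i) := funext fun i => (hX i).symm
    rw [h1]
    exact (key X).symm

theorem star_comMat_mu {N N' : ℕ} {ι κ : Type} [Fintype κ]
    (μ : (O ⧸ maximalIdeal O ^ N) → (O ⧸ maximalIdeal O ^ N'))
    (hadd : ∀ a b, μ (a + b) = μ a + μ b) (h0 : μ 0 = 0)
    (hmul : ∀ (x : O) a, μ (Ideal.Quotient.mk _ x * a) = Ideal.Quotient.mk _ x * μ a)
    (c : ι → ι → κ → O) (y : κ → (O ⧸ maximalIdeal O ^ N)) :
    comMat (fun i j l => Ideal.Quotient.mk (maximalIdeal O ^ N') (c i j l)) (fun l => μ (y l)) =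
      (comMat (fun i j l => Ideal.Quotient.mk (maximalIdeal O ^ N) (c i j l)) y).map μ := by
  classical
  have hsum : ∀ (f : κ → (O ⧸ maximalIdeal O ^ N)), μ (∑ i, f i) = ∑ i, μ (f i) := by
    intro f
    have : ∀ s : Finset κ, μ (∑ i ∈ s, f i) = ∑ i ∈ s, μ (f i) := by
      intro s
      induction s using Finset.induction_on with
      | empty => simpa using h0
      | insert a s ha ih => rw [Finset.sum_insert ha, Finset.sum_insert ha, hadd, ih]
    exact this Finset.univ
  ext i j
  simp only [comMat, Matrix.of_apply, Matrix.map_apply, hsum, hmul]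

variable {k : Type} [Field k] [NumberField k] {G : UnipotentGroup k}
  {ι κ : Type} [Fintype ι] [Fintype κ] [DecidableEq ι] [DecidableEq κ] (D : IntData G ι κ)

/-- a vector with small image is divisible by `ϖ^(N' - N)` -/
theorem star_divisible [Finite (O ⧸ maximalIdeal O)] {ϖ : O} (hϖ : Irreducible ϖ)
    (a : 𝓞 k →+* O) (hδ' : IsUnit (a D.δ')) {N N' n : ℕ} (h : N ≤ N')
    (hn : n ≤ Nat.card (O ⧸ maximalIdeal O) ^ N) (Y : κ → O)
    (hY : imA (fun i j l => Ideal.Quotient.mk (maximalIdeal O ^ N') (a (D.c i j l)))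
      (fun l => Ideal.Quotient.mk (maximalIdeal O ^ N') (Y l)) = n ^ 2) (l : κ) :
    ϖ ^ (N' - N) ∣ Y l := by
  classical
  by_contra hcon
  -- the largest j with ϖ^j dividing all Y l
  have hex : ∃ j, j < N' - N ∧ (∀ l, ϖ ^ j ∣ Y l) ∧ ∃ l, ¬ ϖ ^ (j + 1) ∣ Y l := by
    have h1 : ∃ j, ¬ ∀ l, ϖ ^ j ∣ Y l := ⟨N' - N, fun hall => hcon (hall l)⟩
    have h2 := Nat.find_spec h1
    have h3 : Nat.find h1 ≠ 0 := by
      intro h0
      rw [h0] at h2
      exact h2 (fun l => by simp)
    obtain ⟨j, hj⟩ := Nat.exists_eq_succ_of_ne_zero h3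
    refine ⟨j, ?_, ?_, ?_⟩
    · have : Nat.find h1 ≤ N' - N := Nat.find_min' h1 (fun hall => hcon (hall l))
      omega
    · have : j < Nat.find h1 := by omega
      exact not_not.mp (Nat.find_min h1 this)
    · rw [hj] at h2
      exact not_forall.mp h2
  obtain ⟨j, hjN, hjall, l₀, hl₀⟩ := hex
  choose Z hZ using hjall
  have hZu : IsUnit (Z l₀) := by
    by_contra hnu
    apply hl₀
    have h1 : Z l₀ ∈ maximalIdeal O := (mem_maximalIdeal _).mpr hnu
    have h2 := (star_mem_pow hϖ 1 (Z l₀)).mp (by rwa [pow_one])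
    rw [pow_one] at h2
    rw [hZ l₀, pow_succ]
    exact mul_dvd_mul_left _ h2
  -- the matrix entry which is a unit
  let B : ι → ι → O := fun i i' => ∑ l, a (D.c i i' l) * Z l
  have hBself : ∀ i, B i i = 0 := by
    intro i
    show ∑ l, a (D.c i i l) * Z l = 0
    simp only [D.c_self, map_zero, zero_mul, Finset.sum_const_zero]
  have hBanti : ∀ i i', B i' i = - B i i' := by
    intro i i'
    show ∑ l, a (D.c i' i l) * Z l = - ∑ l, a (D.c i i' l) * Z l
    rw [← Finset.sum_neg_distrib]
    refine Finset.sum_congr rfl (fun l _ => ?_)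
    rw [D.c_anti i i' l, map_neg, neg_mul]
  have hBsum : ∑ i, ∑ i', a (D.a l₀ i i') * B i i' = a D.δ' * Z l₀ := by
    have h1 : ∑ i, ∑ i', a (D.a l₀ i i') * B i i' =
        ∑ l, a (∑ i, ∑ i', D.a l₀ i i' * D.c i i' l) * Z l := by
      simp only [B, Finset.mul_sum, map_sum, Finset.sum_mul, map_mul]
      calc ∑ i, ∑ i', ∑ l, a (D.a l₀ i i') * (a (D.c i i' l) * Z l)
          = ∑ i, ∑ l, ∑ i', a (D.a l₀ i i') * (a (D.c i i' l) * Z l) :=
            Finset.sum_congr rfl (fun i _ => Finset.sum_comm)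
        _ = ∑ l, ∑ i, ∑ i', a (D.a l₀ i i') * (a (D.c i i' l) * Z l) := Finset.sum_comm
        _ = _ := by
            refine Finset.sum_congr rfl (fun l _ => Finset.sum_congr rfl (fun i _ =>
              Finset.sum_congr rfl (fun i' _ => ?_)))
            ring
    rw [h1]
    simp only [D.ha]
    rw [Finset.sum_eq_single l₀]
    · rw [if_pos rfl]
    · intro l' _ hl'
      rw [if_neg (Ne.symm hl'), map_zero, zero_mul]
    · intro hh; exact absurd (Finset.mem_univ _) hh
  have hunit : IsUnit (∑ i, ∑ i', a (D.a l₀ i i') * B i i') := by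
    rw [hBsum]; exact hδ'.mul hZu
  obtain ⟨i₀, i₁, hB⟩ : ∃ i₀ i₁, IsUnit (B i₀ i₁) := by
    by_contra hno
    push Not at hno
    have h1 : ∑ i, ∑ i', a (D.a l₀ i i') * B i i' ∈ maximalIdeal O :=
      Ideal.sum_mem _ (fun i _ => Ideal.sum_mem _ (fun i' _ =>
        Ideal.mul_mem_left _ _ ((mem_maximalIdeal _).mpr (hno i i'))))
    exact (mem_maximalIdeal _).mp h1 hunit
  have hne : i₀ ≠ i₁ := by
    intro h1
    rw [h1, hBself] at hB
    exact not_isUnit_zero hB
  -- lower bound for the image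
  obtain ⟨Bi, hBi⟩ := hB.exists_left_inv
  set A' := comMat (fun i j l => Ideal.Quotient.mk (maximalIdeal O ^ N') (a (D.c i j l)))
      (fun l => Ideal.Quotient.mk (maximalIdeal O ^ N') (Y l)) with hA'
  have hA'e : ∀ i i', A' i i' = Ideal.Quotient.mk _ (ϖ ^ j * B i i') := by
    intro i i'
    rw [hA']
    simp only [comMat, Matrix.of_apply, B]
    rw [Finset.mul_sum, map_sum]
    refine Finset.sum_congr rfl (fun l _ => ?_)
    rw [← map_mul, hZ l]
    congr 1; ring
  have hfinN' : Finite (O ⧸ maximalIdeal O ^ N') := star_finite N'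
  let T := {z : O ⧸ maximalIdeal O ^ N' // ∃ y, z = Ideal.Quotient.mk _ (ϖ ^ j * y)}
  have hcardT : Nat.card T = Nat.card (O ⧸ maximalIdeal O) ^ (N' - j) :=
    star_card_range hϖ (by omega)
  have hsurj : ∀ t : T × T, ∃ w : LinearMap.range (Matrix.vecMulLinear A'),
      (w : ι → (O ⧸ maximalIdeal O ^ N')) i₁ = t.1.1 ∧
      (w : ι → (O ⧸ maximalIdeal O ^ N')) i₀ = t.2.1 := by
    rintro ⟨⟨_, y₁, rfl⟩, ⟨_, y₂, rfl⟩⟩
    refine ⟨⟨_, Pi.single i₀ (Ideal.Quotient.mk _ (y₁ * Bi)) +
      Pi.single i₁ (Ideal.Quotient.mk _ (-(y₂ * Bi))), rfl⟩, ?_, ?_⟩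
    · show Matrix.vecMul _ A' i₁ = _
      rw [Matrix.add_vecMul, Matrix.single_vecMul, Matrix.single_vecMul]
      simp only [Pi.add_apply, Pi.smul_apply, Matrix.row, smul_eq_mul, hA'e, ← map_mul, ← map_add, hBself]
      congr 1
      calc y₁ * Bi * (ϖ ^ j * B i₀ i₁) + -(y₂ * Bi) * (ϖ ^ j * 0)
          = ϖ ^ j * y₁ * (Bi * B i₀ i₁) := by ring
        _ = ϖ ^ j * y₁ := by rw [hBi, mul_one]
    · show Matrix.vecMul _ A' i₀ = _
      rw [Matrix.add_vecMul, Matrix.single_vecMul, Matrix.single_vecMul]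
      simp only [Pi.add_apply, Pi.smul_apply, Matrix.row, smul_eq_mul, hA'e, ← map_mul, ← map_add, hBself, hBanti i₀ i₁]
      congr 1
      calc y₁ * Bi * (ϖ ^ j * 0) + -(y₂ * Bi) * (ϖ ^ j * -B i₀ i₁)
          = ϖ ^ j * y₂ * (Bi * B i₀ i₁) := by ring
        _ = ϖ ^ j * y₂ := by rw [hBi, mul_one]
  have hle : Nat.card (T × T) ≤ Nat.card (LinearMap.range (Matrix.vecMulLinear A')) := by
    choose w hw1 hw2 using hsurj
    refine Nat.card_le_card_of_injective w ?_
    intro t t' htt
    have e1 := hw1 t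
    have e2 := hw2 t
    rw [htt, hw1 t'] at e1
    rw [htt, hw2 t'] at e2
    exact Prod.ext (Subtype.ext e1.symm) (Subtype.ext e2.symm)
  have hY' : Nat.card (LinearMap.range (Matrix.vecMulLinear A')) = n ^ 2 := hY
  rw [hY', Nat.card_prod, hcardT, ← sq] at hle
  have h5 : Nat.card (O ⧸ maximalIdeal O) ^ (N' - j) ≤ n :=
    (Nat.pow_le_pow_iff_left (by norm_num)).mp hle
  have hq : 1 < Nat.card (O ⧸ maximalIdeal O) := by
    have : Nontrivial (O ⧸ maximalIdeal O) := Ideal.Quotient.nontrivial_iff.mpr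
      (Ideal.IsPrime.ne_top inferInstance)
    exact Finite.one_lt_card
  have h6 := (Nat.pow_le_pow_iff_right hq).mp (h5.trans hn)
  omega

/-- stability of the sums -/
theorem star_stable [Finite (O ⧸ maximalIdeal O)] (a : 𝓞 k →+* O) (hδ' : IsUnit (a D.δ'))
    {N N' n : ℕ} (h : N ≤ N') (hn : n ≤ Nat.card (O ⧸ maximalIdeal O) ^ N) :
    starSum (R := O ⧸ maximalIdeal O ^ N') D.s
        (fun i i' l => Ideal.Quotient.mk _ (a (D.c i i' l))) n =
      starSum (R := O ⧸ maximalIdeal O ^ N) D.s
        (fun i i' l => Ideal.Quotient.mk _ (a (D.c i i' l))) n := by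
  classical
  obtain ⟨ϖ, hϖ⟩ := IsDiscreteValuationRing.exists_irreducible O
  obtain ⟨μ, h1, hinj, hadd, h0, hmul⟩ := star_mu hϖ h
  have hinj' : Function.Injective (fun (y : κ → (O ⧸ maximalIdeal O ^ N)) (l : κ) => μ (y l)) := by
    intro y y' hy
    funext l
    exact hinj (congrFun hy l)
  have hA : ∀ y : κ → (O ⧸ maximalIdeal O ^ N),
      imA (fun i i' l => Ideal.Quotient.mk (maximalIdeal O ^ N') (a (D.c i i' l)))
        (fun l => μ (y l)) =
      imA (fun i i' l => Ideal.Quotient.mk (maximalIdeal O ^ N) (a (D.c i i' l))) y := by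
    intro y
    unfold imA
    rw [star_comMat_mu μ hadd h0 hmul (fun i i' l => a (D.c i i' l))]
    exact star_range_mu μ hinj hadd h0 hmul _
  have hB : ∀ y : κ → (O ⧸ maximalIdeal O ^ N),
      imB D.s (fun i i' l => Ideal.Quotient.mk (maximalIdeal O ^ N') (a (D.c i i' l)))
        (fun l => μ (y l)) =
      imB D.s (fun i i' l => Ideal.Quotient.mk (maximalIdeal O ^ N) (a (D.c i i' l))) y := by
    intro y
    unfold imB
    rw [star_comMat_mu μ hadd h0 hmul (fun i i' l => a (D.c i i' l))]
    exact star_range_mu μ hinj hadd h0 hmul _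
  unfold starSum
  have h2 := finsum_mem_range (f := fun y : κ → (O ⧸ maximalIdeal O ^ N') =>
    if imA (fun i i' l => Ideal.Quotient.mk (maximalIdeal O ^ N') (a (D.c i i' l))) y = n ^ 2 then
      (1 / (imB D.s (fun i i' l => Ideal.Quotient.mk (maximalIdeal O ^ N') (a (D.c i i' l))) y : ℚ))
      else 0) hinj'
  rw [← finsum_mem_univ]
  rw [finsum_mem_inter_support_eq' _ Set.univ
    (Set.range (fun (y : κ → (O ⧸ maximalIdeal O ^ N)) (l : κ) => μ (y l)))]
  · rw [h2]
    refine finsum_congr (fun y => ?_)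
    rw [hA, hB]
  · intro y hy
    constructor
    · intro _
      choose Y hYy using fun l => Ideal.Quotient.mk_surjective (y l)
      have hyY : y = fun l => Ideal.Quotient.mk (maximalIdeal O ^ N') (Y l) :=
        funext fun l => (hYy l).symm
      rw [Function.mem_support] at hy
      have h3 : imA (fun i i' l => Ideal.Quotient.mk (maximalIdeal O ^ N') (a (D.c i i' l))) y =
          n ^ 2 := by
        by_contra hc
        exact hy (if_neg hc)
      rw [hyY] at h3
      have h4 := star_divisible D hϖ a hδ' h hn Y h3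
      choose W hW using h4
      refine ⟨fun l => Ideal.Quotient.mk _ (W l), ?_⟩
      funext l
      show μ _ = _
      rw [h1, ← hW l, hYy l]
    · intro _; exact Set.mem_univ _

/-- a primitive character of `O/P^N` -/
theorem star_exists_prim [Finite (O ⧸ maximalIdeal O)] (N : ℕ) :
    ∃ θ : AddChar (O ⧸ maximalIdeal O ^ N) ℂ, StarPrim θ := by
  obtain ⟨ϖ, hϖ⟩ := IsDiscreteValuationRing.exists_irreducible O
  have := star_finite (O := O) N
  rcases Nat.eq_zero_or_pos N with rfl | hN
  · refine ⟨1, ?_⟩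
    intro x hx
    exfalso
    apply hx
    obtain ⟨y, rfl⟩ := Ideal.Quotient.mk_surjective x
    rw [← map_zero (Ideal.Quotient.mk (maximalIdeal O ^ 0)), star_mk_eq hϖ]
    simp
  · have h1 : Ideal.Quotient.mk (maximalIdeal O ^ N) (ϖ ^ (N - 1)) ≠ 0 := by
      intro h2
      rw [← map_zero (Ideal.Quotient.mk (maximalIdeal O ^ N)), star_mk_eq hϖ, sub_zero] at h2
      have h3 := (pow_dvd_pow_iff hϖ.ne_zero hϖ.not_isUnit).mp h2
      omega
    obtain ⟨θ, hθ⟩ := AddChar.exists_apply_ne_zero.mpr h1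
    refine ⟨θ, ?_⟩
    intro x hx
    obtain ⟨y, rfl⟩ := Ideal.Quotient.mk_surjective x
    have hy : y ≠ 0 := by
      rintro rfl
      exact hx (map_zero _)
    obtain ⟨j, u, hu⟩ := IsDiscreteValuationRing.eq_unit_mul_pow_irreducible hy hϖ
    have hj : j < N := by
      by_contra hj
      push Not at hj
      apply hx
      rw [← map_zero (Ideal.Quotient.mk (maximalIdeal O ^ N)), star_mk_eq hϖ, sub_zero, hu]
      exact Dvd.dvd.mul_left (pow_dvd_pow ϖ hj) _
    refine ⟨Ideal.Quotient.mk _ (((u⁻¹ : Oˣ) : O) * ϖ ^ (N - 1 - j)), ?_⟩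
    rw [← map_mul]
    have h4 : y * (((u⁻¹ : Oˣ) : O) * ϖ ^ (N - 1 - j)) = ϖ ^ (N - 1) := by
      rw [hu]
      calc (u : O) * ϖ ^ j * (((u⁻¹ : Oˣ) : O) * ϖ ^ (N - 1 - j))
          = ((u : O) * ((u⁻¹ : Oˣ) : O)) * (ϖ ^ j * ϖ ^ (N - 1 - j)) := by ring
        _ = ϖ ^ (N - 1) := by
            rw [Units.mul_inv, one_mul, ← pow_add]
            congr 1; omega
    rw [h4]
    exact hθ

/-- the residue characteristic is nilpotent in `O/P^N` -/
theorem star_char_nilp [Finite (O ⧸ maximalIdeal O)] :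
    ∃ p : ℕ, p.Prime ∧ ∀ N : ℕ, ∃ e : ℕ, ((p : ℕ) : O ⧸ maximalIdeal O ^ N) ^ e = 0 := by
  haveI : Field (O ⧸ maximalIdeal O) := Ideal.Quotient.field _
  obtain ⟨p, hp⟩ := CharP.exists (O ⧸ maximalIdeal O)
  have hp' : p.Prime := CharP.char_is_prime (O ⧸ maximalIdeal O) p
  refine ⟨p, hp', fun N => ⟨N, ?_⟩⟩
  have h1 : ((p : ℕ) : O) ∈ maximalIdeal O := by
    rw [← Ideal.Quotient.eq_zero_iff_mem, map_natCast]
    exact CharP.cast_eq_zero _ p
  have h2 : ((p : ℕ) : O) ^ N ∈ maximalIdeal O ^ N := Ideal.pow_mem_pow h1 N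
  rw [← Ideal.Quotient.eq_zero_iff_mem, map_pow, map_natCast] at h2
  exact h2

end partE

/-! ## Part F: no small subgroups -/

section partF

theorem star_growth (b : ℕ → ℝ) (M : ℝ) (hb : ∀ t, 0 ≤ b t) (hM : ∀ t, b t ≤ M)
    (hg : ∀ t, 3 / 2 * b t ≤ b (t + 1)) : b 0 = 0 := by
  by_contra h0
  have hpos : 0 < b 0 := lt_of_le_of_ne (hb 0) (Ne.symm h0)
  have h1 : ∀ t, (3 / 2 : ℝ) ^ t * b 0 ≤ b t := by
    intro t
    induction t with
    | zero => simp
    | succ t ih =>
      calc (3 / 2 : ℝ) ^ (t + 1) * b 0 = 3 / 2 * ((3 / 2 : ℝ) ^ t * b 0) := by ring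
        _ ≤ 3 / 2 * b t := by linarith
        _ ≤ b (t + 1) := hg t
  obtain ⟨t, ht⟩ := pow_unbounded_of_one_lt (M / b 0) (by norm_num : (1 : ℝ) < 3 / 2)
  have h2 := (h1 t).trans (hM t)
  rw [div_lt_iff₀ hpos] at ht
  linarith

theorem star_small_scalar (z : ℂ) (h : ∀ t : ℕ, ‖z ^ (2 ^ t) - 1‖ < 1 / 2) : z = 1 := by
  have h1 := star_growth (fun t => ‖z ^ (2 ^ t) - 1‖) (1 / 2) (fun t => norm_nonneg _)
    (fun t => (h t).le) (by
      intro t
      show 3 / 2 * ‖z ^ (2 ^ t) - 1‖ ≤ ‖z ^ (2 ^ (t + 1)) - 1‖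
      have e : z ^ (2 ^ (t + 1)) - 1 = (z ^ (2 ^ t) - 1) * (2 + (z ^ (2 ^ t) - 1)) := by
        rw [pow_succ 2 t, pow_mul]; ring
      rw [e, norm_mul]
      have h2 : (3 : ℝ) / 2 ≤ ‖2 + (z ^ (2 ^ t) - 1)‖ := by
        have h3 : ‖(2 : ℂ)‖ - ‖z ^ (2 ^ t) - 1‖ ≤ ‖2 + (z ^ (2 ^ t) - 1)‖ := by
          have := norm_sub_norm_le (2 : ℂ) (-(z ^ (2 ^ t) - 1))
          rwa [norm_neg, sub_neg_eq_add] at this
        have h4 := h t
        have h5 : ‖(2 : ℂ)‖ = 2 := by simp
        linarith
      nlinarith [norm_nonneg (z ^ (2 ^ t) - 1)])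
  have h2 : ‖z ^ (2 ^ 0) - 1‖ = 0 := h1
  rw [norm_eq_zero, pow_zero, pow_one] at h2
  exact sub_eq_zero.mp h2

theorem star_small_matrix {n : ℕ} (A : Matrix (Fin n) (Fin n) ℂ)
    (h : ∀ t : ℕ, ∀ a b, ‖(A ^ (2 ^ t)) a b - (1 : Matrix (Fin n) (Fin n) ℂ) a b‖ <
      1 / (2 * (n + 1))) : A = 1 := by
  -- the sup norm
  let N : Matrix (Fin n) (Fin n) ℂ → ℝ := fun B => ‖fun (p : Fin n × Fin n) => B p.1 p.2‖
  have hN0 : ∀ B, 0 ≤ N B := fun B => norm_nonneg _
  have hent : ∀ (B : Matrix (Fin n) (Fin n) ℂ) a b, ‖B a b‖ ≤ N B := fun B a b =>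
    norm_le_pi_norm (fun (p : Fin n × Fin n) => B p.1 p.2) (a, b)
  have hle : ∀ (B : Matrix (Fin n) (Fin n) ℂ) (c : ℝ), 0 ≤ c → (∀ a b, ‖B a b‖ ≤ c) → N B ≤ c :=
    fun B c hc hB => (pi_norm_le_iff_of_nonneg hc).mpr (fun p => hB p.1 p.2)
  have hmul : ∀ B : Matrix (Fin n) (Fin n) ℂ, N (B * B) ≤ n * (N B * N B) := by
    intro B
    apply hle _ _ (by have := hN0 B; positivity)
    intro a b
    rw [Matrix.mul_apply]
    refine (norm_sum_le _ _).trans ?_
    calc ∑ i, ‖B a i * B i b‖ ≤ ∑ _i : Fin n, N B * N B := by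
          apply Finset.sum_le_sum
          intro i _
          rw [norm_mul]
          exact mul_le_mul (hent B a i) (hent B i b) (norm_nonneg _) (hN0 B)
      _ = n * (N B * N B) := by simp
  have hn : (0 : ℝ) < 1 / (2 * (n + 1)) := by positivity
  have hlt : ∀ t, N (A ^ (2 ^ t) - 1) ≤ 1 / (2 * (n + 1)) := fun t =>
    hle _ _ hn.le (fun a b => (h t a b).le)
  have h1 := star_growth (fun t => N (A ^ (2 ^ t) - 1)) (1 / (2 * (n + 1)))
    (fun t => hN0 _) hlt (by
      intro t
      show 3 / 2 * N (A ^ (2 ^ t) - 1) ≤ N (A ^ (2 ^ (t + 1)) - 1)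
      set B := A ^ (2 ^ t) - 1 with hB
      have e : A ^ (2 ^ (t + 1)) - 1 = (2 : ℂ) • B + B * B := by
        have h2 : A ^ (2 ^ t) = 1 + B := by rw [hB]; abel
        rw [pow_succ 2 t, pow_mul, h2, sq]
        rw [two_smul]
        noncomm_ring
      rw [e]
      have h3 : 2 * N B ≤ N ((2 : ℂ) • B + B * B) + N (B * B) := by
        have h4 : N B ≤ (N ((2 : ℂ) • B + B * B) + N (B * B)) / 2 := by
          apply hle _ _ (by have := hN0 ((2 : ℂ) • B + B * B); have := hN0 (B * B); positivity)
          intro a b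
          have h5 : ‖(2 : ℂ) * B a b‖ ≤ N ((2 : ℂ) • B + B * B) + N (B * B) := by
            have h6 : (2 : ℂ) * B a b = ((2 : ℂ) • B + B * B) a b - (B * B) a b := by
              simp [Matrix.add_apply, Matrix.smul_apply]
            rw [h6]
            exact (norm_sub_le _ _).trans (add_le_add (hent _ a b) (hent _ a b))
          rw [norm_mul] at h5
          have h7 : ‖(2 : ℂ)‖ = 2 := by simp
          rw [h7] at h5
          linarith
        linarith
      have h4 := hmul B
      have h5 : (n : ℝ) * N B ≤ 1 / 2 := by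
        have h6 := hlt t
        rw [← hB] at h6
        calc (n : ℝ) * N B ≤ n * (1 / (2 * (n + 1))) := by gcongr
          _ ≤ 1 / 2 := by
              rw [mul_one_div, div_le_div_iff₀ (by positivity) (by norm_num)]
              linarith
      have h7 : (n : ℝ) * (N B * N B) ≤ 1 / 2 * N B := by
        calc (n : ℝ) * (N B * N B) = (n * N B) * N B := by ring
          _ ≤ 1 / 2 * N B := mul_le_mul_of_nonneg_right h5 (hN0 B)
      linarith)
  have h2 : N (A ^ (2 ^ 0) - 1) = 0 := h1
  rw [pow_zero, pow_one] at h2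
  have h3 : A - 1 = 0 := by
    ext a b
    have := hent (A - 1) a b
    rw [h2] at this
    exact norm_le_zero_iff.mp this
  exact sub_eq_zero.mp h3

variable {O : Type} [CommRing O] {m : ℕ}

theorem star_congOne_iff (I : Ideal O) (g : GL (Fin m) O) :
    CongOne I g ↔ Matrix.GeneralLinearGroup.map (Ideal.Quotient.mk I) g = 1 := by
  unfold CongOne
  constructor
  · intro h
    apply Units.ext
    ext i j
    show Ideal.Quotient.mk I ((g : Matrix (Fin m) (Fin m) O) i j) =
      (1 : Matrix (Fin m) (Fin m) (O ⧸ I)) i j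
    have h1 := h i j
    rw [← Ideal.Quotient.eq_zero_iff_mem, map_sub, sub_eq_zero] at h1
    rw [h1, Matrix.one_apply, Matrix.one_apply]
    split_ifs <;> simp
  · intro h i j
    have h1 : Ideal.Quotient.mk I ((g : Matrix (Fin m) (Fin m) O) i j) =
      (1 : Matrix (Fin m) (Fin m) (O ⧸ I)) i j :=
      congrFun (congrFun (congrArg (fun x : GL (Fin m) (O ⧸ I) =>
        (x : Matrix (Fin m) (Fin m) (O ⧸ I))) h) i) j
    rw [← Ideal.Quotient.eq_zero_iff_mem, map_sub, sub_eq_zero, h1, Matrix.one_apply,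
      Matrix.one_apply]
    split_ifs <;> simp

theorem star_congOne_pow {I : Ideal O} {H : Subgroup (GL (Fin m) O)} {g : H}
    (hg : CongOne I (g : GL (Fin m) O)) (t : ℕ) : CongOne I ((g ^ t : H) : GL (Fin m) O) := by
  rw [star_congOne_iff] at hg ⊢
  rw [SubgroupClass.coe_pow, map_pow, hg, one_pow]

theorem star_contRep_iff (P : Ideal O) (H : Subgroup (GL (Fin m) O)) {n : ℕ}
    (ρ : H →* GL (Fin n) ℂ) :
    ContRep P H ρ ↔ ∃ N : ℕ, ∀ g : H, CongOne (P ^ N) (g : GL (Fin m) O) → ρ g = 1 := by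
  constructor
  · intro h
    obtain ⟨N, hN⟩ := h (1 / (2 * (n + 1))) (by positivity)
    refine ⟨N, fun g hg => ?_⟩
    apply Units.ext
    apply star_small_matrix
    intro t a b
    have h1 := hN (g ^ (2 ^ t)) (star_congOne_pow hg _) a b
    have e : ((ρ (g ^ (2 ^ t)) : GL (Fin n) ℂ) : Matrix (Fin n) (Fin n) ℂ) =
        ((ρ g : GL (Fin n) ℂ) : Matrix (Fin n) (Fin n) ℂ) ^ (2 ^ t) := by
      rw [map_pow]; rfl
    rw [e] at h1
    exact h1
  · rintro ⟨N, hN⟩ ε hε
    refine ⟨N, fun g hg a b => ?_⟩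
    rw [hN g hg]
    simpa using hε

theorem star_contChar_iff (P : Ideal O) (H : Subgroup (GL (Fin m) O)) (χ : H →* ℂˣ) :
    ContChar P H χ ↔ ∃ N : ℕ, ∀ g : H, CongOne (P ^ N) (g : GL (Fin m) O) → χ g = 1 := by
  constructor
  · intro h
    obtain ⟨N, hN⟩ := h (1 / 2) (by norm_num)
    refine ⟨N, fun g hg => ?_⟩
    apply Units.ext
    apply star_small_scalar
    intro t
    have h1 := hN (g ^ (2 ^ t)) (star_congOne_pow hg _)
    rw [map_pow, Units.val_pow_eq_pow_val] at h1
    exact h1
  · rintro ⟨N, hN⟩ ε hε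
    refine ⟨N, fun g hg => ?_⟩
    rw [hN g hg]
    simpa using hε

end partF

/-! ## Part G: counting classes -/

section partG

theorem star_card_exhaust {Q : Type} {QN : ℕ → Type} (Φ : ∀ N, QN N → Q)
    (hinj : ∀ N, Function.Injective (Φ N))
    (hmono : ∀ N N', N ≤ N' → Set.range (Φ N) ⊆ Set.range (Φ N'))
    (hunion : ∀ q, ∃ N, q ∈ Set.range (Φ N)) (N₀ c : ℕ)
    (hc : ∀ N, N₀ ≤ N → Nat.card (QN N) = c) : Nat.card Q = c := by
  rcases Nat.eq_zero_or_pos c with rfl | hcpos
  · by_cases hinf : ∃ N, Infinite (QN N)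
    · obtain ⟨N, hN⟩ := hinf
      have : Infinite Q := Infinite.of_injective (Φ N) (hinj N)
      exact Nat.card_eq_zero_of_infinite
    · push Not at hinf
      have hempty : ∀ N, N₀ ≤ N → IsEmpty (QN N) := by
        intro N hN
        have hfin : Finite (QN N) := by simpa using hinf N
        exact (Finite.card_eq_zero_iff).mp (hc N hN)
      have : IsEmpty Q := by
        refine ⟨fun q => ?_⟩
        obtain ⟨N, hq⟩ := hunion q
        obtain ⟨x, -⟩ := hmono N (max N N₀) (le_max_left _ _) hq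
        exact (hempty _ (le_max_right _ _)).false x
      exact Nat.card_of_isEmpty
  · have hfin : ∀ N, N₀ ≤ N → Finite (QN N) := fun N hN =>
      Nat.finite_of_card_ne_zero (by rw [hc N hN]; omega)
    have heq : ∀ N, N₀ ≤ N → Set.range (Φ N) = Set.range (Φ N₀) := by
      intro N hN
      have h1 := hfin N hN
      have h2 : (Set.range (Φ N)).Finite := Set.finite_range _
      symm
      apply Set.eq_of_subset_of_ncard_le (hmono _ _ hN) _ h2
      rw [← Set.image_univ, ← Set.image_univ, Set.ncard_image_of_injective _ (hinj N),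
        Set.ncard_image_of_injective _ (hinj N₀), Set.ncard_univ, Set.ncard_univ, hc N hN,
        hc N₀ le_rfl]
    have hsurj : Function.Surjective (Φ N₀) := by
      intro q
      obtain ⟨N, hq⟩ := hunion q
      have h1 := hmono N (max N N₀) (le_max_left _ _) hq
      rw [heq _ (le_max_right _ _)] at h1
      exact h1
    rw [← hc N₀ le_rfl]
    exact (Nat.card_congr (Equiv.ofBijective (Φ N₀) ⟨hinj N₀, hsurj⟩)).symm

variable {O : Type} [CommRing O] {m : ℕ}

/-- twist equivalence for the finite quotients -/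
def StarRel {H : Type} [Group H] {n : ℕ} (ρ σ : {ρ : H →* GL (Fin n) ℂ // Irred ρ}) : Prop :=
  ∃ χ : H →* ℂˣ, ∃ T : GL (Fin n) ℂ, ∀ g : H,
      ((ρ.1 g : GL (Fin n) ℂ) : Matrix (Fin n) (Fin n) ℂ) =
        ((χ g : ℂˣ) : ℂ) • ((T * σ.1 g * T⁻¹ : GL (Fin n) ℂ) : Matrix (Fin n) (Fin n) ℂ)

/-- twist equivalence for continuous representations -/
def StarRelC (P : Ideal O) (H : Subgroup (GL (Fin m) O)) {n : ℕ}
    (ρ σ : {ρ : H →* GL (Fin n) ℂ // Irred ρ ∧ ContRep P H ρ}) : Prop :=
  ∃ χ : H →* ℂˣ, ContChar P H χ ∧ ∃ T : GL (Fin n) ℂ, ∀ g : H,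
      ((ρ.1 g : GL (Fin n) ℂ) : Matrix (Fin n) (Fin n) ℂ) =
        ((χ g : ℂˣ) : ℂ) • ((T * σ.1 g * T⁻¹ : GL (Fin n) ℂ) : Matrix (Fin n) (Fin n) ℂ)

theorem starRelC_equiv (P : Ideal O) (H : Subgroup (GL (Fin m) O)) (n : ℕ) :
    Equivalence (StarRelC P H (n := n)) := by
  constructor
  · intro ρ
    refine ⟨1, ?_, 1, fun g => ?_⟩
    · rw [star_contChar_iff]
      exact ⟨0, fun g _ => rfl⟩
    · simp
  · rintro ρ σ ⟨χ, hχ, T, h⟩
    refine ⟨χ⁻¹, ?_, T⁻¹, fun g => ?_⟩
    · rw [star_contChar_iff] at hχ ⊢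
      obtain ⟨N, hN⟩ := hχ
      refine ⟨N, fun g hg => ?_⟩
      rw [MonoidHom.inv_apply, hN g hg, inv_one]
    · have h1 := h g
      simp only [Units.val_mul] at h1 ⊢
      rw [h1, MonoidHom.inv_apply, Matrix.mul_smul, Matrix.smul_mul, smul_smul, ← Units.val_mul,
        inv_mul_cancel, Units.val_one, one_smul]
      have h2 : ((T⁻¹ : GL (Fin n) ℂ) : Matrix (Fin n) (Fin n) ℂ) * (T : Matrix _ _ ℂ) = 1 := by
        rw [← Units.val_mul, inv_mul_cancel]; rfl
      calc ((σ.1 g : GL (Fin n) ℂ) : Matrix (Fin n) (Fin n) ℂ)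
          = (((T⁻¹ : GL (Fin n) ℂ) : Matrix (Fin n) (Fin n) ℂ) * (T : Matrix _ _ ℂ)) *
            ((σ.1 g : GL (Fin n) ℂ) : Matrix (Fin n) (Fin n) ℂ) *
            (((T⁻¹ : GL (Fin n) ℂ) : Matrix (Fin n) (Fin n) ℂ) * (T : Matrix _ _ ℂ)) := by
            rw [h2, one_mul, mul_one]
        _ = _ := by rw [inv_inv]; simp only [Matrix.mul_assoc]
  · rintro ρ σ τ ⟨χ, hχ, T, h⟩ ⟨χ', hχ', T', h'⟩
    refine ⟨χ * χ', ?_, T * T', fun g => ?_⟩
    · rw [star_contChar_iff] at hχ hχ' ⊢
      obtain ⟨N, hN⟩ := hχ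
      obtain ⟨N', hN'⟩ := hχ'
      refine ⟨max N N', fun g hg => ?_⟩
      have h1 : CongOne (P ^ N) (g : GL (Fin m) O) := fun i j =>
        Ideal.pow_le_pow_right (le_max_left N N') (hg i j)
      have h2 : CongOne (P ^ N') (g : GL (Fin m) O) := fun i j =>
        Ideal.pow_le_pow_right (le_max_right N N') (hg i j)
      rw [MonoidHom.mul_apply, hN g h1, hN' g h2, one_mul]
    · have h1 := h g
      have h2 := h' g
      simp only [Units.val_mul] at h1 h2 ⊢
      rw [h1, h2, MonoidHom.mul_apply, Units.val_mul, mul_inv_rev, Units.val_mul,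
        Matrix.mul_smul, Matrix.smul_mul, smul_smul]
      simp only [Matrix.mul_assoc]

/-- the quotient map from `H` to its image in `GL_m(O/P^N)` -/
def starProj (P : Ideal O) (H : Subgroup (GL (Fin m) O)) (N : ℕ) :
    H →* (H.map (Matrix.GeneralLinearGroup.map (Ideal.Quotient.mk (P ^ N)))) :=
  (Matrix.GeneralLinearGroup.map (Ideal.Quotient.mk (P ^ N))).subgroupMap H

theorem starProj_surjective (P : Ideal O) (H : Subgroup (GL (Fin m) O)) (N : ℕ) :
    Function.Surjective (starProj P H N) := MonoidHom.subgroupMap_surjective _ _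

theorem starProj_eq_one (P : Ideal O) (H : Subgroup (GL (Fin m) O)) (N : ℕ) (g : H) :
    starProj P H N g = 1 ↔ CongOne (P ^ N) (g : GL (Fin m) O) := by
  rw [star_congOne_iff, ← Subtype.coe_inj]
  rfl

theorem star_irred_comp {H H' : Type} [Group H] [Group H'] (f : H →* H')
    (hf : Function.Surjective f) {n : ℕ} (ρ : H' →* GL (Fin n) ℂ) :
    Irred (ρ.comp f) ↔ Irred ρ := by
  unfold Irred
  refine and_congr_right (fun _ => forall_congr' (fun W => ?_))
  constructor
  · intro h hW
    exact h (fun g w hw => hW (f g) w hw)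
  · intro h hW
    refine h (fun g w hw => ?_)
    obtain ⟨g, rfl⟩ := hf g
    exact hW g w hw

/-- inflation of classes -/
def starInfl (P : Ideal O) (H : Subgroup (GL (Fin m) O)) (n N : ℕ) :
    Quot (StarRel (H := H.map (Matrix.GeneralLinearGroup.map (Ideal.Quotient.mk (P ^ N))))
      (n := n)) → Quot (StarRelC P H (n := n)) :=
  Quot.map (fun ρ => ⟨ρ.1.comp (starProj P H N),
    (star_irred_comp _ (starProj_surjective P H N) ρ.1).mpr ρ.2, by
      rw [star_contRep_iff]
      refine ⟨N, fun g hg => ?_⟩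
      rw [MonoidHom.comp_apply, (starProj_eq_one P H N g).mpr hg, map_one]⟩) (by
    rintro ρ σ ⟨χ, T, h⟩
    refine ⟨χ.comp (starProj P H N), ?_, T, fun g => h (starProj P H N g)⟩
    rw [star_contChar_iff]
    refine ⟨N, fun g hg => ?_⟩
    rw [MonoidHom.comp_apply, (starProj_eq_one P H N g).mpr hg, map_one])

theorem starInfl_injective (P : Ideal O) (H : Subgroup (GL (Fin m) O)) (n N : ℕ) :
    Function.Injective (starInfl P H n N) := by
  intro x y
  induction x using Quot.ind with | _ ρ =>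
  induction y using Quot.ind with | _ σ =>
  intro h
  have h1 := (starRelC_equiv P H n).eqvGen_iff.mp (Quot.eqvGen_exact h)
  obtain ⟨χ, hχ, T, hT⟩ := h1
  apply Quot.sound
  -- χ factors through the quotient
  have hker : (starProj P H N).ker ≤ χ.ker := by
    intro g hg
    rw [MonoidHom.mem_ker] at hg ⊢
    have h2 := hT g
    have h3 : (ρ.1.comp (starProj P H N)) g = 1 := by rw [MonoidHom.comp_apply, hg, map_one]
    have h4 : (σ.1.comp (starProj P H N)) g = 1 := by rw [MonoidHom.comp_apply, hg, map_one]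
    simp only at h2
    rw [h3, h4, mul_one, mul_inv_cancel] at h2
    have hn : 0 < n := ρ.2.1
    have h5 := congrFun (congrFun h2 ⟨0, hn⟩) ⟨0, hn⟩
    simp only [Units.val_one, Matrix.smul_apply, Matrix.one_apply_eq, smul_eq_mul, mul_one] at h5
    exact Units.ext h5.symm
  let χ' := (starProj P H N).liftOfSurjective (starProj_surjective P H N) ⟨χ, hker⟩
  have hχ' : ∀ g, χ' (starProj P H N g) = χ g := fun g =>
    MonoidHom.liftOfRightInverse_comp_apply _ _ _ ⟨χ, hker⟩ g
  refine ⟨χ', T, fun g => ?_⟩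
  obtain ⟨g, rfl⟩ := starProj_surjective P H N g
  rw [hχ']
  exact hT g

theorem starInfl_range (P : Ideal O) (H : Subgroup (GL (Fin m) O)) (n N : ℕ)
    (q : Quot (StarRelC P H (n := n))) :
    q ∈ Set.range (starInfl P H n N) ↔ ∃ ρ, Quot.mk _ ρ = q ∧
      ∀ g : H, CongOne (P ^ N) (g : GL (Fin m) O) → ρ.1 g = 1 := by
  constructor
  · rintro ⟨x, rfl⟩
    induction x using Quot.ind with | _ ρ =>
    refine ⟨_, rfl, fun g hg => ?_⟩
    show (ρ.1.comp (starProj P H N)) g = 1
    rw [MonoidHom.comp_apply, (starProj_eq_one P H N g).mpr hg, map_one]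
  · rintro ⟨ρ, rfl, hρ⟩
    have hker : (starProj P H N).ker ≤ ρ.1.ker := by
      intro g hg
      rw [MonoidHom.mem_ker] at hg ⊢
      exact hρ g ((starProj_eq_one P H N g).mp hg)
    let ρ' := (starProj P H N).liftOfSurjective (starProj_surjective P H N) ⟨ρ.1, hker⟩
    have hρ'' : ∀ g, ρ' (starProj P H N g) = ρ.1 g := fun g =>
      MonoidHom.liftOfRightInverse_comp_apply _ _ _ ⟨ρ.1, hker⟩ g
    have hρ' : ρ'.comp (starProj P H N) = ρ.1 := MonoidHom.ext hρ''
    have hirr : Irred ρ' := by
      rw [← star_irred_comp _ (starProj_surjective P H N), hρ']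
      exact ρ.2.1
    refine ⟨Quot.mk _ ⟨ρ', hirr⟩, ?_⟩
    show Quot.mk _ _ = Quot.mk _ _
    congr 1
    exact Subtype.ext hρ'

theorem star_numTwist_eq (P : Ideal O) (H : Subgroup (GL (Fin m) O)) (n N₀ c : ℕ)
    (hc : ∀ N, N₀ ≤ N →
      numTwist (H.map (Matrix.GeneralLinearGroup.map (Ideal.Quotient.mk (P ^ N)))) n = c) :
    numTwistClasses P H n = c := by
  refine star_card_exhaust (Q := Quot (StarRelC P H (n := n)))
    (QN := fun N => Quot (StarRel
      (H := H.map (Matrix.GeneralLinearGroup.map (Ideal.Quotient.mk (P ^ N)))) (n := n)))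
    (starInfl P H n) (starInfl_injective P H n) ?_ ?_ N₀ c hc
  · intro N N' hNN' q hq
    rw [starInfl_range] at hq ⊢
    obtain ⟨ρ, h1, h2⟩ := hq
    exact ⟨ρ, h1, fun g hg => h2 g (fun i j => Ideal.pow_le_pow_right hNN' (hg i j))⟩
  · intro q
    induction q using Quot.ind with | _ ρ =>
    obtain ⟨N, hN⟩ := (star_contRep_iff P H ρ.1).mp ρ.2.2
    exact ⟨N, (starInfl_range P H n N _).mpr ⟨ρ, rfl, hN⟩⟩

end partG

theorem star {k : Type} [Field k] [NumberField k] (G : UnipotentGroup k)
    {ι κ : Type} [Fintype ι] [Fintype κ] [DecidableEq ι] [DecidableEq κ] (D : IntData G ι κ)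
    (O K : Type) [CommRing O] [IsDomain O] [IsDiscreteValuationRing O] [Field K] [CharZero K]
    (a₀ : k →+* K) (j : O →+* K) (a : 𝓞 k →+* O) (hj : Function.Injective j)
    (hcompat : ∀ x, j (a x) = a₀ (algebraMap (𝓞 k) k x))
    [Finite (O ⧸ IsLocalRing.maximalIdeal O)] (hu : IsUnit (a D.bad))
    (N n : ℕ) (hn : n ≤ Nat.card (O ⧸ IsLocalRing.maximalIdeal O) ^ N) :
    (numTwistClasses (IsLocalRing.maximalIdeal O) (G.points a₀ j) n : ℚ) =
      starSum (R := O ⧸ IsLocalRing.maximalIdeal O ^ N) D.s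
        (fun i i' l => Ideal.Quotient.mk _ (a (D.c i i' l))) n := by
  classical
  obtain ⟨hfac, hδ, hδ', -⟩ := star_fac_of_bad D a hu
  have key : ∀ N' : ℕ, (numTwist ((G.points a₀ j).map (Matrix.GeneralLinearGroup.map
      (Ideal.Quotient.mk (IsLocalRing.maximalIdeal O ^ N')))) n : ℚ) =
      starSum (R := O ⧸ IsLocalRing.maximalIdeal O ^ N') D.s
        (fun i i' l => Ideal.Quotient.mk _ (a (D.c i i' l))) n := by
    intro N'
    have hfin : Finite (O ⧸ IsLocalRing.maximalIdeal O ^ N') := star_finite N'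
    obtain ⟨hfac', hδR, hδR', -⟩ := star_fac_of_bad D
      ((Ideal.Quotient.mk (IsLocalRing.maximalIdeal O ^ N')).comp a)
      (hu.map (Ideal.Quotient.mk (IsLocalRing.maximalIdeal O ^ N')))
    have hH : ∀ g : GL (Fin G.m) (O ⧸ IsLocalRing.maximalIdeal O ^ N'),
        g ∈ (G.points a₀ j).map (Matrix.GeneralLinearGroup.map
          (Ideal.Quotient.mk (IsLocalRing.maximalIdeal O ^ N'))) ↔
        ∃ x : ι → (O ⧸ IsLocalRing.maximalIdeal O ^ N'),
          (g : Matrix (Fin G.m) (Fin G.m) (O ⧸ IsLocalRing.maximalIdeal O ^ N')) =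
            expR (starE D ((Ideal.Quotient.mk (IsLocalRing.maximalIdeal O ^ N')).comp a) x) := by
      intro g
      constructor
      · rintro ⟨g₀, hg₀, rfl⟩
        obtain ⟨x, hx⟩ := (star_mem_points D a₀ j a hj hcompat hu g₀).mp hg₀
        refine ⟨fun i => Ideal.Quotient.mk _ (x i), ?_⟩
        rw [← starE_map, expR_map _ (starFac_lt hfac), ← hx]
        rfl
      · rintro ⟨x, hx⟩
        choose X hX using fun i => Ideal.Quotient.mk_surjective (x i)
        refine ⟨starGL D hfac a X, ?_, ?_⟩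
        · show starGL D hfac a X ∈ G.points a₀ j
          rw [star_mem_points D a₀ j a hj hcompat hu]
          exact ⟨X, rfl⟩
        · apply Units.ext
          show (expR (starE D a X)).map (Ideal.Quotient.mk (IsLocalRing.maximalIdeal O ^ N')) = _
          rw [← expR_map _ (starFac_lt hfac), starE_map, hx]
          congr 2
          exact funext hX
    obtain ⟨X, hX⟩ := star_kdata D
      ((Ideal.Quotient.mk (IsLocalRing.maximalIdeal O ^ N')).comp a) hfac' hδR _ hH
    obtain ⟨θ, hθ⟩ := star_exists_prim (O := O) N'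
    obtain ⟨p, hp, hpn⟩ := star_char_nilp (O := O)
    exact star_count D ((Ideal.Quotient.mk (IsLocalRing.maximalIdeal O ^ N')).comp a) hδR' X hX
      hθ p hp (hpn N') n
  have h1 := star_numTwist_eq (IsLocalRing.maximalIdeal O) (G.points a₀ j) n N
    (numTwist ((G.points a₀ j).map (Matrix.GeneralLinearGroup.map
      (Ideal.Quotient.mk (IsLocalRing.maximalIdeal O ^ N)))) n) (by
    intro N' hN'
    have h2 := key N'
    rw [star_stable D a hδ' hN' hn, ← key N] at h2
    exact_mod_cast h2)
  rw [h1, key N]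

end

end MP8c80e8
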