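import Pool.Agent.Lib.MP_8c80e8_al.Iface

/-!
# J10: the ℓ-adic / polynomial algebra computing omega from the coefficients
-/

open Filter Topology

namespace MP8c80e8

noncomputable section

/-! ## The substitution over `ℚ[s]` -/

/-- `(1+t)^{-s}` over `ℚ[s]` -/
def binomP : PowerSeries (Polynomial ℚ) :=
  PowerSeries.mk fun n => Polynomial.C ((n.factorial : ℚ)⁻¹) *
    ∏ i ∈ Finset.range n, (-Polynomial.X - (i : Polynomial ℚ))

/-- the substitution over `ℚ[s]` -/
def substP : MvPolynomial (Fin 2) ℚ →ₐ[ℚ] PowerSeries (Polynomial ℚ) :=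
  MvPolynomial.aeval ![1 + PowerSeries.X, binomP]

/-- the substitution at `s = -n` -/
def substN (n : ℕ) : MvPolynomial (Fin 2) ℚ →ₐ[ℚ] Polynomial ℚ :=
  MvPolynomial.aeval ![1 + Polynomial.X, (1 + Polynomial.X) ^ n]

theorem substT_eq (p : MvPolynomial (Fin 2) ℚ) :
    substT p = PowerSeries.map (algebraMap (Polynomial ℚ) (RatFunc ℚ)) (substP p) := by
  unfold substT substP
  have h : (PowerSeries.map (algebraMap (Polynomial ℚ) (RatFunc ℚ))).comp
      (MvPolynomial.aeval ![1 + PowerSeries.X, binomP] :
        MvPolynomial (Fin 2) ℚ →ₐ[ℚ] PowerSeries (Polynomial ℚ)).toRingHom =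
      (MvPolynomial.aeval ![1 + PowerSeries.X, binomS] :
        MvPolynomial (Fin 2) ℚ →ₐ[ℚ] PowerSeries (RatFunc ℚ)).toRingHom := by
    apply MvPolynomial.ringHom_ext
    · intro r
      simp
    · intro i
      fin_cases i
      · simp
      · simp [binomP, binomS]
        ext n
        simp [div_eq_inv_mul]
  exact (RingHom.congr_fun h p).symm

theorem map_binomP (n : ℕ) :
    PowerSeries.map (Polynomial.evalRingHom (-(n : ℚ))) binomP =
      (((1 + Polynomial.X) ^ n : Polynomial ℚ) : PowerSeries ℚ) := by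
  ext k
  simp only [binomP, PowerSeries.coeff_map, PowerSeries.coeff_mk, Polynomial.coeff_coe]
  rw [Polynomial.coeff_one_add_X_pow]
  simp only [Polynomial.coe_evalRingHom, Polynomial.eval_mul, Polynomial.eval_C,
    Polynomial.eval_prod, Polynomial.eval_sub, Polynomial.eval_neg, Polynomial.eval_X, neg_neg,
    Polynomial.eval_natCast]
  induction k with
  | zero => simp
  | succ k ih =>
    rw [Finset.prod_range_succ, Nat.factorial_succ]
    have h1 : ((n.choose (k+1) : ℕ) : ℚ) * (k + 1) = (n.choose k : ℚ) * ((n : ℚ) - k) := by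
      rcases le_or_gt k n with h | h
      · have := Nat.choose_succ_right_eq n k
        have h2 : ((n - k : ℕ) : ℚ) = (n : ℚ) - k := by
          rw [Nat.cast_sub h]
        rw [← h2]
        exact_mod_cast this
      · rw [Nat.choose_eq_zero_of_lt h, Nat.choose_eq_zero_of_lt (by omega)]
        simp
    have hk : ((k : ℚ) + 1) ≠ 0 := by positivity
    have h3 : ((n.choose (k+1) : ℕ) : ℚ) = (n.choose k : ℚ) * ((n : ℚ) - k) / (k + 1) := by
      rw [← h1]; field_simp
    rw [h3, ← ih]
    push_cast
    rw [mul_inv]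
    field_simp

theorem substP_spec (n : ℕ) (p : MvPolynomial (Fin 2) ℚ) :
    PowerSeries.map (Polynomial.evalRingHom (-(n : ℚ))) (substP p) =
      ((substN n p : Polynomial ℚ) : PowerSeries ℚ) := by
  have h : (PowerSeries.map (Polynomial.evalRingHom (-(n : ℚ)))).comp
      substP.toRingHom =
      (Polynomial.coeToPowerSeries.ringHom).comp (substN n).toRingHom := by
    apply MvPolynomial.ringHom_ext
    · intro r
      simp [substP, substN]
    · intro i
      fin_cases i
      · simp [substP, substN]
      · simp [substP, substN]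
        rw [map_binomP]
        simp
  have := RingHom.congr_fun h p
  simpa using this

theorem eval_specY (u : ℚ) (n : ℕ) (p : MvPolynomial (Fin 2) ℚ) :
    (specY (1 + u) p).eval ((1 + u) ^ n) = (substN n p).eval u := by
  unfold specY substN
  have h : (Polynomial.evalRingHom ((1 + u) ^ n)).comp
      (MvPolynomial.aeval ![Polynomial.C (1 + u), Polynomial.X] :
        MvPolynomial (Fin 2) ℚ →ₐ[ℚ] Polynomial ℚ).toRingHom =
      (Polynomial.evalRingHom u).comp
      (MvPolynomial.aeval ![1 + Polynomial.X, (1 + Polynomial.X) ^ n] :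
        MvPolynomial (Fin 2) ℚ →ₐ[ℚ] Polynomial ℚ).toRingHom := by
    apply MvPolynomial.ringHom_ext
    · intro r
      simp
    · intro i
      fin_cases i
      · simp
      · simp
  exact RingHom.congr_fun h p

/-! ## The structure of denominators -/

/-- Leading behaviour of `p ∈ cycDen` at `(1,1)`. -/
structure Good (p : MvPolynomial (Fin 2) ℚ) (M0 m : ℕ) (E : Polynomial (Polynomial ℚ))
    (G c : Polynomial ℚ) (h : PowerSeries (Polynomial ℚ)) : Prop where
  spec : ∀ u : ℚ, specY (1 + u) p = Polynomial.C (u ^ M0) * E.map (Polynomial.evalRingHom u)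
  E0 : E.map (Polynomial.evalRingHom 0) = (Polynomial.X - 1) ^ m * G
  G1 : G.eval 1 ≠ 0
  sub : substP p = PowerSeries.X ^ (M0 + m) * h
  hc : PowerSeries.constantCoeff h = c
  deg : c.natDegree = m
  lead : c.leadingCoeff = (-1) ^ m * G.eval 1

theorem Good.mul {p p' : MvPolynomial (Fin 2) ℚ} {M0 m M0' m' : ℕ}
    {E E' : Polynomial (Polynomial ℚ)} {G c G' c' : Polynomial ℚ}
    {h h' : PowerSeries (Polynomial ℚ)}
    (H : Good p M0 m E G c h) (H' : Good p' M0' m' E' G' c' h') :
    Good (p * p') (M0 + M0') (m + m') (E * E') (G * G') (c * c') (h * h') where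
  spec u := by
    have h1 := H.spec u
    have h2 := H'.spec u
    unfold specY at *
    rw [map_mul, h1, h2, Polynomial.map_mul, pow_add, Polynomial.C_mul]
    ring
  E0 := by rw [Polynomial.map_mul, H.E0, H'.E0, pow_add]; ring
  G1 := by rw [Polynomial.eval_mul]; exact mul_ne_zero H.G1 H'.G1
  sub := by rw [map_mul, H.sub, H'.sub]; ring
  hc := by rw [map_mul, H.hc, H'.hc]
  deg := by
    have h1 : c ≠ 0 := by
      intro h0
      have := H.lead
      rw [h0, Polynomial.leadingCoeff_zero] at this
      exact (mul_ne_zero (pow_ne_zero _ (by norm_num)) H.G1) this.symm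
    have h2 : c' ≠ 0 := by
      intro h0
      have := H'.lead
      rw [h0, Polynomial.leadingCoeff_zero] at this
      exact (mul_ne_zero (pow_ne_zero _ (by norm_num)) H'.G1) this.symm
    rw [Polynomial.natDegree_mul h1 h2, H.deg, H'.deg]
  lead := by
    rw [Polynomial.leadingCoeff_mul, H.lead, H'.lead, Polynomial.eval_mul, pow_add]; ring

theorem good_one : Good 1 0 0 1 1 1 1 where
  spec u := by simp [specY]
  E0 := by simp
  G1 := by simp
  sub := by simp
  hc := by simp
  deg := by simp
  lead := by simp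

theorem good_X0 : Good (MvPolynomial.X 0) 0 0 (Polynomial.C (1 + Polynomial.X)) 1 1
    (1 + PowerSeries.X) where
  spec u := by simp [specY]
  E0 := by simp
  G1 := by simp
  sub := by simp [substP]
  hc := by simp
  deg := by simp
  lead := by simp

theorem constCoeff_binomP : PowerSeries.constantCoeff binomP = 1 := by
  rw [← PowerSeries.coeff_zero_eq_constantCoeff_apply]
  simp [binomP]

theorem coeff_one_binomP : PowerSeries.coeff 1 binomP = - Polynomial.X := by
  simp [binomP]

theorem good_X1 : Good (MvPolynomial.X 1) 0 0 Polynomial.X Polynomial.X 1 binomP where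
  spec u := by simp [specY]
  E0 := by simp
  G1 := by simp
  sub := by simp [substP]
  hc := constCoeff_binomP
  deg := by simp
  lead := by simp

theorem coeff_one_pow (f : PowerSeries (Polynomial ℚ)) (hf : PowerSeries.constantCoeff f = 1)
    (n : ℕ) : PowerSeries.coeff 1 (f ^ n) = (n : Polynomial ℚ) * PowerSeries.coeff 1 f := by
  induction n with
  | zero => simp
  | succ n ih =>
    rw [pow_succ, PowerSeries.coeff_mul, Finset.Nat.antidiagonal_succ]
    simp [ih, hf]
    ring

/-- every binomial is good -/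
theorem good_binom (a b c d : ℕ) (hne : (a, b) ≠ (c, d)) :
    ∃ M0 m E G cc h, Good (MvPolynomial.X 0 ^ a * MvPolynomial.X 1 ^ b
        - MvPolynomial.X 0 ^ c * MvPolynomial.X 1 ^ d) M0 m E G cc h := by
  have hser : ∃ h : PowerSeries (Polynomial ℚ),
      substP (MvPolynomial.X 0 ^ a * MvPolynomial.X 1 ^ b
        - MvPolynomial.X 0 ^ c * MvPolynomial.X 1 ^ d) = PowerSeries.X ^ 1 * h ∧
      PowerSeries.constantCoeff h = Polynomial.C ((a : ℚ) - c) -
        Polynomial.C ((b : ℚ) - d) * Polynomial.X := by
    set f := substP (MvPolynomial.X 0 ^ a * MvPolynomial.X 1 ^ b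
        - MvPolynomial.X 0 ^ c * MvPolynomial.X 1 ^ d) with hf
    have hf' : f = (1 + PowerSeries.X) ^ a * binomP ^ b - (1 + PowerSeries.X) ^ c * binomP ^ d := by
      rw [hf]; simp [substP]
    have h0 : PowerSeries.constantCoeff f = 0 := by
      rw [hf']; simp [constCoeff_binomP]
    have h1 : PowerSeries.coeff 1 f = Polynomial.C ((a : ℚ) - c) -
        Polynomial.C ((b : ℚ) - d) * Polynomial.X := by
      have e1 : ∀ a b : ℕ, PowerSeries.coeff 1 ((1 + PowerSeries.X) ^ a * binomP ^ b) =
          (a : Polynomial ℚ) - (b : Polynomial ℚ) * Polynomial.X := by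
        intro a b
        rw [PowerSeries.coeff_mul, Finset.Nat.antidiagonal_succ]
        simp only [Finset.Nat.antidiagonal_zero, Finset.map_singleton, Finset.sum_cons,
          Finset.sum_singleton]
        simp [coeff_one_pow _ constCoeff_binomP, coeff_one_pow (1 + PowerSeries.X) (by simp),
          constCoeff_binomP, coeff_one_binomP]
        ring
      rw [hf', map_sub, e1, e1]
      simp
      ring
    refine ⟨PowerSeries.mk fun n => PowerSeries.coeff (n + 1) f, ?_, ?_⟩
    · ext1 n
      rw [pow_one]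
      cases n with
      | zero =>
        rw [PowerSeries.coeff_zero_X_mul, PowerSeries.coeff_zero_eq_constantCoeff_apply, h0]
      | succ n => rw [PowerSeries.coeff_succ_X_mul, PowerSeries.coeff_mk]
    · rw [← PowerSeries.coeff_zero_eq_constantCoeff_apply, PowerSeries.coeff_mk, zero_add, h1]
  obtain ⟨h, hs, hcc⟩ := hser
  by_cases hbd : b = d
  · subst hbd
    have hac : a ≠ c := by
      rintro rfl; exact hne rfl
    have hac' : (a : ℚ) - c ≠ 0 := by
      intro h0
      apply hac
      have : (a : ℚ) = c := by linarith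
      exact_mod_cast this
    set w : Polynomial ℚ := (1 + Polynomial.X) ^ a - (1 + Polynomial.X) ^ c with hw
    have hw0 : w.coeff 0 = 0 := by
      rw [Polynomial.coeff_zero_eq_eval_zero]; simp [hw]
    have hw1 : w = w.divX * Polynomial.X := by
      conv_lhs => rw [← Polynomial.divX_mul_X_add w, hw0]
      simp
    have hwd : w.divX.eval 0 = (a : ℚ) - c := by
      rw [← Polynomial.coeff_zero_eq_eval_zero, Polynomial.coeff_divX, hw]
      simp [Polynomial.coeff_one_add_X_pow]
    refine ⟨1, 0, Polynomial.C w.divX * Polynomial.X ^ b,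
      Polynomial.C ((a : ℚ) - c) * Polynomial.X ^ b, _, h, ?_, ?_, ?_, ?_, hcc, ?_, ?_⟩
    · intro u
      have : (1 + u) ^ a - (1 + u) ^ c = u * w.divX.eval u := by
        have h2 := congrArg (Polynomial.eval u) hw1
        rw [Polynomial.eval_mul, Polynomial.eval_X] at h2
        rw [mul_comm, ← h2, hw]; simp
      have e2 : specY (1 + u) (MvPolynomial.X 0 ^ a * MvPolynomial.X 1 ^ b
        - MvPolynomial.X 0 ^ c * MvPolynomial.X 1 ^ b) =
          Polynomial.C ((1 + u) ^ a - (1 + u) ^ c) * Polynomial.X ^ b := by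
        simp only [specY, map_sub, map_mul, map_pow, MvPolynomial.aeval_X]
        simp
        ring
      rw [e2, this]
      simp
      ring
    · simp [hwd]
    · simpa using hac'
    · simpa using hs
    · rw [sub_self, Polynomial.C_0, zero_mul, sub_zero, Polynomial.natDegree_C]
    · rw [sub_self, Polynomial.C_0, zero_mul, sub_zero, Polynomial.leadingCoeff_C]
      simp
  · have hbd' : (b : ℚ) - d ≠ 0 := by
      intro h0
      apply hbd
      have : (b : ℚ) = d := by linarith
      exact_mod_cast this
    refine ⟨0, 1, Polynomial.C ((1 + Polynomial.X) ^ a) * Polynomial.X ^ b -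
      Polynomial.C ((1 + Polynomial.X) ^ c) * Polynomial.X ^ d,
      (∑ i ∈ Finset.range b, Polynomial.X ^ i) - (∑ i ∈ Finset.range d, Polynomial.X ^ i),
      _, h, ?_, ?_, ?_, ?_, hcc, ?_, ?_⟩
    · intro u
      simp only [specY, map_sub, map_mul, map_pow, MvPolynomial.aeval_X]
      simp
    · rw [pow_one, mul_sub, mul_geom_sum, mul_geom_sum]
      simp
    · simpa [Polynomial.eval_finsetSum] using hbd'
    · simpa using hs
    · have : Polynomial.C ((a : ℚ) - c) - Polynomial.C ((b : ℚ) - d) * Polynomial.X =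
        Polynomial.C (-((b : ℚ) - d)) * Polynomial.X + Polynomial.C ((a : ℚ) - c) := by
        simp; ring
      rw [this]
      exact Polynomial.natDegree_linear (neg_ne_zero.mpr hbd')
    · have : Polynomial.C ((a : ℚ) - c) - Polynomial.C ((b : ℚ) - d) * Polynomial.X =
        Polynomial.C (-((b : ℚ) - d)) * Polynomial.X + Polynomial.C ((a : ℚ) - c) := by
        simp; ring
      rw [this, Polynomial.leadingCoeff_linear (neg_ne_zero.mpr hbd')]
      simp [Polynomial.eval_finsetSum]

theorem good_of_cycDen {p : MvPolynomial (Fin 2) ℚ} (hp : p ∈ cycDen) :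
    ∃ M0 m E G c h, Good p M0 m E G c h := by
  induction hp using Submonoid.closure_induction with
  | mem x hx =>
    rcases hx with hx | ⟨a, b, c, d, hne, rfl⟩
    · rcases hx with rfl | hx
      · exact ⟨_, _, _, _, _, _, good_X0⟩
      · rw [Set.mem_singleton_iff] at hx
        subst hx
        exact ⟨_, _, _, _, _, _, good_X1⟩
    · exact good_binom a b c d hne
  | one => exact ⟨_, _, _, _, _, _, good_one⟩
  | mul x y _ _ hx hy =>
    obtain ⟨_, _, _, _, _, _, h1⟩ := hx
    obtain ⟨_, _, _, _, _, _, h2⟩ := hy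
    exact ⟨_, _, _, _, _, _, h1.mul h2⟩

theorem binom_ser (a b c d : ℕ) : ∃ h : PowerSeries (Polynomial ℚ),
      substP (MvPolynomial.X 0 ^ a * MvPolynomial.X 1 ^ b
        - MvPolynomial.X 0 ^ c * MvPolynomial.X 1 ^ d) = PowerSeries.X ^ 1 * h ∧
      PowerSeries.constantCoeff h = Polynomial.C ((a : ℚ) - c) -
        Polynomial.C ((b : ℚ) - d) * Polynomial.X := by
    set f := substP (MvPolynomial.X 0 ^ a * MvPolynomial.X 1 ^ b
        - MvPolynomial.X 0 ^ c * MvPolynomial.X 1 ^ d) with hf
    have hf' : f = (1 + PowerSeries.X) ^ a * binomP ^ b - (1 + PowerSeries.X) ^ c * binomP ^ d := by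
      rw [hf]; simp [substP]
    have h0 : PowerSeries.constantCoeff f = 0 := by
      rw [hf']; simp [constCoeff_binomP]
    have h1 : PowerSeries.coeff 1 f = Polynomial.C ((a : ℚ) - c) -
        Polynomial.C ((b : ℚ) - d) * Polynomial.X := by
      have e1 : ∀ a b : ℕ, PowerSeries.coeff 1 ((1 + PowerSeries.X) ^ a * binomP ^ b) =
          (a : Polynomial ℚ) - (b : Polynomial ℚ) * Polynomial.X := by
        intro a b
        rw [PowerSeries.coeff_mul, Finset.Nat.antidiagonal_succ]
        simp only [Finset.Nat.antidiagonal_zero, Finset.map_singleton, Finset.sum_cons,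
          Finset.sum_singleton]
        simp [coeff_one_pow _ constCoeff_binomP, coeff_one_pow (1 + PowerSeries.X) (by simp),
          constCoeff_binomP, coeff_one_binomP]
        ring
      rw [hf', map_sub, e1, e1]
      simp
      ring
    refine ⟨PowerSeries.mk fun n => PowerSeries.coeff (n + 1) f, ?_, ?_⟩
    · ext1 n
      rw [pow_one]
      cases n with
      | zero =>
        rw [PowerSeries.coeff_zero_X_mul, PowerSeries.coeff_zero_eq_constantCoeff_apply, h0]
      | succ n => rw [PowerSeries.coeff_succ_X_mul, PowerSeries.coeff_mk]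
    · rw [← PowerSeries.coeff_zero_eq_constantCoeff_apply, PowerSeries.coeff_mk, zero_add, h1]

theorem one_sub_ser : ∃ h : PowerSeries (Polynomial ℚ),
      substP (1 - MvPolynomial.X 1) = PowerSeries.X * h ∧
      PowerSeries.constantCoeff h = Polynomial.X := by
  obtain ⟨h, h1, h2⟩ := binom_ser 0 0 0 1
  refine ⟨h, by simpa using h1, ?_⟩
  rw [h2]; simp

/-- divisibility of a substituted polynomial by `t^M` -/
theorem substP_div {p q : MvPolynomial (Fin 2) ℚ} {ser : PowerSeries (RatFunc ℚ)} {M : ℕ}
    {h : PowerSeries (Polynomial ℚ)} {c : Polynomial ℚ} (hq : substP q = PowerSeries.X ^ M * h)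
    (hc : PowerSeries.constantCoeff h = c) (hs : substT q * ser = substT p) :
    ∃ h' : PowerSeries (Polynomial ℚ), substP p = PowerSeries.X ^ M * h' ∧
      algebraMap (Polynomial ℚ) (RatFunc ℚ) (PowerSeries.constantCoeff h') =
        PowerSeries.constantCoeff ser * algebraMap (Polynomial ℚ) (RatFunc ℚ) c := by
  rw [substT_eq, substT_eq, hq, map_mul, map_pow, PowerSeries.map_X] at hs
  have hdiv : PowerSeries.X ^ M ∣ substP p := by
    rw [PowerSeries.X_pow_dvd_iff]
    intro k hk
    have h1 : PowerSeries.coeff k (PowerSeries.map (algebraMap (Polynomial ℚ) (RatFunc ℚ))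
        (substP p)) = 0 := by
      rw [← hs, mul_assoc, PowerSeries.coeff_X_pow_mul', if_neg (by omega)]
    rw [PowerSeries.coeff_map] at h1
    exact (IsFractionRing.injective (Polynomial ℚ) (RatFunc ℚ)) (by rw [h1, map_zero])
  obtain ⟨h', hh'⟩ := hdiv
  refine ⟨h', hh', ?_⟩
  rw [hh', map_mul, map_pow, PowerSeries.map_X, mul_assoc] at hs
  have h2 := mul_left_cancel₀ (pow_ne_zero M PowerSeries.X_ne_zero) hs
  have h3 := congrArg PowerSeries.constantCoeff h2
  rw [map_mul, ← PowerSeries.coeff_zero_eq_constantCoeff_apply,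
    ← PowerSeries.coeff_zero_eq_constantCoeff_apply, ← PowerSeries.coeff_zero_eq_constantCoeff_apply,
    PowerSeries.coeff_map, PowerSeries.coeff_map,
    PowerSeries.coeff_zero_eq_constantCoeff_apply, PowerSeries.coeff_zero_eq_constantCoeff_apply,
    PowerSeries.coeff_zero_eq_constantCoeff_apply, hc] at h3
  rw [← h3, mul_comm]

/-- specialisation at `s = -n` of a divisibility by `t^M` -/
theorem substN_div {p : MvPolynomial (Fin 2) ℚ} {M : ℕ} {h : PowerSeries (Polynomial ℚ)}
    (hp : substP p = PowerSeries.X ^ M * h) (n : ℕ) :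
    ∃ g : Polynomial ℚ, substN n p = Polynomial.X ^ M * g ∧
      g.eval 0 = (PowerSeries.constantCoeff h).eval (-(n : ℚ)) := by
  have h1 := substP_spec n p
  rw [hp, map_mul, map_pow, PowerSeries.map_X] at h1
  have hdiv : Polynomial.X ^ M ∣ substN n p := by
    rw [Polynomial.X_pow_dvd_iff]
    intro k hk
    rw [← Polynomial.coeff_coe, ← h1, PowerSeries.coeff_X_pow_mul', if_neg (by omega)]
  obtain ⟨g, hg⟩ := hdiv
  refine ⟨g, hg, ?_⟩
  have h2 : PowerSeries.coeff M ((substN n p : Polynomial ℚ) : PowerSeries ℚ) = g.eval 0 := by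
    rw [Polynomial.coeff_coe, hg, Polynomial.coeff_X_pow_mul', if_pos le_rfl, Nat.sub_self,
      Polynomial.coeff_zero_eq_eval_zero]
  rw [← h2, ← h1, PowerSeries.coeff_X_pow_mul', if_pos le_rfl, Nat.sub_self,
    PowerSeries.coeff_map, PowerSeries.coeff_zero_eq_constantCoeff_apply]
  rfl

/-- degrees of specialisations are uniformly bounded -/
theorem natDegree_specY (p : MvPolynomial (Fin 2) ℚ) :
    ∃ B : ℕ, ∀ x : ℚ, (specY x p).natDegree ≤ B := by
  induction p using MvPolynomial.induction_on with
  | C a => exact ⟨0, fun x => by simp [specY]⟩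
  | add p q hp hq =>
    obtain ⟨B1, h1⟩ := hp
    obtain ⟨B2, h2⟩ := hq
    refine ⟨max B1 B2, fun x => ?_⟩
    unfold specY at *
    rw [map_add]
    exact (Polynomial.natDegree_add_le _ _).trans (max_le_max (h1 x) (h2 x))
  | mul_X p i hp =>
    obtain ⟨B1, h1⟩ := hp
    refine ⟨B1 + 1, fun x => ?_⟩
    unfold specY at *
    rw [map_mul, MvPolynomial.aeval_X]
    refine Polynomial.natDegree_mul_le.trans (add_le_add (h1 x) ?_)
    fin_cases i <;> simp

/-! ## The real limit -/

theorem real_limit (R : RatFunc ℚ) (C τ : Polynomial ℚ) (m : ℕ) (hC : C ≠ 0)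
    (hdeg : C.natDegree = m + 1) (hτ : τ.natDegree ≤ m)
    (hR : (R - 1) * algebraMap (Polynomial ℚ) (RatFunc ℚ) C = algebraMap _ _ τ) :
    Tendsto (fun s : ℝ => s * (RatFunc.eval (algebraMap ℚ ℝ) s R - 1)) atTop
      (𝓝 (((τ.coeff m / C.leadingCoeff : ℚ) : ℚ) : ℝ)) := by
  have hCa : algebraMap (Polynomial ℚ) (RatFunc ℚ) C ≠ 0 := by
    intro h0
    exact hC ((IsFractionRing.injective (Polynomial ℚ) (RatFunc ℚ)) (by rw [h0, map_zero]))
  have hR' : R = algebraMap (Polynomial ℚ) (RatFunc ℚ) (C + τ) /
      algebraMap (Polynomial ℚ) (RatFunc ℚ) C := by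
    rw [eq_div_iff hCa, map_add, ← hR]; ring
  set CR := C.map (algebraMap ℚ ℝ) with hCR
  set τR := τ.map (algebraMap ℚ ℝ) with hτR
  have hCR0 : CR ≠ 0 := (Polynomial.map_ne_zero_iff (algebraMap ℚ ℝ).injective).mpr hC
  have hden : ∀ s : ℝ, CR.eval s ≠ 0 → Polynomial.eval₂ (algebraMap ℚ ℝ) s R.denom ≠ 0 := by
    intro s hs h0
    apply hs
    have hd : R.denom ∣ C := (RatFunc.denom_dvd hC).mpr ⟨C + τ, hR'⟩
    obtain ⟨e, he⟩ := hd
    rw [hCR, Polynomial.eval_map, he, Polynomial.eval₂_mul, h0, zero_mul]
  have heval : ∀ s : ℝ, CR.eval s ≠ 0 →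
      RatFunc.eval (algebraMap ℚ ℝ) s R - 1 = τR.eval s / CR.eval s := by
    intro s hs
    have h1 : R * algebraMap (Polynomial ℚ) (RatFunc ℚ) C =
        algebraMap (Polynomial ℚ) (RatFunc ℚ) (C + τ) := by
      rw [hR', div_mul_cancel₀ _ hCa]
    have h2 := congrArg (RatFunc.eval (algebraMap ℚ ℝ) s) h1
    rw [RatFunc.eval_mul _ _ (hden s hs) (by simp), RatFunc.eval_algebraMap,
      RatFunc.eval_algebraMap, Algebra.algebraMap_self, RingHom.id_apply, RingHom.id_apply,
      Polynomial.eval₂_add] at h2
    rw [eq_div_iff hs, sub_mul, one_mul, hCR, Polynomial.eval_map, h2, hτR, Polynomial.eval_map]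
    ring
  have hev : ∀ᶠ s : ℝ in atTop, CR.eval s ≠ 0 := by
    have hfin : {s : ℝ | CR.eval s = 0}.Finite := by
      apply (CR.roots.toFinset.finite_toSet).subset
      intro s hs
      simp only [Finset.mem_coe, Multiset.mem_toFinset]
      exact (Polynomial.mem_roots hCR0).mpr hs
    obtain ⟨b, hb⟩ := hfin.bddAbove
    filter_upwards [eventually_gt_atTop b] with s hs h0
    exact absurd (hb h0) (not_le.mpr hs)
  have key : Tendsto (fun s : ℝ => (Polynomial.X * τR).eval s / CR.eval s) atTop
      (𝓝 (((τ.coeff m / C.leadingCoeff : ℚ) : ℚ) : ℝ)) := by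
    have hCRdeg : CR.natDegree = m + 1 := by
      rw [hCR, Polynomial.natDegree_map_eq_of_injective (algebraMap ℚ ℝ).injective, hdeg]
    have hlead : CR.leadingCoeff = ((C.leadingCoeff : ℚ) : ℝ) := by
      rw [hCR, Polynomial.leadingCoeff_map_of_injective (algebraMap ℚ ℝ).injective]; rfl
    by_cases hm : τ.coeff m = 0
    · rw [hm, zero_div, Rat.cast_zero]
      apply Polynomial.div_tendsto_atTop_zero_of_degree_lt
      by_cases h0 : τR = 0
      · rw [h0, mul_zero, Polynomial.degree_zero]
        exact Polynomial.degree_pos_of_ne_zero_of_nonunit hCR0 (by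
          intro hu
          have := Polynomial.natDegree_eq_zero_of_isUnit hu
          omega) |>.trans' (by exact WithBot.bot_lt_coe 0)
      · rw [Polynomial.degree_mul, Polynomial.degree_X, Polynomial.degree_eq_natDegree h0,
          Polynomial.degree_eq_natDegree hCR0, hCRdeg]
        have h1 : τR.natDegree < m := by
          rcases lt_or_eq_of_le hτ with h | h
          · exact lt_of_le_of_lt (Polynomial.natDegree_map_le) h
          · exfalso
            apply h0
            rw [hτR]
            have : τ = 0 := by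
              rw [← h] at hm
              exact Polynomial.leadingCoeff_eq_zero.mp hm
            rw [this, Polynomial.map_zero]
        have h2 : 1 + τR.natDegree < m + 1 := by omega
        exact_mod_cast h2
    · have hτ0 : τ ≠ 0 := by rintro rfl; simp at hm
      have hτd : τ.natDegree = m := le_antisymm hτ (Polynomial.le_natDegree_of_ne_zero hm)
      have hτR0 : τR ≠ 0 := (Polynomial.map_ne_zero_iff (algebraMap ℚ ℝ).injective).mpr hτ0
      have := Polynomial.div_tendsto_atTop_leadingCoeff_div_of_degree_eq (Polynomial.X * τR) CR (by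
        rw [Polynomial.degree_mul, Polynomial.degree_X, Polynomial.degree_eq_natDegree hτR0,
          Polynomial.degree_eq_natDegree hCR0, hCRdeg, hτR,
          Polynomial.natDegree_map_eq_of_injective (algebraMap ℚ ℝ).injective, hτd]
        push_cast
        ring)
      rw [Polynomial.leadingCoeff_mul, Polynomial.leadingCoeff_X, one_mul, hlead, hτR,
        Polynomial.leadingCoeff_map_of_injective (algebraMap ℚ ℝ).injective] at this
      convert this using 2
      have h3 : τ.coeff m = τ.leadingCoeff := by rw [Polynomial.leadingCoeff, hτd]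
      rw [h3, Rat.cast_div]
      rfl
  refine key.congr' ?_
  filter_upwards [hev] with s hs
  rw [heval s hs, Polynomial.eval_mul, Polynomial.eval_X]
  ring

end

end MP8c80e8
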