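import Pool.Agent.Lib.MP_8c80e8_al.TopAlg1

/-!
# J10, part 2: null sequences of polynomials over a normed field
-/

open Filter Topology

namespace MP8c80e8

noncomputable section

section seq

variable {𝕜 : Type} [NormedField 𝕜]

/-- bounded sequence -/
def Bd (x : ℕ → 𝕜) : Prop := ∃ C : ℝ, ∀ j, ‖x j‖ ≤ C

/-- null sequence -/
def Nl (x : ℕ → 𝕜) : Prop := Tendsto x atTop (𝓝 0)

theorem Bd.of_tendsto {x : ℕ → 𝕜} {a : 𝕜} (h : Tendsto x atTop (𝓝 a)) : Bd x := by
  obtain ⟨C, hC⟩ := h.norm.bddAbove_range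
  exact ⟨C, fun j => hC ⟨j, rfl⟩⟩

theorem Nl.bd {x : ℕ → 𝕜} (h : Nl x) : Bd x := Bd.of_tendsto h

theorem Bd.const (a : 𝕜) : Bd (fun _ => a) := ⟨‖a‖, fun _ => le_rfl⟩

theorem Bd.add {x y : ℕ → 𝕜} (hx : Bd x) (hy : Bd y) : Bd (fun j => x j + y j) := by
  obtain ⟨C, hC⟩ := hx
  obtain ⟨D, hD⟩ := hy
  exact ⟨C + D, fun j => (norm_add_le _ _).trans (add_le_add (hC j) (hD j))⟩

theorem Bd.mul {x y : ℕ → 𝕜} (hx : Bd x) (hy : Bd y) : Bd (fun j => x j * y j) := by
  obtain ⟨C, hC⟩ := hx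
  obtain ⟨D, hD⟩ := hy
  refine ⟨C * D, fun j => ?_⟩
  rw [norm_mul]
  exact mul_le_mul (hC j) (hD j) (norm_nonneg _) ((norm_nonneg _).trans (hC j))

theorem Bd.pow {x : ℕ → 𝕜} (hx : Bd x) (n : ℕ) : Bd (fun j => x j ^ n) := by
  induction n with
  | zero => simpa using Bd.const (1 : 𝕜)
  | succ n ih => simpa [pow_succ] using ih.mul hx

theorem Bd.sum {ι : Type} (s : Finset ι) {x : ι → ℕ → 𝕜} (hx : ∀ i ∈ s, Bd (x i)) :
    Bd (fun j => ∑ i ∈ s, x i j) := by
  classical
  induction s using Finset.induction_on with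
  | empty => simpa using Bd.const (0 : 𝕜)
  | insert a s ha ih =>
    simp only [Finset.sum_insert ha]
    exact (hx a (by simp)).add (ih fun i hi => hx i (by simp [hi]))

theorem Nl.add {x y : ℕ → 𝕜} (hx : Nl x) (hy : Nl y) : Nl (fun j => x j + y j) := by
  have := Tendsto.add hx hy
  simpa [Nl] using this

theorem Nl.sub {x y : ℕ → 𝕜} (hx : Nl x) (hy : Nl y) : Nl (fun j => x j - y j) := by
  have := Tendsto.sub hx hy
  simpa [Nl] using this

theorem Nl.mul_bd {x y : ℕ → 𝕜} (hx : Nl x) (hy : Bd y) : Nl (fun j => x j * y j) := by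
  obtain ⟨C, hC⟩ := hy
  unfold Nl at *
  rw [tendsto_zero_iff_norm_tendsto_zero] at *
  have h1 : Tendsto (fun j => ‖x j‖ * C) atTop (𝓝 0) := by simpa using hx.mul_const C
  refine squeeze_zero (fun j => norm_nonneg _) (fun j => ?_) h1
  rw [norm_mul]
  exact mul_le_mul_of_nonneg_left (hC j) (norm_nonneg _)

theorem Nl.bd_mul {x y : ℕ → 𝕜} (hx : Bd x) (hy : Nl y) : Nl (fun j => x j * y j) := by
  simpa [mul_comm] using hy.mul_bd hx

theorem Nl.sum {ι : Type} (s : Finset ι) {x : ι → ℕ → 𝕜} (hx : ∀ i ∈ s, Nl (x i)) :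
    Nl (fun j => ∑ i ∈ s, x i j) := by
  have := tendsto_finsetSum s (fun i hi => hx i hi)
  simpa [Nl] using this

/-- coefficientwise bounded -/
def PBd (P : ℕ → PowerSeries 𝕜) : Prop := ∀ k, Bd (fun j => PowerSeries.coeff k (P j))

/-- coefficientwise null -/
def PNl (P : ℕ → PowerSeries 𝕜) : Prop := ∀ k, Nl (fun j => PowerSeries.coeff k (P j))

theorem PBd.const (f : PowerSeries 𝕜) : PBd (fun _ => f) := fun _ => Bd.const _

theorem PBd.mul {P Q : ℕ → PowerSeries 𝕜} (hP : PBd P) (hQ : PBd Q) :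
    PBd (fun j => P j * Q j) := by
  intro k
  simp only [PowerSeries.coeff_mul]
  exact Bd.sum _ fun i _ => (hP i.1).mul (hQ i.2)

theorem PNl.mul_bd {P Q : ℕ → PowerSeries 𝕜} (hP : PNl P) (hQ : PBd Q) :
    PNl (fun j => P j * Q j) := by
  intro k
  simp only [PowerSeries.coeff_mul]
  exact Nl.sum _ fun i _ => (hP i.1).mul_bd (hQ i.2)

theorem PNl.add {P Q : ℕ → PowerSeries 𝕜} (hP : PNl P) (hQ : PNl Q) :
    PNl (fun j => P j + Q j) := by
  intro k
  simp only [map_add]
  exact (hP k).add (hQ k)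

theorem PBd.add {P Q : ℕ → PowerSeries 𝕜} (hP : PBd P) (hQ : PBd Q) :
    PBd (fun j => P j + Q j) := by
  intro k
  simp only [map_add]
  exact (hP k).add (hQ k)

theorem PNl.bd {P : ℕ → PowerSeries 𝕜} (hP : PNl P) : PBd P := fun k => (hP k).bd

/-- coefficients of the Taylor expansion at `1` -/
theorem taylor_coeff_eq (p : Polynomial 𝕜) (B : ℕ) (hB : p.natDegree ≤ B) (i : ℕ) :
    (Polynomial.taylor 1 p).coeff i =
      ∑ k ∈ Finset.range (B + 1), p.coeff k * ((Polynomial.X + 1 : Polynomial 𝕜) ^ k).coeff i := by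
  conv_lhs => rw [Polynomial.as_sum_range' p (B + 1) (by omega)]
  rw [map_sum, Polynomial.finsetSum_coeff]
  apply Finset.sum_congr rfl
  intro k _
  rw [Polynomial.taylor_monomial, Polynomial.coeff_C_mul]
  simp

theorem Nl.taylor {p : ℕ → Polynomial 𝕜} {B : ℕ} (hB : ∀ j, (p j).natDegree ≤ B)
    (h : ∀ k, Nl (fun j => (p j).coeff k)) (i : ℕ) :
    Nl (fun j => (Polynomial.taylor 1 (p j)).coeff i) := by
  simp only [fun j => taylor_coeff_eq (p j) B (hB j) i]
  exact Nl.sum _ fun k _ => (h k).mul_bd (Bd.const _)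

theorem Bd.taylor {p : ℕ → Polynomial 𝕜} {B : ℕ} (hB : ∀ j, (p j).natDegree ≤ B)
    (h : ∀ k, Bd (fun j => (p j).coeff k)) (i : ℕ) :
    Bd (fun j => (Polynomial.taylor 1 (p j)).coeff i) := by
  simp only [fun j => taylor_coeff_eq (p j) B (hB j) i]
  exact Bd.sum _ fun k _ => (h k).mul (Bd.const _)

/-- The main step at `Y = 1`: if `A V - S (Y-1)^m G → 0` then the `m`-th Taylor coefficient of `A`
at `1` is asymptotic to `S(1) G(1) / V(1)`. -/
theorem taylor_step {A S : ℕ → Polynomial 𝕜} {V G : Polynomial 𝕜} {m B : ℕ}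
    (hV : V.eval 1 ≠ 0)
    (hB : ∀ j, (A j * V - S j * ((Polynomial.X - 1) ^ m * G)).natDegree ≤ B)
    (h : ∀ k, Nl (fun j => (A j * V - S j * ((Polynomial.X - 1) ^ m * G)).coeff k)) :
    Nl (fun j => (Polynomial.taylor 1 (A j)).coeff m * V.eval 1 - (S j).eval 1 * G.eval 1) := by
  have hT := Nl.taylor hB h
  have hexp : ∀ j, Polynomial.taylor 1 (A j * V - S j * ((Polynomial.X - 1) ^ m * G)) =
      Polynomial.taylor 1 (A j) * Polynomial.taylor 1 V -
        Polynomial.X ^ m * (Polynomial.taylor 1 (S j) * Polynomial.taylor 1 G) := by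
    intro j
    have : Polynomial.taylor (1 : 𝕜) (Polynomial.X - 1 : Polynomial 𝕜) = Polynomial.X := by
      rw [map_sub]; simp
    rw [map_sub, Polynomial.taylor_mul, Polynomial.taylor_mul, Polynomial.taylor_mul,
      Polynomial.taylor_pow, this]
    ring
  have hV0 : (Polynomial.taylor 1 V).coeff 0 = V.eval 1 := by
    rw [Polynomial.taylor_coeff_zero]
  -- lower coefficients tend to zero
  have hlow : ∀ i, i < m → Nl (fun j => (Polynomial.taylor 1 (A j)).coeff i) := by
    intro i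
    induction i using Nat.strong_induction_on with
    | _ i ih =>
      intro him
      have h1 : ∀ j, (Polynomial.taylor 1 (A j)).coeff i =
          ((Polynomial.taylor 1 (A j * V - S j * ((Polynomial.X - 1) ^ m * G))).coeff i
            - ∑ a ∈ Finset.range i, (Polynomial.taylor 1 (A j)).coeff a *
              (Polynomial.taylor 1 V).coeff (i - a)) * (V.eval 1)⁻¹ := by
        intro j
        rw [hexp, Polynomial.coeff_sub, Polynomial.coeff_X_pow_mul', if_neg (by omega), sub_zero,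
          Polynomial.coeff_mul, Finset.Nat.sum_antidiagonal_eq_sum_range_succ_mk,
          Finset.sum_range_succ, Nat.sub_self, hV0, add_sub_cancel_left, mul_assoc,
          mul_inv_cancel₀ hV, mul_one]
      simp only [h1]
      refine ((hT i).sub (Nl.sum _ fun a ha => ?_)).mul_bd (Bd.const _)
      rw [Finset.mem_range] at ha
      exact (ih a ha (by omega)).mul_bd (Bd.const _)
  have h2 : ∀ j, (Polynomial.taylor 1 (A j)).coeff m * V.eval 1 - (S j).eval 1 * G.eval 1 =
      (Polynomial.taylor 1 (A j * V - S j * ((Polynomial.X - 1) ^ m * G))).coeff m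
            - ∑ a ∈ Finset.range m, (Polynomial.taylor 1 (A j)).coeff a *
              (Polynomial.taylor 1 V).coeff (m - a) := by
    intro j
    rw [hexp, Polynomial.coeff_sub, Polynomial.coeff_X_pow_mul', if_pos le_rfl, Nat.sub_self,
      Polynomial.mul_coeff_zero, Polynomial.taylor_coeff_zero, Polynomial.taylor_coeff_zero,
      Polynomial.coeff_mul, Finset.Nat.sum_antidiagonal_eq_sum_range_succ_mk,
      Finset.sum_range_succ, Nat.sub_self, hV0]
    ring
  simp only [h2]
  refine (hT m).sub (Nl.sum _ fun a ha => ?_)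
  rw [Finset.mem_range] at ha
  exact (hlow a ha).mul_bd (Bd.const _)

/-- Vandermonde step: if `∑_{i ≤ m} X_{j,i} η_{j,n}^i → τ_n` for `n ≤ m` and the nodes `η_{j,n}`
converge to distinct limits, then `X_{j,i}` converges. -/
theorem vandermonde_step {m : ℕ} (X : ℕ → Fin m → 𝕜) (η : ℕ → Fin m → 𝕜) (η₀ τ : Fin m → 𝕜)
    (hη : ∀ n, Tendsto (fun j => η j n) atTop (𝓝 (η₀ n))) (hinj : Function.Injective η₀)
    (h : ∀ n, Tendsto (fun j => ∑ i : Fin m, X j i * η j n ^ (i : ℕ)) atTop (𝓝 (τ n))) :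
    ∃ x : Fin m → 𝕜, ∀ i, Tendsto (fun j => X j i) atTop (𝓝 (x i)) := by
  classical
  set M : ℕ → Matrix (Fin m) (Fin m) 𝕜 := fun j => Matrix.vandermonde (η j) with hM
  set M0 : Matrix (Fin m) (Fin m) 𝕜 := Matrix.vandermonde η₀ with hM0
  have hdet0 : M0.det ≠ 0 := by
    rw [hM0]
    exact Matrix.det_vandermonde_ne_zero_iff.mpr hinj
  have hMt : Tendsto M atTop (𝓝 M0) := by
    refine tendsto_pi_nhds.mpr fun a => tendsto_pi_nhds.mpr fun b => ?_
    simp only [hM, hM0, Matrix.vandermonde_apply]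
    exact (hη a).pow _
  have hdet : Tendsto (fun j => (M j).det) atTop (𝓝 M0.det) :=
    ((continuous_id.matrix_det).tendsto M0).comp hMt
  have hadj : Tendsto (fun j => (M j).adjugate) atTop (𝓝 M0.adjugate) :=
    ((continuous_id.matrix_adjugate).tendsto M0).comp hMt
  have hval : ∀ j n, (M j).mulVec (X j) n = ∑ i : Fin m, X j i * η j n ^ (i : ℕ) := by
    intro j n
    simp [hM, Matrix.mulVec, dotProduct, Matrix.vandermonde_apply, mul_comm]
  refine ⟨fun i => (M0.adjugate.mulVec τ) i / M0.det, fun i => ?_⟩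
  have h1 : Tendsto (fun j => ((M j).adjugate.mulVec ((M j).mulVec (X j))) i) atTop
      (𝓝 ((M0.adjugate.mulVec τ) i)) := by
    simp only [Matrix.mulVec, dotProduct]
    apply tendsto_finsetSum
    intro a _
    apply Tendsto.mul
    · exact ((continuous_apply_apply i a).tendsto _).comp hadj
    · have := h a
      have h2 : (fun j => ∑ i : Fin m, X j i * η j a ^ (i : ℕ)) =
          fun j => ∑ x, M j a x * X j x := by
        funext j
        rw [← hval j a]
        rfl
      rw [h2] at this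
      exact this
  have h3 := h1.div hdet hdet0
  refine h3.congr' ?_
  have hev : ∀ᶠ j in atTop, (M j).det ≠ 0 := hdet.eventually_ne hdet0
  filter_upwards [hev] with j hj
  rw [Pi.div_apply, Matrix.mulVec_mulVec, Matrix.adjugate_mul]
  simp only [Matrix.smul_mulVec, Matrix.one_mulVec, Pi.smul_apply, smul_eq_mul]
  field_simp

end seq

end

end MP8c80e8
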