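import Pool.Agent.Lib.MP_8c80e8_al.Iface

/-!
# The truncated polynomial ring (shared by Torus.lean and Ext.lean)
-/

namespace MP8c80e8

noncomputable section

/-- `F[t]/t^N` -/
abbrev TruncPoly (F : Type) [Field F] (N : ℕ) :=
  Polynomial F ⧸ Ideal.span {(Polynomial.X : Polynomial F) ^ N}

/-- the constants `F → F[t]/t^N` -/
def constTP (F : Type) [Field F] (N : ℕ) : F →+* TruncPoly F N :=
  (Ideal.Quotient.mk _).comp Polynomial.C

end

end MP8c80e8
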